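import Pool.Agent.Lib.MP_ae6bb1_pr.RectA

/-! Exponential moments of rectangles (proof document, section F3). -/

open Finset

namespace LCSH

variable {α : Type*} [Fintype α] [DecidableEq α] (L : Law α)

theorem ER_exp_submul (a b a' b' : ℕ) :
    ER L (a + a') (b + b') (fun v => Real.exp (-(v : ℝ))) ≤
      ER L a b (fun v => Real.exp (-(v : ℝ))) * ER L a' b' (fun v => Real.exp (-(v : ℝ))) := by
  have h1 := EE_rect (θ := 1) (T := a + a') (n := b + b') L one_pos 0 (a + a') 0 (b + b')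
    (by omega) (by omega) (fun v => Real.exp (-(v : ℝ)))
  have h2 := EE_rect_mul (θ := 1) (T := a + a') (n := b + b') L one_pos a a' b b' le_rfl le_rfl
    (fun v => Real.exp (-(v : ℝ))) (fun v => Real.exp (-(v : ℝ)))
  rw [← h1, ← h2]
  refine EE_mono L one_pos fun x y _ => ?_
  rw [← Real.exp_add]
  apply Real.exp_le_exp.mpr
  have h3 := lp_super (rl x y) (a := 0) (b := a) (c := 0) (d := b) (e := a + a') (f := b + b')
    (Nat.zero_le _) (Nat.le_add_right _ _) (Nat.zero_le _) (Nat.le_add_right _ _)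
  rw [zero_add, zero_add]
  have h4 : ((lp (rl x y) 0 a 0 b : ℕ) : ℝ) + ((lp (rl x y) a (a + a') b (b + b') : ℕ) : ℝ) ≤
      ((lp (rl x y) 0 (a + a') 0 (b + b') : ℕ) : ℝ) := by exact_mod_cast h3
  linarith

/-- larger rectangles have larger last passage values -/
theorem ER_exp_anti {h u h' u' : ℕ} (hh : h ≤ h') (hu : u ≤ u') :
    ER L h' u' (fun v => Real.exp (-(v : ℝ))) ≤ ER L h u (fun v => Real.exp (-(v : ℝ))) := by
  have h1 := EE_rect (θ := 1) (T := h') (n := u') L one_pos 0 h' 0 u'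
    (by omega) (by omega) (fun v => Real.exp (-(v : ℝ)))
  have h2 := EE_rect (θ := 1) (T := h') (n := u') L one_pos 0 h 0 u
    (by omega) (by omega) (fun v => Real.exp (-(v : ℝ)))
  rw [← h1, ← h2]
  refine EE_mono L one_pos fun x y _ => ?_
  apply Real.exp_le_exp.mpr
  have h3 : lp (rl x y) 0 (0 + h) 0 (0 + u) ≤ lp (rl x y) 0 (0 + h') 0 (0 + u') :=
    lp_mono le_rfl (by omega) le_rfl (by omega) (fun i j _ _ _ _ h => h)
  have h4 : ((lp (rl x y) 0 (0 + h) 0 (0 + u) : ℕ) : ℝ) ≤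
      ((lp (rl x y) 0 (0 + h') 0 (0 + u') : ℕ) : ℝ) := by exact_mod_cast h3
  linarith

omit [DecidableEq α] in
private theorem RectB_nonneg (h u : ℕ) : 0 ≤ ER L h u (fun v => Real.exp (-(v : ℝ))) := by
  unfold ER
  exact PE_nonneg (isW_law L) fun x => PE_nonneg (isW_law L) fun y => (Real.exp_pos _).le

omit [DecidableEq α] in
private theorem RectB_le_one (h u : ℕ) : ER L h u (fun v => Real.exp (-(v : ℝ))) ≤ 1 := by
  unfold ER
  refine PE_le_of_le (isW_law L) fun x => PE_le_of_le (isW_law L) fun y => ?_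
  apply Real.exp_le_one_iff.mpr
  have : (0 : ℝ) ≤ (lp (rl x y) 0 h 0 u : ℕ) := Nat.cast_nonneg _
  linarith

private theorem RectB_pow (s s' K : ℕ) :
    ER L (K * s) (K * s') (fun v => Real.exp (-(v : ℝ))) ≤
      ER L s s' (fun v => Real.exp (-(v : ℝ))) ^ K := by
  induction K with
  | zero =>
    rw [pow_zero]
    exact RectB_le_one L _ _
  | succ K ih =>
    have e1 : (K + 1) * s = K * s + s := by ring
    have e2 : (K + 1) * s' = K * s' + s' := by ring
    rw [e1, e2, pow_succ]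
    exact (ER_exp_submul L (K * s) (K * s') s s').trans
      (mul_le_mul_of_nonneg_right ih (RectB_nonneg L s s'))

private theorem RectB_one (s s' : ℕ) (hm : 2 / 5 ≤ ER L s s' (fun v => ind (1 ≤ v))) :
    ER L s s' (fun v => Real.exp (-(v : ℝ))) ≤ Real.exp (-(1 / 4)) := by
  have he : Real.exp (-1) ≤ 0.375 := by
    rw [Real.exp_neg, inv_le_comm₀ (Real.exp_pos 1) (by norm_num)]
    have := Real.exp_one_gt_d9
    norm_num at this ⊢
    linarith
  have h1 : ER L s s' (fun v => Real.exp (-(v : ℝ))) ≤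
      ER L s s' (fun v => 1 - (1 - Real.exp (-1)) * ind (1 ≤ v)) := by
    apply ER_mono
    intro k
    rcases Nat.eq_zero_or_pos k with h | h
    · subst h
      rw [ind_of_not (by omega)]
      simp
    · rw [ind_of (show 1 ≤ k from h)]
      have h2 : Real.exp (-(k : ℝ)) ≤ Real.exp (-1) := by
        apply Real.exp_le_exp.mpr
        have : (1 : ℝ) ≤ k := by exact_mod_cast h
        linarith
      linarith
  have h2 : ER L s s' (fun v => 1 - (1 - Real.exp (-1)) * ind (1 ≤ v)) =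
      1 - (1 - Real.exp (-1)) * ER L s s' (fun v => ind (1 ≤ v)) := by
    unfold ER
    simp only [PE_sub, PE_const_mul, PE_const (isW_law L)]
  rw [h2] at h1
  have h3 : (1 - Real.exp (-1)) * (2 / 5) ≤
      (1 - Real.exp (-1)) * ER L s s' (fun v => ind (1 ≤ v)) :=
    mul_le_mul_of_nonneg_left hm (by linarith)
  have h4 := Real.add_one_le_exp (-(1 / 4) : ℝ)
  linarith

/-- `K` diagonal blocks -/
theorem ER_exp_blocks (s s' K h u : ℕ) (hs : K * s ≤ h) (hs' : K * s' ≤ u)
    (h1 : 1 ≤ (s : ℝ) * s' * L.sg ^ 2) (h2 : ((s : ℝ) + s') * L.sg * L.kp ≤ 1 / 2) :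
    ER L h u (fun v => Real.exp (-(v : ℝ))) ≤ Real.exp (-((K : ℝ) / 4)) := by
  have h3 := RectB_one L s s' (ER_match L s s' h1 h2)
  calc ER L h u (fun v => Real.exp (-(v : ℝ)))
      ≤ ER L (K * s) (K * s') (fun v => Real.exp (-(v : ℝ))) := ER_exp_anti L hs hs'
    _ ≤ ER L s s' (fun v => Real.exp (-(v : ℝ))) ^ K := RectB_pow L s s' K
    _ ≤ Real.exp (-(1 / 4)) ^ K := pow_le_pow_left₀ (RectB_nonneg L s s') h3 K
    _ = Real.exp (-((K : ℝ) / 4)) := by
        rw [← Real.exp_nat_mul]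
        congr 1
        ring

end LCSH
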