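import Pool.Agent.Lib.MP_ae6bb1_pr.Super
import Pool.Agent.Lib.MP_ae6bb1_pr.RectB

/-! A priori bounds for the growth constant (proof document, section I2). -/

open Finset

namespace LCSH

variable {α : Type*} [Fintype α] [DecidableEq α] (L : Law α)

open Filter Topology in
private theorem Apriori_EL_le (n k : ℕ) (hk : 1 ≤ k) :
    EL L n n ≤ k + n * (Real.exp 2 * n * n * L.sg ^ 2 / (k : ℝ) ^ 2) ^ k := by
  have h1 : EL L n n ≤ k + n * ER L n n (fun v => ind (k ≤ v)) := by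
    have h2 : (k : ℝ) + n * ER L n n (fun v => ind (k ≤ v)) =
        PE (fun _ : Fin n => L.p) fun x => PE (fun _ : Fin n => L.p) fun y =>
          ((k : ℝ) + n * ind (k ≤ lp (rl x y) 0 n 0 n)) := by
      unfold ER
      simp only [PE_add, PE_const_mul, PE_const (isW_law L)]
    rw [h2]
    unfold EL
    refine PE_mono (isW_law L) fun x => PE_mono (isW_law L) fun y => ?_
    by_cases h : k ≤ lp (rl x y) 0 n 0 n
    · rw [ind_of h]
      have h3 := lp_le_rows (rl x y) 0 n 0 n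
      rw [Nat.sub_zero] at h3
      have h4 : ((lp (rl x y) 0 n 0 n : ℕ) : ℝ) ≤ n := by exact_mod_cast h3
      have h5 : (0 : ℝ) ≤ k := Nat.cast_nonneg _
      linarith
    · rw [ind_of_not h]
      push Not at h
      have h4 : ((lp (rl x y) 0 n 0 n : ℕ) : ℝ) ≤ k := by exact_mod_cast h.le
      linarith
  refine h1.trans ?_
  have h3 := ER_first_moment L n n k hk
  have h4 : (0 : ℝ) ≤ n := Nat.cast_nonneg _
  have h5 := mul_le_mul_of_nonneg_left h3 h4
  linarith

open Filter Topology in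
private theorem Apriori_eps {ε : ℝ} (hε : 0 < ε) : gam L ≤ (1 + ε) * (Real.exp 1 * L.sg) := by
  have hs := sg_pos L
  set c : ℝ := (1 + ε) * (Real.exp 1 * L.sg) with hc
  have hc0 : 0 < c := by positivity
  set q : ℝ := 1 / (1 + ε) ^ 2 with hq
  have hq0 : 0 ≤ q := by positivity
  have hq1 : q < 1 := by
    rw [hq, div_lt_one (by positivity)]
    nlinarith
  have hkt : Tendsto (fun n : ℕ => ⌈c * (n : ℝ)⌉₊) atTop atTop :=
    tendsto_nat_ceil_atTop.comp (tendsto_natCast_atTop_atTop.const_mul_atTop hc0)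
  have hub : Tendsto (fun n : ℕ => (c + 1 / (n : ℝ)) + q ^ ⌈c * (n : ℝ)⌉₊) atTop (𝓝 c) := by
    have h1 : Tendsto (fun n : ℕ => c + 1 / (n : ℝ)) atTop (𝓝 (c + 0)) :=
      tendsto_const_nhds.add tendsto_one_div_atTop_nhds_zero_nat
    have h2 := (tendsto_pow_atTop_nhds_zero_of_lt_one hq0 hq1).comp hkt
    have h3 := h1.add h2
    rw [add_zero, add_zero] at h3
    exact h3
  refine le_of_tendsto_of_tendsto (gam_tendsto L) hub ?_
  filter_upwards [eventually_ge_atTop 1] with n hn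
  have hn0 : (0 : ℝ) < n := by exact_mod_cast hn
  set k : ℕ := ⌈c * (n : ℝ)⌉₊ with hk
  have hk1 : 1 ≤ k := Nat.one_le_iff_ne_zero.mpr (Nat.ceil_pos.mpr (by positivity)).ne'
  have hkle : c * n ≤ k := Nat.le_ceil _
  have hkub : (k : ℝ) ≤ c * n + 1 := (Nat.ceil_lt_add_one (by positivity)).le
  have h1 := Apriori_EL_le L n k hk1
  have h2 : Real.exp 2 * n * n * L.sg ^ 2 / (k : ℝ) ^ 2 ≤ q := by
    have h3 : (0 : ℝ) < c * n := by positivity
    have h4 : (c * n) ^ 2 ≤ (k : ℝ) ^ 2 := pow_le_pow_left₀ h3.le hkle 2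
    have h5 : Real.exp 2 = Real.exp 1 ^ 2 := by
      rw [← Real.exp_nat_mul]
      norm_num
    calc Real.exp 2 * n * n * L.sg ^ 2 / (k : ℝ) ^ 2
        ≤ Real.exp 2 * n * n * L.sg ^ 2 / (c * n) ^ 2 := by
          apply div_le_div_of_nonneg_left (by positivity) (by positivity) h4
      _ = q := by
          rw [hq, hc, h5]
          have h6 := Real.exp_pos 1
          field_simp
  have h3 : (Real.exp 2 * n * n * L.sg ^ 2 / (k : ℝ) ^ 2) ^ k ≤ q ^ k :=
    pow_le_pow_left₀ (by positivity) h2 k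
  rw [div_le_iff₀ hn0]
  calc EL L n n ≤ k + n * (Real.exp 2 * n * n * L.sg ^ 2 / (k : ℝ) ^ 2) ^ k := h1
    _ ≤ (c * n + 1) + n * q ^ k := add_le_add hkub (mul_le_mul_of_nonneg_left h3 hn0.le)
    _ = (c + 1 / (n : ℝ) + q ^ k) * n := by
        field_simp

theorem gam_upper : gam L ≤ Real.exp 1 * L.sg := by
  have hs := sg_pos L
  have h0 : 0 < Real.exp 1 * L.sg := by positivity
  by_contra hcon
  push Not at hcon
  set B : ℝ := Real.exp 1 * L.sg with hB
  have h1 := Apriori_eps L (ε := (gam L - B) / (2 * B)) (by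
    apply div_pos (by linarith) (by linarith))
  rw [← hB] at h1
  have h2 : (1 + (gam L - B) / (2 * B)) * B = B + (gam L - B) / 2 := by
    field_simp
  rw [h2] at h1
  linarith

theorem gam_lower (het : L.et ≤ c0) : L.sg / 4 ≤ gam L := by
  have hs := sg_pos L
  have hkp := kp_pos L
  have h1 := sg_le_kp L
  have h2 := kp_le_et L
  unfold c0 at het
  norm_num at het
  set S : ℕ := ⌈1 / L.sg⌉₊ with hS
  have hSle : 1 / L.sg ≤ S := Nat.le_ceil _
  have hSub : (S : ℝ) ≤ 1 / L.sg + 1 := (Nat.ceil_lt_add_one (by positivity)).le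
  have hinv : 0 < 1 / L.sg := by positivity
  have hS0 : (0 : ℝ) < S := by linarith
  have e1 : 1 ≤ (S : ℝ) * L.sg := by
    have := mul_le_mul_of_nonneg_right hSle hs.le
    rwa [one_div, inv_mul_cancel₀ hs.ne'] at this
  have e2 : (S : ℝ) * L.sg ≤ 1 + L.sg := by
    have := mul_le_mul_of_nonneg_right hSub hs.le
    rw [add_mul, one_div, inv_mul_cancel₀ hs.ne'] at this
    linarith
  have h3 : 1 ≤ (S : ℝ) * S * L.sg ^ 2 := by
    have : (S : ℝ) * S * L.sg ^ 2 = (S * L.sg) * (S * L.sg) := by ring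
    rw [this]
    nlinarith
  have h4 : ((S : ℝ) + S) * L.sg * L.kp ≤ 1 / 2 := by
    have e3 : ((S : ℝ) + S) * L.sg * L.kp = 2 * (S * L.sg) * L.kp := by ring
    rw [e3]
    have e4 : 2 * ((S : ℝ) * L.sg) * L.kp ≤ 4 * L.kp := by
      apply mul_le_mul_of_nonneg_right _ hkp.le
      linarith
    linarith
  have h5 := ER_match L S S h3 h4
  have h6 : ER L S S (fun v => ind (1 ≤ v)) ≤ EL L S S := by
    unfold ER EL
    refine PE_mono (isW_law L) fun x => PE_mono (isW_law L) fun y => ?_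
    show ind (1 ≤ lp (rl x y) 0 S 0 S) ≤ ((lp (rl x y) 0 S 0 S : ℕ) : ℝ)
    by_cases h : 1 ≤ lp (rl x y) 0 S 0 S
    · rw [ind_of h]
      exact_mod_cast h
    · rw [ind_of_not h]
      exact Nat.cast_nonneg _
  have h7 := EL_le_gam L S
  have h8 : 2 / 5 ≤ gam L * S := by linarith
  have h9 := gam_nonneg L
  have h10 : 2 / 5 * L.sg ≤ gam L * (1 + L.sg) := by
    calc 2 / 5 * L.sg ≤ (gam L * S) * L.sg := mul_le_mul_of_nonneg_right h8 hs.le
      _ = gam L * (S * L.sg) := by ring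
      _ ≤ gam L * (1 + L.sg) := mul_le_mul_of_nonneg_left e2 h9
  have h11 : gam L * (1 + L.sg) ≤ gam L * (8 / 5) :=
    mul_le_mul_of_nonneg_left (by linarith) h9
  linarith

end LCSH
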