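import Pool.Agent.Lib.MP_ae6bb1_pr.EEBasic

/-! Decoupling of columns and rows (proof document, section C5). -/

open Finset

namespace LCSH

variable {α : Type*} [Fintype α] [DecidableEq α] (L : Law α) {θ : ℝ} {T n : ℕ}

/-- `g` does not depend on (letter and source of) column `j` -/
def IndC (g : (Fin T → α) → (Fin n → α) → (Fin n → Bool) → ℝ) (j : Fin n) : Prop :=
  ∀ x y ξ a c, g x (Function.update y j a) (Function.update ξ j c) = g x y ξ

/-- `g` does not depend on row `r` -/
def IndR (g : (Fin T → α) → (Fin n → α) → (Fin n → Bool) → ℝ) (r : Fin T) : Prop :=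
  ∀ x y ξ a, g (Function.update x r a) y ξ = g x y ξ

omit [DecidableEq α] in
theorem Decouple_col (hθ : 0 < θ) (j : Fin n)
    (F : α → Bool → (Fin T → α) → (Fin n → α) → (Fin n → Bool) → ℝ)
    (hF : ∀ a c, IndC (F a c) j) :
    EE L θ T n (fun x y ξ => F (y j) (ξ j) x y ξ) =
      EE L θ T n (fun x y ξ => ∑ a, L.p a * ∑ c, bw (L.rho θ a) c * F a c x y ξ) := by
  rw [EE_col L hθ j]
  congr 1
  funext x y ξ
  refine Finset.sum_congr rfl fun a _ => ?_
  congr 1
  refine Finset.sum_congr rfl fun c _ => ?_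
  rw [Function.update_self, Function.update_self, hF a c x y ξ a c]

theorem Decouple_bw (r k : ℝ) : ∑ c, bw r c * k = k := by
  rw [Fintype.sum_bool]
  simp only [bw]
  simp
  ring

omit [DecidableEq α] in
/-- one column, no source -/
theorem Decouple_one (hθ : 0 < θ) (j : Fin n)
    (F : α → (Fin T → α) → (Fin n → α) → (Fin n → Bool) → ℝ) (hF : ∀ a, IndC (F a) j) :
    EE L θ T n (fun x y ξ => F (y j) x y ξ) =
      EE L θ T n (fun x y ξ => ∑ a, L.p a * F a x y ξ) := by
  rw [Decouple_col L hθ j (fun a _ => F a) (fun a _ => hF a)]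
  congr 1
  funext x y ξ
  refine Finset.sum_congr rfl fun a _ => ?_
  rw [Decouple_bw]

omit [DecidableEq α] in
theorem Decouple_last (hθ : 0 < θ) (f : α → ℝ)
    (g : (Fin T → α) → (Fin n → α) → (Fin n → Bool) → ℝ) {j : Fin n} (h : IndC g j) :
    EE L θ T n (fun x y ξ => f (y j) * g x y ξ) = (∑ a, L.p a * f a) * EE L θ T n g := by
  rw [Decouple_one L hθ j (fun a x y ξ => f a * g x y ξ)
    (fun a x y ξ b c => by show f a * _ = f a * _; rw [h x y ξ b c]), ← EE_const_mul]
  congr 1
  funext x y ξ
  rw [Finset.sum_mul]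
  exact Finset.sum_congr rfl fun a _ => by ring

/-- letters of two columns are independent of the emptied environment -/
theorem EE_dec2 (hθ : 0 < θ) (f : α → α → ℝ)
    (g : (Fin T → α) → (Fin n → α) → (Fin n → Bool) → ℝ) {j j' : Fin n} (hne : j ≠ j')
    (h : IndC g j) (h' : IndC g j') :
    EE L θ T n (fun x y ξ => f (y j) (y j') * g x y ξ) =
      (∑ a, ∑ a', L.p a * L.p a' * f a a') * EE L θ T n g := by
  rw [Decouple_one L hθ j (fun a x y ξ => f a (y j') * g x y ξ)
    (fun a x y ξ b c => by
      show f a (Function.update y j b j') * _ = f a (y j') * _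
      rw [h x y ξ b c, Function.update_of_ne hne.symm])]
  have e : (fun (x : Fin T → α) (y : Fin n → α) (ξ : Fin n → Bool) =>
      ∑ a, L.p a * (f a (y j') * g x y ξ)) =
      fun x y ξ => (fun b => ∑ a, L.p a * f a b) (y j') * g x y ξ := by
    funext x y ξ
    show _ = (∑ a, L.p a * f a (y j')) * g x y ξ
    rw [Finset.sum_mul]
    exact Finset.sum_congr rfl fun a _ => by ring
  rw [e, Decouple_last L hθ (fun b => ∑ a, L.p a * f a b) g h']
  congr 1
  simp only [Finset.mul_sum]
  rw [Finset.sum_comm]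
  exact Finset.sum_congr rfl fun a _ => Finset.sum_congr rfl fun b _ => by ring

/-- the same with the source of the first column -/
theorem EE_dec2s (hθ : 0 < θ) (f : α → α → ℝ)
    (g : (Fin T → α) → (Fin n → α) → (Fin n → Bool) → ℝ) {j j' : Fin n} (hne : j ≠ j')
    (h : IndC g j) (h' : IndC g j') :
    EE L θ T n (fun x y ξ => f (y j) (y j') * ind (ξ j = true) * g x y ξ) =
      (∑ a, ∑ a', L.p a * L.p a' * f a a' * L.rho θ a) * EE L θ T n g := by
  rw [Decouple_col L hθ j (fun a s x y ξ => f a (y j') * ind (s = true) * g x y ξ)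
    (fun a s x y ξ b c => by
      show f a (Function.update y j b j') * _ * _ = f a (y j') * _ * _
      rw [h x y ξ b c, Function.update_of_ne hne.symm])]
  have e : (fun (x : Fin T → α) (y : Fin n → α) (ξ : Fin n → Bool) =>
      ∑ a, L.p a * ∑ c, bw (L.rho θ a) c * (f a (y j') * ind (c = true) * g x y ξ)) =
      fun x y ξ => (fun b => ∑ a, L.p a * L.rho θ a * f a b) (y j') * g x y ξ := by
    funext x y ξ
    show _ = (∑ a, L.p a * L.rho θ a * f a (y j')) * g x y ξ
    rw [Finset.sum_mul]
    refine Finset.sum_congr rfl fun a _ => ?_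
    rw [Fintype.sum_bool, ind_of rfl, ind_of_not (by simp)]
    simp only [bw]
    simp
    ring
  rw [e, Decouple_last L hθ (fun b => ∑ a, L.p a * L.rho θ a * f a b) g h']
  congr 1
  simp only [Finset.mul_sum]
  rw [Finset.sum_comm]
  exact Finset.sum_congr rfl fun a _ => Finset.sum_congr rfl fun b _ => by ring

/-- the same with a match in row `r` and the first column -/
theorem EE_dec2r (hθ : 0 < θ) (f : α → α → ℝ)
    (g : (Fin T → α) → (Fin n → α) → (Fin n → Bool) → ℝ) {j j' : Fin n} (hne : j ≠ j')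
    (h : IndC g j) (h' : IndC g j') {r : Fin T} (hr : IndR g r) :
    EE L θ T n (fun x y ξ => f (y j) (y j') * ind (x r = y j) * g x y ξ) =
      (∑ a, ∑ a', L.p a * L.p a' * f a a' * L.p a) * EE L θ T n g := by
  rw [EE_row L r]
  have e : (fun (x : Fin T → α) (y : Fin n → α) (ξ : Fin n → Bool) =>
      ∑ b, L.p b * (f (y j) (y j') * ind (Function.update x r b r = y j) *
        g (Function.update x r b) y ξ)) =
      fun x y ξ => (fun a a' => f a a' * L.p a) (y j) (y j') * g x y ξ := by
    funext x y ξ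
    show _ = f (y j) (y j') * L.p (y j) * g x y ξ
    rw [Finset.sum_eq_single (y j)]
    · rw [Function.update_self, ind_of rfl, hr x y ξ (y j)]
      ring
    · intro b _ hb
      rw [Function.update_self, ind_of_not hb]
      ring
    · intro hb
      exact absurd (Finset.mem_univ _) hb
  rw [e, EE_dec2 L hθ (fun a a' => f a a' * L.p a) g hne h h']
  congr 1
  exact Finset.sum_congr rfl fun a _ => Finset.sum_congr rfl fun b _ => by ring

/-- three columns -/
theorem EE_dec3 (hθ : 0 < θ) (f : α → α → α → ℝ)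
    (g : (Fin T → α) → (Fin n → α) → (Fin n → Bool) → ℝ) {j j' j'' : Fin n} (hne : j ≠ j')
    (hne' : j ≠ j'') (hne'' : j' ≠ j'') (h : IndC g j) (h' : IndC g j') (h'' : IndC g j'') :
    EE L θ T n (fun x y ξ => f (y j) (y j') (y j'') * g x y ξ) =
      (∑ a, ∑ a', ∑ a'', L.p a * L.p a' * L.p a'' * f a a' a'') * EE L θ T n g := by
  rw [Decouple_one L hθ j (fun a x y ξ => f a (y j') (y j'') * g x y ξ)
    (fun a x y ξ b c => by
      show f a (Function.update y j b j') (Function.update y j b j'') * _ =
        f a (y j') (y j'') * _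
      rw [h x y ξ b c, Function.update_of_ne hne.symm, Function.update_of_ne hne'.symm])]
  have e : (fun (x : Fin T → α) (y : Fin n → α) (ξ : Fin n → Bool) =>
      ∑ a, L.p a * (f a (y j') (y j'') * g x y ξ)) =
      fun x y ξ => (fun b c => ∑ a, L.p a * f a b c) (y j') (y j'') * g x y ξ := by
    funext x y ξ
    show _ = (∑ a, L.p a * f a (y j') (y j'')) * g x y ξ
    rw [Finset.sum_mul]
    exact Finset.sum_congr rfl fun a _ => by ring
  rw [e, EE_dec2 L hθ (fun b c => ∑ a, L.p a * f a b c) g hne'' h' h'']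
  congr 1
  simp only [Finset.mul_sum]
  have e2 : ∀ b : α, ∑ c, ∑ a, L.p b * L.p c * (L.p a * f a b c) =
      ∑ a, ∑ c, L.p b * L.p c * (L.p a * f a b c) := fun b => Finset.sum_comm
  simp only [e2]
  rw [Finset.sum_comm]
  exact Finset.sum_congr rfl fun a _ => Finset.sum_congr rfl fun b _ =>
    Finset.sum_congr rfl fun c _ => by ring

omit [Fintype α] [DecidableEq α] in
theorem rmc_rl_update (K : Finset ℕ) (x : Fin T → α) (y : Fin n → α) (j : Fin n) (a : α)
    (hj : (j : ℕ) ∈ K) : rmc K (rl x (Function.update y j a)) = rmc K (rl x y) := by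
  funext i k
  refine propext ?_
  unfold rmc rl
  refine and_congr_left fun hk => exists_congr fun hi => exists_congr fun hk' => ?_
  rw [Function.update_of_ne]
  intro e
  apply hk
  rw [← e] at hj
  exact hj

omit [Fintype α] [DecidableEq α] in
theorem rmr_rl_update (R : Finset ℕ) (x : Fin T → α) (y : Fin n → α) (r : Fin T) (a : α)
    (hr : (r : ℕ) ∈ R) : rmr R (rl (Function.update x r a) y) = rmr R (rl x y) := by
  funext i k
  refine propext ?_
  unfold rmr rl
  refine and_congr_left fun hk => exists_congr fun hi => exists_congr fun hk' => ?_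
  rw [Function.update_of_ne]
  intro e
  apply hk
  rw [← e] at hr
  exact hr

omit [Fintype α] [DecidableEq α] in
theorem rmr_rmc_rl_update (R K : Finset ℕ) (x : Fin T → α) (y : Fin n → α) (r : Fin T) (a : α)
    (hr : (r : ℕ) ∈ R) :
    rmr R (rmc K (rl (Function.update x r a) y)) = rmr R (rmc K (rl x y)) := by
  funext i k
  refine propext ?_
  unfold rmr rmc rl
  refine and_congr_left fun hk => and_congr_left fun _ => exists_congr fun hi =>
    exists_congr fun hk' => ?_
  rw [Function.update_of_ne]
  intro e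
  apply hk
  rw [← e] at hr
  exact hr

theorem rmb_bt_update (K : Finset ℕ) (ξ : Fin n → Bool) (j : Fin n) (c : Bool)
    (hj : (j : ℕ) ∈ K) : rmb K (bt (Function.update ξ j c)) = rmb K (bt ξ) := by
  funext l
  unfold rmb bt
  by_cases hl : l ∈ K
  · rw [if_pos hl, if_pos hl]
  · rw [if_neg hl, if_neg hl]
    by_cases hn : l < n
    · rw [dif_pos hn, dif_pos hn, Function.update_of_ne]
      intro e
      apply hl
      rw [← e] at hj
      exact hj
    · rw [dif_neg hn, dif_neg hn]

theorem bt_le_one (ξ : Fin n → Bool) (l : ℕ) : bt ξ l ≤ 1 := by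
  unfold bt
  split_ifs with h
  · exact Bool.toNat_le _
  · exact Nat.zero_le _

end LCSH
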