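import Pool.Agent.Lib.MP_ae6bb1_pr.Defs

/-! Basic facts on the walk functional (proof document, section B1). -/

open Finset

namespace LCSH

variable {A b : ℕ → ℕ} {n : ℕ}

theorem Wt_succ {j : ℕ} (h : j < n) : Wt b n j = b j + Wt b n (j + 1) :=
  Finset.sum_eq_sum_Ico_succ_bot h b

theorem Wt_anti {c c' : ℕ} (h : c ≤ c') : Wt b n c' ≤ Wt b n c :=
  Finset.sum_le_sum_of_subset (Finset.Ico_subset_Ico_left h)

theorem Wt_split {c c' : ℕ} (h : c ≤ c') (h' : c' ≤ n) :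
    Wt b n c = (∑ l ∈ Finset.Ico c c', b l) + Wt b n c' :=
  (Finset.sum_Ico_consecutive b h h').symm

theorem Wt_self : Wt b n n = 0 := by
  simp [Wt]

theorem Zf_le_Mf {c : ℕ} (h : c ≤ n) : Zf A b n c ≤ Mf A b n :=
  Finset.le_sup (f := Zf A b n) (Finset.mem_range.2 (Nat.lt_succ_of_le h))

theorem exists_Mf (A b : ℕ → ℕ) (n : ℕ) : ∃ c ≤ n, Zf A b n c = Mf A b n := by
  obtain ⟨c, hc, h⟩ := Finset.exists_mem_eq_sup (Finset.range (n + 1)) ⟨0, by simp⟩ (Zf A b n)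
  exact ⟨c, Nat.lt_succ_iff.1 (Finset.mem_range.1 hc), h.symm⟩

theorem Mf_le {k : ℕ} (h : ∀ c ≤ n, Zf A b n c ≤ k) : Mf A b n ≤ k :=
  Finset.sup_le fun c hc => h c (Nat.lt_succ_iff.1 (Finset.mem_range.1 hc))

theorem Vf_le_Zf {j : ℕ} : Vf A b n j ≤ Zf A b n j :=
  Nat.add_le_add_left (Wt_anti (Nat.le_succ j)) _

theorem Vf_le_Mf {j : ℕ} (h : j < n) : Vf A b n j ≤ Mf A b n :=
  Vf_le_Zf.trans (Zf_le_Mf h.le)

theorem Zf_eq_Vf {j : ℕ} (h : j < n) : Zf A b n j = Vf A b n j + b j := by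
  unfold Zf Vf
  rw [Wt_succ h]
  omega

/-- near columns are near sites -/
theorem nearS_of_near {r j : ℕ} (h : j < n) (hj : Mf A b n ≤ Vf A b n j + r) :
    NearS A b n r j :=
  ⟨h.le, hj.trans (Nat.add_le_add_right Vf_le_Zf _)⟩

theorem Far_mono {r w w' : ℕ} (h : w' ≤ w) (hF : Far A b n r w) : Far A b n r w' := by
  obtain ⟨a, c, h1, h2, h3⟩ := hF
  exact ⟨a, c, by omega, h2, h3⟩

end LCSH
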