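import Pool.Agent.Lib.MP_ae6bb1_pr.LpRemove
import Pool.Agent.Lib.MP_ae6bb1_pr.Walk

/-! Effect of emptying on the functional (proof document, section B3). -/

open Finset

namespace LCSH

variable {m : ℕ → ℕ → Prop} {b : ℕ → ℕ} {T n : ℕ}

theorem Empty_card {K L : Finset ℕ} {p q : ℕ → Prop} [DecidablePred p] [DecidablePred q]
    (hp : ∀ j ∈ K, p j → j ∈ L) (hq : ∀ j ∈ K, q j → j ∈ L) (hpq : ∀ j, p j → ¬ q j) :
    (K.filter p).card + (K.filter q).card ≤ L.card := by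
  have hd : Disjoint (K.filter p) (K.filter q) := by
    rw [Finset.disjoint_left]
    intro j hj hj'
    exact hpq j (Finset.mem_filter.1 hj).2 (Finset.mem_filter.1 hj').2
  rw [← Finset.card_union_of_disjoint hd]
  refine Finset.card_le_card fun j hj => ?_
  rcases Finset.mem_union.1 hj with h | h
  · exact hp j (Finset.mem_filter.1 h).1 (Finset.mem_filter.1 h).2
  · exact hq j (Finset.mem_filter.1 h).1 (Finset.mem_filter.1 h).2

theorem Empty_Mf_le {A A' b b' : ℕ → ℕ} {k : ℕ}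
    (h : ∀ c ≤ n, Zf A b n c ≤ Zf A' b' n c + k) : Mf A b n ≤ Mf A' b' n + k :=
  Mf_le fun c hc => (h c hc).trans (Nat.add_le_add_right (Zf_le_Mf hc) k)

theorem rmb_le (K : Finset ℕ) (l : ℕ) : rmb K b l ≤ b l := by
  unfold rmb
  split_ifs
  · exact Nat.zero_le _
  · exact le_rfl

theorem Wt_rmb_le (K : Finset ℕ) (c : ℕ) : Wt (rmb K b) n c ≤ Wt b n c :=
  Finset.sum_le_sum fun l _ => rmb_le K l

theorem Wt_le_rmb (hb : ∀ l, b l ≤ 1) (K : Finset ℕ) (c : ℕ) :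
    Wt b n c ≤ Wt (rmb K b) n c + (K.filter (fun j => c ≤ j ∧ j < n)).card := by
  have h1 : Wt b n c ≤ ∑ l ∈ Finset.Ico c n, (rmb K b l + if l ∈ K then 1 else 0) := by
    refine Finset.sum_le_sum fun l _ => ?_
    unfold rmb
    split_ifs with h
    · simpa using hb l
    · simp
  have h2 : ∑ l ∈ Finset.Ico c n, (rmb K b l + if l ∈ K then 1 else 0) =
      Wt (rmb K b) n c + ((Finset.Ico c n).filter (fun l => l ∈ K)).card := by
    rw [Finset.sum_add_distrib, Finset.card_filter]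
    rfl
  have h3 : (Finset.Ico c n).filter (fun l => l ∈ K) = K.filter (fun j => c ≤ j ∧ j < n) := by
    ext j
    simp only [Finset.mem_filter, Finset.mem_Ico]
    tauto
  rw [h2, h3] at h1
  exact h1

theorem ZT_rm_le (K : Finset ℕ) (c : ℕ) : ZT (rmc K m) (rmb K b) T n c ≤ ZT m b T n c :=
  Nat.add_le_add (lp_rmc_le K) (Wt_rmb_le K c)

theorem ZT_le_rm (hb : ∀ l, b l ≤ 1) (K : Finset ℕ) (c : ℕ) :
    ZT m b T n c ≤ ZT (rmc K m) (rmb K b) T n c + K.card := by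
  have h1 : lp m 0 T 0 c ≤ lp (rmc K m) 0 T 0 c + (K.filter (fun j => 0 ≤ j ∧ j < c)).card :=
    lp_le_rmc K
  have h2 := Wt_le_rmb (n := n) hb K c
  have h3 := Empty_card (K := K) (L := K) (p := fun j => 0 ≤ j ∧ j < c)
    (q := fun j => c ≤ j ∧ j < n) (fun j hj _ => hj) (fun j hj _ => hj)
    (fun j h h' => absurd h.2 (not_lt.2 h'.1))
  show lp m 0 T 0 c + Wt b n c ≤ lp (rmc K m) 0 T 0 c + Wt (rmb K b) n c + K.card
  omega

theorem MT_rm_le (K : Finset ℕ) : MT (rmc K m) (rmb K b) T n ≤ MT m b T n := by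
  have h := Empty_Mf_le (n := n) (A := prof (rmc K m) T) (A' := prof m T) (b := rmb K b)
    (b' := b) (k := 0) fun c _ => ZT_rm_le K c
  exact h

theorem MT_le_rm (hb : ∀ l, b l ≤ 1) (K : Finset ℕ) :
    MT m b T n ≤ MT (rmc K m) (rmb K b) T n + K.card :=
  Empty_Mf_le fun c _ => ZT_le_rm hb K c

theorem VT_rm_le (K : Finset ℕ) (j : ℕ) : VT (rmc K m) (rmb K b) T n j ≤ VT m b T n j :=
  Nat.add_le_add (lp_rmc_le K) (Wt_rmb_le K (j + 1))

/-- the value of column `j` does not see column `j` -/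
theorem VT_le_rm (hb : ∀ l, b l ≤ 1) (K : Finset ℕ) (j : ℕ) :
    VT m b T n j ≤ VT (rmc K m) (rmb K b) T n j + (K.erase j).card := by
  have h1 : lp m 0 T 0 j ≤ lp (rmc K m) 0 T 0 j + (K.filter (fun i => 0 ≤ i ∧ i < j)).card :=
    lp_le_rmc K
  have h2 := Wt_le_rmb (n := n) hb K (j + 1)
  have h3 := Empty_card (K := K) (L := K.erase j) (p := fun i => 0 ≤ i ∧ i < j)
    (q := fun i => j + 1 ≤ i ∧ i < n)
    (fun i hi h => Finset.mem_erase.2 ⟨by have := h.2; omega, hi⟩)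
    (fun i hi h => Finset.mem_erase.2 ⟨by have := h.1; omega, hi⟩)
    (fun i h h' => by have := h.2; have := h'.1; omega)
  show lp m 0 T 0 j + Wt b n (j + 1) ≤
    lp (rmc K m) 0 T 0 j + Wt (rmb K b) n (j + 1) + (K.erase j).card
  omega

theorem MT_rmr_le (R : Finset ℕ) : MT (rmr R m) b T n ≤ MT m b T n := by
  have h := Empty_Mf_le (n := n) (A := prof (rmr R m) T) (A' := prof m T) (b := b)
    (b' := b) (k := 0) fun c _ => by
      have h1 : lp (rmr R m) 0 T 0 c ≤ lp m 0 T 0 c := lp_rmr_le R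
      show lp (rmr R m) 0 T 0 c + Wt b n c ≤ lp m 0 T 0 c + Wt b n c + 0
      omega
  exact h

theorem MT_le_rmr (R : Finset ℕ) : MT m b T n ≤ MT (rmr R m) b T n + R.card := by
  refine Empty_Mf_le fun c _ => ?_
  have h1 : lp m 0 T 0 c ≤ lp (rmr R m) 0 T 0 c + (R.filter (fun i => 0 ≤ i ∧ i < T)).card :=
    lp_le_rmr R
  have h2 : (R.filter (fun i => 0 ≤ i ∧ i < T)).card ≤ R.card := Finset.card_filter_le _ _
  show lp m 0 T 0 c + Wt b n c ≤ lp (rmr R m) 0 T 0 c + Wt b n c + R.card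
  omega

theorem VT_rmr_le (R : Finset ℕ) (j : ℕ) : VT (rmr R m) b T n j ≤ VT m b T n j :=
  Nat.add_le_add (lp_rmr_le R) le_rfl

theorem VT_le_rmr (R : Finset ℕ) (j : ℕ) : VT m b T n j ≤ VT (rmr R m) b T n j + R.card := by
  have h1 : lp m 0 T 0 j ≤ lp (rmr R m) 0 T 0 j + (R.filter (fun i => 0 ≤ i ∧ i < T)).card :=
    lp_le_rmr R
  have h2 : (R.filter (fun i => 0 ≤ i ∧ i < T)).card ≤ R.card := Finset.card_filter_le _ _
  show lp m 0 T 0 j + Wt b n (j + 1) ≤ lp (rmr R m) 0 T 0 j + Wt b n (j + 1) + R.card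
  omega

theorem ZT_rmr_le (R : Finset ℕ) (c : ℕ) : ZT (rmr R m) b T n c ≤ ZT m b T n c :=
  Nat.add_le_add (lp_rmr_le R) le_rfl

end LCSH
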