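import Pool.Agent.Lib.MP_ae6bb1_pr.Rect

/-! Superadditivity of `EL` and the growth constant (proof document, section I1). -/

open Finset Filter Topology

namespace LCSH

variable {α : Type*} [Fintype α] [DecidableEq α] (L : Law α)

private theorem Super_EE (T n a h c u : ℕ) (ha : a + h ≤ T) (hc : c + u ≤ n) :
    EE L 1 T n (fun x y _ => ((lp (rl x y) a (a + h) c (c + u) : ℕ) : ℝ)) = EL L h u :=
  EE_rect L one_pos a h c u ha hc (fun k => (k : ℝ))

theorem EL_nonneg (a b : ℕ) : 0 ≤ EL L a b :=
  PE_nonneg (isW_law L) fun _ => PE_nonneg (isW_law L) fun _ => Nat.cast_nonneg _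

theorem EL_le (a b : ℕ) : EL L a b ≤ a := by
  refine PE_le_of_le (isW_law L) fun x => PE_le_of_le (isW_law L) fun y => ?_
  have := lp_le_rows (rl x y) 0 a 0 b
  rw [Nat.sub_zero] at this
  exact_mod_cast this

theorem EL_mono {a b a' b' : ℕ} (ha : a ≤ a') (hb : b ≤ b') : EL L a b ≤ EL L a' b' := by
  rw [← Super_EE L a' b' 0 a 0 b (by omega) (by omega),
    ← Super_EE L a' b' 0 a' 0 b' (by omega) (by omega)]
  refine EE_mono L one_pos fun x y ξ => ?_
  exact_mod_cast lp_mono le_rfl (by omega) le_rfl (by omega) fun _ _ _ _ _ _ h => h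

theorem EL_super (a b a' b' : ℕ) : EL L a b + EL L a' b' ≤ EL L (a + a') (b + b') := by
  rw [← Super_EE L (a + a') (b + b') 0 a 0 b (by omega) (by omega),
    ← Super_EE L (a + a') (b + b') a a' b b' (by omega) (by omega),
    ← Super_EE L (a + a') (b + b') 0 (a + a') 0 (b + b') (by omega) (by omega), ← EE_add]
  refine EE_mono L one_pos fun x y ξ => ?_
  have := lp_super (rl x y) (a := 0) (b := a) (c := 0) (d := b) (e := a + a') (f := b + b')
    (by omega) (by omega) (by omega) (by omega)
  rw [zero_add, zero_add, zero_add, zero_add]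
  exact_mod_cast this

theorem EL_symm (a b : ℕ) : EL L a b = EL L b a := by
  unfold EL
  rw [PE_comm]
  congr 1
  funext y
  congr 1
  funext x
  have h1 : lp (rl x y) 0 a 0 b = lp (fun i j => rl y x j i) 0 a 0 b := by
    apply lp_congr
    intro i j _ _ _ _
    constructor
    · rintro ⟨hi, hj, h⟩
      exact ⟨hj, hi, h.symm⟩
    · rintro ⟨hj, hi, h⟩
      exact ⟨hi, hj, h.symm⟩
  rw [h1, lp_transpose]

private theorem Super_bdd : BddAbove (Set.range fun n : ℕ => EL L (n + 1) (n + 1) / ((n : ℝ) + 1)) := by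
  refine ⟨1, ?_⟩
  rintro _ ⟨n, rfl⟩
  have hn : (0 : ℝ) < (n : ℝ) + 1 := by positivity
  simp only
  rw [div_le_one hn]
  have := EL_le L (n + 1) (n + 1)
  push_cast at this
  exact this

theorem EL_le_gam (n : ℕ) : EL L n n ≤ gam L * n := by
  rcases n with _ | n
  · have := EL_le L 0 0
    simpa using this
  · have hn : (0 : ℝ) < (n : ℝ) + 1 := by positivity
    have h1 : EL L (n + 1) (n + 1) / ((n : ℝ) + 1) ≤ gam L := le_ciSup (Super_bdd L) n
    rw [div_le_iff₀ hn] at h1
    push_cast
    exact h1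

private theorem Super_le_gam_div (n : ℕ) (hn : 0 < n) : EL L n n / n ≤ gam L := by
  have hn' : (0 : ℝ) < n := by exact_mod_cast hn
  rw [div_le_iff₀ hn']
  exact EL_le_gam L n

theorem gam_tendsto : Tendsto (fun n : ℕ => EL L n n / n) atTop (𝓝 (gam L)) := by
  have hsub : Subadditive (fun n : ℕ => -EL L n n) := by
    intro m n
    have := EL_super L m m n n
    simp only
    linarith
  have hbdd : BddBelow (Set.range fun n : ℕ => (-EL L n n) / n) := by
    refine ⟨-1, ?_⟩
    rintro _ ⟨n, rfl⟩
    simp only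
    rcases Nat.eq_zero_or_pos n with h | h
    · subst h
      simp
    · have hn' : (0 : ℝ) < n := by exact_mod_cast h
      rw [neg_div, neg_le_neg_iff, div_le_one hn']
      exact EL_le L n n
  have hlim := hsub.tendsto_lim hbdd
  have e : hsub.lim = -gam L := by
    apply le_antisymm
    · have h1 : gam L ≤ -hsub.lim := by
        refine ciSup_le fun n => ?_
        have h2 := hsub.lim_le_div hbdd (n := n + 1) (Nat.succ_ne_zero n)
        rw [neg_div] at h2
        push_cast at h2
        linarith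
      linarith
    · refine ge_of_tendsto hlim ?_
      filter_upwards [eventually_gt_atTop 0] with n hn
      rw [neg_div, neg_le_neg_iff]
      exact Super_le_gam_div L n hn
  rw [e] at hlim
  have := hlim.neg
  simp only [neg_div, neg_neg] at this
  exact this

/-- if `EL (T k) (T k) ≤ A T k` for all `k` then `γ ≤ A` -/
theorem gam_le_of_mul (T : ℕ) (hT : 0 < T) (A : ℝ)
    (h : ∀ k : ℕ, EL L (T * k) (T * k) ≤ A * (T * k : ℕ)) : gam L ≤ A := by
  have ht : Tendsto (fun k : ℕ => T * k) atTop atTop :=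
    tendsto_id.const_mul_atTop' hT
  have h1 := (gam_tendsto L).comp ht
  refine le_of_tendsto h1 ?_
  filter_upwards [eventually_gt_atTop 0] with k hk
  have hTk : (0 : ℝ) < ((T * k : ℕ) : ℝ) := by exact_mod_cast Nat.mul_pos hT hk
  simp only [Function.comp]
  rw [div_le_iff₀ hTk]
  exact h k

theorem EL_rect_le (a b : ℕ) : EL L a b ≤ gam L * ((a + b : ℕ) : ℝ) / 2 := by
  have h1 := EL_super L a b b a
  have h2 := EL_symm L a b
  have h3 := EL_le_gam L (a + b)
  have h4 : b + a = a + b := add_comm b a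
  rw [h4, ← h2] at h1
  linarith

theorem gam_nonneg : 0 ≤ gam L := by
  have h1 : EL L (0 + 1) (0 + 1) / (((0 : ℕ) : ℝ) + 1) ≤ gam L := le_ciSup (Super_bdd L) 0
  refine le_trans ?_ h1
  have := EL_nonneg L (0 + 1) (0 + 1)
  positivity

end LCSH
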