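import Pool.Agent.Lib.MP_ae6bb1_pr.PEMgf
import Pool.Agent.Lib.MP_ae6bb1_pr.Empty
import Pool.Agent.Lib.MP_ae6bb1_pr.Decouple
import Pool.Agent.Lib.MP_ae6bb1_pr.Super

/-! The expected maximum compared with the maximal expectation (proof document, section I3). -/

open Finset

namespace LCSH

variable {α : Type*} [Fintype α] [DecidableEq α] (L : Law α) {θ : ℝ} {T n : ℕ}

/-- expected value of a site -/
theorem EE_site (hθ : 0 < θ) (c : ℕ) (hc : c ≤ n) :
    EE L θ T n (fun x y ξ => (ZT (rl x y) (bt ξ) T n c : ℝ)) = EL L T c + (n - c : ℕ) * L.rb θ := by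
  have h1 := EE_rect (T := T) (n := n) L hθ 0 T 0 c (by omega) (by omega) (fun k => (k : ℝ))
  have h2 := EE_window (T := T) (n := n) L hθ c (n - c) (by omega)
  rw [Nat.zero_add, Nat.zero_add] at h1
  rw [Nat.add_sub_cancel' hc] at h2
  have h3 : ER L T c (fun k => (k : ℝ)) = EL L T c := rfl
  rw [← h2, ← h3, ← h1, ← EE_add]
  congr 1
  funext x y ξ
  unfold ZT Zf prof Wt
  push_cast
  rfl

theorem le_EM (hθ : 0 < θ) (c : ℕ) (hc : c ≤ n) :
    EL L T c + (n - c : ℕ) * L.rb θ ≤ EM L θ T n := by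
  rw [← EE_site L hθ c hc]
  unfold EM
  refine EE_mono L hθ fun x y ξ => ?_
  exact_mod_cast (Zf_le_Mf hc : ZT (rl x y) (bt ξ) T n c ≤ MT (rl x y) (bt ξ) T n)

private theorem Conc_card {K : Finset ℕ} {i : ℕ} (hK : K = {i}) (p : ℕ → Prop) [DecidablePred p] :
    (K.filter p).card ≤ 1 := by
  refine (Finset.card_filter_le _ _).trans ?_
  rw [hK, Finset.card_singleton]

omit [Fintype α] [DecidableEq α] in
private theorem Conc_row {a b : ℕ} (x : Fin a → α) (y : Fin b → α) (i : Fin a) (c : α) (p q r s : ℕ) :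
    lp (rl (Function.update x i c) y) p q r s ≤ lp (rl x y) p q r s + 1 := by
  have h1 : lp (rl (Function.update x i c) y) p q r s ≤
      lp (rmr {(i : ℕ)} (rl (Function.update x i c) y)) p q r s +
        (Finset.filter (fun i => p ≤ i ∧ i < q) {(i : ℕ)}).card := lp_le_rmr _
  rw [rmr_rl_update _ x y i c (Finset.mem_singleton_self _)] at h1
  have h2 : lp (rmr {(i : ℕ)} (rl x y)) p q r s ≤ lp (rl x y) p q r s := lp_rmr_le _
  have h3 := Conc_card (K := {(i : ℕ)}) rfl (fun i => p ≤ i ∧ i < q)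
  omega

omit [Fintype α] [DecidableEq α] in
private theorem Conc_col {a b : ℕ} (x : Fin a → α) (y : Fin b → α) (j : Fin b) (c : α) (p q r s : ℕ) :
    lp (rl x (Function.update y j c)) p q r s ≤ lp (rl x y) p q r s + 1 := by
  have h1 : lp (rl x (Function.update y j c)) p q r s ≤
      lp (rmc {(j : ℕ)} (rl x (Function.update y j c))) p q r s +
        (Finset.filter (fun i => r ≤ i ∧ i < s) {(j : ℕ)}).card := lp_le_rmc _
  rw [rmc_rl_update _ x y j c (Finset.mem_singleton_self _)] at h1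
  have h2 : lp (rmc {(j : ℕ)} (rl x y)) p q r s ≤ lp (rl x y) p q r s := lp_rmc_le _
  have h3 := Conc_card (K := {(j : ℕ)}) rfl (fun i => r ≤ i ∧ i < s)
  omega

omit [Fintype α] [DecidableEq α] in
private theorem Conc_site_row (x : Fin T → α) (y : Fin n → α) (ξ : Fin n → Bool) (i : Fin T)
    (a : α) (c : ℕ) :
    ZT (rl (Function.update x i a) y) (bt ξ) T n c ≤ ZT (rl x y) (bt ξ) T n c + 1 := by
  have h1 := Conc_row x y i a 0 T 0 c
  show lp (rl (Function.update x i a) y) 0 T 0 c + Wt (bt ξ) n c ≤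
    lp (rl x y) 0 T 0 c + Wt (bt ξ) n c + 1
  omega

omit [Fintype α] [DecidableEq α] in
private theorem Conc_site_col (x : Fin T → α) (y : Fin n → α) (ξ : Fin n → Bool) (j : Fin n)
    (a : α) (s : Bool) (c : ℕ) :
    ZT (rl x (Function.update y j a)) (bt (Function.update ξ j s)) T n c ≤
      ZT (rl x y) (bt ξ) T n c + 1 := by
  have h1 := ZT_le_rm (m := rl x (Function.update y j a)) (b := bt (Function.update ξ j s))
    (T := T) (n := n) (bt_le_one _) {(j : ℕ)} c
  rw [rmc_rl_update _ x y j a (Finset.mem_singleton_self _),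
    rmb_bt_update _ ξ j s (Finset.mem_singleton_self _), Finset.card_singleton] at h1
  have h2 := ZT_rm_le (m := rl x y) (b := bt ξ) (T := T) (n := n) {(j : ℕ)} c
  omega

omit [DecidableEq α] in
private theorem Conc_isW (hθ : 0 < θ) :
    (∀ q : α × Bool, 0 ≤ L.p q.1 * bw (L.rho θ q.1) q.2) ∧
      ∑ q : α × Bool, L.p q.1 * bw (L.rho θ q.1) q.2 = 1 := by
  have h := isW_bw (ι := α) (r := L.rho θ) (rho_nonneg L hθ) (rho_le_one L hθ)
  refine ⟨fun q => mul_nonneg (L.nonneg _) (h.nonneg q.1 q.2), ?_⟩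
  rw [Fintype.sum_prod_type]
  simp only
  have h1 : ∀ a, ∑ c : Bool, L.p a * bw (L.rho θ a) c = L.p a := by
    intro a
    rw [← Finset.mul_sum, h.sum_one a, mul_one]
  simp only [h1]
  exact L.sum_one

omit [Fintype α] [DecidableEq α] in
private theorem Conc_update {b : ℕ} (z : Fin b → α × Bool) (j : Fin b) (q : α × Bool) :
    (fun i => (Function.update z j q i).1) = Function.update (fun i => (z i).1) j q.1 ∧
      (fun i => (Function.update z j q i).2) = Function.update (fun i => (z i).2) j q.2 := by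
  constructor
  · funext i
    by_cases hi : i = j
    · subst hi
      simp
    · simp [Function.update_of_ne hi]
  · funext i
    by_cases hi : i = j
    · subst hi
      simp
    · simp [Function.update_of_ne hi]

/-- exponential moment of a site -/
theorem site_mgf (hθ : 0 < θ) (c : ℕ) (hc : c ≤ n) {s : ℝ} (hs : 0 ≤ s) (hs1 : s ≤ 1) :
    EE L θ T n (fun x y ξ => Real.exp (s * ((ZT (rl x y) (bt ξ) T n c : ℝ) -
      (EL L T c + (n - c : ℕ) * L.rb θ)))) ≤ Real.exp (s ^ 2 * (T + n : ℕ)) := by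
  obtain ⟨hq0, hq1⟩ := Conc_isW L hθ
  have key := mgf_two (a := T) (b := n) L.nonneg L.sum_one hq0 hq1
    (fun x z => (ZT (rl x (fun j => (z j).1)) (bt (fun j => (z j).2)) T n c : ℝ))
    (fun x z i a => by
      have h := Conc_site_row x (fun j => (z j).1) (fun j => (z j).2) i a c
      have h' : (ZT (rl (Function.update x i a) (fun j => (z j).1)) (bt (fun j => (z j).2)) T n c : ℝ) ≤
          (ZT (rl x (fun j => (z j).1)) (bt (fun j => (z j).2)) T n c : ℝ) + 1 := by exact_mod_cast h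
      linarith)
    (fun x z j q => by
      obtain ⟨e1, e2⟩ := Conc_update z j q
      simp only [e1, e2]
      have h := Conc_site_col x (fun j => (z j).1) (fun j => (z j).2) j q.1 q.2 c
      have h' : (ZT (rl x (Function.update (fun j => (z j).1) j q.1))
          (bt (Function.update (fun j => (z j).2) j q.2)) T n c : ℝ) ≤
          (ZT (rl x (fun j => (z j).1)) (bt (fun j => (z j).2)) T n c : ℝ) + 1 := by exact_mod_cast h
      linarith) (s := s) (by rw [abs_of_nonneg hs]; exact hs1)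
  have hm : PE (fun _ : Fin T => L.p) (fun x =>
      PE (fun _ : Fin n => fun q : α × Bool => L.p q.1 * bw (L.rho θ q.1) q.2) (fun z =>
        (ZT (rl x (fun j => (z j).1)) (bt (fun j => (z j).2)) T n c : ℝ))) =
      EL L T c + (n - c : ℕ) * L.rb θ := by
    rw [← EE_site L hθ c hc, EE_eq_two]
  rw [hm] at key
  rw [EE_eq_two]
  exact key

omit [DecidableEq α] in
private theorem Conc_jensen (hθ : 0 < θ) (f : (Fin T → α) → (Fin n → α) → (Fin n → Bool) → ℝ) :
    Real.exp (EE L θ T n f) ≤ EE L θ T n (fun x y ξ => Real.exp (f x y ξ)) := by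
  have h1 : ∀ x y ξ, Real.exp (EE L θ T n f) * (f x y ξ + (1 - EE L θ T n f)) ≤
      Real.exp (f x y ξ) := by
    intro x y ξ
    have h2 := Real.add_one_le_exp (f x y ξ - EE L θ T n f)
    have h3 := mul_le_mul_of_nonneg_left h2 (Real.exp_pos (EE L θ T n f)).le
    rw [← Real.exp_add, add_sub_cancel] at h3
    calc _ = Real.exp (EE L θ T n f) * (f x y ξ - EE L θ T n f + 1) := by ring
      _ ≤ _ := h3
  have h4 := EE_mono L hθ h1
  rw [EE_const_mul, EE_add, EE_const L hθ, add_sub_cancel, mul_one] at h4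
  exact h4

theorem EM_le (hθ : 0 < θ) (hn : 1 ≤ n) (B : ℝ)
    (hB : ∀ c ≤ n, EL L T c + (n - c : ℕ) * L.rb θ ≤ B) :
    EM L θ T n ≤ B + 2 * Real.sqrt ((T + n : ℕ) * Real.log (n + 1)) := by
  have hn' : (1 : ℝ) ≤ n := by exact_mod_cast hn
  set N : ℝ := ((T + n : ℕ) : ℝ) with hN
  have hNn : (n : ℝ) ≤ N := by
    rw [hN]
    exact_mod_cast Nat.le_add_left n T
  have hN0 : 0 < N := by linarith
  set ℓ : ℝ := Real.log (n + 1) with hℓ
  have hℓ0 : 0 < ℓ := Real.log_pos (by linarith)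
  have hℓn : ℓ ≤ n := by
    have := Real.log_le_sub_one_of_pos (by linarith : (0 : ℝ) < n + 1)
    linarith
  set s : ℝ := Real.sqrt (ℓ / N) with hs
  have hs0 : 0 < s := Real.sqrt_pos.2 (div_pos hℓ0 hN0)
  have hs1 : s ≤ 1 := by
    rw [hs, Real.sqrt_le_one]
    exact (div_le_one hN0).2 (hℓn.trans hNn)
  have hs2 : s ^ 2 = ℓ / N := Real.sq_sqrt (div_pos hℓ0 hN0).le
  -- Jensen
  have h1 := Conc_jensen (T := T) (n := n) L hθ
    (fun x y ξ => s * ((MT (rl x y) (bt ξ) T n : ℝ) + -B))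
  rw [EE_const_mul, EE_add, EE_const L hθ] at h1
  have h2 : ∀ (x : Fin T → α) (y : Fin n → α) (ξ : Fin n → Bool),
      Real.exp (s * ((MT (rl x y) (bt ξ) T n : ℝ) + -B)) ≤
      ∑ c ∈ Finset.range (n + 1), Real.exp (s * ((ZT (rl x y) (bt ξ) T n c : ℝ) -
        (EL L T c + (n - c : ℕ) * L.rb θ))) := by
    intro x y ξ
    obtain ⟨c, hc, hZ⟩ := exists_Mf (prof (rl x y) T) (bt ξ) n
    have hZ' : ZT (rl x y) (bt ξ) T n c = MT (rl x y) (bt ξ) T n := hZ
    refine le_trans ?_ (Finset.single_le_sum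
      (f := fun c => Real.exp (s * ((ZT (rl x y) (bt ξ) T n c : ℝ) -
        (EL L T c + (n - c : ℕ) * L.rb θ))))
      (fun i _ => (Real.exp_pos _).le) (Finset.mem_range.2 (Nat.lt_succ_of_le hc)))
    apply Real.exp_le_exp.2
    rw [hZ']
    refine mul_le_mul_of_nonneg_left ?_ hs0.le
    have := hB c hc
    linarith
  have h3 : EE L θ T n (fun x y ξ => Real.exp (s * ((MT (rl x y) (bt ξ) T n : ℝ) + -B))) ≤
      (n + 1) * Real.exp (s ^ 2 * N) := by
    refine (EE_mono L hθ h2).trans ?_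
    rw [EE_sum]
    calc ∑ c ∈ Finset.range (n + 1), EE L θ T n (fun x y ξ =>
          Real.exp (s * ((ZT (rl x y) (bt ξ) T n c : ℝ) - (EL L T c + (n - c : ℕ) * L.rb θ))))
        ≤ ∑ _c ∈ Finset.range (n + 1), Real.exp (s ^ 2 * N) :=
          Finset.sum_le_sum fun c hc =>
            site_mgf L hθ c (Nat.lt_succ_iff.1 (Finset.mem_range.1 hc)) hs0.le hs1
      _ = (n + 1) * Real.exp (s ^ 2 * N) := by
          rw [Finset.sum_const, Finset.card_range, nsmul_eq_mul]
          push_cast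
          ring
  have h4 : Real.exp (s * (EM L θ T n + -B)) ≤ Real.exp (2 * ℓ) := by
    refine (h1.trans h3).trans (le_of_eq ?_)
    have hexp : ((n : ℝ) + 1) = Real.exp ℓ := by
      rw [hℓ, Real.exp_log (by linarith)]
    rw [hexp, ← Real.exp_add, hs2, div_mul_cancel₀ _ hN0.ne']
    congr 1
    ring
  have h5 : s * (EM L θ T n + -B) ≤ 2 * ℓ := Real.exp_le_exp.1 h4
  have h6 : Real.sqrt (N * ℓ) * s = ℓ := by
    rw [hs, ← Real.sqrt_mul (by positivity)]
    have : N * ℓ * (ℓ / N) = ℓ ^ 2 := by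
      field_simp
    rw [this, Real.sqrt_sq hℓ0.le]
  have h7 : s * (EM L θ T n + -B) ≤ s * (2 * Real.sqrt (N * ℓ)) := by
    calc s * (EM L θ T n + -B) ≤ 2 * ℓ := h5
      _ = s * (2 * Real.sqrt (N * ℓ)) := by
          nth_rewrite 1 [← h6]
          ring
  have h8 := le_of_mul_le_mul_left h7 hs0
  linarith

/-- exponential moment of a rectangle -/
theorem ER_mgf (a b : ℕ) {s : ℝ} (hs : 0 ≤ s) (hs1 : s ≤ 1) :
    ER L a b (fun v => Real.exp (s * v)) ≤ Real.exp (s * EL L a b + s ^ 2 * (a + b : ℕ)) := by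
  have key := mgf_two (a := a) (b := b) L.nonneg L.sum_one L.nonneg L.sum_one
    (fun x y => (lp (rl x y) 0 a 0 b : ℝ))
    (fun x y i c => by
      have h := Conc_row x y i c 0 a 0 b
      have h' : (lp (rl (Function.update x i c) y) 0 a 0 b : ℝ) ≤ (lp (rl x y) 0 a 0 b : ℝ) + 1 := by
        exact_mod_cast h
      linarith)
    (fun x y j c => by
      have h := Conc_col x y j c 0 a 0 b
      have h' : (lp (rl x (Function.update y j c)) 0 a 0 b : ℝ) ≤ (lp (rl x y) 0 a 0 b : ℝ) + 1 := by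
        exact_mod_cast h
      linarith) (s := s) (by rw [abs_of_nonneg hs]; exact hs1)
  have hm : PE (fun _ : Fin a => L.p) (fun x => PE (fun _ : Fin b => L.p) (fun y =>
      (lp (rl x y) 0 a 0 b : ℝ))) = EL L a b := rfl
  rw [hm] at key
  have h1 : ER L a b (fun v => Real.exp (s * v)) = Real.exp (s * EL L a b) *
      PE (fun _ : Fin a => L.p) (fun x => PE (fun _ : Fin b => L.p) (fun y =>
        Real.exp (s * ((lp (rl x y) 0 a 0 b : ℝ) - EL L a b)))) := by
    unfold ER
    rw [← PE_const_mul]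
    congr 1
    funext x
    rw [← PE_const_mul]
    congr 1
    funext y
    rw [← Real.exp_add]
    ring_nf
  rw [h1, Real.exp_add]
  exact mul_le_mul_of_nonneg_left key (Real.exp_pos _).le

end LCSH
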