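import Pool.Agent.Lib.MP_ae6bb1_pr.PEProd

/-! Expectations on an abstract probability space (proof document, section K2). -/

open Finset MeasureTheory ProbabilityTheory

namespace LCSH

/-- two independent i.i.d. sequences with law `L` -/
structure IID {α : Type} [Fintype α] [MeasurableSpace α] (L : Law α) {Ω : Type}
    [MeasurableSpace Ω] (P : Measure Ω) (X Y : ℕ → Ω → α) : Prop where
  measX : ∀ n, Measurable (X n)
  measY : ∀ n, Measurable (Y n)
  indep : iIndepFun (fun k : ℕ ⊕ ℕ => Sum.elim X Y k) P
  lawX : ∀ n a, P.real (X n ⁻¹' {a}) = L.p a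
  lawY : ∀ n a, P.real (Y n ⁻¹' {a}) = L.p a

theorem transfer {α : Type} [Fintype α] [DecidableEq α] [MeasurableSpace α]
    [MeasurableSingletonClass α] (L : Law α) {Ω : Type} [MeasurableSpace Ω] (P : Measure Ω)
    [IsProbabilityMeasure P] (X Y : ℕ → Ω → α) (h : IID L P X Y) (n : ℕ)
    (F : (Fin n → α) → (Fin n → α) → ℝ) :
    Measurable (fun ω => F (fun i => X i ω) (fun j => Y j ω)) ∧
    ∫ ω, F (fun i => X i ω) (fun j => Y j ω) ∂P =
      PE (fun _ : Fin n => L.p) (fun x => PE (fun _ : Fin n => L.p) (fun y => F x y)) := by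
  obtain ⟨G, hG⟩ : ∃ G : Ω → (Fin n → α) × (Fin n → α),
    G = fun ω => (fun i : Fin n => X i ω, fun j : Fin n => Y j ω) := ⟨_, rfl⟩
  have hGm : Measurable G := by
    rw [hG]
    exact (measurable_pi_lambda _ fun i : Fin n => h.measX i).prodMk
      (measurable_pi_lambda _ fun j : Fin n => h.measY j)
  obtain ⟨F', hF'⟩ : ∃ F' : (Fin n → α) × (Fin n → α) → ℝ, F' = fun z => F z.1 z.2 := ⟨_, rfl⟩
  have hF'm : Measurable F' := measurable_of_finite F'
  have hFG : (fun ω => F (fun i => X i ω) (fun j => Y j ω)) = fun ω => F' (G ω) := by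
    rw [hG, hF']
  have hprob : ∀ x y : Fin n → α, P.real (G ⁻¹' {(x, y)}) =
      (∏ i, L.p (x i)) * ∏ j, L.p (y j) := by
    intro x y
    have h1 := (h.indep.precomp (g := Sum.map (Fin.val : Fin n → ℕ) (Fin.val : Fin n → ℕ))
      (Function.Injective.sumMap Fin.val_injective
        Fin.val_injective)).measure_inter_preimage_eq_mul
      Finset.univ (sets := fun k => Sum.elim (fun i => ({x i} : Set α))
        (fun j => ({y j} : Set α)) k) (by
          intro k _
          rcases k with k | k
          · exact measurableSet_singleton _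
          · exact measurableSet_singleton _)
    have h2 : G ⁻¹' {(x, y)} = ⋂ k ∈ (Finset.univ : Finset (Fin n ⊕ Fin n)),
        (Sum.elim X Y (Sum.map (Fin.val : Fin n → ℕ)
          (Fin.val : Fin n → ℕ) k)) ⁻¹' (Sum.elim (fun i => ({x i} : Set α))
        (fun j => ({y j} : Set α)) k) := by
      ext ω
      rw [hG]
      simp only [Set.mem_preimage, Set.mem_singleton_iff, Prod.mk.injEq, Finset.mem_univ,
        Set.iInter_true, Set.mem_iInter, Sum.forall, Sum.map_inl, Sum.map_inr, Sum.elim_inl,
        Sum.elim_inr, funext_iff]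
    have h3 : P.real (G ⁻¹' {(x, y)}) = ∏ k : Fin n ⊕ Fin n,
        P.real ((Sum.elim X Y (Sum.map (Fin.val : Fin n → ℕ)
          (Fin.val : Fin n → ℕ) k)) ⁻¹' (Sum.elim (fun i => ({x i} : Set α))
        (fun j => ({y j} : Set α)) k)) := by
      rw [h2]
      simp only [Measure.real]
      rw [← ENNReal.toReal_prod]
      exact congrArg ENNReal.toReal h1
    rw [h3, Fintype.prod_sum_type]
    congr 1
    · exact prod_congr rfl fun i _ => h.lawX i (x i)
    · exact prod_congr rfl fun j _ => h.lawY j (y j)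
  constructor
  · rw [hFG]
    exact hF'm.comp hGm
  · have h4 : ∫ ω, F (fun i => X i ω) (fun j => Y j ω) ∂P = ∫ z, F' z ∂(P.map G) := by
      rw [integral_map hGm.aemeasurable hF'm.aestronglyMeasurable]
      exact congrArg (fun f => ∫ ω, f ω ∂P) hFG
    have : IsProbabilityMeasure (P.map G) := Measure.isProbabilityMeasure_map hGm.aemeasurable
    have hint : Integrable F' (P.map G) := Integrable.of_finite
    rw [h4, integral_fintype hint, Fintype.sum_prod_type]
    unfold PE
    refine sum_congr rfl fun x _ => ?_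
    rw [mul_sum]
    refine sum_congr rfl fun y _ => ?_
    have h5 : (P.map G).real {(x, y)} = (∏ i, L.p (x i)) * ∏ j, L.p (y j) := by
      rw [← hprob x y, Measure.real, Measure.map_apply hGm (measurableSet_singleton _)]
      rfl
    rw [h5, hF', smul_eq_mul, mul_assoc]

end LCSH
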