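import Pool.Agent.Lib.MP_ae6bb1_pr.Lcs
import Pool.Agent.Lib.MP_ae6bb1_pr.Transfer
import Pool.Agent.Lib.MP_ae6bb1_pr.Conc

/-! Almost sure convergence (proof document, section K3). -/

open Finset MeasureTheory ProbabilityTheory Filter Topology

namespace LCSH

private theorem AsLimit_row {α : Type} {n : ℕ} (x y : Fin n → α) (i : Fin n) (c : α) :
    (lp (rl (Function.update x i c) y) 0 n 0 n : ℝ) - (lp (rl x y) 0 n 0 n : ℝ) ≤ 1 := by
  have h1 := lp_le_rmr (m := rl (Function.update x i c) y) (a := 0) (b := n) (c := 0) (d := n)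
    {(i : ℕ)}
  have h2 : (({(i : ℕ)} : Finset ℕ).filter (fun j => 0 ≤ j ∧ j < n)).card ≤ 1 := by
    refine (Finset.card_filter_le _ _).trans ?_
    rw [Finset.card_singleton]
  have h3 : lp (rmr {(i : ℕ)} (rl (Function.update x i c) y)) 0 n 0 n ≤ lp (rl x y) 0 n 0 n := by
    refine lp_mono le_rfl le_rfl le_rfl le_rfl ?_
    rintro a b - - - - ⟨⟨ha, hb, hab⟩, hne⟩
    refine ⟨ha, hb, ?_⟩
    have : (⟨a, ha⟩ : Fin n) ≠ i := by
      rintro rfl
      exact hne (Finset.mem_singleton_self _)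
    rw [Function.update_of_ne this] at hab
    exact hab
  have h4 : lp (rl (Function.update x i c) y) 0 n 0 n ≤ lp (rl x y) 0 n 0 n + 1 := by omega
  have h5 : (lp (rl (Function.update x i c) y) 0 n 0 n : ℝ) ≤ (lp (rl x y) 0 n 0 n : ℝ) + 1 := by
    exact_mod_cast h4
  linarith

private theorem AsLimit_col {α : Type} {n : ℕ} (x y : Fin n → α) (i : Fin n) (c : α) :
    (lp (rl x (Function.update y i c)) 0 n 0 n : ℝ) - (lp (rl x y) 0 n 0 n : ℝ) ≤ 1 := by
  have h1 := lp_le_rmc (m := rl x (Function.update y i c)) (a := 0) (b := n) (c := 0) (d := n)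
    {(i : ℕ)}
  have h2 : (({(i : ℕ)} : Finset ℕ).filter (fun j => 0 ≤ j ∧ j < n)).card ≤ 1 := by
    refine (Finset.card_filter_le _ _).trans ?_
    rw [Finset.card_singleton]
  have h3 : lp (rmc {(i : ℕ)} (rl x (Function.update y i c))) 0 n 0 n ≤ lp (rl x y) 0 n 0 n := by
    refine lp_mono le_rfl le_rfl le_rfl le_rfl ?_
    rintro a b - - - - ⟨⟨ha, hb, hab⟩, hne⟩
    refine ⟨ha, hb, ?_⟩
    have : (⟨b, hb⟩ : Fin n) ≠ i := by
      rintro rfl
      exact hne (Finset.mem_singleton_self _)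
    rw [Function.update_of_ne this] at hab
    exact hab
  have h4 : lp (rl x (Function.update y i c)) 0 n 0 n ≤ lp (rl x y) 0 n 0 n + 1 := by omega
  have h5 : (lp (rl x (Function.update y i c)) 0 n 0 n : ℝ) ≤ (lp (rl x y) 0 n 0 n : ℝ) + 1 := by
    exact_mod_cast h4
  linarith

private theorem AsLimit_mgf {α : Type} [Fintype α] (L : Law α) (n : ℕ) {s : ℝ} (hs : |s| ≤ 1) :
    PE (fun _ : Fin n => L.p) (fun x => PE (fun _ : Fin n => L.p) (fun y =>
      Real.exp (s * ((lp (rl x y) 0 n 0 n : ℝ) - EL L n n)))) ≤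
        Real.exp (s ^ 2 * (n + n : ℕ)) :=
  mgf_two L.nonneg L.sum_one L.nonneg L.sum_one
    (fun x y => (lp (rl x y) 0 n 0 n : ℝ)) (fun x y i c => AsLimit_row x y i c)
    (fun x y i c => AsLimit_col x y i c) hs

private theorem AsLimit_ind {α : Type} [Fintype α] (L : Law α) (n : ℕ) (ε : ℝ)
    (hε : 0 ≤ ε) (hε1 : ε ≤ 1) :
    PE (fun _ : Fin n => L.p) (fun x => PE (fun _ : Fin n => L.p) (fun y =>
      ind (ε * n ≤ |(lp (rl x y) 0 n 0 n : ℝ) - EL L n n|))) ≤
        2 * Real.exp (-(ε ^ 2 * n / 8)) := by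
  have hs1 : |ε / 4| ≤ 1 := by
    rw [abs_of_nonneg (by linarith)]
    linarith
  have hs2 : |(-(ε / 4))| ≤ 1 := by
    rw [abs_neg]
    exact hs1
  have m1 := AsLimit_mgf L n hs1
  have m2 := AsLimit_mgf L n hs2
  set c : ℝ := Real.exp (-(ε / 4 * (ε * n))) with hc
  have hc0 : 0 ≤ c := (Real.exp_pos _).le
  have hpt : ∀ x y : Fin n → α, ind (ε * n ≤ |(lp (rl x y) 0 n 0 n : ℝ) - EL L n n|) ≤
      c * Real.exp (ε / 4 * ((lp (rl x y) 0 n 0 n : ℝ) - EL L n n)) +
      c * Real.exp (-(ε / 4) * ((lp (rl x y) 0 n 0 n : ℝ) - EL L n n)) := by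
    intro x y
    set D : ℝ := (lp (rl x y) 0 n 0 n : ℝ) - EL L n n with hD
    have p1 : 0 ≤ c * Real.exp (ε / 4 * D) := mul_nonneg hc0 (Real.exp_pos _).le
    have p2 : 0 ≤ c * Real.exp (-(ε / 4) * D) := mul_nonneg hc0 (Real.exp_pos _).le
    by_cases h : ε * n ≤ |D|
    · rw [ind_of h]
      rcases le_abs.mp h with h1 | h1
      · have h2 : 1 ≤ c * Real.exp (ε / 4 * D) := by
          rw [hc, ← Real.exp_add]
          apply Real.one_le_exp
          have := mul_le_mul_of_nonneg_left h1 (by linarith : 0 ≤ ε / 4)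
          linarith
        linarith
      · have h2 : 1 ≤ c * Real.exp (-(ε / 4) * D) := by
          rw [hc, ← Real.exp_add]
          apply Real.one_le_exp
          have := mul_le_mul_of_nonneg_left h1 (by linarith : 0 ≤ ε / 4)
          linarith
        linarith
    · rw [ind_of_not h]
      linarith
  have h1 := PE_mono (isW_law (ι := Fin n) L) (fun x => PE_mono (isW_law (ι := Fin n) L)
    (fun y => hpt x y))
  refine h1.trans ?_
  simp only [PE_add, PE_const_mul]
  have e1 : c * Real.exp ((ε / 4) ^ 2 * (n + n : ℕ)) = Real.exp (-(ε ^ 2 * n / 8)) := by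
    rw [hc, ← Real.exp_add]
    congr 1
    push_cast
    ring
  have e2 : c * Real.exp ((-(ε / 4)) ^ 2 * (n + n : ℕ)) = Real.exp (-(ε ^ 2 * n / 8)) := by
    rw [neg_sq]
    exact e1
  have k1 := mul_le_mul_of_nonneg_left m1 hc0
  have k2 := mul_le_mul_of_nonneg_left m2 hc0
  rw [e1] at k1
  rw [e2] at k2
  linarith

/-- concentration in an abstract probability space -/
theorem lcs_conc {α : Type} [Fintype α] [DecidableEq α] [MeasurableSpace α]
    [MeasurableSingletonClass α] (L : Law α) {Ω : Type} [MeasurableSpace Ω] (P : Measure Ω)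
    [IsProbabilityMeasure P] (X Y : ℕ → Ω → α) (h : IID L P X Y) (n : ℕ) (ε : ℝ)
    (hε : 0 ≤ ε) (hε1 : ε ≤ 1) :
    P.real {ω | ε * n ≤ |(lcsLen (fun i => X i ω) (fun i => Y i ω) n : ℝ) - EL L n n|} ≤
      2 * Real.exp (-(ε ^ 2 * n / 8)) := by
  have t1 := (transfer L P X Y h n (fun x y => (lp (rl x y) 0 n 0 n : ℝ))).1
  have t2 := (transfer L P X Y h n
    (fun x y => ind (ε * n ≤ |(lp (rl x y) 0 n 0 n : ℝ) - EL L n n|))).2
  set S : Set Ω := {ω | ε * n ≤ |(lcsLen (fun i => X i ω) (fun i => Y i ω) n : ℝ) - EL L n n|}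
    with hS
  have hSe : S = {ω | ε * n ≤ |(lp (rl (fun i : Fin n => X i ω) (fun j : Fin n => Y j ω)) 0 n 0 n : ℝ)
      - EL L n n|} := by
    rw [hS]
    ext ω
    rw [Set.mem_ofPred_eq, Set.mem_ofPred_eq, lcsLen_eq_rl]
  have hSm : MeasurableSet S := by
    rw [hSe]
    exact measurableSet_le measurable_const ((t1.sub_const _).abs)
  have hint : P.real S = ∫ ω, ind (ε * n ≤
      |(lp (rl (fun i : Fin n => X i ω) (fun j : Fin n => Y j ω)) 0 n 0 n : ℝ) - EL L n n|) ∂P := by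
    rw [← integral_indicator_one hSm]
    refine integral_congr_ae (ae_of_all _ fun ω => ?_)
    by_cases hω : ω ∈ S
    · have hω' := hω
      rw [hSe, Set.mem_ofPred_eq] at hω'
      show S.indicator 1 ω = ind _
      rw [Set.indicator_of_mem hω, ind_of hω']
      rfl
    · have hω' := hω
      rw [hSe, Set.mem_ofPred_eq] at hω'
      show S.indicator 1 ω = ind _
      rw [Set.indicator_of_notMem hω, ind_of_not hω']
  rw [hint, t2]
  exact AsLimit_ind L n ε hε hε1

theorem lcs_tendsto {α : Type} [Fintype α] [DecidableEq α] [MeasurableSpace α]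
    [MeasurableSingletonClass α] (L : Law α) {Ω : Type} [MeasurableSpace Ω] (P : Measure Ω)
    [IsProbabilityMeasure P] (X Y : ℕ → Ω → α) (h : IID L P X Y) :
    ∀ᵐ ω ∂P, Tendsto (fun n : ℕ => (lcsLen (fun i => X i ω) (fun i => Y i ω) n : ℝ) / n)
      atTop (𝓝 (gam L)) := by
  have hBC : ∀ k : ℕ, ∀ᵐ ω ∂P, ∀ᶠ n : ℕ in atTop, ω ∉ {ω | (1 / ((k : ℝ) + 1)) * n ≤
      |(lcsLen (fun i => X i ω) (fun i => Y i ω) n : ℝ) - EL L n n|} := by
    intro k
    have hk0 : 0 < 1 / ((k : ℝ) + 1) := by positivity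
    have hk1 : 1 / ((k : ℝ) + 1) ≤ 1 := by
      rw [div_le_one (by positivity)]
      have : (0 : ℝ) ≤ k := Nat.cast_nonneg k
      linarith
    apply ae_eventually_notMem
    have hsum : Summable (fun n : ℕ => 2 * Real.exp (-((1 / ((k : ℝ) + 1)) ^ 2 * n / 8))) := by
      apply Summable.mul_left
      have h1 : (fun n : ℕ => Real.exp (-((1 / ((k : ℝ) + 1)) ^ 2 * n / 8))) =
          fun n : ℕ => Real.exp (-((1 / ((k : ℝ) + 1)) ^ 2 / 8)) ^ n := by
        funext n
        rw [← Real.exp_nat_mul]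
        congr 1
        ring
      rw [h1]
      apply summable_geometric_of_lt_one (Real.exp_pos _).le
      rw [Real.exp_lt_one_iff]
      have : 0 < (1 / ((k : ℝ) + 1)) ^ 2 / 8 := by positivity
      linarith
    refine ne_top_of_le_ne_top hsum.tsum_ofReal_ne_top ?_
    refine ENNReal.tsum_le_tsum fun n => ?_
    rw [← ofReal_measureReal]
    exact ENNReal.ofReal_le_ofReal (lcs_conc L P X Y h n _ hk0.le hk1)
  have hall := ae_all_iff.mpr hBC
  filter_upwards [hall] with ω hω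
  have hdiff : Tendsto (fun n : ℕ => (lcsLen (fun i => X i ω) (fun i => Y i ω) n : ℝ) / n -
      EL L n n / n) atTop (𝓝 0) := by
    rw [Metric.tendsto_nhds]
    intro ε hε
    obtain ⟨k, hk⟩ := exists_nat_one_div_lt hε
    filter_upwards [hω k, eventually_ge_atTop 1] with n hn hn1
    replace hn := not_le.mp hn
    have hn0 : (0 : ℝ) < n := by exact_mod_cast hn1
    rw [Real.dist_eq, sub_zero, ← sub_div, abs_div, abs_of_pos hn0, div_lt_iff₀ hn0]
    refine hn.trans ?_
    exact mul_lt_mul_of_pos_right hk hn0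
  have h2 := hdiff.add (gam_tendsto L)
  rw [zero_add] at h2
  refine h2.congr fun n => ?_
  ring

end LCSH
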