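import Pool.Agent.Lib.MP_ae6bb1_pr.TripleEst

/-! Bonferroni inequalities (proof document, section H1). -/

open Finset

namespace LCSH

open Classical in
/-- mass of the set of letters carried by the columns with property `P` -/
noncomputable def mass {α : Type*} [Fintype α] {n : ℕ} (p : α → ℝ) (y : Fin n → α)
    (P : Fin n → Prop) : ℝ := ∑ a, p a * ind (∃ j, P j ∧ y j = a)

private def Bonf_S2 {n : ℕ} (x : Fin n → ℝ) : ℝ :=
  ∑ j : Fin n, ∑ j' : Fin n, (if j < j' then x j * x j' else 0)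

private def Bonf_S3 {n : ℕ} (x : Fin n → ℝ) : ℝ :=
  ∑ j : Fin n, ∑ j' : Fin n, ∑ j'' : Fin n,
    (if j < j' ∧ j' < j'' then x j * x j' * x j'' else 0)

private theorem Bonf_S2_succ {n : ℕ} (x : Fin (n + 1) → ℝ) :
    Bonf_S2 x = x 0 * (∑ j : Fin n, x j.succ) + Bonf_S2 (fun j : Fin n => x j.succ) := by
  unfold Bonf_S2
  rw [Fin.sum_univ_succ]
  congr 1
  · rw [Fin.sum_univ_succ, Finset.mul_sum]
    simp
  · refine Finset.sum_congr rfl fun j _ => ?_
    rw [Fin.sum_univ_succ]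
    simp

private theorem Bonf_S3_succ {n : ℕ} (x : Fin (n + 1) → ℝ) :
    Bonf_S3 x = x 0 * Bonf_S2 (fun j : Fin n => x j.succ) + Bonf_S3 (fun j : Fin n => x j.succ) := by
  unfold Bonf_S2 Bonf_S3
  rw [Fin.sum_univ_succ]
  congr 1
  · rw [Fin.sum_univ_succ, Finset.mul_sum]
    simp only [lt_self_iff_false, false_and, if_false, Finset.sum_const_zero, zero_add]
    refine Finset.sum_congr rfl fun j _ => ?_
    rw [Fin.sum_univ_succ, Finset.mul_sum]
    simp only [Fin.not_lt_zero, and_false, if_false, zero_add, Fin.succ_pos, true_and,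
      Fin.succ_lt_succ_iff]
    refine Finset.sum_congr rfl fun j' _ => ?_
    split_ifs
    · ring
    · ring
  · refine Finset.sum_congr rfl fun j _ => ?_
    rw [Fin.sum_univ_succ]
    simp only [Fin.not_lt_zero, false_and, if_false, Finset.sum_const_zero, zero_add]
    refine Finset.sum_congr rfl fun j' _ => ?_
    rw [Fin.sum_univ_succ]
    simp only [Fin.not_lt_zero, and_false, if_false, zero_add, Fin.succ_lt_succ_iff]

private theorem Bonf_core : ∀ {n : ℕ} (x : Fin n → ℝ), (∀ j, 0 ≤ x j) → (∀ j, x j ≤ 1) →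
    0 ≤ ∏ j, (1 - x j) ∧ ∏ j, (1 - x j) ≤ 1 ∧ 1 - ∏ j, (1 - x j) ≤ ∑ j, x j ∧
    0 ≤ ∏ j, (1 - x j) - 1 + ∑ j, x j ∧ ∏ j, (1 - x j) - 1 + ∑ j, x j ≤ Bonf_S2 x ∧
    0 ≤ 1 - ∏ j, (1 - x j) - ∑ j, x j + Bonf_S2 x ∧
    1 - ∏ j, (1 - x j) - ∑ j, x j + Bonf_S2 x ≤ Bonf_S3 x := by
  intro n
  induction n with
  | zero =>
    intro x _ _
    simp [Bonf_S2, Bonf_S3]
  | succ n ih =>
    intro x h0 h1
    obtain ⟨a1, a2, a3, a4, a5, a6, a7⟩ := ih (fun j => x j.succ) (fun j => h0 _) (fun j => h1 _)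
    rw [Fin.prod_univ_succ, Fin.sum_univ_succ, Bonf_S2_succ, Bonf_S3_succ]
    generalize ∏ j : Fin n, (1 - x j.succ) = P at *
    generalize ∑ j : Fin n, x j.succ = A at *
    generalize Bonf_S2 (fun j : Fin n => x j.succ) = B at *
    generalize Bonf_S3 (fun j : Fin n => x j.succ) = C at *
    have b0 := h0 0
    have b1 := h1 0
    generalize x 0 = t at *
    have c1 : 0 ≤ (1 - t) * P := mul_nonneg (by linarith) a1
    have c2 : 0 ≤ t * P := mul_nonneg b0 a1
    have c3 : t * P ≤ t := mul_le_of_le_one_right b0 a2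
    have c4 : 0 ≤ t * (1 - P) := mul_nonneg b0 (by linarith)
    have c5 : t * (1 - P) ≤ t * A := mul_le_mul_of_nonneg_left a3 b0
    have c6 : 0 ≤ t * (P - 1 + A) := mul_nonneg b0 a4
    have c7 : t * (P - 1 + A) ≤ t * B := mul_le_mul_of_nonneg_left a5 b0
    refine ⟨c1, ?_, ?_, ?_, ?_, ?_, ?_⟩ <;> nlinarith

private theorem Bonf_abs {n : ℕ} (x : Fin n → ℝ) (h0 : ∀ j, 0 ≤ x j) (h1 : ∀ j, x j ≤ 1) :
    |1 - ∏ j, (1 - x j) - ∑ j, x j + Bonf_S2 x| ≤ Bonf_S3 x := by
  obtain ⟨-, -, -, -, -, a6, a7⟩ := Bonf_core x h0 h1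
  rw [abs_of_nonneg a6]
  exact a7

private theorem Bonf_ind01 (E : Prop) : 0 ≤ ind E ∧ ind E ≤ 1 := by
  unfold ind
  split_ifs <;> norm_num

private theorem Bonf_ind_and (E F : Prop) : ind E * ind F = ind (E ∧ F) := by
  by_cases hE : E <;> by_cases hF : F <;> simp [ind, hE, hF]

private theorem Bonf_ind_ex {n : ℕ} (Q : Fin n → Prop) :
    ind (∃ j, Q j) = 1 - ∏ j, (1 - ind (Q j)) := by
  by_cases h : ∃ j, Q j
  · obtain ⟨j, hj⟩ := h
    have h1 : ∏ j, (1 - ind (Q j)) = 0 :=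
      Finset.prod_eq_zero (Finset.mem_univ j) (by simp [ind, hj])
    rw [h1, sub_zero]
    unfold ind
    exact if_pos ⟨j, hj⟩
  · have h1 : ∏ j, (1 - ind (Q j)) = 1 := by
      refine Finset.prod_eq_one fun j _ => ?_
      have : ¬ Q j := fun hj => h ⟨j, hj⟩
      simp [ind, this]
    rw [h1, sub_self]
    unfold ind
    exact if_neg h

/-- the sum over the letter of a product of two indicators -/
private theorem Bonf_two {α : Type*} [Fintype α] [DecidableEq α] {n : ℕ} (p : α → ℝ)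
    (y : Fin n → α) (P : Fin n → Prop) (j j' : Fin n) :
    ∑ a, p a * (ind (P j ∧ y j = a) * ind (P j' ∧ y j' = a)) =
      (if y j = y j' then p (y j) else 0) * ind (P j ∧ P j') := by
  rw [Finset.sum_eq_single (y j)]
  · by_cases h : y j = y j'
    · rw [if_pos h, Bonf_ind_and]
      congr 2
      rw [h]
      simp
    · rw [if_neg h, zero_mul]
      have h1 : ¬ (P j' ∧ y j' = y j) := fun hh => h hh.2.symm
      simp [ind, h1]
  · intro a _ ha
    have h1 : ¬ (P j ∧ y j = a) := fun hh => ha hh.2.symm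
    simp [ind, h1]
  · intro h
    exact absurd (Finset.mem_univ _) h

private theorem Bonf_three {α : Type*} [Fintype α] [DecidableEq α] {n : ℕ} (p : α → ℝ)
    (y : Fin n → α) (P : Fin n → Prop) (j j' j'' : Fin n) :
    ∑ a, p a * (ind (P j ∧ y j = a) * ind (P j' ∧ y j' = a) * ind (P j'' ∧ y j'' = a)) =
      (if y j = y j' ∧ y j = y j'' then p (y j) else 0) * ind (P j ∧ P j' ∧ P j'') := by
  rw [Finset.sum_eq_single (y j)]
  · by_cases h : y j = y j' ∧ y j = y j''
    · rw [if_pos h, Bonf_ind_and, Bonf_ind_and]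
      congr 2
      rw [← h.1, ← h.2]
      simp [and_assoc]
    · rw [if_neg h, zero_mul]
      by_cases h2 : y j = y j'
      · have h3 : ¬ y j = y j'' := fun hh => h ⟨h2, hh⟩
        have h1 : ¬ (P j'' ∧ y j'' = y j) := fun hh => h3 hh.2.symm
        simp [ind, h1]
      · have h1 : ¬ (P j' ∧ y j' = y j) := fun hh => h2 hh.2.symm
        simp [ind, h1]
  · intro a _ ha
    have h1 : ¬ (P j ∧ y j = a) := fun hh => ha hh.2.symm
    simp [ind, h1]
  · intro h
    exact absurd (Finset.mem_univ _) h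

theorem mass_bonf {α : Type*} [Fintype α] [DecidableEq α] {n : ℕ} (p : α → ℝ)
    (hp : ∀ a, 0 ≤ p a) (y : Fin n → α) (P : Fin n → Prop) :
    |mass p y P - (∑ j : Fin n, p (y j) * ind (P j)) +
      ∑ j : Fin n, ∑ j' : Fin n, (if j < j' then (if y j = y j' then p (y j) else 0) *
        ind (P j ∧ P j') else 0)| ≤
    ∑ j : Fin n, ∑ j' : Fin n, ∑ j'' : Fin n, (if j < j' ∧ j' < j'' then
      (if y j = y j' ∧ y j = y j'' then p (y j) else 0) * ind (P j ∧ P j' ∧ P j'') else 0) := by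
  have e1 : ∑ j : Fin n, p (y j) * ind (P j) = ∑ a, p a * ∑ j, ind (P j ∧ y j = a) := by
    simp_rw [Finset.mul_sum]
    rw [Finset.sum_comm]
    refine Finset.sum_congr rfl fun j _ => ?_
    rw [Finset.sum_eq_single (y j)]
    · simp
    · intro a _ ha
      have h1 : ¬ (P j ∧ y j = a) := fun hh => ha hh.2.symm
      simp [ind, h1]
    · intro h
      exact absurd (Finset.mem_univ _) h
  have e2 : ∑ j : Fin n, ∑ j' : Fin n, (if j < j' then (if y j = y j' then p (y j) else 0) *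
        ind (P j ∧ P j') else 0) = ∑ a, p a * Bonf_S2 (fun j => ind (P j ∧ y j = a)) := by
    symm
    unfold Bonf_S2
    simp_rw [Finset.mul_sum]
    rw [Finset.sum_comm]
    refine Finset.sum_congr rfl fun j _ => ?_
    rw [Finset.sum_comm]
    refine Finset.sum_congr rfl fun j' _ => ?_
    by_cases h : j < j'
    · simp only [h, if_true]
      exact Bonf_two p y P j j'
    · simp only [h, if_false, mul_zero, Finset.sum_const_zero]
  have e3 : ∑ j : Fin n, ∑ j' : Fin n, ∑ j'' : Fin n, (if j < j' ∧ j' < j'' then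
      (if y j = y j' ∧ y j = y j'' then p (y j) else 0) * ind (P j ∧ P j' ∧ P j'') else 0) =
      ∑ a, p a * Bonf_S3 (fun j => ind (P j ∧ y j = a)) := by
    symm
    unfold Bonf_S3
    simp_rw [Finset.mul_sum]
    rw [Finset.sum_comm]
    refine Finset.sum_congr rfl fun j _ => ?_
    rw [Finset.sum_comm]
    refine Finset.sum_congr rfl fun j' _ => ?_
    rw [Finset.sum_comm]
    refine Finset.sum_congr rfl fun j'' _ => ?_
    by_cases h : j < j' ∧ j' < j''
    · simp only [h, and_self, if_true]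
      exact Bonf_three p y P j j' j''
    · simp only [h, if_false, mul_zero, Finset.sum_const_zero]
  rw [e1, e2, e3]
  unfold mass
  rw [← Finset.sum_sub_distrib, ← Finset.sum_add_distrib]
  refine (Finset.abs_sum_le_sum_abs _ _).trans (Finset.sum_le_sum fun a _ => ?_)
  have h1 := Bonf_abs (fun j => ind (P j ∧ y j = a)) (fun j => (Bonf_ind01 _).1)
    (fun j => (Bonf_ind01 _).2)
  rw [← Bonf_ind_ex (fun j => P j ∧ y j = a)] at h1
  rw [← mul_sub, ← mul_add, abs_mul, abs_of_nonneg (hp a)]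
  exact mul_le_mul_of_nonneg_left h1 (hp a)

theorem prod_bonf {n : ℕ} (v : Fin n → ℝ) (hv0 : ∀ j, 0 ≤ v j) (hv1 : ∀ j, v j ≤ 1)
    (P : Fin n → Prop) :
    |(1 - ∏ j : Fin n, (1 - v j * ind (P j))) - (∑ j : Fin n, v j * ind (P j)) +
      ∑ j : Fin n, ∑ j' : Fin n, (if j < j' then v j * v j' * ind (P j ∧ P j') else 0)| ≤
    ∑ j : Fin n, ∑ j' : Fin n, ∑ j'' : Fin n, (if j < j' ∧ j' < j'' then
      v j * v j' * v j'' * ind (P j ∧ P j' ∧ P j'') else 0) := by
  have h1 := Bonf_abs (fun j => v j * ind (P j))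
    (fun j => mul_nonneg (hv0 j) (Bonf_ind01 _).1)
    (fun j => mul_le_one₀ (hv1 j) (Bonf_ind01 _).1 (Bonf_ind01 _).2)
  have e2 : Bonf_S2 (fun j => v j * ind (P j)) =
      ∑ j : Fin n, ∑ j' : Fin n, (if j < j' then v j * v j' * ind (P j ∧ P j') else 0) := by
    unfold Bonf_S2
    refine Finset.sum_congr rfl fun j _ => Finset.sum_congr rfl fun j' _ => ?_
    split_ifs
    · rw [← Bonf_ind_and]
      ring
    · rfl
  have e3 : Bonf_S3 (fun j => v j * ind (P j)) =
      ∑ j : Fin n, ∑ j' : Fin n, ∑ j'' : Fin n, (if j < j' ∧ j' < j'' then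
      v j * v j' * v j'' * ind (P j ∧ P j' ∧ P j'') else 0) := by
    unfold Bonf_S3
    refine Finset.sum_congr rfl fun j _ => Finset.sum_congr rfl fun j' _ =>
      Finset.sum_congr rfl fun j'' _ => ?_
    split_ifs
    · rw [← Bonf_ind_and, ← Bonf_ind_and]
      ring
    · rfl
  rw [e2, e3] at h1
  exact h1

/-- comparison of the mass with the product functional -/
theorem mass_prod {α : Type*} [Fintype α] [DecidableEq α] (L : Law α) {n : ℕ}
    (y : Fin n → α) (P : Fin n → Prop) :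
    |mass L.p y P - L.sg / L.kp * (1 - ∏ j : Fin n, (1 - L.kp * L.u (y j) * ind (P j))) +
      ∑ j : Fin n, ∑ j' : Fin n, (if j < j' then ff L (y j) (y j') * ind (P j ∧ P j') else 0)| ≤
    ∑ j : Fin n, ∑ j' : Fin n, ∑ j'' : Fin n, (if j < j' ∧ j' < j'' then
      f3 L (y j) (y j') (y j'') * ind (P j ∧ P j' ∧ P j'') else 0) := by
  have hk := kp_pos L
  have hs := sg_pos L
  have hsk : 0 ≤ L.sg / L.kp := (div_pos hs hk).le
  have hk1 : L.kp ≤ 1 := (kp_le_et L).trans (et_le_one L)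
  have h1 := mass_bonf L.p L.nonneg y P
  have h2 := prod_bonf (fun j => L.kp * L.u (y j)) (fun j => mul_nonneg hk.le (u_nonneg L _))
    (fun j => mul_le_one₀ hk1 (u_nonneg L _) ((u_le_et L _).trans (et_le_one L))) P
  have h3 := mul_le_mul_of_nonneg_left h2 hsk
  rw [← abs_of_nonneg hsk, ← abs_mul, abs_of_nonneg hsk] at h3
  have e1 : L.sg / L.kp * ∑ j : Fin n, L.kp * L.u (y j) * ind (P j) =
      ∑ j : Fin n, L.p (y j) * ind (P j) := by
    rw [Finset.mul_sum]
    refine Finset.sum_congr rfl fun j _ => ?_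
    rw [p_eq L (y j)]
    field_simp
  have e2 : (∑ j : Fin n, ∑ j' : Fin n, (if j < j' then (if y j = y j' then L.p (y j) else 0) *
        ind (P j ∧ P j') else 0)) - L.sg / L.kp * (∑ j : Fin n, ∑ j' : Fin n,
        (if j < j' then L.kp * L.u (y j) * (L.kp * L.u (y j')) * ind (P j ∧ P j') else 0)) =
      ∑ j : Fin n, ∑ j' : Fin n, (if j < j' then ff L (y j) (y j') * ind (P j ∧ P j') else 0) := by
    rw [Finset.mul_sum, ← Finset.sum_sub_distrib]
    refine Finset.sum_congr rfl fun j _ => ?_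
    rw [Finset.mul_sum, ← Finset.sum_sub_distrib]
    refine Finset.sum_congr rfl fun j' _ => ?_
    unfold ff
    by_cases h : j < j'
    · simp only [h, if_true]
      field_simp
    · simp only [h, if_false]
      ring
  have e3 : (∑ j : Fin n, ∑ j' : Fin n, ∑ j'' : Fin n, (if j < j' ∧ j' < j'' then
      (if y j = y j' ∧ y j = y j'' then L.p (y j) else 0) * ind (P j ∧ P j' ∧ P j'') else 0)) +
      L.sg / L.kp * (∑ j : Fin n, ∑ j' : Fin n, ∑ j'' : Fin n, (if j < j' ∧ j' < j'' then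
      L.kp * L.u (y j) * (L.kp * L.u (y j')) * (L.kp * L.u (y j'')) *
        ind (P j ∧ P j' ∧ P j'') else 0)) =
      ∑ j : Fin n, ∑ j' : Fin n, ∑ j'' : Fin n, (if j < j' ∧ j' < j'' then
      f3 L (y j) (y j') (y j'') * ind (P j ∧ P j' ∧ P j'') else 0) := by
    rw [Finset.mul_sum, ← Finset.sum_add_distrib]
    refine Finset.sum_congr rfl fun j _ => ?_
    rw [Finset.mul_sum, ← Finset.sum_add_distrib]
    refine Finset.sum_congr rfl fun j' _ => ?_
    rw [Finset.mul_sum, ← Finset.sum_add_distrib]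
    refine Finset.sum_congr rfl fun j'' _ => ?_
    unfold f3
    by_cases h : j < j' ∧ j' < j''
    · simp only [h, and_self, if_true]
      field_simp
    · simp only [h, if_false]
      ring
  rw [← e3]
  have e4 : mass L.p y P - L.sg / L.kp * (1 - ∏ j : Fin n, (1 - L.kp * L.u (y j) * ind (P j))) +
      ∑ j : Fin n, ∑ j' : Fin n, (if j < j' then ff L (y j) (y j') * ind (P j ∧ P j') else 0) =
      (mass L.p y P - (∑ j : Fin n, L.p (y j) * ind (P j)) +
      ∑ j : Fin n, ∑ j' : Fin n, (if j < j' then (if y j = y j' then L.p (y j) else 0) *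
        ind (P j ∧ P j') else 0)) -
      L.sg / L.kp * ((1 - ∏ j : Fin n, (1 - L.kp * L.u (y j) * ind (P j))) -
        (∑ j : Fin n, L.kp * L.u (y j) * ind (P j)) +
      ∑ j : Fin n, ∑ j' : Fin n, (if j < j' then L.kp * L.u (y j) * (L.kp * L.u (y j')) *
        ind (P j ∧ P j') else 0)) := by
    linear_combination -e2 - e1
  rw [e4]
  refine (abs_sub _ _).trans ?_
  exact add_le_add h1 h3

end LCSH
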