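import Pool.Agent.Lib.MP_ae6bb1_pr.LpBasic

/-! Splitting and row insertion (proof document, section A2). -/

open Finset

namespace LCSH

/-- split an optimal chain at row `b` -/
theorem lp_split_row (m : ℕ → ℕ → Prop) {a b e c f : ℕ} (hab : a ≤ b) (hbe : b ≤ e)
    (hcf : c ≤ f) : ∃ d, c ≤ d ∧ d ≤ f ∧ lp m a e c f = lp m a b c d + lp m b e d f := by
  obtain ⟨s, hs, hcard⟩ := exists_chain m a e c f
  obtain ⟨hs1, hs2⟩ := hs
  set s1 : Finset (ℕ × ℕ) := s.filter (fun q => q.1 < b) with hs1d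
  set s2 : Finset (ℕ × ℕ) := s.filter (fun q => ¬ q.1 < b) with hs2d
  set d : ℕ := max c (s1.sup (fun q => q.2 + 1)) with hd
  have hdf : d ≤ f := by
    apply max_le hcf
    apply Finset.sup_le
    intro q hq
    have := hs1 q (Finset.mem_filter.mp hq).1
    omega
  have hc1 : Chain m a b c d s1 := by
    refine ⟨fun q hq => ?_, fun q hq q' hq' hne => ?_⟩
    · obtain ⟨hq1, hq2⟩ := Finset.mem_filter.mp hq
      obtain ⟨h1, h2, h3, h4, h5⟩ := hs1 q hq1
      refine ⟨h1, hq2, h3, ?_, h5⟩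
      have h6 : q.2 + 1 ≤ s1.sup (fun q => q.2 + 1) :=
        Finset.le_sup (f := fun q : ℕ × ℕ => q.2 + 1) hq
      have h7 : s1.sup (fun q => q.2 + 1) ≤ d := le_max_right _ _
      omega
    · exact hs2 q (Finset.mem_filter.mp hq).1 q' (Finset.mem_filter.mp hq').1 hne
  have hc2 : Chain m b e d f s2 := by
    refine ⟨fun q hq => ?_, fun q hq q' hq' hne => ?_⟩
    · obtain ⟨hq1, hq2⟩ := Finset.mem_filter.mp hq
      obtain ⟨h1, h2, h3, h4, h5⟩ := hs1 q hq1
      refine ⟨not_lt.mp hq2, h2, ?_, h4, h5⟩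
      apply max_le h3
      apply Finset.sup_le
      intro q' hq'
      obtain ⟨hq1', hq2'⟩ := Finset.mem_filter.mp hq'
      have hne : q' ≠ q := by
        rintro rfl
        exact hq2 hq2'
      rcases hs2 q' hq1' q hq1 hne with h6 | h6
      · omega
      · omega
    · exact hs2 q (Finset.mem_filter.mp hq).1 q' (Finset.mem_filter.mp hq').1 hne
  have hsum : s1.card + s2.card = s.card := by
    rw [hs1d, hs2d]
    exact Finset.card_filter_add_card_filter_not (s := s) (fun q : ℕ × ℕ => q.1 < b)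
  refine ⟨d, le_max_left _ _, hdf, le_antisymm ?_ (lp_super m hab hbe (le_max_left _ _) hdf)⟩
  have h1 := le_lp hc1
  have h2 := le_lp hc2
  omega

theorem lp_row_cell (m : ℕ → ℕ → Prop) {a T d j c : ℕ} (haT : a ≤ T) (hdj : d ≤ j)
    (hjc : j < c) (hm : m T j) : lp m a T d j + 1 ≤ lp m a (T + 1) d c := by
  classical
  obtain ⟨s, hs, hcard⟩ := exists_chain m a T d j
  obtain ⟨hs1, hs2⟩ := hs
  have hnot : (T, j) ∉ s := by
    intro h
    have := (hs1 _ h).2.1
    simp at this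
  have hch : Chain m a (T + 1) d c (insert (T, j) s) := by
    refine ⟨fun q hq => ?_, fun q hq q' hq' hne => ?_⟩
    · rcases Finset.mem_insert.mp hq with rfl | hq
      · exact ⟨haT, Nat.lt_succ_self T, hdj, hjc, hm⟩
      · obtain ⟨h1, h2, h3, h4, h5⟩ := hs1 q hq
        exact ⟨h1, by omega, h3, by omega, h5⟩
    · rcases Finset.mem_insert.mp hq with rfl | hq
      · rcases Finset.mem_insert.mp hq' with rfl | hq'
        · exact absurd rfl hne
        · obtain ⟨h1, h2, h3, h4, h5⟩ := hs1 q' hq'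
          exact Or.inr ⟨h2, h4⟩
      · rcases Finset.mem_insert.mp hq' with rfl | hq'
        · obtain ⟨h1, h2, h3, h4, h5⟩ := hs1 q hq
          exact Or.inl ⟨h2, h4⟩
        · exact hs2 q hq q' hq' hne
  have h1 := le_lp hch
  rw [Finset.card_insert_of_notMem hnot] at h1
  omega

theorem lp_row_cases (m : ℕ → ℕ → Prop) {a T d c : ℕ} (haT : a ≤ T) :
    lp m a (T + 1) d c = lp m a T d c ∨
      ∃ j, d ≤ j ∧ j < c ∧ m T j ∧ lp m a (T + 1) d c = lp m a T d j + 1 := by
  classical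
  obtain ⟨s, hs, hcard⟩ := exists_chain m a (T + 1) d c
  obtain ⟨hs1, hs2⟩ := hs
  by_cases hex : ∃ q ∈ s, q.1 = T
  · right
    obtain ⟨q, hq, hqT⟩ := hex
    obtain ⟨h1, h2, h3, h4, h5⟩ := hs1 q hq
    rw [hqT] at h5
    refine ⟨q.2, h3, h4, h5, le_antisymm ?_ (lp_row_cell m haT h3 h4 h5)⟩
    have hch : Chain m a T d q.2 (s.erase q) := by
      refine ⟨fun q' hq' => ?_, fun q1 hq1 q2 hq2 hne => ?_⟩
      · obtain ⟨hne, hq's⟩ := Finset.mem_erase.mp hq'
        obtain ⟨h1', h2', h3', h4', h5'⟩ := hs1 q' hq's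
        rcases hs2 q hq q' hq's (Ne.symm hne) with h6 | h6
        · omega
        · exact ⟨h1', by omega, h3', h6.2, h5'⟩
      · exact hs2 q1 (Finset.mem_erase.mp hq1).2 q2 (Finset.mem_erase.mp hq2).2 hne
    have h6 := le_lp hch
    have h7 := Finset.card_erase_add_one hq
    omega
  · left
    push Not at hex
    refine le_antisymm ?_ (lp_mono le_rfl (Nat.le_succ T) le_rfl le_rfl
      (fun i j _ _ _ _ h => h))
    have hch : Chain m a T d c s := by
      refine ⟨fun q hq => ?_, hs2⟩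
      obtain ⟨h1, h2, h3, h4, h5⟩ := hs1 q hq
      have := hex q hq
      exact ⟨h1, by omega, h3, h4, h5⟩
    have h1 := le_lp hch
    omega

end LCSH
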