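import Pool.Agent.Lib.MP_ae6bb1_pr.Conc
import Pool.Agent.Lib.MP_ae6bb1_pr.LpSplit

/-! Chopping into strips of `T` rows (proof document, section I4). -/

open Finset

namespace LCSH

variable {α : Type*} [Fintype α] [DecidableEq α] (L : Law α)

private theorem Chop_ER_nonneg (h u : ℕ) (s : ℝ) : 0 ≤ ER L h u (fun v => Real.exp (s * v)) := by
  unfold ER
  exact PE_nonneg (isW_law L) fun x => PE_nonneg (isW_law L) fun y => (Real.exp_pos _).le

/-- recursion over strips -/
theorem ER_strip (T k N : ℕ) (s : ℝ) (hs : 0 ≤ s) :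
    ER L (T * (k + 1)) N (fun v => Real.exp (s * v)) ≤
      ∑ D ∈ Finset.range (N + 1), ER L (T * k) (N - D) (fun v => Real.exp (s * v)) *
        ER L T D (fun v => Real.exp (s * v)) := by
  rw [Nat.mul_succ]
  have h1 := EE_rect L (θ := 1) (T := T * k + T) (n := N) one_pos 0 (T * k + T) 0 N (by omega)
    (by omega) (fun v => Real.exp (s * v))
  rw [← h1]
  have h2 : ∀ D ∈ Finset.range (N + 1), ER L (T * k) (N - D) (fun v => Real.exp (s * v)) *
        ER L T D (fun v => Real.exp (s * v)) = EE L 1 (T * k + T) N (fun x y _ =>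
        Real.exp (s * (lp (rl x y) 0 (T * k) 0 (N - D) : ℕ)) *
        Real.exp (s * (lp (rl x y) (T * k) (T * k + T) (N - D) (N - D + D) : ℕ))) := by
    intro D hD
    have hD' : D < N + 1 := Finset.mem_range.1 hD
    exact (EE_rect_mul L (θ := 1) (T := T * k + T) (n := N) one_pos (T * k) T (N - D) D le_rfl
      (by omega) (fun v => Real.exp (s * v)) (fun v => Real.exp (s * v))).symm
  rw [Finset.sum_congr rfl h2, ← EE_sum]
  refine EE_mono L one_pos fun x y _ => ?_
  obtain ⟨d, -, hd, he⟩ := lp_split_row (rl x y) (a := 0) (b := T * k) (e := T * k + T) (c := 0)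
    (f := N) (Nat.zero_le _) (Nat.le_add_right _ _) (Nat.zero_le _)
  have h3 : N - (N - d) = d := by omega
  have h4 : d + (N - d) = N := by omega
  have h5 := Finset.single_le_sum (s := Finset.range (N + 1)) (f := fun D =>
    Real.exp (s * (lp (rl x y) 0 (T * k) 0 (N - D) : ℕ)) *
        Real.exp (s * (lp (rl x y) (T * k) (T * k + T) (N - D) (N - D + D) : ℕ)))
    (fun D _ => (mul_pos (Real.exp_pos _) (Real.exp_pos _)).le)
    (Finset.mem_range.2 (by omega : N - d < N + 1))
  refine le_trans (le_of_eq ?_) h5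
  simp only [zero_add, h3, h4]
  rw [← Real.exp_add, he]
  push_cast
  congr 1
  ring

theorem ER_strips (T : ℕ) (s R S : ℝ) (hs : 0 ≤ s) (hR : 0 ≤ R) (hS : 1 ≤ S)
    (h : ∀ N : ℕ, ∑ D ∈ Finset.range (N + 1), ER L T D (fun v => Real.exp (s * v)) *
      Real.exp (-(s * R * D)) ≤ S) (k N : ℕ) :
    ER L (T * k) N (fun v => Real.exp (s * v)) ≤ S ^ k * Real.exp (s * R * N) := by
  induction k generalizing N with
  | zero =>
    have h0 : ER L (T * 0) N (fun v => Real.exp (s * v)) = 1 := by
      unfold ER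
      have h1 : ∀ (x : Fin (T * 0) → α) (y : Fin N → α), lp (rl x y) 0 (T * 0) 0 N = 0 := by
        intro x y
        have := lp_le_rows (rl x y) 0 (T * 0) 0 N
        omega
      have h2 : (fun x : Fin (T * 0) → α => PE (fun _ : Fin N => L.p) fun y =>
          (fun v : ℕ => Real.exp (s * (v : ℝ))) (lp (rl x y) 0 (T * 0) 0 N)) = fun _ => 1 := by
        funext x
        have h3 : (fun y : Fin N → α => (fun v : ℕ => Real.exp (s * (v : ℝ)))
            (lp (rl x y) 0 (T * 0) 0 N)) = fun _ => 1 := by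
          funext y
          rw [h1]
          simp
        rw [h3]
        exact PE_const (isW_law L) 1
      rw [h2]
      exact PE_const (isW_law L) 1
    rw [h0, pow_zero, one_mul]
    exact Real.one_le_exp (by positivity)
  | succ k ih =>
    refine (ER_strip L T k N s hs).trans ?_
    have h1 : ∀ D ∈ Finset.range (N + 1), ER L (T * k) (N - D) (fun v => Real.exp (s * v)) *
        ER L T D (fun v => Real.exp (s * v)) ≤ S ^ k * Real.exp (s * R * N) *
        (ER L T D (fun v => Real.exp (s * v)) * Real.exp (-(s * R * D))) := by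
      intro D hD
      have hD' : D ≤ N := Nat.lt_succ_iff.1 (Finset.mem_range.1 hD)
      have h2 := mul_le_mul_of_nonneg_right (ih (N - D)) (Chop_ER_nonneg L T D s)
      refine h2.trans (le_of_eq ?_)
      have h3 : Real.exp (s * R * ((N - D : ℕ) : ℝ)) =
          Real.exp (s * R * N) * Real.exp (-(s * R * D)) := by
        rw [← Real.exp_add, Nat.cast_sub hD']
        congr 1
        ring
      rw [h3]
      ring
    refine (Finset.sum_le_sum h1).trans ?_
    rw [← Finset.mul_sum]
    have hS0 : 0 ≤ S := zero_le_one.trans hS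
    calc S ^ k * Real.exp (s * R * N) * ∑ D ∈ Finset.range (N + 1),
          ER L T D (fun v => Real.exp (s * v)) * Real.exp (-(s * R * D))
        ≤ S ^ k * Real.exp (s * R * N) * S :=
          mul_le_mul_of_nonneg_left (h N) (by positivity)
      _ = S ^ (k + 1) * Real.exp (s * R * N) := by ring

private theorem Chop_jensen (a b : ℕ) (s : ℝ) :
    Real.exp (s * EL L a b) ≤ ER L a b (fun v => Real.exp (s * v)) := by
  unfold EL ER
  rw [← PE_const_mul]
  refine (exp_PE_le (isW_law L) _).trans (PE_mono (isW_law L) fun x => ?_)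
  rw [← PE_const_mul]
  exact exp_PE_le (isW_law L) _

theorem gam_le_strips (T : ℕ) (hT : 0 < T) (s R S : ℝ) (hs : 0 < s) (hR : 0 ≤ R) (hS : 1 ≤ S)
    (h : ∀ N : ℕ, ∑ D ∈ Finset.range (N + 1), ER L T D (fun v => Real.exp (s * v)) *
      Real.exp (-(s * R * D)) ≤ S) :
    gam L ≤ R + Real.log S / (s * T) := by
  refine gam_le_of_mul L T hT _ fun k => ?_
  have h1 := (Chop_jensen L (T * k) (T * k) s).trans (ER_strips L T s R S hs.le hR hS h k (T * k))
  have hS0 : 0 < S := zero_lt_one.trans_le hS
  have h2 := Real.log_le_log (Real.exp_pos _) h1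
  rw [Real.log_exp, Real.log_mul (by positivity) (Real.exp_pos _).ne', Real.log_pow,
    Real.log_exp] at h2
  have hT' : (0 : ℝ) < T := Nat.cast_pos.2 hT
  have h3 : (R + Real.log S / (s * T)) * ((T * k : ℕ) : ℝ) =
      (k * Real.log S + s * R * ((T * k : ℕ) : ℝ)) / s := by
    push_cast
    field_simp
    ring
  rw [h3, le_div_iff₀ hs]
  linarith

/-- the bound `S` from a bound on `EL T D`, `D ≤ n` -/
theorem strip_sum (T n : ℕ) (hT : 0 < T) (s R g : ℝ) (hs : 0 < s) (hs1 : s ≤ 1) (hR : 0 < R)
    (hg0 : 0 ≤ g) (hR1 : R ≤ 1)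
    (hEL : ∀ D ≤ n, EL L T D ≤ R * D + T * g)
    (hn : 2 * (T : ℝ) ≤ R * n) (hsT : 2 / (s * R) ≤ Real.exp (s * T)) (N : ℕ) :
    ∑ D ∈ Finset.range (N + 1), ER L T D (fun v => Real.exp (s * v)) *
      Real.exp (-(s * R * D)) ≤ (n + 2) * Real.exp (s * T * g + s ^ 2 * (T + n : ℕ)) := by
  have hx : 0 < s * R := mul_pos hs hR
  have hx1 : s * R ≤ 1 := mul_le_one₀ hs1 hR.le hR1
  obtain ⟨E, hE⟩ : ∃ E : ℝ, E = Real.exp (s * T * g + s ^ 2 * (T + n : ℕ)) := ⟨_, rfl⟩
  have hE1 : 1 ≤ E := by
    rw [hE]
    exact Real.one_le_exp (by positivity)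
  obtain ⟨q, hq⟩ : ∃ q : ℝ, q = Real.exp (-(s * R)) := ⟨_, rfl⟩
  have hq0 : 0 ≤ q := by rw [hq]; exact (Real.exp_pos _).le
  have hq1 : q ≤ 1 - s * R / 2 := by
    have h1 : (1 + s * R) * q ≤ 1 := by
      have h2 : 1 + s * R ≤ Real.exp (s * R) := by
        have := Real.add_one_le_exp (s * R)
        linarith
      have h3 : Real.exp (s * R) * q = 1 := by
        rw [hq, ← Real.exp_add]
        simp
      have h4 := mul_le_mul_of_nonneg_right h2 hq0
      linarith
    by_contra hc
    push Not at hc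
    have h5 : (1 + s * R) * (1 - s * R / 2) < (1 + s * R) * q :=
      mul_lt_mul_of_pos_left hc (by linarith)
    have h6 : 0 ≤ s * R * (1 - s * R) := mul_nonneg hx.le (by linarith)
    linarith
  have hq1' : q < 1 := by linarith
  -- pointwise bounds
  have hA : ∀ D ≤ n, ER L T D (fun v => Real.exp (s * v)) * Real.exp (-(s * R * D)) ≤ E := by
    intro D hD
    have h1 := mul_le_mul_of_nonneg_right (ER_mgf L T D hs.le hs1)
      (Real.exp_pos (-(s * R * D))).le
    refine h1.trans ?_
    rw [← Real.exp_add, hE]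
    refine Real.exp_le_exp.2 ?_
    have h2 := mul_le_mul_of_nonneg_left (hEL D hD) hs.le
    have h3 : ((T + D : ℕ) : ℝ) ≤ ((T + n : ℕ) : ℝ) := by exact_mod_cast Nat.add_le_add_left hD T
    have h4 := mul_le_mul_of_nonneg_left h3 (sq_nonneg s)
    linarith
  have hB : ∀ D : ℕ, ER L T D (fun v => Real.exp (s * v)) * Real.exp (-(s * R * D)) ≤
      Real.exp (s * T) * q ^ D := by
    intro D
    have h1 : ER L T D (fun v => Real.exp (s * v)) ≤ Real.exp (s * T) := by
      unfold ER
      refine PE_le_of_le (isW_law L) fun x => PE_le_of_le (isW_law L) fun y => ?_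
      refine Real.exp_le_exp.2 (mul_le_mul_of_nonneg_left ?_ hs.le)
      exact_mod_cast lp_le_rows (rl x y) 0 T 0 D
    have h2 : Real.exp (-(s * R * D)) = q ^ D := by
      rw [hq, ← Real.exp_nat_mul]
      congr 1
      ring
    rw [h2]
    exact mul_le_mul_of_nonneg_right h1 (pow_nonneg hq0 _)
  rw [← hE, ← Finset.sum_filter_add_sum_filter_not (Finset.range (N + 1)) (fun D => D ≤ n)]
  have h1 : ∑ D ∈ (Finset.range (N + 1)).filter (fun D => D ≤ n),
      ER L T D (fun v => Real.exp (s * v)) * Real.exp (-(s * R * D)) ≤ (n + 1) * E := by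
    refine (Finset.sum_le_card_nsmul _ _ E fun D hD => hA D (Finset.mem_filter.1 hD).2).trans ?_
    rw [nsmul_eq_mul]
    refine mul_le_mul_of_nonneg_right ?_ (by linarith)
    have h2 : ((Finset.range (N + 1)).filter (fun D => D ≤ n)).card ≤ n + 1 := by
      refine (Finset.card_le_card (t := Finset.range (n + 1)) fun D hD => ?_).trans
        (le_of_eq (Finset.card_range _))
      exact Finset.mem_range.2 (Nat.lt_succ_of_le (Finset.mem_filter.1 hD).2)
    exact_mod_cast h2
  have h2 : ∑ D ∈ (Finset.range (N + 1)).filter (fun D => ¬ D ≤ n),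
      ER L T D (fun v => Real.exp (s * v)) * Real.exp (-(s * R * D)) ≤ 1 := by
    have h3 : ∑ D ∈ (Finset.range (N + 1)).filter (fun D => ¬ D ≤ n),
        ER L T D (fun v => Real.exp (s * v)) * Real.exp (-(s * R * D)) ≤
        ∑ D ∈ Finset.Ico n (N + 1), Real.exp (s * T) * q ^ D := by
      refine (Finset.sum_le_sum fun D _ => hB D).trans ?_
      refine Finset.sum_le_sum_of_subset_of_nonneg (fun D hD => ?_) fun D _ _ => by positivity
      obtain ⟨hD1, hD2⟩ := Finset.mem_filter.1 hD
      have := Finset.mem_range.1 hD1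
      exact Finset.mem_Ico.2 ⟨by omega, this⟩
    refine h3.trans ?_
    rw [← Finset.mul_sum]
    have h4 := geom_sum_Ico_le_of_lt_one (m := n) (n := N + 1) hq0 hq1'
    have h5 : q ^ n ≤ Real.exp (-(2 * (s * T))) := by
      rw [hq, ← Real.exp_nat_mul]
      refine Real.exp_le_exp.2 ?_
      have := mul_le_mul_of_nonneg_left hn hs.le
      linarith
    have h6 : s * R / 2 ≤ 1 - q := by linarith
    have h7 : q ^ n / (1 - q) ≤ Real.exp (-(2 * (s * T))) / (s * R / 2) :=
      div_le_div₀ (Real.exp_pos _).le h5 (by positivity) h6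
    calc Real.exp (s * T) * ∑ i ∈ Finset.Ico n (N + 1), q ^ i
        ≤ Real.exp (s * T) * (Real.exp (-(2 * (s * T))) / (s * R / 2)) :=
          mul_le_mul_of_nonneg_left (h4.trans h7) (Real.exp_pos _).le
      _ = 2 / (s * R) * Real.exp (-(s * T)) := by
          have h8 : Real.exp (-(2 * (s * T))) = Real.exp (-(s * T)) * Real.exp (-(s * T)) := by
            rw [← Real.exp_add]
            congr 1
            ring
          have h9 : Real.exp (s * T) * Real.exp (-(s * T)) = 1 := by
            rw [← Real.exp_add]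
            simp
          have h10 : Real.exp (s * T) * (Real.exp (-(s * T)) * Real.exp (-(s * T)) / (s * R / 2)) =
              (Real.exp (s * T) * Real.exp (-(s * T))) * (2 / (s * R) * Real.exp (-(s * T))) := by
            field_simp
          rw [h8, h10, h9, one_mul]
      _ ≤ Real.exp (s * T) * Real.exp (-(s * T)) :=
          mul_le_mul_of_nonneg_right hsT (Real.exp_pos _).le
      _ = 1 := by
          rw [← Real.exp_add]
          simp
  linarith

end LCSH
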