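import Pool.Agent.Lib.MP_ae6bb1_pr.LawFacts

/-! The centred kernel (proof document, section G1). -/

open Finset

namespace LCSH

variable {α : Type*} [Fintype α] [DecidableEq α] (L : Law α)

/-- `f(a,b) = p_a 1{a=b} - σ κ u_a u_b` -/
noncomputable def ff (a b : α) : ℝ :=
  (if a = b then L.p a else 0) - L.sg * L.kp * L.u a * L.u b

theorem ff_symm (a b : α) : ff L a b = ff L b a := by
  unfold ff
  by_cases h : a = b
  · rw [h]
  · rw [if_neg h, if_neg (Ne.symm h)]
    ring

theorem ff_mean : ∑ a, ∑ b, L.p a * L.p b * ff L a b = 0 := by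
  have h1 : ∀ a, ∑ b, L.p a * L.p b * ff L a b =
      L.p a ^ 3 - L.sg * L.kp * (L.p a * L.u a) * L.sg := by
    intro a
    have e : ∀ b, L.p a * L.p b * ff L a b = (if a = b then L.p a * L.p b * L.p a else 0) -
        L.sg * L.kp * (L.p a * L.u a) * (L.p b * L.u b) := by
      intro b
      unfold ff
      split_ifs <;> ring
    simp_rw [e]
    rw [Finset.sum_sub_distrib, Finset.sum_ite_eq, if_pos (Finset.mem_univ a),
      ← Finset.mul_sum, sum_p_u]
    ring
  simp_rw [h1]
  rw [Finset.sum_sub_distrib, sum_p_cube, ← Finset.sum_mul, ← Finset.mul_sum, sum_p_u]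
  ring

private theorem Coef_gen (c : α → ℝ) (hc : ∀ a, 0 ≤ c a) :
    ∑ a, ∑ b, L.p a * L.p b * |ff L a b| * c a ≤
      ∑ a, L.p a ^ 3 * c a + L.sg ^ 2 * L.kp * ∑ a, L.p a * L.u a * c a := by
  have hs := (sg_pos L).le
  have hk := (kp_pos L).le
  have h1 : ∀ a, ∑ b, L.p a * L.p b * |ff L a b| * c a ≤
      L.p a ^ 3 * c a + L.sg ^ 2 * L.kp * (L.p a * L.u a * c a) := by
    intro a
    have e : ∀ b, L.p a * L.p b * |ff L a b| * c a ≤
        (if a = b then L.p a * L.p b * L.p a * c a else 0) +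
        L.sg * L.kp * (L.p a * L.u a * c a) * (L.p b * L.u b) := by
      intro b
      have hpa := L.nonneg a
      have hpb := L.nonneg b
      have hua := u_nonneg L a
      have hub := u_nonneg L b
      have hca := hc a
      have hf : |ff L a b| ≤ (if a = b then L.p a else 0) + L.sg * L.kp * L.u a * L.u b := by
        unfold ff
        have h2 : 0 ≤ L.sg * L.kp * L.u a * L.u b := by positivity
        have h3 : (0 : ℝ) ≤ if a = b then L.p a else 0 := by
          split_ifs
          · exact hpa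
          · exact le_rfl
        rw [abs_le]
        constructor <;> linarith
      calc L.p a * L.p b * |ff L a b| * c a ≤
          L.p a * L.p b * ((if a = b then L.p a else 0) + L.sg * L.kp * L.u a * L.u b) * c a := by
            gcongr
        _ = _ := by
            split_ifs <;> ring
    refine (Finset.sum_le_sum fun b _ => e b).trans (le_of_eq ?_)
    rw [Finset.sum_add_distrib, Finset.sum_ite_eq, if_pos (Finset.mem_univ a),
      ← Finset.mul_sum, sum_p_u]
    ring
  refine (Finset.sum_le_sum fun a _ => h1 a).trans (le_of_eq ?_)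
  rw [Finset.sum_add_distrib, Finset.mul_sum]

theorem ff_abs : ∑ a, ∑ b, L.p a * L.p b * |ff L a b| ≤ 2 * (L.sg ^ 3 * L.kp) := by
  have h := Coef_gen L (fun _ => 1) (fun _ => zero_le_one)
  simp only [mul_one] at h
  rw [sum_p_cube, sum_p_u] at h
  linarith [h, (by ring : L.sg ^ 2 * L.kp * L.sg = L.sg ^ 3 * L.kp)]

theorem ff_abs_p : ∑ a, ∑ b, L.p a * L.p b * |ff L a b| * L.p a ≤
    2 * (L.sg ^ 4 * (L.et * L.kp)) := by
  have h := Coef_gen L (fun a => L.p a) L.nonneg
  have h1 : ∑ a, L.p a ^ 3 * L.p a ≤ L.sg ^ 4 * (L.et * L.kp) := by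
    refine le_trans (le_of_eq ?_) (sum_p_four_le L)
    exact Finset.sum_congr rfl fun a _ => by ring
  have h2 : ∑ a, L.p a * L.u a * L.p a = L.sg ^ 2 * L.kp := by
    unfold Law.kp
    rw [Finset.mul_sum]
    refine Finset.sum_congr rfl fun a _ => ?_
    rw [p_eq L a]
    ring
  have h3 : L.kp * L.kp ≤ L.et * L.kp := mul_le_mul_of_nonneg_right (kp_le_et L) (kp_pos L).le
  have h4 : L.sg ^ 4 * (L.kp * L.kp) ≤ L.sg ^ 4 * (L.et * L.kp) :=
    mul_le_mul_of_nonneg_left h3 (by positivity)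
  rw [h2] at h
  linarith [h, (by ring : L.sg ^ 2 * L.kp * (L.sg ^ 2 * L.kp) = L.sg ^ 4 * (L.kp * L.kp))]

theorem ff_abs_rho {θ : ℝ} (hθ : 1 / 2 ≤ θ) :
    ∑ a, ∑ b, L.p a * L.p b * |ff L a b| * L.rho θ a ≤ 4 * (L.sg ^ 3 * (L.et * L.kp)) := by
  have hs := sg_pos L
  have hr : ∀ a, L.rho θ a ≤ (2 / L.sg) * L.p a := by
    intro a
    have hu := u_nonneg L a
    have h1 := rho_le L θ (by linarith) a
    have h2 : L.u a / θ ≤ 2 * L.u a := by
      rw [div_le_iff₀ (by linarith)]
      nlinarith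
    have h3 : (2 / L.sg) * L.p a = 2 * L.u a := by
      rw [p_eq L a]
      field_simp
    rw [h3]
    exact h1.trans h2
  have h1 : ∑ a, ∑ b, L.p a * L.p b * |ff L a b| * L.rho θ a ≤
      ∑ a, ∑ b, (2 / L.sg) * (L.p a * L.p b * |ff L a b| * L.p a) := by
    refine Finset.sum_le_sum fun a _ => Finset.sum_le_sum fun b _ => ?_
    have hpa := L.nonneg a
    have hpb := L.nonneg b
    have h2 : L.p a * L.p b * |ff L a b| * L.rho θ a ≤
        L.p a * L.p b * |ff L a b| * ((2 / L.sg) * L.p a) :=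
      mul_le_mul_of_nonneg_left (hr a) (by positivity)
    refine h2.trans (le_of_eq ?_)
    ring
  refine h1.trans ?_
  simp_rw [← Finset.mul_sum]
  have h2 := mul_le_mul_of_nonneg_left (ff_abs_p L) (by positivity : (0 : ℝ) ≤ 2 / L.sg)
  refine h2.trans (le_of_eq ?_)
  field_simp
  ring

end LCSH
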