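import Mathlib

/-!
# MP_ae6bb1_pr: definitions

Second order asymptotics of the growth constant of the longest common subsequence.
Proof document: /team-store/MP_ae6bb1_pr_proof.md
-/

open Finset

namespace LCSH

/-! ### Last passage values -/

/-- `s` is a chain of matches of the relation `m` inside rows `[a,b)` and columns `[c,d)`. -/
def Chain (m : ℕ → ℕ → Prop) (a b c d : ℕ) (s : Finset (ℕ × ℕ)) : Prop :=
  (∀ q ∈ s, a ≤ q.1 ∧ q.1 < b ∧ c ≤ q.2 ∧ q.2 < d ∧ m q.1 q.2) ∧
  (∀ q ∈ s, ∀ q' ∈ s, q ≠ q' → (q.1 < q'.1 ∧ q.2 < q'.2) ∨ (q'.1 < q.1 ∧ q'.2 < q.2))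

/-- The largest size of a chain of matches in rows `[a,b)` and columns `[c,d)`. -/
noncomputable def lp (m : ℕ → ℕ → Prop) (a b c d : ℕ) : ℕ :=
  sSup {k | ∃ s : Finset (ℕ × ℕ), Chain m a b c d s ∧ s.card = k}

/-! ### The walk functional: profile `A`, source counts `b`, columns `0,…,n-1`, sites `0,…,n` -/

/-- number of sources in columns `[c,n)` -/
def Wt (b : ℕ → ℕ) (n c : ℕ) : ℕ := ∑ l ∈ Finset.Ico c n, b l

/-- value of site `c` -/
def Zf (A b : ℕ → ℕ) (n c : ℕ) : ℕ := A c + Wt b n c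

/-- the maximum over all sites -/
def Mf (A b : ℕ → ℕ) (n : ℕ) : ℕ := (Finset.range (n + 1)).sup (Zf A b n)

/-- value of column `j` (profile before the column, sources after the column) -/
def Vf (A b : ℕ → ℕ) (n j : ℕ) : ℕ := A j + Wt b n (j + 1)

/-- the profile after `T` rows -/
noncomputable def prof (m : ℕ → ℕ → Prop) (T : ℕ) : ℕ → ℕ := fun c => lp m 0 T 0 c

/-- the functional for a relation: maximum after `T` rows -/
noncomputable def MT (m : ℕ → ℕ → Prop) (b : ℕ → ℕ) (T n : ℕ) : ℕ := Mf (prof m T) b n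

/-- column value for a relation after `T` rows -/
noncomputable def VT (m : ℕ → ℕ → Prop) (b : ℕ → ℕ) (T n j : ℕ) : ℕ := Vf (prof m T) b n j

/-- site value for a relation after `T` rows -/
noncomputable def ZT (m : ℕ → ℕ → Prop) (b : ℕ → ℕ) (T n c : ℕ) : ℕ := Zf (prof m T) b n c

/-! ### Emptying rows and columns -/

/-- relation with the columns in `K` emptied -/
def rmc (K : Finset ℕ) (m : ℕ → ℕ → Prop) : ℕ → ℕ → Prop := fun i j => m i j ∧ j ∉ K

/-- relation with the rows in `R` emptied -/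
def rmr (R : Finset ℕ) (m : ℕ → ℕ → Prop) : ℕ → ℕ → Prop := fun i j => m i j ∧ i ∉ R

/-- source counts with the columns in `K` emptied -/
def rmb (K : Finset ℕ) (b : ℕ → ℕ) : ℕ → ℕ := fun l => if l ∈ K then 0 else b l

/-! ### Events -/

/-- column `j` is pivotal after `T` rows: `V_j = M` -/
def InJ (m : ℕ → ℕ → Prop) (b : ℕ → ℕ) (T n j : ℕ) : Prop := VT m b T n j = MT m b T n

/-- column `j` is within `r` of the maximum: `V_j ≥ M - r` -/
def NearC (m : ℕ → ℕ → Prop) (b : ℕ → ℕ) (T n r j : ℕ) : Prop := MT m b T n ≤ VT m b T n j + r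

/-- the cell (row `r`, column `i`) is almost pivotal -/
def Piv (m : ℕ → ℕ → Prop) (b : ℕ → ℕ) (T n r i : ℕ) : Prop :=
  ∃ c, i + 1 ≤ c ∧ c ≤ n ∧
    MT m b T n ≤ lp m 0 r 0 i + lp m (r + 1) T (i + 1) c + Wt b n c + 1

/-- site `c` is within `r` of the maximum (general profile) -/
def NearS (A b : ℕ → ℕ) (n r c : ℕ) : Prop := c ≤ n ∧ Mf A b n ≤ Zf A b n c + r

/-- two sites within `r` of the maximum at distance at least `w` (general profile) -/
def Far (A b : ℕ → ℕ) (n r w : ℕ) : Prop :=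
  ∃ a c, a + w ≤ c ∧ NearS A b n r a ∧ NearS A b n r c

open Classical in
/-- number of columns within `r` of the maximum (general profile) -/
noncomputable def NN (A b : ℕ → ℕ) (n r : ℕ) : ℕ :=
  ((Finset.range n).filter (fun j => Mf A b n ≤ Vf A b n j + r)).card

/-- the good event for the relation `m`, sources `b`, `T` rows, `n` columns and threshold `h1` -/
def Good (m : ℕ → ℕ → Prop) (b : ℕ → ℕ) (T n h1 : ℕ) : Prop :=
  T + 10 < ∑ l ∈ Finset.range (n / 2), b l ∧
  ∀ r i, r + 1 + h1 ≤ T → i < n / 2 →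
    lp m (r + 1) T (i + 1) (i + 1 + (T - (r + 1)) / 2 ^ 30)
      + (∑ l ∈ Finset.Ico (i + 1) (i + 1 + (T - (r + 1)) / 2 ^ 14), b l) + 10
      < lp m (r + 1) T (i + 1) (i + 1 + (T - (r + 1)) / 2 ^ 14)

/-! ### Product expectations -/

section PEdefs
variable {ι β : Type*} [Fintype ι] [DecidableEq ι] [Fintype β]

/-- `w` is a family of probability weights -/
structure IsW (w : ι → β → ℝ) : Prop where
  nonneg : ∀ i b, 0 ≤ w i b
  sum_one : ∀ i, ∑ b, w i b = 1

/-- expectation of `f` for the product of the weights `w i` -/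
def PE (w : ι → β → ℝ) (f : (ι → β) → ℝ) : ℝ := ∑ ω : ι → β, (∏ i, w i (ω i)) * f ω

end PEdefs

open Classical in
/-- indicator of a proposition -/
noncomputable def ind (E : Prop) : ℝ := if E then 1 else 0

/-- Bernoulli weights -/
def bw (r : ℝ) : Bool → ℝ := fun b => if b then r else 1 - r

/-! ### Laws on a finite alphabet -/

/-- a probability law on a finite alphabet -/
structure Law (α : Type*) [Fintype α] where
  p : α → ℝ
  nonneg : ∀ a, 0 ≤ p a
  sum_one : ∑ a, p a = 1

namespace Law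
variable {α : Type*} [Fintype α] (L : Law α)

/-- the l2 norm `σ` -/
noncomputable def sg : ℝ := Real.sqrt (∑ a, L.p a ^ 2)
/-- normalised weights `u_a = p_a / σ` -/
noncomputable def u (a : α) : ℝ := L.p a / L.sg
/-- `κ = ∑ u_a ^ 3` -/
noncomputable def kp : ℝ := ∑ a, L.u a ^ 3
/-- `η = max u_a` -/
noncomputable def et : ℝ := ⨆ a, L.u a
/-- `Λ = 1 + log (1/σ)` -/
noncomputable def Lam : ℝ := 1 + Real.log (1 / L.sg)
/-- source probability of a column with letter `a` -/
noncomputable def rho (θ : ℝ) (a : α) : ℝ := L.u a / (L.u a + θ)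
/-- mean source density -/
noncomputable def rb (θ : ℝ) : ℝ := ∑ a, L.p a * L.rho θ a
end Law

/-! ### The random environment -/

section Env
variable {α : Type*} {T n : ℕ}

/-- match relation of row letters `x` and column letters `y` -/
def rl (x : Fin T → α) (y : Fin n → α) : ℕ → ℕ → Prop :=
  fun i j => ∃ (hi : i < T) (hj : j < n), x ⟨i, hi⟩ = y ⟨j, hj⟩

/-- source counts -/
def bt (ξ : Fin n → Bool) : ℕ → ℕ := fun l => if h : l < n then (ξ ⟨l, h⟩).toNat else 0

variable [Fintype α]

/-- expectation over row letters, column letters, column sources -/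
noncomputable def EE (L : Law α) (θ : ℝ) (T n : ℕ)
    (f : (Fin T → α) → (Fin n → α) → (Fin n → Bool) → ℝ) : ℝ :=
  PE (fun _ : Fin T => L.p) fun x => PE (fun _ : Fin n => L.p) fun y =>
    PE (fun j : Fin n => bw (L.rho θ (y j))) fun ξ => f x y ξ

/-- expected maximum after `T` rows with `n` columns -/
noncomputable def EM (L : Law α) (θ : ℝ) (T n : ℕ) : ℝ :=
  EE L θ T n fun x y ξ => (MT (rl x y) (bt ξ) T n : ℝ)

/-- expected last passage value of an `a × b` rectangle -/
noncomputable def EL (L : Law α) (a b : ℕ) : ℝ :=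
  PE (fun _ : Fin a => L.p) fun x => PE (fun _ : Fin b => L.p) fun y => (lp (rl x y) 0 a 0 b : ℝ)

/-- the growth constant -/
noncomputable def gam (L : Law α) : ℝ := ⨆ n : ℕ, EL L (n + 1) (n + 1) / (n + 1)

end Env

/-- regime threshold -/
noncomputable def c0 : ℝ := 1 / 10 ^ 6

end LCSH
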