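import Pool.Agent.Lib.MP_ae6bb1_pr.Empty

/-! The decoupling dichotomy (proof document, section B4). -/

open Finset

namespace LCSH

private theorem Dich_rmb {b : ℕ → ℕ} {j j' : ℕ} (h : b j = 0) (h' : b j' = 0) :
    rmb {j, j'} b = b := by
  funext l
  unfold rmb
  split_ifs with hl
  · rw [Finset.mem_insert, Finset.mem_singleton] at hl
    rcases hl with rfl | rfl
    · exact h.symm
    · exact h'.symm
  · rfl

/-- If both columns are pivotal in exactly one of the original and the emptied environment then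
either one of the two columns carries a source, or there is an almost pivotal match. -/
theorem dichotomy (m : ℕ → ℕ → Prop) (b : ℕ → ℕ) (hb : ∀ l, b l ≤ 1) (T n j j' : ℕ)
    (hjj : j < j') (hn : j' < n)
    (hD : ¬ ((InJ m b T n j ∧ InJ m b T n j') ↔
      (InJ (rmc {j, j'} m) (rmb {j, j'} b) T n j ∧
        InJ (rmc {j, j'} m) (rmb {j, j'} b) T n j'))) :
    ((b j = 1 ∨ b j' = 1) ∧ InJ (rmc {j, j'} m) (rmb {j, j'} b) T n j ∧
        InJ (rmc {j, j'} m) (rmb {j, j'} b) T n j') ∨
    (NearC (rmc {j, j'} m) (rmb {j, j'} b) T n 1 j ∧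
      NearC (rmc {j, j'} m) (rmb {j, j'} b) T n 1 j' ∧
      ∃ i ∈ ({j, j'} : Finset ℕ), ∃ r, r < T ∧ m r i ∧
        Piv (rmc {j, j'} m) (rmb {j, j'} b) T n r i) := by
  have hjn : j < n := hjj.trans hn
  have hM0 : MT (rmc {j, j'} m) (rmb {j, j'} b) T n ≤ MT m b T n := MT_rm_le _
  by_cases h1 : InJ m b T n j ∧ InJ m b T n j'
  · -- Case 1
    obtain ⟨hj, hj'⟩ := h1
    have hJ0 : ¬ (InJ (rmc {j, j'} m) (rmb {j, j'} b) T n j ∧
        InJ (rmc {j, j'} m) (rmb {j, j'} b) T n j') := fun h => hD ⟨fun _ => h, fun _ => ⟨hj, hj'⟩⟩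
    have hbz : ∀ k, k < n → InJ m b T n k → b k = 0 := by
      intro k hk hJ
      have e1 : Zf (prof m T) b n k = Vf (prof m T) b n k + b k := Zf_eq_Vf hk
      have e2 : Zf (prof m T) b n k ≤ Mf (prof m T) b n := Zf_le_Mf hk.le
      have e3 : Vf (prof m T) b n k = Mf (prof m T) b n := hJ
      omega
    have hbj := hbz j hjn hj
    have hbj' := hbz j' hn hj'
    have hrb : rmb {j, j'} b = b := Dich_rmb hbj hbj'
    rw [hrb] at hM0 hJ0 ⊢
    have hcol : ∀ l ∈ ({j, j'} : Finset ℕ), l = j ∨ l = j' := by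
      intro l hl
      rwa [Finset.mem_insert, Finset.mem_singleton] at hl
    -- `V°_j = V_j`
    have hA : lp (rmc {j, j'} m) 0 T 0 j = lp m 0 T 0 j := by
      refine lp_congr fun i l _ _ _ hl => ⟨fun h => h.1, fun h => ⟨h, fun hmem => ?_⟩⟩
      rcases hcol l hmem with rfl | rfl
      · exact lt_irrefl _ hl
      · omega
    have hVj : VT (rmc {j, j'} m) b T n j = VT m b T n j := by
      show lp (rmc {j, j'} m) 0 T 0 j + _ = lp m 0 T 0 j + _
      rw [hA]
    have hV0 : VT (rmc {j, j'} m) b T n j ≤ MT (rmc {j, j'} m) b T n := Vf_le_Mf hjn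
    have hJj : VT m b T n j = MT m b T n := hj
    have hMM : MT (rmc {j, j'} m) b T n = MT m b T n := by omega
    have hJ0j : InJ (rmc {j, j'} m) b T n j := by
      show VT (rmc {j, j'} m) b T n j = _
      omega
    have hnJ0 : ¬ InJ (rmc {j, j'} m) b T n j' := fun h => hJ0 ⟨hJ0j, h⟩
    have hV0' : VT (rmc {j, j'} m) b T n j' ≤ MT (rmc {j, j'} m) b T n := Vf_le_Mf hn
    have hne : VT (rmc {j, j'} m) b T n j' ≠ MT (rmc {j, j'} m) b T n := hnJ0
    have hJj' : VT m b T n j' = MT m b T n := hj'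
    have hVle : VT m b T n j' ≤ VT (rmc {j, j'} m) (rmb {j, j'} b) T n j' +
        (({j, j'} : Finset ℕ).erase j').card := VT_le_rm hb _ _
    have hcard : (({j, j'} : Finset ℕ).erase j').card = 1 := by
      rw [Finset.card_erase_of_mem (by simp), Finset.card_pair hjj.ne]
    rw [hrb, hcard] at hVle
    -- the profile at `j'`
    have hlt : lp (rmc {j, j'} m) 0 T 0 j' < lp m 0 T 0 j' := by
      have e1 : VT (rmc {j, j'} m) b T n j' = lp (rmc {j, j'} m) 0 T 0 j' + Wt b n (j' + 1) := rfl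
      have e2 : VT m b T n j' = lp m 0 T 0 j' + Wt b n (j' + 1) := rfl
      omega
    obtain ⟨i, hiK, r, -, hrT, -, hij', hmi, hle⟩ := lp_use _ hlt
    have hi : i = j := by
      rcases hcol i hiK with h | h
      · exact h
      · omega
    subst hi
    have l1 : lp (rmc {i, j'} m) 0 r 0 i = lp m 0 r 0 i := by
      refine lp_congr fun k l _ _ _ hl => ⟨fun h => h.1, fun h => ⟨h, fun hmem => ?_⟩⟩
      rcases hcol l hmem with h | h <;> omega
    have l2 : lp (rmc {i, j'} m) (r + 1) T (i + 1) j' = lp m (r + 1) T (i + 1) j' := by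
      refine lp_congr fun k l _ _ hl' hl => ⟨fun h => h.1, fun h => ⟨h, fun hmem => ?_⟩⟩
      rcases hcol l hmem with h | h <;> omega
    right
    refine ⟨?_, ?_, i, by simp, r, hrT, hmi, j', by omega, hn.le, ?_⟩
    · show MT (rmc {i, j'} m) b T n ≤ VT (rmc {i, j'} m) b T n i + 1
      omega
    · show MT (rmc {i, j'} m) b T n ≤ VT (rmc {i, j'} m) b T n j' + 1
      omega
    · rw [l1, l2]
      have e2 : VT m b T n j' = lp m 0 T 0 j' + Wt b n (j' + 1) := rfl
      have e3 : Wt b n (j' + 1) ≤ Wt b n j' := Wt_anti (Nat.le_succ _)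
      omega
  · -- Case 2
    have h2 : InJ (rmc {j, j'} m) (rmb {j, j'} b) T n j ∧
        InJ (rmc {j, j'} m) (rmb {j, j'} b) T n j' := by
      by_contra h
      exact hD ⟨fun h' => absurd h' h1, fun h' => absurd h' h⟩
    by_cases hs : b j = 1 ∨ b j' = 1
    · exact Or.inl ⟨hs, h2⟩
    right
    have hbj : b j = 0 := by
      have := hb j
      have : b j ≠ 1 := fun h => hs (Or.inl h)
      omega
    have hbj' : b j' = 0 := by
      have := hb j'
      have : b j' ≠ 1 := fun h => hs (Or.inr h)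
      omega
    have hrb : rmb {j, j'} b = b := Dich_rmb hbj hbj'
    have hVV : ∀ k, VT (rmc {j, j'} m) (rmb {j, j'} b) T n k ≤ VT m b T n k := fun k =>
      VT_rm_le _ k
    rw [hrb] at hM0 h2 ⊢
    simp only [hrb] at hVV
    obtain ⟨hJ0, hJ0'⟩ := h2
    have a1 : VT (rmc {j, j'} m) b T n j = MT (rmc {j, j'} m) b T n := hJ0
    have a2 : VT (rmc {j, j'} m) b T n j' = MT (rmc {j, j'} m) b T n := hJ0'
    have hlt : MT (rmc {j, j'} m) b T n < MT m b T n := by
      rcases hM0.lt_or_eq with h | h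
      · exact h
      · exfalso
        apply h1
        have b1 : VT m b T n j ≤ MT m b T n := Vf_le_Mf hjn
        have b2 : VT m b T n j' ≤ MT m b T n := Vf_le_Mf hn
        have b3 := hVV j
        have b4 := hVV j'
        constructor
        · show VT m b T n j = MT m b T n
          omega
        · show VT m b T n j' = MT m b T n
          omega
    obtain ⟨c, hc, hcM⟩ := exists_Mf (prof m T) b n
    have c1 : lp m 0 T 0 c + Wt b n c = MT m b T n := hcM
    have c2 : lp (rmc {j, j'} m) 0 T 0 c + Wt b n c ≤ MT (rmc {j, j'} m) b T n :=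
      Zf_le_Mf (A := prof (rmc {j, j'} m) T) hc
    have c3 : lp (rmc {j, j'} m) 0 T 0 c < lp m 0 T 0 c := by omega
    obtain ⟨i, hiK, r, -, hrT, -, hic, hmi, hle⟩ := lp_use _ c3
    have d1 : lp m 0 r 0 i ≤ lp (rmc {j, j'} m) 0 r 0 i +
        (({j, j'} : Finset ℕ).filter (fun l => 0 ≤ l ∧ l < i)).card := lp_le_rmc _
    have d2 : lp m (r + 1) T (i + 1) c ≤ lp (rmc {j, j'} m) (r + 1) T (i + 1) c +
        (({j, j'} : Finset ℕ).filter (fun l => i + 1 ≤ l ∧ l < c)).card := lp_le_rmc _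
    have d3 : (({j, j'} : Finset ℕ).filter (fun l => 0 ≤ l ∧ l < i)).card +
        (({j, j'} : Finset ℕ).filter (fun l => i + 1 ≤ l ∧ l < c)).card ≤ 1 := by
      rw [← Finset.card_union_of_disjoint]
      · have hsub : (({j, j'} : Finset ℕ).filter (fun l => 0 ≤ l ∧ l < i)) ∪
            (({j, j'} : Finset ℕ).filter (fun l => i + 1 ≤ l ∧ l < c)) ⊆
            ({j, j'} : Finset ℕ).erase i := by
          intro l hl
          rw [Finset.mem_union, Finset.mem_filter, Finset.mem_filter] at hl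
          rw [Finset.mem_erase]
          rcases hl with ⟨hl1, hl2⟩ | ⟨hl1, hl2⟩
          · exact ⟨by omega, hl1⟩
          · exact ⟨by omega, hl1⟩
        refine (Finset.card_le_card hsub).trans ?_
        rw [Finset.card_erase_of_mem hiK, Finset.card_pair hjj.ne]
      · rw [Finset.disjoint_left]
        intro l hl hl'
        rw [Finset.mem_filter] at hl hl'
        omega
    refine ⟨?_, ?_, i, hiK, r, hrT, hmi, c, by omega, hc, ?_⟩
    · show MT (rmc {j, j'} m) b T n ≤ VT (rmc {j, j'} m) b T n j + 1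
      omega
    · show MT (rmc {j, j'} m) b T n ≤ VT (rmc {j, j'} m) b T n j' + 1
      omega
    · omega

/-- the second alternative survives emptying of the row `r` -/
theorem piv_rmr (m : ℕ → ℕ → Prop) (b : ℕ → ℕ) (T n r i j : ℕ)
    (hN : NearC m b T n 1 j) (hP : Piv m b T n r i) :
    NearC (rmr {r} m) b T n 2 j ∧ Piv (rmr {r} m) b T n r i := by
  have h1 : MT (rmr {r} m) b T n ≤ MT m b T n := MT_rmr_le _
  have h2 : VT m b T n j ≤ VT (rmr {r} m) b T n j + ({r} : Finset ℕ).card := VT_le_rmr _ _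
  rw [Finset.card_singleton] at h2
  have h3 : MT m b T n ≤ VT m b T n j + 1 := hN
  refine ⟨?_, ?_⟩
  · show MT (rmr {r} m) b T n ≤ VT (rmr {r} m) b T n j + 2
    omega
  · obtain ⟨c, hc1, hc2, hc3⟩ := hP
    refine ⟨c, hc1, hc2, h1.trans (hc3.trans ?_)⟩
    have l1 : lp (rmr {r} m) 0 r 0 i = lp m 0 r 0 i := by
      refine lp_congr fun k l _ hk _ _ => ⟨fun h => h.1, fun h => ⟨h, fun hmem => ?_⟩⟩
      rw [Finset.mem_singleton] at hmem
      omega
    have l2 : lp (rmr {r} m) (r + 1) T (i + 1) c = lp m (r + 1) T (i + 1) c := by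
      refine lp_congr fun k l hk _ _ _ => ⟨fun h => h.1, fun h => ⟨h, fun hmem => ?_⟩⟩
      rw [Finset.mem_singleton] at hmem
      omega
    rw [l1, l2]

/-- near columns of an emptied environment are near columns of the original environment -/
theorem near_transfer (m : ℕ → ℕ → Prop) (b : ℕ → ℕ) (hb : ∀ l, b l ≤ 1) (T n : ℕ)
    (K R : Finset ℕ) (hKR : K.card + R.card ≤ 3) (j : ℕ)
    (h : NearC (rmr R (rmc K m)) (rmb K b) T n 2 j) : NearC m b T n 5 j := by
  have h0 : MT (rmr R (rmc K m)) (rmb K b) T n ≤ VT (rmr R (rmc K m)) (rmb K b) T n j + 2 := h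
  have h1 : MT m b T n ≤ MT (rmc K m) (rmb K b) T n + K.card := MT_le_rm hb K
  have h2 : MT (rmc K m) (rmb K b) T n ≤ MT (rmr R (rmc K m)) (rmb K b) T n + R.card :=
    MT_le_rmr R
  have h3 : VT (rmr R (rmc K m)) (rmb K b) T n j ≤ VT (rmc K m) (rmb K b) T n j :=
    VT_rmr_le R j
  have h4 : VT (rmc K m) (rmb K b) T n j ≤ VT m b T n j := VT_rm_le K j
  show MT m b T n ≤ VT m b T n j + 5
  omega

end LCSH
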