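import Pool.Agent.Lib.MP_ae6bb1_pr.PEProd

/-! The three-fold expectation `EE` (proof document, section C4). -/

open Finset

namespace LCSH

variable {α : Type*} [Fintype α] (L : Law α) {θ : ℝ} {T n : ℕ}

private theorem EEBasic_u_nonneg (a : α) : 0 ≤ L.u a := by
  unfold Law.u Law.sg
  exact div_nonneg (L.nonneg a) (Real.sqrt_nonneg _)

theorem rho_nonneg (hθ : 0 < θ) (a : α) : 0 ≤ L.rho θ a := by
  have h := EEBasic_u_nonneg L a
  unfold Law.rho
  positivity

theorem rho_le_one (hθ : 0 < θ) (a : α) : L.rho θ a ≤ 1 := by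
  have h := EEBasic_u_nonneg L a
  unfold Law.rho
  rw [div_le_one (by linarith)]
  linarith

theorem isW_rho (hθ : 0 < θ) (y : Fin n → α) : IsW (fun j : Fin n => bw (L.rho θ (y j))) :=
  isW_bw (fun j => rho_nonneg L hθ (y j)) (fun j => rho_le_one L hθ (y j))

theorem EE_add (f g : (Fin T → α) → (Fin n → α) → (Fin n → Bool) → ℝ) :
    EE L θ T n (fun x y ξ => f x y ξ + g x y ξ) = EE L θ T n f + EE L θ T n g := by
  unfold EE
  simp only [PE_add]

theorem EE_sub (f g : (Fin T → α) → (Fin n → α) → (Fin n → Bool) → ℝ) :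
    EE L θ T n (fun x y ξ => f x y ξ - g x y ξ) = EE L θ T n f - EE L θ T n g := by
  unfold EE
  simp only [PE_sub]

theorem EE_const_mul (c : ℝ) (f : (Fin T → α) → (Fin n → α) → (Fin n → Bool) → ℝ) :
    EE L θ T n (fun x y ξ => c * f x y ξ) = c * EE L θ T n f := by
  unfold EE
  simp only [PE_const_mul]

theorem EE_sum {κ : Type*} (s : Finset κ)
    (f : κ → (Fin T → α) → (Fin n → α) → (Fin n → Bool) → ℝ) :
    EE L θ T n (fun x y ξ => ∑ k ∈ s, f k x y ξ) = ∑ k ∈ s, EE L θ T n (f k) := by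
  unfold EE
  simp only [PE_sum]

theorem EE_const (hθ : 0 < θ) (c : ℝ) : EE L θ T n (fun _ _ _ => c) = c := by
  unfold EE
  have h1 : ∀ y : Fin n → α, PE (fun j => bw (L.rho θ (y j))) (fun _ => c) = c :=
    fun y => PE_const (isW_rho L hθ y) c
  simp only [h1]
  rw [PE_const (isW_law L), PE_const (isW_law L)]

theorem EE_mono (hθ : 0 < θ) {f g : (Fin T → α) → (Fin n → α) → (Fin n → Bool) → ℝ}
    (h : ∀ x y ξ, f x y ξ ≤ g x y ξ) : EE L θ T n f ≤ EE L θ T n g := by
  unfold EE
  exact PE_mono (isW_law L) fun x => PE_mono (isW_law L) fun y => PE_mono (isW_rho L hθ y) (h x y)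

theorem EE_nonneg (hθ : 0 < θ) {f : (Fin T → α) → (Fin n → α) → (Fin n → Bool) → ℝ}
    (h : ∀ x y ξ, 0 ≤ f x y ξ) : 0 ≤ EE L θ T n f := by
  unfold EE
  exact PE_nonneg (isW_law L) fun x => PE_nonneg (isW_law L) fun y =>
    PE_nonneg (isW_rho L hθ y) (h x y)

theorem abs_EE_le (hθ : 0 < θ) (f : (Fin T → α) → (Fin n → α) → (Fin n → Bool) → ℝ) :
    |EE L θ T n f| ≤ EE L θ T n (fun x y ξ => |f x y ξ|) := by
  unfold EE
  refine (abs_PE_le (isW_law L) _).trans (PE_mono (isW_law L) fun x => ?_)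
  refine (abs_PE_le (isW_law L) _).trans (PE_mono (isW_law L) fun y => ?_)
  exact abs_PE_le (isW_rho L hθ y) _

theorem EE_exp_markov (hθ : 0 < θ) (f : (Fin T → α) → (Fin n → α) → (Fin n → Bool) → ℝ)
    {c s : ℝ} (hs : 0 ≤ s) :
    EE L θ T n (fun x y ξ => ind (c ≤ f x y ξ)) ≤
      Real.exp (-(s * c)) * EE L θ T n (fun x y ξ => Real.exp (s * f x y ξ)) := by
  rw [← EE_const_mul]
  refine EE_mono L hθ fun x y ξ => ?_
  rw [← Real.exp_add]
  by_cases h : c ≤ f x y ξ
  · rw [ind_of h]
    apply Real.one_le_exp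
    have := mul_le_mul_of_nonneg_left h hs
    linarith
  · rw [ind_of_not h]
    exact (Real.exp_pos _).le

theorem EE_exp_markov' (hθ : 0 < θ) (f : (Fin T → α) → (Fin n → α) → (Fin n → Bool) → ℝ)
    {c s : ℝ} (hs : 0 ≤ s) :
    EE L θ T n (fun x y ξ => ind (f x y ξ ≤ c)) ≤
      Real.exp (s * c) * EE L θ T n (fun x y ξ => Real.exp (-(s * f x y ξ))) := by
  rw [← EE_const_mul]
  refine EE_mono L hθ fun x y ξ => ?_
  rw [← Real.exp_add]
  by_cases h : f x y ξ ≤ c
  · rw [ind_of h]
    apply Real.one_le_exp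
    have := mul_le_mul_of_nonneg_left h hs
    linarith
  · rw [ind_of_not h]
    exact (Real.exp_pos _).le

/-- resampling a row letter -/
theorem EE_row (r : Fin T) (f : (Fin T → α) → (Fin n → α) → (Fin n → Bool) → ℝ) :
    EE L θ T n f = EE L θ T n (fun x y ξ => ∑ a, L.p a * f (Function.update x r a) y ξ) := by
  unfold EE
  simp only [PE_sum, PE_const_mul]
  rw [PE_resample (isW_law L) r]
  simp only [PE_sum, PE_const_mul]

/-- `EE` as a double product expectation over rows and (letter, source) columns -/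
theorem EE_eq_two (f : (Fin T → α) → (Fin n → α) → (Fin n → Bool) → ℝ) :
    EE L θ T n f = PE (fun _ : Fin T => L.p) (fun x =>
      PE (fun _ : Fin n => fun q : α × Bool => L.p q.1 * bw (L.rho θ q.1) q.2) (fun z =>
        f x (fun j => (z j).1) (fun j => (z j).2))) := by
  unfold EE
  congr 1
  funext x
  unfold PE
  have h1 : ∑ z : Fin n → α × Bool, (∏ i, L.p (z i).1 * bw (L.rho θ (z i).1) (z i).2) *
      f x (fun j => (z j).1) (fun j => (z j).2) =
      ∑ q : (Fin n → α) × (Fin n → Bool), (∏ i, L.p (q.1 i) * bw (L.rho θ (q.1 i)) (q.2 i)) *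
        f x q.1 q.2 :=
    Fintype.sum_equiv (Equiv.arrowProdEquivProdArrow (Fin n) (fun _ => α) (fun _ => Bool)) _ _
      (fun z => rfl)
  rw [h1, Fintype.sum_prod_type]
  refine Finset.sum_congr rfl fun y _ => ?_
  rw [Finset.mul_sum]
  refine Finset.sum_congr rfl fun ξ _ => ?_
  rw [Finset.prod_mul_distrib]
  ring

private theorem EEBasic_isW (hθ : 0 < θ) :
    IsW (fun _ : Fin n => fun q : α × Bool => L.p q.1 * bw (L.rho θ q.1) q.2) := by
  have h := isW_bw (ι := α) (r := L.rho θ) (rho_nonneg L hθ) (rho_le_one L hθ)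
  constructor
  · intro i q
    exact mul_nonneg (L.nonneg _) (h.nonneg q.1 q.2)
  · intro i
    rw [Fintype.sum_prod_type]
    simp only
    have h1 : ∀ a, ∑ c : Bool, L.p a * bw (L.rho θ a) c = L.p a := by
      intro a
      rw [← Finset.mul_sum, h.sum_one a, mul_one]
    simp only [h1]
    exact L.sum_one

/-- resampling a column (letter and source) -/
theorem EE_col (hθ : 0 < θ) (j : Fin n)
    (f : (Fin T → α) → (Fin n → α) → (Fin n → Bool) → ℝ) :
    EE L θ T n f = EE L θ T n (fun x y ξ => ∑ a, L.p a * ∑ c, bw (L.rho θ a) c *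
      f x (Function.update y j a) (Function.update ξ j c)) := by
  rw [EE_eq_two, EE_eq_two]
  congr 1
  funext x
  rw [PE_resample (EEBasic_isW L hθ) j]
  congr 1
  funext z
  rw [Fintype.sum_prod_type]
  refine Finset.sum_congr rfl fun a _ => ?_
  rw [Finset.mul_sum]
  refine Finset.sum_congr rfl fun c _ => ?_
  have h1 : (fun i => (Function.update z j (a, c) i).1) = Function.update (fun i => (z i).1) j a := by
    funext i
    by_cases hi : i = j
    · subst hi
      simp
    · simp [Function.update_of_ne hi]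
  have h2 : (fun i => (Function.update z j (a, c) i).2) = Function.update (fun i => (z i).2) j c := by
    funext i
    by_cases hi : i = j
    · subst hi
      simp
    · simp [Function.update_of_ne hi]
  rw [h1, h2]
  ring

end LCSH
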