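import Pool.Agent.Lib.MP_ae6bb1_pr.Dich

/-! On the good event, a pivotal cell in an old row forces two distant near sites
(proof document, section B5). -/

open Finset

namespace LCSH

theorem near_left_half (m : ℕ → ℕ → Prop) (b : ℕ → ℕ) (T n h1 i : ℕ)
    (hG : Good m b T n h1) (hi : NearS (prof m T) b n 5 i) : i < n / 2 := by
  by_contra hlt
  rw [not_lt] at hlt
  have h1' := hG.1
  obtain ⟨hin, hM⟩ := hi
  have h2 : Zf (prof m T) b n 0 ≤ Mf (prof m T) b n := Zf_le_Mf (Nat.zero_le n)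
  have h3 : Wt b n 0 = (∑ l ∈ Finset.Ico 0 i, b l) + Wt b n i := Wt_split (Nat.zero_le i) hin
  have h4 : prof m T i ≤ T := by
    have := lp_le_rows m 0 T 0 i
    unfold prof
    omega
  have h5 : ∑ l ∈ Finset.range (n / 2), b l ≤ ∑ l ∈ Finset.Ico 0 i, b l := by
    rw [Finset.range_eq_Ico]
    exact Finset.sum_le_sum_of_subset (Finset.Ico_subset_Ico le_rfl hlt)
  unfold Zf at h2 hM
  omega

private theorem FarPiv_join (m : ℕ → ℕ → Prop) {r T i c : ℕ} (hr : r ≤ T) (hi : i ≤ c) :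
    lp m 0 r 0 i + lp m (r + 1) T (i + 1) c ≤ lp m 0 T 0 c := by
  have h1 : lp m (r + 1) T (i + 1) c ≤ lp m r T i c :=
    lp_mono (Nat.le_succ r) le_rfl (Nat.le_succ i) le_rfl (fun _ _ _ _ _ _ h => h)
  have h2 := lp_super m (Nat.zero_le r) hr (Nat.zero_le i) hi
  omega

theorem far_of_piv (m : ℕ → ℕ → Prop) (b : ℕ → ℕ) (hb : ∀ l, b l ≤ 1) (T n h1 r i : ℕ)
    (K R : Finset ℕ) (hKR : K.card + R.card ≤ 3) (hTn : T ≤ n)
    (hG : Good m b T n h1) (hi : i < n) (hr : r + 1 + h1 ≤ T)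
    (hN : NearC (rmr R (rmc K m)) (rmb K b) T n 2 i)
    (hP : Piv (rmr R (rmc K m)) (rmb K b) T n r i) :
    Far (prof m T) b n 5 ((T - (r + 1)) / 2 ^ 30) := by
  have hNi : NearC m b T n 5 i := near_transfer m b hb T n K R hKR i hN
  have hSi : NearS (prof m T) b n 5 i := nearS_of_near hi hNi
  have hi2 : i < n / 2 := near_left_half m b T n h1 i hG hSi
  obtain ⟨c, hic, hcn, hc⟩ := hP
  set m' := rmr R (rmc K m) with hm'
  set b' := rmb K b with hb'
  have hrT : r ≤ T := by omega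
  -- the maximum
  have hM1 : MT m b T n ≤ MT (rmc K m) b' T n + K.card := MT_le_rm hb K
  have hM2 : MT (rmc K m) b' T n ≤ MT m' b' T n + R.card := MT_le_rmr R
  -- the site c is near
  have hZc : lp m' 0 r 0 i + lp m' (r + 1) T (i + 1) c + Wt b' n c ≤ ZT m' b' T n c := by
    have := FarPiv_join m' hrT (show i ≤ c by omega)
    unfold ZT Zf prof
    omega
  have hZc2 : ZT m' b' T n c ≤ ZT m b T n c :=
    (ZT_rmr_le R c).trans (ZT_rm_le K c)
  have hSc : NearS (prof m T) b n 5 c := by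
    refine ⟨hcn, ?_⟩
    have e1 : Mf (prof m T) b n = MT m b T n := rfl
    have e2 : Zf (prof m T) b n c = ZT m b T n c := rfl
    rw [e1, e2]
    omega
  refine ⟨i, c, ?_, hSi, hSc⟩
  by_contra hlt
  rw [not_le] at hlt
  have hgood := hG.2 r i hr hi2
  set h := T - (r + 1) with hh
  set v := i + 1 + h / 2 ^ 30 with hv
  set e := i + 1 + h / 2 ^ 14 with he
  have hcv : c ≤ v := by omega
  have hen : e ≤ n := by
    have : h ≤ n := by omega
    have h14 : h / 2 ^ 14 ≤ h / 2 := by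
      apply Nat.div_le_div_left (by norm_num) (by norm_num)
    omega
  have k1 : lp m' (r + 1) T (i + 1) c ≤ lp m (r + 1) T (i + 1) v :=
    lp_mono le_rfl le_rfl le_rfl hcv (fun _ _ _ _ _ _ h => h.1.1)
  have k2 : lp m (r + 1) T (i + 1) e ≤ lp (rmc K m) (r + 1) T (i + 1) e + K.card :=
    (lp_le_rmc K).trans (Nat.add_le_add_left (Finset.card_filter_le _ _) _)
  have k3 : lp (rmc K m) (r + 1) T (i + 1) e ≤ lp m' (r + 1) T (i + 1) e + R.card :=
    (lp_le_rmr R).trans (Nat.add_le_add_left (Finset.card_filter_le _ _) _)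
  have k4 := FarPiv_join m' hrT (show i ≤ e by omega)
  have k5 : ZT m' b' T n e ≤ MT m' b' T n := Zf_le_Mf hen
  have k6 : Wt b' n (i + 1) = (∑ l ∈ Finset.Ico (i + 1) e, b' l) + Wt b' n e :=
    Wt_split (by omega) hen
  have k7 : ∑ l ∈ Finset.Ico (i + 1) e, b' l ≤ ∑ l ∈ Finset.Ico (i + 1) e, b l :=
    Finset.sum_le_sum fun l _ => rmb_le K l
  have k8 : Wt b' n c ≤ Wt b' n (i + 1) := Wt_anti hic
  have k9 : ZT m' b' T n e = lp m' 0 T 0 e + Wt b' n e := rfl
  omega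

end LCSH
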