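import Pool.Agent.Lib.MP_ae6bb1_pr.Total
import Pool.Agent.Lib.MP_ae6bb1_pr.AsLimit

/-! The theorem in terms of sequences of random letters (proof document, section Final). -/

open Finset MeasureTheory ProbabilityTheory Filter Topology

namespace LCSH

theorem sg_mul_kp {α : Type*} [Fintype α] (L : Law α) :
    L.sg * L.kp = (∑ a, L.p a ^ 3) / ∑ a, L.p a ^ 2 := by
  rw [sum_p_cube, ← sg_sq]
  have := (sg_pos L).ne'
  field_simp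

theorem et_eq {α : Type*} [Fintype α] (L : Law α) :
    L.et = (⨆ a, L.p a) / Real.sqrt (∑ a, L.p a ^ 2) := by
  have h1 : L.et = ⨆ a, L.p a * (L.sg)⁻¹ := rfl
  rw [h1, ← Real.iSup_mul_of_nonneg (inv_nonneg.2 (sg_pos L).le), div_eq_mul_inv]
  rfl

theorem final_general : ∃ C : ℝ, ∀ (α : Type) [Fintype α] [DecidableEq α] [MeasurableSpace α]
    [MeasurableSingletonClass α] (μ : α → ℝ), (∀ a, 0 ≤ μ a) → ∑ a, μ a = 1 →
    ∀ (Ω : Type) [MeasurableSpace Ω] (P : Measure Ω) [IsProbabilityMeasure P]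
    (X Y : ℕ → Ω → α), (∀ n, Measurable (X n)) → (∀ n, Measurable (Y n)) →
    iIndepFun (fun k : ℕ ⊕ ℕ => Sum.elim X Y k) P →
    (∀ n a, P.real (X n ⁻¹' {a}) = μ a) → (∀ n a, P.real (Y n ⁻¹' {a}) = μ a) →
    ∃ γ : ℝ, (∀ᵐ ω ∂P, Tendsto (fun n : ℕ =>
        (lcsLen (fun i => X i ω) (fun i => Y i ω) n : ℝ) / n) atTop (𝓝 γ)) ∧
      |γ - (2 * Real.sqrt (∑ a, μ a ^ 2) - 2 * ((∑ a, μ a ^ 3) / ∑ a, μ a ^ 2))| ≤
        C * ((∑ a, μ a ^ 3) / ∑ a, μ a ^ 2) *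
          Real.sqrt ((⨆ a, μ a) / Real.sqrt (∑ a, μ a ^ 2)) *
          (1 + Real.log (1 / Real.sqrt (∑ a, μ a ^ 2))) ^ 6 := by
  obtain ⟨C, _, hC⟩ := gam_est
  refine ⟨C, ?_⟩
  intro α _ _ _ _ μ h0 h1 Ω _ P _ X Y hX hY hI hlX hlY
  set L : Law α := ⟨μ, h0, h1⟩ with hL
  have hiid : IID L P X Y := ⟨hX, hY, hI, hlX, hlY⟩
  refine ⟨gam L, lcs_tendsto L P X Y hiid, ?_⟩
  have h2 := hC α L
  have e1 : L.sg = Real.sqrt (∑ a, μ a ^ 2) := rfl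
  have e2 : L.sg * L.kp = (∑ a, μ a ^ 3) / ∑ a, μ a ^ 2 := sg_mul_kp L
  have e3 : L.et = (⨆ a, μ a) / Real.sqrt (∑ a, μ a ^ 2) := et_eq L
  have e4 : L.Lam = 1 + Real.log (1 / Real.sqrt (∑ a, μ a ^ 2)) := rfl
  rw [← e1, ← e2]
  rw [← e1] at e3 e4
  rw [← e3, ← e4]
  calc |gam L - (2 * L.sg - 2 * (L.sg * L.kp))| = |gam L - (2 * L.sg - 2 * L.sg * L.kp)| := by
        congr 1
        ring
    _ ≤ C * (L.sg * L.kp * Real.sqrt L.et * L.Lam ^ 6) := h2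
    _ = C * (L.sg * L.kp) * Real.sqrt L.et * L.Lam ^ 6 := by ring

theorem Final_rpow {k : ℝ} (hk : 0 < k) :
    1 / k * Real.sqrt (1 / k / Real.sqrt (1 / k)) = 1 / k ^ (5 / 4 : ℝ) := by
  have h1 : 1 / k / Real.sqrt (1 / k) = Real.sqrt (1 / k) := by
    have h2 : (0 : ℝ) < 1 / k := by positivity
    rw [div_eq_iff (Real.sqrt_pos.2 h2).ne', Real.mul_self_sqrt h2.le]
  rw [h1, Real.sqrt_eq_rpow, Real.sqrt_eq_rpow, ← Real.rpow_mul (by positivity),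
    one_div, Real.inv_rpow hk.le, one_div, ← mul_inv]
  nth_rewrite 1 [← Real.rpow_one k]
  rw [← Real.rpow_add hk]
  norm_num

theorem final_uniform : ∃ C : ℝ, ∀ (k : ℕ), 1 ≤ k →
    ∀ (Ω : Type) [MeasurableSpace Ω] (P : Measure Ω) [IsProbabilityMeasure P]
    (X Y : ℕ → Ω → Fin k), (∀ n, Measurable (X n)) → (∀ n, Measurable (Y n)) →
    iIndepFun (fun i : ℕ ⊕ ℕ => Sum.elim X Y i) P →
    (∀ n a, P.real (X n ⁻¹' {a}) = 1 / k) → (∀ n a, P.real (Y n ⁻¹' {a}) = 1 / k) →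
    ∃ γ : ℝ, (∀ᵐ ω ∂P, Tendsto (fun n : ℕ =>
        (lcsLen (fun i => X i ω) (fun i => Y i ω) n : ℝ) / n) atTop (𝓝 γ)) ∧
      |γ - (2 / Real.sqrt k - 2 / k)| ≤ C * (1 + Real.log k) ^ 6 / (k : ℝ) ^ (5 / 4 : ℝ) := by
  obtain ⟨C, hC⟩ := final_general
  refine ⟨|C|, ?_⟩
  intro k hk Ω _ P _ X Y hX hY hI hlX hlY
  have hk0 : (0 : ℝ) < k := by exact_mod_cast hk
  have hk1 : (1 : ℝ) ≤ k := by exact_mod_cast hk
  have hne : Nonempty (Fin k) := ⟨⟨0, hk⟩⟩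
  have hsum : ∑ _a : Fin k, (1 / (k : ℝ)) = 1 := by
    rw [Finset.sum_const, Finset.card_univ, Fintype.card_fin, nsmul_eq_mul]
    field_simp
  obtain ⟨γ, h1, h2⟩ := hC (Fin k) (fun _ => 1 / (k : ℝ)) (fun _ => by positivity) hsum Ω P X Y
    hX hY hI hlX hlY
  refine ⟨γ, h1, ?_⟩
  have s2 : ∑ _a : Fin k, (1 / (k : ℝ)) ^ 2 = 1 / (k : ℝ) := by
    rw [Finset.sum_const, Finset.card_univ, Fintype.card_fin, nsmul_eq_mul]
    field_simp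
  have s3 : ∑ _a : Fin k, (1 / (k : ℝ)) ^ 3 = 1 / (k : ℝ) ^ 2 := by
    rw [Finset.sum_const, Finset.card_univ, Fintype.card_fin, nsmul_eq_mul]
    field_simp
  have s4 : (1 / (k : ℝ) ^ 2) / (1 / (k : ℝ)) = 1 / (k : ℝ) := by
    field_simp
  have s5 : Real.sqrt (1 / (k : ℝ)) = 1 / Real.sqrt k := by
    rw [Real.sqrt_div zero_le_one, Real.sqrt_one]
  simp only [s2, s3, s4, ciSup_const] at h2
  have e1 : 2 * Real.sqrt (1 / (k : ℝ)) - 2 * (1 / (k : ℝ)) = 2 / Real.sqrt k - 2 / k := by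
    rw [s5]
    ring
  rw [e1] at h2
  refine h2.trans ?_
  have hlog : 0 ≤ Real.log k := Real.log_nonneg hk1
  have e2 : Real.log (1 / Real.sqrt (1 / (k : ℝ))) = Real.log k / 2 := by
    rw [s5, one_div_one_div, Real.log_sqrt hk0.le]
  rw [e2]
  have e3 : C * (1 / (k : ℝ)) * Real.sqrt (1 / (k : ℝ) / Real.sqrt (1 / (k : ℝ))) *
      (1 + Real.log k / 2) ^ 6 = C * (1 + Real.log k / 2) ^ 6 * (1 / (k : ℝ) ^ (5 / 4 : ℝ)) := by
    rw [← Final_rpow hk0]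
    ring
  rw [e3, mul_one_div]
  have h3 : (1 + Real.log k / 2) ^ 6 ≤ (1 + Real.log k) ^ 6 :=
    pow_le_pow_left₀ (by linarith) (by linarith) 6
  have h4 : C * (1 + Real.log k / 2) ^ 6 ≤ |C| * (1 + Real.log k) ^ 6 :=
    (mul_le_mul_of_nonneg_right (le_abs_self C) (by positivity)).trans
      (mul_le_mul_of_nonneg_left h3 (abs_nonneg C))
  exact div_le_div_of_nonneg_right h4 (by positivity)

end LCSH
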