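import Pool.Agent.Lib.MP_ae6bb1_pr.RectC

/-! Probability of the good event (proof document, section F5). -/

open Finset

namespace LCSH

variable {α : Type*} [Fintype α] [DecidableEq α] (L : Law α)

/-- the standing assumptions on the parameters -/
structure Reg (L : Law α) (θ : ℝ) (T n : ℕ) : Prop where
  het : L.et ≤ c0
  hθ : 1 / 2 ≤ θ
  hθ' : θ ≤ 8
  hTn : 40 * ((T : ℝ) + 10) ≤ n * L.sg
  hn : (1 / L.sg) ^ 2 ≤ n
  hn' : (n : ℝ) ≤ (1 / L.sg) ^ 10

theorem Reg.T_le {L : Law α} {θ : ℝ} {T n : ℕ} (h : Reg L θ T n) : T ≤ n := by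
  have h1 := h.hTn
  have h2 := sg_le_one L
  have h3 : (n : ℝ) * L.sg ≤ n := by
    have : (0 : ℝ) ≤ n := Nat.cast_nonneg n
    nlinarith
  have h4 : (T : ℝ) ≤ n := by
    have : (0 : ℝ) ≤ T := Nat.cast_nonneg T
    linarith
  exact_mod_cast h4

/-- the three bad events of a pair `(r, i)`, `h = T - (r+1)` -/
private noncomputable def GoodProb_term (σ : ℝ) (m : ℕ → ℕ → Prop) (b : ℕ → ℕ) (T r i : ℕ) : ℝ :=
  ind ((lp m (r + 1) T (i + 1) (i + 1 + (T - (r + 1)) / 2 ^ 14) : ℝ) ≤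
    σ * (T - (r + 1) : ℕ) / 1100) +
  ind (σ * (T - (r + 1) : ℕ) / 5000 ≤
    (lp m (r + 1) T (i + 1) (i + 1 + (T - (r + 1)) / 2 ^ 30) : ℝ)) +
  ind (σ * (T - (r + 1) : ℕ) / 4000 ≤
    ((∑ l ∈ Finset.Ico (i + 1) (i + 1 + (T - (r + 1)) / 2 ^ 14), b l : ℕ) : ℝ))

private theorem GoodProb_term_nonneg (σ : ℝ) (m : ℕ → ℕ → Prop) (b : ℕ → ℕ) (T r i : ℕ) :
    0 ≤ GoodProb_term σ m b T r i :=
  add_nonneg (add_nonneg (ind_nonneg _) (ind_nonneg _)) (ind_nonneg _)

open Classical in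
private theorem GoodProb_pt {σ : ℝ} (m : ℕ → ℕ → Prop) (b : ℕ → ℕ) (T n h1 : ℕ) (hσ : 0 ≤ σ)
    (hh : 30000 ≤ σ * h1) :
    ind (¬ Good m b T n h1) ≤ ind ((∑ l ∈ Finset.range (n / 2), b l) ≤ T + 10) +
      ∑ r ∈ Finset.range T, ∑ i ∈ Finset.range (n / 2),
        (if r + 1 + h1 ≤ T then GoodProb_term σ m b T r i else 0) := by
  have hnn : ∀ r i, 0 ≤ (if r + 1 + h1 ≤ T then GoodProb_term σ m b T r i else 0) := by
    intro r i
    split_ifs
    · exact GoodProb_term_nonneg _ _ _ _ _ _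
    · exact le_rfl
  have hsum0 : 0 ≤ ∑ r ∈ Finset.range T, ∑ i ∈ Finset.range (n / 2),
        (if r + 1 + h1 ≤ T then GoodProb_term σ m b T r i else 0) :=
    Finset.sum_nonneg fun r _ => Finset.sum_nonneg fun i _ => hnn r i
  by_cases hg : Good m b T n h1
  · rw [ind_of_not (not_not_intro hg)]
    exact add_nonneg (ind_nonneg _) hsum0
  · rw [ind_of hg]
    by_cases h2 : (∑ l ∈ Finset.range (n / 2), b l) ≤ T + 10
    · rw [ind_of h2]
      linarith
    · have h3 : ∃ r i, r + 1 + h1 ≤ T ∧ i < n / 2 ∧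
          lp m (r + 1) T (i + 1) (i + 1 + (T - (r + 1)) / 2 ^ 14) ≤
          lp m (r + 1) T (i + 1) (i + 1 + (T - (r + 1)) / 2 ^ 30)
            + (∑ l ∈ Finset.Ico (i + 1) (i + 1 + (T - (r + 1)) / 2 ^ 14), b l) + 10 := by
        by_contra hcon
        push Not at hcon
        exact hg ⟨not_le.1 h2, fun r i hr hi => hcon r i hr hi⟩
      obtain ⟨r, i, hr, hi, hle⟩ := h3
      have hhh : σ * h1 ≤ σ * (T - (r + 1) : ℕ) := by
        have : h1 ≤ T - (r + 1) := by omega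
        exact mul_le_mul_of_nonneg_left (by exact_mod_cast this) hσ
      have hterm : 1 ≤ GoodProb_term σ m b T r i := by
        unfold GoodProb_term
        have hle' : (lp m (r + 1) T (i + 1) (i + 1 + (T - (r + 1)) / 2 ^ 14) : ℝ) ≤
          (lp m (r + 1) T (i + 1) (i + 1 + (T - (r + 1)) / 2 ^ 30) : ℝ)
            + ((∑ l ∈ Finset.Ico (i + 1) (i + 1 + (T - (r + 1)) / 2 ^ 14), b l : ℕ) : ℝ) + 10 := by
          exact_mod_cast hle
        by_cases hG : (lp m (r + 1) T (i + 1) (i + 1 + (T - (r + 1)) / 2 ^ 14) : ℝ) ≤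
            σ * (T - (r + 1) : ℕ) / 1100
        · rw [ind_of hG]
          have := ind_nonneg (σ * (T - (r + 1) : ℕ) / 5000 ≤
            (lp m (r + 1) T (i + 1) (i + 1 + (T - (r + 1)) / 2 ^ 30) : ℝ))
          have := ind_nonneg (σ * (T - (r + 1) : ℕ) / 4000 ≤
            ((∑ l ∈ Finset.Ico (i + 1) (i + 1 + (T - (r + 1)) / 2 ^ 14), b l : ℕ) : ℝ))
          linarith
        · by_cases hT : σ * (T - (r + 1) : ℕ) / 5000 ≤
            (lp m (r + 1) T (i + 1) (i + 1 + (T - (r + 1)) / 2 ^ 30) : ℝ)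
          · rw [ind_of hT]
            have := ind_nonneg ((lp m (r + 1) T (i + 1) (i + 1 + (T - (r + 1)) / 2 ^ 14) : ℝ) ≤
              σ * (T - (r + 1) : ℕ) / 1100)
            have := ind_nonneg (σ * (T - (r + 1) : ℕ) / 4000 ≤
              ((∑ l ∈ Finset.Ico (i + 1) (i + 1 + (T - (r + 1)) / 2 ^ 14), b l : ℕ) : ℝ))
            linarith
          · have hC : σ * (T - (r + 1) : ℕ) / 4000 ≤
              ((∑ l ∈ Finset.Ico (i + 1) (i + 1 + (T - (r + 1)) / 2 ^ 14), b l : ℕ) : ℝ) := by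
              rw [not_le] at hG hT
              by_contra hcon
              rw [not_le] at hcon
              linarith
            rw [ind_of hC]
            have := ind_nonneg ((lp m (r + 1) T (i + 1) (i + 1 + (T - (r + 1)) / 2 ^ 14) : ℝ) ≤
              σ * (T - (r + 1) : ℕ) / 1100)
            have := ind_nonneg (σ * (T - (r + 1) : ℕ) / 5000 ≤
              (lp m (r + 1) T (i + 1) (i + 1 + (T - (r + 1)) / 2 ^ 30) : ℝ))
            linarith
      have h5 : GoodProb_term σ m b T r i ≤ ∑ r ∈ Finset.range T, ∑ i ∈ Finset.range (n / 2),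
        (if r + 1 + h1 ≤ T then GoodProb_term σ m b T r i else 0) := by
        have h6 : GoodProb_term σ m b T r i = (if r + 1 + h1 ≤ T then GoodProb_term σ m b T r i else 0) := by
          rw [if_pos hr]
        rw [h6]
        refine (Finset.single_le_sum (f := fun i => if r + 1 + h1 ≤ T then GoodProb_term σ m b T r i else 0)
          (fun i _ => hnn r i) (Finset.mem_range.2 hi)).trans ?_
        exact Finset.single_le_sum (f := fun r => ∑ i ∈ Finset.range (n / 2),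
          (if r + 1 + h1 ≤ T then GoodProb_term σ m b T r i else 0))
          (fun r _ => Finset.sum_nonneg fun i _ => hnn r i) (Finset.mem_range.2 (by omega))
      have := ind_nonneg ((∑ l ∈ Finset.range (n / 2), b l) ≤ T + 10)
      linarith

private theorem GoodProb_EE_term {θ : ℝ} {T n : ℕ} (hR : Reg L θ T n) (h1 r i : ℕ)
    (hh1 : 2 * 10 ^ 6 * L.Lam / L.sg ≤ h1) (hr : r + 1 + h1 ≤ T) (hi : i < n / 2) :
    EE L θ T n (fun x y ξ => GoodProb_term L.sg (rl x y) (bt ξ) T r i) ≤ 3 * L.sg ^ 80 := by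
  have hθ : 0 < θ := by linarith [hR.hθ]
  have hs := sg_pos L
  have hLam := one_le_Lam L
  have hTn := hR.T_le
  set h : ℕ := T - (r + 1) with hh
  have hTe : r + 1 + h = T := by omega
  have hh1' : 2 * 10 ^ 6 * L.Lam ≤ L.sg * h := by
    have h2 : (h1 : ℝ) ≤ h := by
      have : h1 ≤ h := by omega
      exact_mod_cast this
    have h3 : 2 * 10 ^ 6 * L.Lam / L.sg ≤ h := hh1.trans h2
    rw [div_le_iff₀ hs] at h3
    linarith
  have h5 : (10 : ℝ) ^ 5 ≤ L.sg * h := by nlinarith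
  have hwin : ∀ k : ℕ, 14 ≤ k → i + 1 + h / 2 ^ k ≤ n := by
    intro k hk
    have h6 : h / 2 ^ k ≤ h / 2 ^ 14 := Nat.div_le_div_left (Nat.pow_le_pow_right (by norm_num) hk) (by norm_num)
    have h7 : h / 2 ^ 14 ≤ n / 2 := by
      norm_num
      omega
    omega
  have hexp : ∀ c : ℝ, 80 * L.Lam ≤ c → Real.exp (-c) ≤ L.sg ^ 80 := by
    intro c hc
    have h8 : Real.exp (-c) ≤ Real.exp (-L.Lam) ^ 80 := by
      rw [← Real.exp_nat_mul]
      refine Real.exp_le_exp.2 ?_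
      push_cast
      linarith
    exact h8.trans (pow_le_pow_left₀ (Real.exp_pos _).le (exp_Lam L) 80)
  -- gain
  have e1 : EE L θ T n (fun x y ξ => ind ((lp (rl x y) (r + 1) T (i + 1)
      (i + 1 + h / 2 ^ 14) : ℝ) ≤ L.sg * (h : ℕ) / 1100)) ≤ L.sg ^ 80 := by
    have h9 := EE_rect (L := L) (T := T) (n := n) hθ (r + 1) h (i + 1) (h / 2 ^ 14) hTe.le (hwin 14 le_rfl)
      (fun v => ind ((v : ℝ) ≤ L.sg * h / 1100))
    rw [hTe] at h9
    rw [h9]
    refine (gain_prob L hR.het h h5).trans (hexp _ ?_)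
    rw [le_div_iff₀ (by norm_num)]
    nlinarith
  have e2 : EE L θ T n (fun x y ξ => ind (L.sg * (h : ℕ) / 5000 ≤ (lp (rl x y) (r + 1) T (i + 1)
      (i + 1 + h / 2 ^ 30) : ℝ))) ≤ L.sg ^ 80 := by
    have h9 := EE_rect (L := L) (T := T) (n := n) hθ (r + 1) h (i + 1) (h / 2 ^ 30) hTe.le
      (hwin 30 (by norm_num)) (fun v => ind (L.sg * h / 5000 ≤ (v : ℝ)))
    rw [hTe] at h9
    rw [h9]
    refine (thin_prob L h h5).trans (hexp _ ?_)
    rw [le_div_iff₀ (by norm_num)]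
    nlinarith
  have e3 : EE L θ T n (fun x y ξ => ind (L.sg * (h : ℕ) / 4000 ≤
      ((∑ l ∈ Finset.Ico (i + 1) (i + 1 + h / 2 ^ 14), bt ξ l : ℕ) : ℝ))) ≤ L.sg ^ 80 := by
    refine (cost_prob L hR.hθ h (i + 1) (hwin 14 le_rfl)).trans (hexp _ ?_)
    rw [le_div_iff₀ (by norm_num)]
    nlinarith
  unfold GoodProb_term
  rw [EE_add, EE_add]
  have e1' := e1
  have e2' := e2
  have e3' := e3
  rw [hh] at e1' e2' e3'
  linarith

private theorem GoodProb_num {s : ℝ} (hs : 0 < s) (hs1 : s ≤ 1 / 10 ^ 6) :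
    Real.exp (-(1 / (100 * s))) ≤ s ^ 60 := by
  set y : ℝ := 1 / (60000 * s) with hy
  have hy0 : 0 < y := by positivity
  have h1 : Real.exp (-(1 / (100 * s))) = Real.exp (-y) ^ 600 := by
    rw [← Real.exp_nat_mul]
    congr 1
    rw [hy]
    push_cast
    field_simp
    norm_num
  have h2 : Real.exp (-y) ≤ 60000 * s := by
    rw [Real.exp_neg]
    have h3 : y ≤ Real.exp y := by
      have := Real.add_one_le_exp y
      linarith
    have h4 : (Real.exp y)⁻¹ ≤ y⁻¹ := inv_anti₀ hy0 h3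
    refine h4.trans (le_of_eq ?_)
    rw [hy, one_div, inv_inv]
  have h5 : (60000 * s) ^ 10 ≤ s := by
    have h6 : s ^ 9 ≤ (1 / 10 ^ 6) ^ 9 := pow_le_pow_left₀ hs.le hs1 9
    have h7 : (60000 : ℝ) ^ 10 * (1 / 10 ^ 6) ^ 9 ≤ 1 := by norm_num
    calc (60000 * s) ^ 10 = (60000 : ℝ) ^ 10 * s ^ 9 * s := by ring
      _ ≤ (60000 : ℝ) ^ 10 * (1 / 10 ^ 6) ^ 9 * s := by gcongr
      _ ≤ 1 * s := by gcongr
      _ = s := one_mul s
  rw [h1]
  calc Real.exp (-y) ^ 600 ≤ (60000 * s) ^ 600 := pow_le_pow_left₀ (Real.exp_pos _).le h2 600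
    _ = ((60000 * s) ^ 10) ^ 60 := by rw [← pow_mul]
    _ ≤ s ^ 60 := pow_le_pow_left₀ (by positivity) h5 60

theorem good_prob {θ : ℝ} {T n : ℕ} (hR : Reg L θ T n) (h1 : ℕ)
    (hh1 : 2 * 10 ^ 6 * L.Lam / L.sg ≤ h1) :
    EE L θ T n (fun x y ξ => ind (¬ Good (rl x y) (bt ξ) T n h1)) ≤ L.sg ^ 50 := by
  classical
  have hθ : 0 < θ := by linarith [hR.hθ]
  have hs := sg_pos L
  have hLam := one_le_Lam L
  have hTn := hR.T_le
  have hs6 : L.sg ≤ 1 / 10 ^ 6 := by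
    have h2 := sg_le_kp L
    have h3 := kp_le_et L
    have h4 := hR.het
    unfold c0 at h4
    linarith
  have hσh1 : 30000 ≤ L.sg * h1 := by
    rw [div_le_iff₀ hs] at hh1
    nlinarith
  have hpt : ∀ (x : Fin T → α) (y : Fin n → α) (ξ : Fin n → Bool),
      ind (¬ Good (rl x y) (bt ξ) T n h1) ≤ ind ((∑ l ∈ Finset.range (n / 2), bt ξ l) ≤ T + 10) +
      ∑ r ∈ Finset.range T, ∑ i ∈ Finset.range (n / 2),
        (if r + 1 + h1 ≤ T then GoodProb_term L.sg (rl x y) (bt ξ) T r i else 0) := by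
    intro x y ξ
    exact GoodProb_pt (rl x y) (bt ξ) T n h1 hs.le hσh1
  refine (EE_mono L hθ hpt).trans ?_
  rw [EE_add, EE_sum]
  have hexit := exit_prob L hR.hθ hR.hθ' hR.het hR.hTn
  have hn0 : (0 : ℝ) ≤ n := Nat.cast_nonneg n
  have hexit' : Real.exp (-(n * L.sg / 100)) ≤ L.sg ^ 60 := by
    refine le_trans (Real.exp_le_exp.2 ?_) (GoodProb_num hs hs6)
    rw [neg_le_neg_iff]
    have h2 := hR.hn
    have h3 : 1 / L.sg ≤ n * L.sg := by
      have h4 : (1 / L.sg) ^ 2 * L.sg ≤ n * L.sg := mul_le_mul_of_nonneg_right h2 hs.le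
      have h5 : (1 / L.sg) ^ 2 * L.sg = 1 / L.sg := by
        field_simp
      linarith
    have h6 : 1 / (100 * L.sg) = 1 / L.sg / 100 := by
      field_simp
    rw [h6]
    linarith
  have hterm : ∀ r ∈ Finset.range T, EE L θ T n (fun x y ξ => ∑ i ∈ Finset.range (n / 2),
        (if r + 1 + h1 ≤ T then GoodProb_term L.sg (rl x y) (bt ξ) T r i else 0)) ≤
      (n / 2 : ℕ) * (3 * L.sg ^ 80) := by
    intro r _
    rw [EE_sum]
    have h2 : ∀ i ∈ Finset.range (n / 2), EE L θ T n (fun x y ξ =>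
        (if r + 1 + h1 ≤ T then GoodProb_term L.sg (rl x y) (bt ξ) T r i else 0)) ≤ 3 * L.sg ^ 80 := by
      intro i hi
      by_cases hr : r + 1 + h1 ≤ T
      · simp only [if_pos hr]
        exact GoodProb_EE_term L hR h1 r i hh1 hr (Finset.mem_range.1 hi)
      · simp only [if_neg hr]
        rw [EE_const L hθ]
        positivity
    refine (Finset.sum_le_sum h2).trans (le_of_eq ?_)
    rw [Finset.sum_const, Finset.card_range, nsmul_eq_mul]
  have hsum := Finset.sum_le_sum hterm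
  rw [Finset.sum_const, Finset.card_range, nsmul_eq_mul] at hsum
  have hcount : (T : ℝ) * ((n / 2 : ℕ) * (3 * L.sg ^ 80)) ≤ 3 * L.sg ^ 60 := by
    have h2 : (T : ℝ) ≤ n := by exact_mod_cast hTn
    have h3 : ((n / 2 : ℕ) : ℝ) ≤ n := by
      have : n / 2 ≤ n := Nat.div_le_self n 2
      exact_mod_cast this
    have h4 : (n : ℝ) * L.sg ^ 10 ≤ 1 := by
      have h5 := mul_le_mul_of_nonneg_right hR.hn' (pow_nonneg hs.le 10)
      have h6 : (1 / L.sg) ^ 10 * L.sg ^ 10 = 1 := by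
        rw [← mul_pow, one_div, inv_mul_cancel₀ hs.ne', one_pow]
      rwa [h6] at h5
    have hT0 : (0 : ℝ) ≤ T := Nat.cast_nonneg T
    have h7 : (T : ℝ) * ((n / 2 : ℕ) * (3 * L.sg ^ 80)) ≤ n * (n * (3 * L.sg ^ 80)) := by
      gcongr
    refine h7.trans ?_
    have h8 : (n : ℝ) * (n * (3 * L.sg ^ 80)) = 3 * ((n * L.sg ^ 10) * (n * L.sg ^ 10)) * L.sg ^ 60 := by
      ring
    rw [h8]
    have h9 : (n * L.sg ^ 10) * (n * L.sg ^ 10) ≤ 1 * 1 := by
      apply mul_le_mul h4 h4 (by positivity) zero_le_one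
    have h10 : (0 : ℝ) ≤ L.sg ^ 60 := by positivity
    nlinarith
  have hfin : 4 * L.sg ^ 60 ≤ L.sg ^ 50 := by
    have h2 : L.sg ^ 10 ≤ (1 / 10 ^ 6) ^ 10 := pow_le_pow_left₀ hs.le hs6 10
    have h3 : 4 * L.sg ^ 10 ≤ 1 := by
      refine (mul_le_mul_of_nonneg_left h2 (by norm_num)).trans ?_
      norm_num
    calc 4 * L.sg ^ 60 = (4 * L.sg ^ 10) * L.sg ^ 50 := by ring
      _ ≤ 1 * L.sg ^ 50 := mul_le_mul_of_nonneg_right h3 (by positivity)
      _ = L.sg ^ 50 := one_mul _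
  linarith

end LCSH
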