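import Pool.Agent.Lib.MP_ae6bb1_pr.PEProd
import Pool.Agent.Lib.MP_ae6bb1_pr.Walk

/-! The exact identity for the set of pivotal columns (proof document, section D). -/

open Finset

namespace LCSH

theorem Key_bt_cons_zero {n : ℕ} (b : Bool) (ω : Fin n → Bool) :
    bt (Fin.cons (α := fun _ => Bool) b ω) 0 = b.toNat := by
  simp [bt]

theorem Key_bt_cons_succ {n : ℕ} (b : Bool) (ω : Fin n → Bool) (l : ℕ) :
    bt (Fin.cons (α := fun _ => Bool) b ω) (l + 1) = bt ω l := by
  unfold bt
  by_cases h : l < n
  · have h' : l + 1 < n + 1 := by omega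
    rw [dif_pos h, dif_pos h']
    have : (⟨l + 1, h'⟩ : Fin (n + 1)) = Fin.succ ⟨l, h⟩ := rfl
    rw [this, Fin.cons_succ]
  · have h' : ¬ l + 1 < n + 1 := by omega
    rw [dif_neg h, dif_neg h']

theorem Key_Wt_cons {n : ℕ} (b : Bool) (ω : Fin n → Bool) (c : ℕ) :
    Wt (bt (Fin.cons (α := fun _ => Bool) b ω)) (n + 1) (c + 1) = Wt (bt ω) n c := by
  unfold Wt
  rw [← Finset.sum_Ico_add' (fun l => bt (Fin.cons (α := fun _ => Bool) b ω) l) c n 1]
  refine Finset.sum_congr rfl fun l _ => ?_
  exact Key_bt_cons_succ b ω l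

theorem Key_Wt_cons_zero {n : ℕ} (b : Bool) (ω : Fin n → Bool) :
    Wt (bt (Fin.cons (α := fun _ => Bool) b ω)) (n + 1) 0 = b.toNat + Wt (bt ω) n 0 := by
  rw [Wt_succ (Nat.succ_pos n), Key_bt_cons_zero, Key_Wt_cons]

theorem Key_Zf_cons {n : ℕ} (A : ℕ → ℕ) (b : Bool) (ω : Fin n → Bool) (c : ℕ) :
    Zf A (bt (Fin.cons (α := fun _ => Bool) b ω)) (n + 1) (c + 1) =
      Zf (fun i => A (i + 1)) (bt ω) n c := by
  unfold Zf
  rw [Key_Wt_cons]

theorem Key_Vf_cons {n : ℕ} (A : ℕ → ℕ) (b : Bool) (ω : Fin n → Bool) (c : ℕ) :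
    Vf A (bt (Fin.cons (α := fun _ => Bool) b ω)) (n + 1) (c + 1) =
      Vf (fun i => A (i + 1)) (bt ω) n c := by
  unfold Vf
  rw [Key_Wt_cons]

theorem Key_Mf_cons {n : ℕ} (A : ℕ → ℕ) (b : Bool) (ω : Fin n → Bool) :
    Mf A (bt (Fin.cons (α := fun _ => Bool) b ω)) (n + 1) =
      max (A 0 + b.toNat + Wt (bt ω) n 0) (Mf (fun i => A (i + 1)) (bt ω) n) := by
  apply le_antisymm
  · apply Mf_le
    intro c hc
    rcases c with _ | c
    · apply le_max_of_le_left
      unfold Zf
      rw [Key_Wt_cons_zero]
      omega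
    · apply le_max_of_le_right
      rw [Key_Zf_cons]
      exact Zf_le_Mf (by omega)
  · apply max_le
    · have := Zf_le_Mf (A := A) (b := bt (Fin.cons (α := fun _ => Bool) b ω)) (n := n + 1)
        (Nat.zero_le _)
      unfold Zf at this
      rw [Key_Wt_cons_zero] at this
      omega
    · apply Mf_le
      intro c hc
      rw [← Key_Zf_cons A b ω c]
      exact Zf_le_Mf (by omega)

/-- the functional of the suffix system on the event `M = Z(0) + r` -/
noncomputable def KeyF (n : ℕ) (A : ℕ → ℕ) (o : Fin n → ℝ) (θ t : ℝ) (r : ℕ)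
    (ξ : Fin n → Bool) : ℝ :=
  (∏ j : Fin n, (1 - t * o j * ind (Vf A (bt ξ) n j = Mf A (bt ξ) n))) *
      (1 - θ * t / (1 + θ * t) * ind (Zf A (bt ξ) n n = Mf A (bt ξ) n)) *
      ind (Mf A (bt ξ) n = Zf A (bt ξ) n 0 + r)

/-- if the maximum is that of the suffix system then the product factorises -/
theorem Key_prod_same {n : ℕ} (A : ℕ → ℕ) (o : Fin (n + 1) → ℝ) (θ t : ℝ) (b : Bool)
    (ω : Fin n → Bool) (r s : ℕ)
    (hM : Mf A (bt (Fin.cons (α := fun _ => Bool) b ω)) (n + 1) =
      Mf (fun i => A (i + 1)) (bt ω) n)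
    (hrs : Mf A (bt (Fin.cons (α := fun _ => Bool) b ω)) (n + 1) =
        Zf A (bt (Fin.cons (α := fun _ => Bool) b ω)) (n + 1) 0 + r ↔
      Mf (fun i => A (i + 1)) (bt ω) n = Zf (fun i => A (i + 1)) (bt ω) n 0 + s) :
    KeyF (n + 1) A o θ t r (Fin.cons (α := fun _ => Bool) b ω) =
      (1 - t * o 0 * ind (A 0 + Wt (bt ω) n 0 = Mf (fun i => A (i + 1)) (bt ω) n)) *
        KeyF n (fun i => A (i + 1)) (fun j => o j.succ) θ t s ω := by
  unfold KeyF
  rw [Fin.prod_univ_succ]
  have h0 : Vf A (bt (Fin.cons (α := fun _ => Bool) b ω)) (n + 1) ((0 : Fin (n + 1)) : ℕ) =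
      A 0 + Wt (bt ω) n 0 := by
    show A 0 + Wt _ (n + 1) (0 + 1) = _
    rw [Key_Wt_cons]
  have hs : ∀ j : Fin n, Vf A (bt (Fin.cons (α := fun _ => Bool) b ω)) (n + 1)
      ((j.succ : Fin (n + 1)) : ℕ) = Vf (fun i => A (i + 1)) (bt ω) n j := by
    intro j
    rw [Fin.val_succ, Key_Vf_cons]
  have hn : Zf A (bt (Fin.cons (α := fun _ => Bool) b ω)) (n + 1) (n + 1) =
      Zf (fun i => A (i + 1)) (bt ω) n n := Key_Zf_cons A b ω n
  rw [h0, hn, hM]
  rw [hM] at hrs
  have e1 : ind (Mf (fun i => A (i + 1)) (bt ω) n =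
        Zf A (bt (Fin.cons (α := fun _ => Bool) b ω)) (n + 1) 0 + r) =
      ind (Mf (fun i => A (i + 1)) (bt ω) n = Zf (fun i => A (i + 1)) (bt ω) n 0 + s) := by
    congr 1
    exact propext hrs
  rw [e1]
  have e2 : ∏ j : Fin n, (1 - t * o j.succ * ind (Vf A
        (bt (Fin.cons (α := fun _ => Bool) b ω)) (n + 1) ((j.succ : Fin (n + 1)) : ℕ) =
        Mf (fun i => A (i + 1)) (bt ω) n)) =
      ∏ j : Fin n, (1 - t * o j.succ * ind (Vf (fun i => A (i + 1)) (bt ω) n j =
        Mf (fun i => A (i + 1)) (bt ω) n)) := by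
    refine Finset.prod_congr rfl fun j _ => ?_
    rw [hs j]
  rw [e2]
  ring

theorem Key_eq_zero {n : ℕ} (A : ℕ → ℕ) (o : Fin n → ℝ) (θ t : ℝ) (r : ℕ) (ξ : Fin n → Bool)
    (h : Mf A (bt ξ) n ≠ Zf A (bt ξ) n 0 + r) : KeyF n A o θ t r ξ = 0 := by
  unfold KeyF
  rw [ind_of_not h, mul_zero]

/-- refined form used in the induction: the identity holds on each event `M = Z(0) + r` -/
theorem key_refined (n : ℕ) (A : ℕ → ℕ) (hA : Monotone A) (o : Fin n → ℝ) (ho : ∀ j, 0 ≤ o j)
    (θ t : ℝ) (hθ : 0 < θ) (ht : 0 ≤ t) (r : ℕ) :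
    PE (fun j : Fin n => bw (o j / (o j + θ))) (fun ξ =>
      (∏ j : Fin n, (1 - t * o j * ind (Vf A (bt ξ) n j = Mf A (bt ξ) n))) *
      (1 - θ * t / (1 + θ * t) * ind (Zf A (bt ξ) n n = Mf A (bt ξ) n)) *
      ind (Mf A (bt ξ) n = Zf A (bt ξ) n 0 + r)) =
    (1 - θ * t / (1 + θ * t)) * PE (fun j : Fin n => bw (o j / (o j + θ)))
      (fun ξ => ind (Mf A (bt ξ) n = Zf A (bt ξ) n 0 + r)) := by
  change PE (fun j : Fin n => bw (o j / (o j + θ))) (KeyF n A o θ t r) = _
  induction n generalizing A r with
  | zero =>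
    have hM : ∀ ξ : Fin 0 → Bool, Mf A (bt ξ) 0 = Zf A (bt ξ) 0 0 := by
      intro ξ
      simp [Mf]
    rw [← PE_const_mul]
    unfold PE
    refine Finset.sum_congr rfl fun ξ _ => ?_
    congr 1
    unfold KeyF
    rw [ind_of (hM ξ).symm]
    simp
  | succ n ih =>
    set β : ℝ := θ * t / (1 + θ * t) with hβ
    set A' : ℕ → ℕ := fun i => A (i + 1) with hA'
    set o' : Fin n → ℝ := fun j => o j.succ with ho'
    have hA'm : Monotone A' := fun i j hij => hA (by omega)
    have IH := fun s => ih A' hA'm o' (fun j => ho j.succ) s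
    set w' : Fin n → Bool → ℝ := fun j => bw (o' j / (o' j + θ)) with hw'
    set G : ℕ → ℝ := fun s => PE w' (KeyF n A' o' θ t s) with hG
    set Pr : ℕ → ℝ := fun s => PE w' (fun ξ => ind (Mf A' (bt ξ) n = Zf A' (bt ξ) n 0 + s))
      with hPr
    have IH' : ∀ s, G s = (1 - β) * Pr s := IH
    set ρ : ℝ := o 0 / (o 0 + θ) with hρ
    have ho0 : 0 ≤ o 0 := ho 0
    have hA01 : A 0 ≤ A 1 := hA (by omega)
    have hZ0 : ∀ ω : Fin n → Bool, Zf A' (bt ω) n 0 = A 1 + Wt (bt ω) n 0 := fun ω => rfl
    have hM' : ∀ ω : Fin n → Bool, A 1 + Wt (bt ω) n 0 ≤ Mf A' (bt ω) n := by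
      intro ω
      rw [← hZ0 ω]
      exact Zf_le_Mf (Nat.zero_le _)
    have hZc : ∀ (b : Bool) (ω : Fin n → Bool),
        Zf A (bt (Fin.cons (α := fun _ => Bool) b ω)) (n + 1) 0 =
          A 0 + b.toNat + Wt (bt ω) n 0 := by
      intro b ω
      unfold Zf
      rw [Key_Wt_cons_zero]
      omega
    have hMc : ∀ (b : Bool) (ω : Fin n → Bool),
        Mf A (bt (Fin.cons (α := fun _ => Bool) b ω)) (n + 1) =
          max (A 0 + b.toNat + Wt (bt ω) n 0) (Mf A' (bt ω) n) := fun b ω => Key_Mf_cons A b ω
    -- expansion of both sides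
    have hL : PE (fun j : Fin (n + 1) => bw (o j / (o j + θ))) (KeyF (n + 1) A o θ t r) =
        ρ * PE w' (fun ω => KeyF (n + 1) A o θ t r (Fin.cons (α := fun _ => Bool) true ω)) +
        (1 - ρ) * PE w' (fun ω => KeyF (n + 1) A o θ t r
          (Fin.cons (α := fun _ => Bool) false ω)) := by
      rw [PE_cons]
      simp only [Fintype.sum_bool, bw]
      simp [hρ, hw', ho']
    have hRr : PE (fun j : Fin (n + 1) => bw (o j / (o j + θ)))
          (fun ξ => ind (Mf A (bt ξ) (n + 1) = Zf A (bt ξ) (n + 1) 0 + r)) =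
        ρ * PE w' (fun ω => ind (Mf A (bt (Fin.cons (α := fun _ => Bool) true ω)) (n + 1) =
          Zf A (bt (Fin.cons (α := fun _ => Bool) true ω)) (n + 1) 0 + r)) +
        (1 - ρ) * PE w' (fun ω => ind (Mf A (bt (Fin.cons (α := fun _ => Bool) false ω)) (n + 1) =
          Zf A (bt (Fin.cons (α := fun _ => Bool) false ω)) (n + 1) 0 + r)) := by
      rw [PE_cons]
      simp only [Fintype.sum_bool, bw]
      simp [hρ, hw', ho']
    rw [hL, hRr]
    by_cases hd : A 0 < A 1
    · -- case d ≥ 1
      have hMM : ∀ (b : Bool) (ω : Fin n → Bool),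
          Mf A (bt (Fin.cons (α := fun _ => Bool) b ω)) (n + 1) = Mf A' (bt ω) n := by
        intro b ω
        rw [hMc]
        apply max_eq_right
        have := hM' ω
        have hb : b.toNat ≤ 1 := Bool.toNat_le b
        omega
      have key : ∀ b : Bool, PE w' (fun ω => KeyF (n + 1) A o θ t r
          (Fin.cons (α := fun _ => Bool) b ω)) = (1 - β) * PE w' (fun ω =>
          ind (Mf A (bt (Fin.cons (α := fun _ => Bool) b ω)) (n + 1) =
            Zf A (bt (Fin.cons (α := fun _ => Bool) b ω)) (n + 1) 0 + r)) := by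
        intro b
        by_cases hs : A 1 ≤ A 0 + b.toNat + r
        · have hiff : ∀ ω : Fin n → Bool,
              (Mf A (bt (Fin.cons (α := fun _ => Bool) b ω)) (n + 1) =
                Zf A (bt (Fin.cons (α := fun _ => Bool) b ω)) (n + 1) 0 + r ↔
              Mf A' (bt ω) n = Zf A' (bt ω) n 0 + (A 0 + b.toNat + r - A 1)) := by
            intro ω
            rw [hMM, hZc, hZ0]
            constructor <;> intro h <;> omega
          have e1 : (fun ω => KeyF (n + 1) A o θ t r (Fin.cons (α := fun _ => Bool) b ω)) =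
              KeyF n A' o' θ t (A 0 + b.toNat + r - A 1) := by
            funext ω
            rw [Key_prod_same A o θ t b ω r (A 0 + b.toNat + r - A 1) (hMM b ω) (hiff ω)]
            have : ¬ (A 0 + Wt (bt ω) n 0 = Mf (fun i => A (i + 1)) (bt ω) n) := by
              have := hM' ω
              intro h
              have h2 : A 0 + Wt (bt ω) n 0 = Mf A' (bt ω) n := h
              omega
            rw [ind_of_not this]
            simp [hA', ho']
          have e2 : (fun ω : Fin n → Bool =>
              ind (Mf A (bt (Fin.cons (α := fun _ => Bool) b ω)) (n + 1) =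
                Zf A (bt (Fin.cons (α := fun _ => Bool) b ω)) (n + 1) 0 + r)) =
              fun ω => ind (Mf A' (bt ω) n = Zf A' (bt ω) n 0 + (A 0 + b.toNat + r - A 1)) := by
            funext ω
            congr 1
            exact propext (hiff ω)
          rw [e1, e2]
          exact IH' _
        · have hfalse : ∀ ω : Fin n → Bool,
              ¬ (Mf A (bt (Fin.cons (α := fun _ => Bool) b ω)) (n + 1) =
                Zf A (bt (Fin.cons (α := fun _ => Bool) b ω)) (n + 1) 0 + r) := by
            intro ω
            rw [hMM, hZc]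
            have := hM' ω
            omega
          have e1 : (fun ω => KeyF (n + 1) A o θ t r (Fin.cons (α := fun _ => Bool) b ω)) =
              fun _ => (0 : ℝ) := by
            funext ω
            exact Key_eq_zero _ _ _ _ _ _ (hfalse ω)
          have e2 : (fun ω : Fin n → Bool =>
              ind (Mf A (bt (Fin.cons (α := fun _ => Bool) b ω)) (n + 1) =
                Zf A (bt (Fin.cons (α := fun _ => Bool) b ω)) (n + 1) 0 + r)) =
              fun _ => (0 : ℝ) := by
            funext ω
            exact ind_of_not (hfalse ω)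
          rw [e1, e2]
          simp [PE]
      rw [key true, key false]
      ring
    · -- case d = 0
      have hd0 : A 1 = A 0 := by omega
      rcases Nat.eq_zero_or_pos r with hr | hr
      · subst hr
        -- r = 0
        have e1 : (fun ω => KeyF (n + 1) A o θ t 0 (Fin.cons (α := fun _ => Bool) false ω)) =
            fun ω => (1 - t * o 0) * KeyF n A' o' θ t 0 ω := by
          funext ω
          have hMM : Mf A (bt (Fin.cons (α := fun _ => Bool) false ω)) (n + 1) =
              Mf A' (bt ω) n := by
            rw [hMc]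
            apply max_eq_right
            have := hM' ω
            simp
            omega
          have hiff : (Mf A (bt (Fin.cons (α := fun _ => Bool) false ω)) (n + 1) =
                Zf A (bt (Fin.cons (α := fun _ => Bool) false ω)) (n + 1) 0 + 0 ↔
              Mf A' (bt ω) n = Zf A' (bt ω) n 0 + 0) := by
            rw [hMM, hZc, hZ0]
            simp
            constructor <;> intro h <;> omega
          rw [Key_prod_same A o θ t false ω 0 0 hMM hiff]
          by_cases h0 : Mf A' (bt ω) n = Zf A' (bt ω) n 0 + 0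
          · have : A 0 + Wt (bt ω) n 0 = Mf (fun i => A (i + 1)) (bt ω) n := by
              have h1 : Mf (fun i => A (i + 1)) (bt ω) n = Mf A' (bt ω) n := rfl
              rw [h1, h0, hZ0]
              omega
            rw [ind_of this]
            simp [hA', ho']
          · have e := Key_eq_zero A' o' θ t 0 ω h0
            have e' : KeyF n (fun i => A (i + 1)) (fun j => o j.succ) θ t 0 ω = 0 := e
            rw [e']
            simp
        have e2 : (fun ω => KeyF (n + 1) A o θ t 0 (Fin.cons (α := fun _ => Bool) true ω)) =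
            fun ω => KeyF n A' o' θ t 1 ω + ind (Mf A' (bt ω) n = Zf A' (bt ω) n 0 + 0) := by
          funext ω
          have hm := hM' ω
          by_cases h0 : Mf A' (bt ω) n = Zf A' (bt ω) n 0 + 0
          · -- M = M' + 1
            rw [ind_of h0, Key_eq_zero A' o' θ t 1 ω (by omega)]
            have hMM : Mf A (bt (Fin.cons (α := fun _ => Bool) true ω)) (n + 1) =
                Mf A' (bt ω) n + 1 := by
              rw [hMc, h0, hZ0]
              simp
              omega
            unfold KeyF
            rw [Fin.prod_univ_succ]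
            have hV0 : ¬ (Vf A (bt (Fin.cons (α := fun _ => Bool) true ω)) (n + 1)
                ((0 : Fin (n + 1)) : ℕ) =
                Mf A (bt (Fin.cons (α := fun _ => Bool) true ω)) (n + 1)) := by
              have : Vf A (bt (Fin.cons (α := fun _ => Bool) true ω)) (n + 1)
                ((0 : Fin (n + 1)) : ℕ) = A 0 + Wt (bt ω) n 0 := by
                show A 0 + Wt _ (n + 1) (0 + 1) = _
                rw [Key_Wt_cons]
              rw [this, hMM]
              omega
            have hVs : ∀ j : Fin n, ¬ (Vf A (bt (Fin.cons (α := fun _ => Bool) true ω)) (n + 1)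
                ((j.succ : Fin (n + 1)) : ℕ) =
                Mf A (bt (Fin.cons (α := fun _ => Bool) true ω)) (n + 1)) := by
              intro j
              rw [Fin.val_succ, Key_Vf_cons, hMM]
              have := Vf_le_Mf (A := A') (b := bt ω) (n := n) j.2
              have h3 : Vf (fun i => A (i + 1)) (bt ω) n j = Vf A' (bt ω) n j := rfl
              omega
            have hZn : ¬ (Zf A (bt (Fin.cons (α := fun _ => Bool) true ω)) (n + 1) (n + 1) =
                Mf A (bt (Fin.cons (α := fun _ => Bool) true ω)) (n + 1)) := by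
              rw [Key_Zf_cons, hMM]
              have := Zf_le_Mf (A := A') (b := bt ω) (n := n) (le_refl n)
              have h3 : Zf (fun i => A (i + 1)) (bt ω) n n = Zf A' (bt ω) n n := rfl
              omega
            have hend : Mf A (bt (Fin.cons (α := fun _ => Bool) true ω)) (n + 1) =
                Zf A (bt (Fin.cons (α := fun _ => Bool) true ω)) (n + 1) 0 + 0 := by
              rw [hMM, hZc, h0, hZ0]
              simp
              omega
            rw [ind_of_not hV0, ind_of_not hZn, ind_of hend]
            have : ∏ j : Fin n, (1 - t * o j.succ * ind (Vf A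
                (bt (Fin.cons (α := fun _ => Bool) true ω)) (n + 1)
                ((j.succ : Fin (n + 1)) : ℕ) =
                Mf A (bt (Fin.cons (α := fun _ => Bool) true ω)) (n + 1))) = 1 := by
              apply Finset.prod_eq_one
              intro j _
              rw [ind_of_not (hVs j)]
              ring
            rw [this]
            ring
          · rw [ind_of_not h0, add_zero]
            by_cases h1 : Mf A' (bt ω) n = Zf A' (bt ω) n 0 + 1
            · have hMM : Mf A (bt (Fin.cons (α := fun _ => Bool) true ω)) (n + 1) =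
                  Mf A' (bt ω) n := by
                rw [hMc, h1, hZ0]
                simp
                omega
              have hiff : (Mf A (bt (Fin.cons (α := fun _ => Bool) true ω)) (n + 1) =
                    Zf A (bt (Fin.cons (α := fun _ => Bool) true ω)) (n + 1) 0 + 0 ↔
                  Mf A' (bt ω) n = Zf A' (bt ω) n 0 + 1) := by
                rw [hMM, hZc, hZ0]
                simp
                constructor <;> intro h <;> omega
              rw [Key_prod_same A o θ t true ω 0 1 hMM hiff]
              have : ¬ (A 0 + Wt (bt ω) n 0 = Mf (fun i => A (i + 1)) (bt ω) n) := by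
                intro h
                have h2 : A 0 + Wt (bt ω) n 0 = Mf A' (bt ω) n := h
                rw [h1, hZ0] at h2
                omega
              rw [ind_of_not this]
              simp [hA', ho']
            · rw [Key_eq_zero A' o' θ t 1 ω h1]
              apply Key_eq_zero
              rw [hMc, hZc]
              rw [hZ0] at h0 h1
              simp
              omega
        have e3 : (fun ω : Fin n → Bool =>
              ind (Mf A (bt (Fin.cons (α := fun _ => Bool) false ω)) (n + 1) =
                Zf A (bt (Fin.cons (α := fun _ => Bool) false ω)) (n + 1) 0 + 0)) =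
            fun ω => ind (Mf A' (bt ω) n = Zf A' (bt ω) n 0 + 0) := by
          funext ω
          congr 1
          apply propext
          have := hM' ω
          rw [hMc, hZc, hZ0]
          simp
          omega
        have e4 : (fun ω : Fin n → Bool =>
              ind (Mf A (bt (Fin.cons (α := fun _ => Bool) true ω)) (n + 1) =
                Zf A (bt (Fin.cons (α := fun _ => Bool) true ω)) (n + 1) 0 + 0)) =
            fun ω => ind (Mf A' (bt ω) n = Zf A' (bt ω) n 0 + 1) +
              ind (Mf A' (bt ω) n = Zf A' (bt ω) n 0 + 0) := by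
          funext ω
          have hm := hM' ω
          by_cases h0 : Mf A' (bt ω) n = Zf A' (bt ω) n 0 + 0
          · rw [ind_of h0, ind_of_not (by omega : ¬ (Mf A' (bt ω) n = Zf A' (bt ω) n 0 + 1))]
            rw [ind_of]
            · ring
            · rw [hMc, hZc, h0, hZ0]
              simp
              omega
          · by_cases h1 : Mf A' (bt ω) n = Zf A' (bt ω) n 0 + 1
            · rw [ind_of_not h0, ind_of h1, ind_of]
              · ring
              · rw [hMc, hZc, h1, hZ0]
                simp
                omega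
            · rw [ind_of_not h0, ind_of_not h1, ind_of_not]
              · ring
              · rw [hMc, hZc]
                rw [hZ0] at h0 h1
                simp
                omega
        rw [e1, e2, e3, e4, PE_const_mul, PE_add, PE_add]
        have g0 : PE w' (fun ω => KeyF n A' o' θ t 0 ω) = (1 - β) * Pr 0 := IH' 0
        have g1 : PE w' (fun ω => KeyF n A' o' θ t 1 ω) = (1 - β) * Pr 1 := IH' 1
        have p0 : PE w' (fun ω => ind (Mf A' (bt ω) n = Zf A' (bt ω) n 0 + 0)) = Pr 0 := rfl
        have p1 : PE w' (fun ω => ind (Mf A' (bt ω) n = Zf A' (bt ω) n 0 + 1)) = Pr 1 := rfl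
        rw [g0, g1, p0, p1]
        have hcoef : (1 - β) * (1 - ρ) * (1 - t * o 0) + ρ = 1 - β := by
          rw [hβ, hρ]
          have h1 : (1 + θ * t) ≠ 0 := by positivity
          have h2 : (o 0 + θ) ≠ 0 := by positivity
          field_simp
          ring
        linear_combination (Pr 0) * hcoef
      · -- r ≥ 1
        have e1 : (fun ω => KeyF (n + 1) A o θ t r (Fin.cons (α := fun _ => Bool) false ω)) =
            fun ω => KeyF n A' o' θ t r ω := by
          funext ω
          have hMM : Mf A (bt (Fin.cons (α := fun _ => Bool) false ω)) (n + 1) =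
              Mf A' (bt ω) n := by
            rw [hMc]
            apply max_eq_right
            have := hM' ω
            simp
            omega
          have hiff : (Mf A (bt (Fin.cons (α := fun _ => Bool) false ω)) (n + 1) =
                Zf A (bt (Fin.cons (α := fun _ => Bool) false ω)) (n + 1) 0 + r ↔
              Mf A' (bt ω) n = Zf A' (bt ω) n 0 + r) := by
            rw [hMM, hZc, hZ0]
            simp
            constructor <;> intro h <;> omega
          rw [Key_prod_same A o θ t false ω r r hMM hiff]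
          by_cases h0 : Mf A' (bt ω) n = Zf A' (bt ω) n 0 + r
          · have : ¬ (A 0 + Wt (bt ω) n 0 = Mf (fun i => A (i + 1)) (bt ω) n) := by
              intro h
              have h2 : A 0 + Wt (bt ω) n 0 = Mf A' (bt ω) n := h
              rw [h0, hZ0] at h2
              omega
            rw [ind_of_not this]
            simp [hA', ho']
          · have e := Key_eq_zero A' o' θ t r ω h0
            have e' : KeyF n (fun i => A (i + 1)) (fun j => o j.succ) θ t r ω = 0 := e
            rw [e']
            simp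
        have e2 : (fun ω => KeyF (n + 1) A o θ t r (Fin.cons (α := fun _ => Bool) true ω)) =
            fun ω => KeyF n A' o' θ t (r + 1) ω := by
          funext ω
          have hm := hM' ω
          by_cases h1 : Mf A' (bt ω) n = Zf A' (bt ω) n 0 + (r + 1)
          · have hMM : Mf A (bt (Fin.cons (α := fun _ => Bool) true ω)) (n + 1) =
                Mf A' (bt ω) n := by
              rw [hMc, h1, hZ0]
              simp
              omega
            have hiff : (Mf A (bt (Fin.cons (α := fun _ => Bool) true ω)) (n + 1) =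
                  Zf A (bt (Fin.cons (α := fun _ => Bool) true ω)) (n + 1) 0 + r ↔
                Mf A' (bt ω) n = Zf A' (bt ω) n 0 + (r + 1)) := by
              rw [hMM, hZc, hZ0]
              simp
              constructor <;> intro h <;> omega
            rw [Key_prod_same A o θ t true ω r (r + 1) hMM hiff]
            have : ¬ (A 0 + Wt (bt ω) n 0 = Mf (fun i => A (i + 1)) (bt ω) n) := by
              intro h
              have h2 : A 0 + Wt (bt ω) n 0 = Mf A' (bt ω) n := h
              rw [h1, hZ0] at h2
              omega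
            rw [ind_of_not this]
            simp [hA', ho']
          · rw [Key_eq_zero A' o' θ t (r + 1) ω h1]
            apply Key_eq_zero
            rw [hMc, hZc]
            rw [hZ0] at h1
            simp
            omega
        have e3 : (fun ω : Fin n → Bool =>
              ind (Mf A (bt (Fin.cons (α := fun _ => Bool) false ω)) (n + 1) =
                Zf A (bt (Fin.cons (α := fun _ => Bool) false ω)) (n + 1) 0 + r)) =
            fun ω => ind (Mf A' (bt ω) n = Zf A' (bt ω) n 0 + r) := by
          funext ω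
          congr 1
          apply propext
          have := hM' ω
          rw [hMc, hZc, hZ0]
          simp
          omega
        have e4 : (fun ω : Fin n → Bool =>
              ind (Mf A (bt (Fin.cons (α := fun _ => Bool) true ω)) (n + 1) =
                Zf A (bt (Fin.cons (α := fun _ => Bool) true ω)) (n + 1) 0 + r)) =
            fun ω => ind (Mf A' (bt ω) n = Zf A' (bt ω) n 0 + (r + 1)) := by
          funext ω
          congr 1
          apply propext
          have := hM' ω
          rw [hMc, hZc, hZ0]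
          simp
          omega
        rw [e1, e2, e3, e4]
        have g0 : PE w' (fun ω => KeyF n A' o' θ t r ω) = (1 - β) * Pr r := IH' r
        have g1 : PE w' (fun ω => KeyF n A' o' θ t (r + 1) ω) = (1 - β) * Pr (r + 1) :=
          IH' (r + 1)
        have p0 : PE w' (fun ω => ind (Mf A' (bt ω) n = Zf A' (bt ω) n 0 + r)) = Pr r := rfl
        have p1 : PE w' (fun ω => ind (Mf A' (bt ω) n = Zf A' (bt ω) n 0 + (r + 1))) =
          Pr (r + 1) := rfl
        rw [g0, g1, p0, p1]
        ring

theorem Key_sum_ind {n : ℕ} (A : ℕ → ℕ) (b : ℕ → ℕ) (N : ℕ) (hN : Mf A b n < N) :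
    ∑ r ∈ Finset.range N, ind (Mf A b n = Zf A b n 0 + r) = 1 := by
  have h0 : Zf A b n 0 ≤ Mf A b n := Zf_le_Mf (Nat.zero_le _)
  rw [Finset.sum_eq_single (Mf A b n - Zf A b n 0)]
  · exact ind_of (by omega)
  · intro r _ hr
    exact ind_of_not (by omega)
  · intro h
    exact absurd (Finset.mem_range.mpr (by omega)) h

theorem Key_Mf_lt {n : ℕ} (A : ℕ → ℕ) (hA : Monotone A) (ξ : Fin n → Bool) :
    Mf A (bt ξ) n < A n + n + 1 := by
  obtain ⟨c, hc, hZ⟩ := exists_Mf A (bt ξ) n
  rw [← hZ]
  have h1 : A c ≤ A n := hA hc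
  have h2 : Wt (bt ξ) n c ≤ n := by
    unfold Wt
    calc ∑ l ∈ Finset.Ico c n, bt ξ l ≤ ∑ l ∈ Finset.Ico c n, 1 := by
          refine Finset.sum_le_sum fun l _ => ?_
          unfold bt
          split_ifs
          · exact Bool.toNat_le _
          · exact Nat.zero_le _
      _ = n - c := by simp
      _ ≤ n := Nat.sub_le _ _
  unfold Zf
  omega

theorem key_identity (n : ℕ) (A : ℕ → ℕ) (hA : Monotone A) (o : Fin n → ℝ)
    (ho : ∀ j, 0 ≤ o j) (θ t : ℝ) (hθ : 0 < θ) (ht : 0 ≤ t) :
    PE (fun j : Fin n => bw (o j / (o j + θ))) (fun ξ =>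
      (∏ j : Fin n, (1 - t * o j * ind (Vf A (bt ξ) n j = Mf A (bt ξ) n))) *
      (1 - θ * t / (1 + θ * t) * ind (Zf A (bt ξ) n n = Mf A (bt ξ) n))) =
    1 - θ * t / (1 + θ * t) := by
  have hW : IsW (fun j : Fin n => bw (o j / (o j + θ))) := by
    apply isW_bw
    · intro j
      have := ho j
      positivity
    · intro j
      have := ho j
      rw [div_le_one (by positivity)]
      linarith
  set N := A n + n + 1 with hN
  have h1 : (fun ξ : Fin n → Bool =>
      (∏ j : Fin n, (1 - t * o j * ind (Vf A (bt ξ) n j = Mf A (bt ξ) n))) *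
      (1 - θ * t / (1 + θ * t) * ind (Zf A (bt ξ) n n = Mf A (bt ξ) n))) =
      fun ξ => ∑ r ∈ Finset.range N,
      (∏ j : Fin n, (1 - t * o j * ind (Vf A (bt ξ) n j = Mf A (bt ξ) n))) *
      (1 - θ * t / (1 + θ * t) * ind (Zf A (bt ξ) n n = Mf A (bt ξ) n)) *
      ind (Mf A (bt ξ) n = Zf A (bt ξ) n 0 + r) := by
    funext ξ
    rw [← Finset.mul_sum, Key_sum_ind A (bt ξ) N (Key_Mf_lt A hA ξ), mul_one]
  rw [h1, PE_sum]
  have h2 : ∀ r ∈ Finset.range N, PE (fun j : Fin n => bw (o j / (o j + θ))) (fun ξ =>
      (∏ j : Fin n, (1 - t * o j * ind (Vf A (bt ξ) n j = Mf A (bt ξ) n))) *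
      (1 - θ * t / (1 + θ * t) * ind (Zf A (bt ξ) n n = Mf A (bt ξ) n)) *
      ind (Mf A (bt ξ) n = Zf A (bt ξ) n 0 + r)) =
    (1 - θ * t / (1 + θ * t)) * PE (fun j : Fin n => bw (o j / (o j + θ)))
      (fun ξ => ind (Mf A (bt ξ) n = Zf A (bt ξ) n 0 + r)) := fun r _ =>
    key_refined n A hA o ho θ t hθ ht r
  rw [Finset.sum_congr rfl h2, ← Finset.mul_sum, ← PE_sum]
  have h3 : (fun ξ : Fin n → Bool => ∑ r ∈ Finset.range N,
      ind (Mf A (bt ξ) n = Zf A (bt ξ) n 0 + r)) = fun _ => (1 : ℝ) := by
    funext ξ
    exact Key_sum_ind A (bt ξ) N (Key_Mf_lt A hA ξ)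
  rw [h3, PE_const hW, mul_one]

end LCSH
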