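import Pool.Agent.Lib.MP_ae6bb1_pr.Defs

/-! Elementary facts on laws (proof document, section L1). -/

open Finset

namespace LCSH

variable {α : Type*} [Fintype α] (L : Law α)

theorem law_nonempty {α : Type*} [Fintype α] (L : Law α) : Nonempty α := by
  by_contra h
  rw [not_nonempty_iff] at h
  have h1 := L.sum_one
  rw [Finset.univ_eq_empty, Finset.sum_empty] at h1
  exact zero_ne_one h1

theorem p_le_one (a : α) : L.p a ≤ 1 := by
  rw [← L.sum_one]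
  exact Finset.single_le_sum (fun i _ => L.nonneg i) (Finset.mem_univ a)

private theorem LawFacts_pos : ∃ a, 0 < L.p a := by
  by_contra h
  push Not at h
  have h1 := L.sum_one
  rw [Finset.sum_eq_zero fun a _ => le_antisymm (h a) (L.nonneg a)] at h1
  exact zero_ne_one h1

theorem sg_pos : 0 < L.sg := by
  unfold Law.sg
  obtain ⟨a, ha⟩ := LawFacts_pos L
  refine Real.sqrt_pos.mpr (lt_of_lt_of_le (pow_pos ha 2) ?_)
  exact Finset.single_le_sum (f := fun a => L.p a ^ 2) (fun i _ => sq_nonneg _) (Finset.mem_univ a)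

theorem sg_sq : L.sg ^ 2 = ∑ a, L.p a ^ 2 := by
  unfold Law.sg
  exact Real.sq_sqrt (Finset.sum_nonneg fun i _ => sq_nonneg _)

theorem sg_le_one : L.sg ≤ 1 := by
  have h1 : L.sg ^ 2 ≤ 1 := by
    rw [sg_sq, ← L.sum_one]
    refine Finset.sum_le_sum fun a _ => ?_
    rw [sq]
    exact mul_le_of_le_one_left (L.nonneg a) (p_le_one L a)
  have h2 := (sg_pos L).le
  nlinarith

theorem u_nonneg (a : α) : 0 ≤ L.u a := by
  exact div_nonneg (L.nonneg a) (sg_pos L).le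

theorem p_eq (a : α) : L.p a = L.sg * L.u a := by
  unfold Law.u
  rw [mul_div_cancel₀ _ (sg_pos L).ne']

theorem sum_u_sq : ∑ a, L.u a ^ 2 = 1 := by
  unfold Law.u
  simp_rw [div_pow]
  rw [← Finset.sum_div, ← sg_sq]
  exact div_self (pow_pos (sg_pos L) 2).ne'

theorem sum_p_u : ∑ a, L.p a * L.u a = L.sg := by
  have h1 : ∀ a, L.p a * L.u a = L.sg * L.u a ^ 2 := fun a => by
    rw [p_eq L a]
    ring
  simp_rw [h1]
  rw [← Finset.mul_sum, sum_u_sq, mul_one]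

theorem u_le_et (a : α) : L.u a ≤ L.et := by
  unfold Law.et
  exact le_ciSup (Set.finite_range _).bddAbove a

theorem exists_u_eq_et : ∃ a, L.u a = L.et := by
  have := law_nonempty L
  unfold Law.et
  exact exists_eq_ciSup_of_finite

theorem et_le_one : L.et ≤ 1 := by
  obtain ⟨a, ha⟩ := exists_u_eq_et L
  rw [← ha]
  have h1 : L.u a ^ 2 ≤ 1 := by
    rw [← sum_u_sq L]
    exact Finset.single_le_sum (f := fun a => L.u a ^ 2) (fun i _ => sq_nonneg _)
      (Finset.mem_univ a)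
  nlinarith [u_nonneg L a]

theorem sum_p_cube : ∑ a, L.p a ^ 3 = L.sg ^ 3 * L.kp := by
  unfold Law.kp
  rw [Finset.mul_sum]
  refine Finset.sum_congr rfl fun a _ => ?_
  rw [p_eq L a]
  ring

private theorem LawFacts_four : ∑ a, L.u a ^ 4 ≤ L.et * L.kp := by
  unfold Law.kp
  rw [Finset.mul_sum]
  refine Finset.sum_le_sum fun a _ => ?_
  have h2 := mul_le_mul_of_nonneg_right (u_le_et L a) (pow_nonneg (u_nonneg L a) 3)
  calc L.u a ^ 4 = L.u a * L.u a ^ 3 := by ring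
    _ ≤ _ := h2

theorem sum_p_four_le : ∑ a, L.p a ^ 4 ≤ L.sg ^ 4 * (L.et * L.kp) := by
  have h1 : ∑ a, L.p a ^ 4 = L.sg ^ 4 * ∑ a, L.u a ^ 4 := by
    rw [Finset.mul_sum]
    refine Finset.sum_congr rfl fun a _ => ?_
    rw [p_eq L a]
    ring
  rw [h1]
  exact mul_le_mul_of_nonneg_left (LawFacts_four L) (pow_pos (sg_pos L) 4).le

theorem sum_u_four_le : ∑ a, L.u a ^ 4 ≤ L.et * L.kp := by
  exact LawFacts_four L

theorem sg_le_kp : L.sg ≤ L.kp := by
  have hs := sg_pos L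
  have h1 : ∑ a, L.u a = 1 / L.sg := by
    unfold Law.u
    rw [← Finset.sum_div, L.sum_one]
  have h2 : 0 ≤ ∑ a, L.u a * (L.u a - L.sg) ^ 2 :=
    Finset.sum_nonneg fun a _ => mul_nonneg (u_nonneg L a) (sq_nonneg _)
  have h3 : ∑ a, L.u a * (L.u a - L.sg) ^ 2 =
      L.kp - 2 * L.sg * ∑ a, L.u a ^ 2 + L.sg ^ 2 * ∑ a, L.u a := by
    unfold Law.kp
    rw [Finset.mul_sum, Finset.mul_sum, ← Finset.sum_sub_distrib, ← Finset.sum_add_distrib]
    exact Finset.sum_congr rfl fun a _ => by ring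
  rw [h3, sum_u_sq, h1] at h2
  have h4 : L.sg ^ 2 * (1 / L.sg) = L.sg := by
    field_simp
  rw [h4] at h2
  linarith

theorem kp_le_et : L.kp ≤ L.et := by
  have h1 : L.kp ≤ ∑ a, L.et * L.u a ^ 2 := by
    unfold Law.kp
    refine Finset.sum_le_sum fun a _ => ?_
    have h2 := mul_le_mul_of_nonneg_right (u_le_et L a) (sq_nonneg (L.u a))
    calc L.u a ^ 3 = L.u a * L.u a ^ 2 := by ring
      _ ≤ _ := h2
  rwa [← Finset.mul_sum, sum_u_sq, mul_one] at h1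

theorem et_cube_le_kp : L.et ^ 3 ≤ L.kp := by
  obtain ⟨a, ha⟩ := exists_u_eq_et L
  rw [← ha]
  exact Finset.single_le_sum (f := fun a => L.u a ^ 3) (fun i _ => pow_nonneg (u_nonneg L i) 3)
    (Finset.mem_univ a)

theorem et_pos : 0 < L.et := by
  obtain ⟨a, ha⟩ := LawFacts_pos L
  exact lt_of_lt_of_le (div_pos ha (sg_pos L)) (u_le_et L a)

theorem kp_pos : 0 < L.kp := by
  exact lt_of_lt_of_le (sg_pos L) (sg_le_kp L)

theorem one_le_Lam : 1 ≤ L.Lam := by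
  unfold Law.Lam
  have h1 : 0 ≤ Real.log (1 / L.sg) := by
    apply Real.log_nonneg
    rw [one_le_div (sg_pos L)]
    exact sg_le_one L
  linarith

theorem exp_Lam : Real.exp (-L.Lam) ≤ L.sg := by
  unfold Law.Lam
  rw [one_div, Real.log_inv]
  calc Real.exp (-(1 + -Real.log L.sg)) ≤ Real.exp (Real.log L.sg) :=
        Real.exp_le_exp.mpr (by linarith)
    _ = L.sg := Real.exp_log (sg_pos L)

/-- `ρ_a ≤ u_a / θ` -/
theorem rho_le (θ : ℝ) (hθ : 0 < θ) (a : α) : L.rho θ a ≤ L.u a / θ := by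
  unfold Law.rho
  have h := u_nonneg L a
  exact div_le_div_of_nonneg_left h hθ (by linarith)

/-- the odds of the source probability -/
theorem rho_eq (θ : ℝ) (hθ : 0 < θ) (a : α) :
    L.rho θ a = (L.u a / θ) / (L.u a / θ + 1) := by
  unfold Law.rho
  have h := u_nonneg L a
  have h1 : L.u a + θ ≠ 0 := by linarith
  field_simp

theorem rb_eq (θ : ℝ) : L.rb θ = L.sg * ∑ a, L.u a ^ 2 / (L.u a + θ) := by
  unfold Law.rb Law.rho
  rw [Finset.mul_sum]
  refine Finset.sum_congr rfl fun a _ => ?_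
  rw [p_eq L a]
  ring

theorem rb_le (θ : ℝ) (hθ : 0 < θ) : L.rb θ ≤ L.sg / θ := by
  have h1 : L.rb θ ≤ ∑ a, L.p a * L.u a / θ := by
    unfold Law.rb
    refine Finset.sum_le_sum fun a _ => ?_
    rw [mul_div_assoc]
    exact mul_le_mul_of_nonneg_left (rho_le L θ hθ a) (L.nonneg a)
  rwa [← Finset.sum_div, sum_p_u] at h1

theorem le_rb (θ : ℝ) (hθ : 0 < θ) : L.sg / (L.et + θ) ≤ L.rb θ := by
  rw [rb_eq, div_eq_mul_inv]
  refine mul_le_mul_of_nonneg_left ?_ (sg_pos L).le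
  have h1 : ∑ a, L.u a ^ 2 / (L.et + θ) ≤ ∑ a, L.u a ^ 2 / (L.u a + θ) := by
    refine Finset.sum_le_sum fun a _ => ?_
    have h2 := u_nonneg L a
    have h3 := u_le_et L a
    exact div_le_div_of_nonneg_left (sq_nonneg _) (by linarith) (by linarith)
  rwa [← Finset.sum_div, sum_u_sq, one_div] at h1

/-- Jensen -/
theorem le_rb_kp (θ : ℝ) (hθ : 0 < θ) : L.sg / (L.kp + θ) ≤ L.rb θ := by
  rw [rb_eq, div_eq_mul_inv]
  refine mul_le_mul_of_nonneg_left ?_ (sg_pos L).le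
  have hk := kp_pos L
  have hkt : 0 < L.kp + θ := by linarith
  have h1 : ∀ a, L.u a ^ 2 * (L.kp + θ)⁻¹ - (L.u a ^ 3 - L.kp * L.u a ^ 2) *
      ((L.kp + θ)⁻¹) ^ 2 ≤ L.u a ^ 2 / (L.u a + θ) := by
    intro a
    have hu := u_nonneg L a
    have hut : 0 < L.u a + θ := by linarith
    rw [le_div_iff₀ hut]
    have h2 : 0 ≤ L.u a ^ 2 * ((L.kp + θ)⁻¹ * (L.u a - L.kp)) ^ 2 := by positivity
    have h3 : (L.kp + θ)⁻¹ * (L.kp + θ) = 1 := inv_mul_cancel₀ hkt.ne'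
    have h4 : (L.u a ^ 2 * (L.kp + θ)⁻¹ - (L.u a ^ 3 - L.kp * L.u a ^ 2) *
        ((L.kp + θ)⁻¹) ^ 2) * (L.u a + θ) =
        L.u a ^ 2 * (((L.kp + θ)⁻¹ * (L.kp + θ)) ^ 1 + (L.kp + θ)⁻¹ * (L.u a - L.kp) *
          (1 - (L.kp + θ)⁻¹ * (L.kp + θ))) -
          L.u a ^ 2 * ((L.kp + θ)⁻¹ * (L.u a - L.kp)) ^ 2 := by ring
    rw [h4, h3]
    have h5 : L.u a ^ 2 * ((1 : ℝ) ^ 1 + (L.kp + θ)⁻¹ * (L.u a - L.kp) * (1 - 1)) =
        L.u a ^ 2 := by ring
    rw [h5]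
    linarith
  have h2 := Finset.sum_le_sum (s := (Finset.univ : Finset α)) fun a _ => h1 a
  rw [Finset.sum_sub_distrib, ← Finset.sum_mul, ← Finset.sum_mul, Finset.sum_sub_distrib,
    ← Finset.mul_sum, sum_u_sq] at h2
  have h3 : ∑ a, L.u a ^ 3 = L.kp := rfl
  rw [h3, mul_one, sub_self, zero_mul, sub_zero, one_mul] at h2
  exact h2

/-- `ρ̄(1) ≤ σ (1 - κ + η κ)` -/
theorem rb_one_le : L.rb 1 ≤ L.sg * (1 - L.kp + L.et * L.kp) := by
  rw [rb_eq]
  refine mul_le_mul_of_nonneg_left ?_ (sg_pos L).le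
  have h1 : ∀ a, L.u a ^ 2 / (L.u a + 1) ≤ L.u a ^ 2 - L.u a ^ 3 + L.u a ^ 4 := by
    intro a
    have hu := u_nonneg L a
    rw [div_le_iff₀ (by linarith)]
    have h2 : 0 ≤ L.u a ^ 5 := pow_nonneg hu 5
    have h3 : (L.u a ^ 2 - L.u a ^ 3 + L.u a ^ 4) * (L.u a + 1) = L.u a ^ 2 + L.u a ^ 5 := by ring
    rw [h3]
    linarith
  have h2 := Finset.sum_le_sum (s := (Finset.univ : Finset α)) fun a _ => h1 a
  rw [Finset.sum_add_distrib, Finset.sum_sub_distrib, sum_u_sq] at h2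
  have h3 : ∑ a, L.u a ^ 3 = L.kp := rfl
  rw [h3] at h2
  have h4 := LawFacts_four L
  linarith

theorem rb_pos (θ : ℝ) (hθ : 0 < θ) : 0 < L.rb θ := by
  refine lt_of_lt_of_le (div_pos (sg_pos L) ?_) (le_rb L θ hθ)
  have := et_pos L
  linarith

/-- every value between the bounds is attained by `ρ̄` -/
theorem exists_theta (g : ℝ) (hg : L.sg / 4 ≤ g) (hg' : g ≤ Real.exp 1 * L.sg)
    (het : L.et ≤ 1 / 10) : ∃ θ, 1 / 2 ≤ θ ∧ θ ≤ 8 ∧ L.rb θ = g / 2 := by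
  have hs := sg_pos L
  have hc : ContinuousOn L.rb (Set.Icc (1 / 2) 8) := by
    unfold Law.rb Law.rho
    refine continuousOn_finsetSum _ fun a _ => continuousOn_const.mul ?_
    refine continuousOn_const.div (continuousOn_const.add continuousOn_id) fun θ hθ => ?_
    have h1 := hθ.1
    have h2 := u_nonneg L a
    have h3 : 0 < L.u a + θ := by linarith
    exact h3.ne'
  have h1 : L.rb 8 ≤ g / 2 := by
    refine (rb_le L 8 (by norm_num)).trans ?_
    linarith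
  have h2 : g / 2 ≤ L.rb (1 / 2) := by
    refine le_trans ?_ (le_rb L (1 / 2) (by norm_num))
    have h3 := et_pos L
    rw [le_div_iff₀ (by linarith)]
    have h4 : Real.exp 1 < 3 := Real.exp_one_lt_three
    have h5 : g ≤ 3 * L.sg := hg'.trans (mul_le_mul_of_nonneg_right h4.le hs.le)
    have h6 : 0 ≤ g := by linarith
    nlinarith
  obtain ⟨θ, hθ, hθ'⟩ := intermediate_value_Icc' (by norm_num) hc ⟨h1, h2⟩
  exact ⟨θ, hθ.1, hθ.2, hθ'⟩

end LCSH
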