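import Pool.Agent.Lib.MP_ae6bb1_pr.Defs

/-! Basic facts on `lp` (proof document, section A1). -/

open Finset

namespace LCSH

variable {m m' : ℕ → ℕ → Prop} {a b c d : ℕ}

theorem chain_empty (m : ℕ → ℕ → Prop) (a b c d : ℕ) : Chain m a b c d ∅ :=
  ⟨fun _ hq => absurd hq (Finset.notMem_empty _), fun _ hq => absurd hq (Finset.notMem_empty _)⟩

theorem chain_card_le_rows {s : Finset (ℕ × ℕ)} (h : Chain m a b c d s) : s.card ≤ b - a := by
  rw [← Nat.card_Ico a b]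
  refine Finset.card_le_card_of_injOn Prod.fst (fun q hq => ?_) (fun q hq q' hq' he => ?_)
  · have h1 := h.1 q hq
    exact Finset.mem_coe.2 (Finset.mem_Ico.2 ⟨h1.1, h1.2.1⟩)
  · by_contra hne
    rcases h.2 q hq q' hq' hne with h1 | h1
    · exact absurd he h1.1.ne
    · exact absurd he h1.1.ne'

theorem chain_card_le_cols {s : Finset (ℕ × ℕ)} (h : Chain m a b c d s) : s.card ≤ d - c := by
  rw [← Nat.card_Ico c d]
  refine Finset.card_le_card_of_injOn Prod.snd (fun q hq => ?_) (fun q hq q' hq' he => ?_)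
  · have h1 := h.1 q hq
    exact Finset.mem_coe.2 (Finset.mem_Ico.2 ⟨h1.2.2.1, h1.2.2.2.1⟩)
  · by_contra hne
    rcases h.2 q hq q' hq' hne with h1 | h1
    · exact absurd he h1.2.ne
    · exact absurd he h1.2.ne'

private theorem LpBasic_bdd (m : ℕ → ℕ → Prop) (a b c d : ℕ) :
    BddAbove {k | ∃ s : Finset (ℕ × ℕ), Chain m a b c d s ∧ s.card = k} := by
  refine ⟨b - a, ?_⟩
  rintro k ⟨s, hs, rfl⟩
  exact chain_card_le_rows hs

theorem exists_chain (m : ℕ → ℕ → Prop) (a b c d : ℕ) :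
    ∃ s, Chain m a b c d s ∧ s.card = lp m a b c d := by
  have hne : {k | ∃ s : Finset (ℕ × ℕ), Chain m a b c d s ∧ s.card = k}.Nonempty :=
    ⟨0, ∅, chain_empty m a b c d, Finset.card_empty⟩
  exact Nat.sSup_mem hne (LpBasic_bdd m a b c d)

theorem le_lp {s : Finset (ℕ × ℕ)} (h : Chain m a b c d s) : s.card ≤ lp m a b c d :=
  le_csSup (LpBasic_bdd m a b c d) ⟨s, h, rfl⟩

theorem lp_le_rows (m : ℕ → ℕ → Prop) (a b c d : ℕ) : lp m a b c d ≤ b - a := by
  obtain ⟨s, hs, h⟩ := exists_chain m a b c d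
  rw [← h]
  exact chain_card_le_rows hs

theorem lp_le_cols (m : ℕ → ℕ → Prop) (a b c d : ℕ) : lp m a b c d ≤ d - c := by
  obtain ⟨s, hs, h⟩ := exists_chain m a b c d
  rw [← h]
  exact chain_card_le_cols hs

/-- monotonicity in the rectangle and in the relation -/
theorem lp_mono {a' b' c' d' : ℕ} (ha : a' ≤ a) (hb : b ≤ b') (hc : c' ≤ c) (hd : d ≤ d')
    (hm : ∀ i j, a ≤ i → i < b → c ≤ j → j < d → m i j → m' i j) :
    lp m a b c d ≤ lp m' a' b' c' d' := by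
  obtain ⟨s, hs, h⟩ := exists_chain m a b c d
  rw [← h]
  refine le_lp ⟨fun q hq => ?_, hs.2⟩
  obtain ⟨h1, h2, h3, h4, h5⟩ := hs.1 q hq
  exact ⟨ha.trans h1, h2.trans_le hb, hc.trans h3, h4.trans_le hd, hm _ _ h1 h2 h3 h4 h5⟩

theorem lp_congr (h : ∀ i j, a ≤ i → i < b → c ≤ j → j < d → (m i j ↔ m' i j)) :
    lp m a b c d = lp m' a b c d :=
  le_antisymm
    (lp_mono le_rfl le_rfl le_rfl le_rfl fun i j h1 h2 h3 h4 => (h i j h1 h2 h3 h4).1)
    (lp_mono le_rfl le_rfl le_rfl le_rfl fun i j h1 h2 h3 h4 => (h i j h1 h2 h3 h4).2)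

theorem lp_super (m : ℕ → ℕ → Prop) {e f : ℕ} (hab : a ≤ b) (hbe : b ≤ e) (hcd : c ≤ d)
    (hdf : d ≤ f) : lp m a b c d + lp m b e d f ≤ lp m a e c f := by
  obtain ⟨s, hs, h⟩ := exists_chain m a b c d
  obtain ⟨t, ht, h'⟩ := exists_chain m b e d f
  have hdisj : Disjoint s t := by
    rw [Finset.disjoint_left]
    intro q hq hq'
    have h1 := (hs.1 q hq).2.1
    have h2 := (ht.1 q hq').1
    omega
  rw [← h, ← h', ← Finset.card_union_of_disjoint hdisj]
  refine le_lp ⟨fun q hq => ?_, fun q hq q' hq' hne => ?_⟩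
  · rcases Finset.mem_union.1 hq with hq | hq
    · obtain ⟨h1, h2, h3, h4, h5⟩ := hs.1 q hq
      exact ⟨h1, h2.trans_le hbe, h3, h4.trans_le hdf, h5⟩
    · obtain ⟨h1, h2, h3, h4, h5⟩ := ht.1 q hq
      exact ⟨hab.trans h1, h2, hcd.trans h3, h4, h5⟩
  · rcases Finset.mem_union.1 hq with hq | hq <;> rcases Finset.mem_union.1 hq' with hq' | hq'
    · exact hs.2 q hq q' hq' hne
    · left
      obtain ⟨h1, h2, h3, h4, -⟩ := hs.1 q hq
      obtain ⟨k1, k2, k3, k4, -⟩ := ht.1 q' hq'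
      exact ⟨by omega, by omega⟩
    · right
      obtain ⟨h1, h2, h3, h4, -⟩ := ht.1 q hq
      obtain ⟨k1, k2, k3, k4, -⟩ := hs.1 q' hq'
      exact ⟨by omega, by omega⟩
    · exact ht.2 q hq q' hq' hne

private theorem LpBasic_transpose_le (m : ℕ → ℕ → Prop) (a b c d : ℕ) :
    lp (fun i j => m j i) c d a b ≤ lp m a b c d := by
  obtain ⟨s, hs, h⟩ := exists_chain (fun i j => m j i) c d a b
  rw [← h, ← Finset.card_map ⟨Prod.swap, Prod.swap_injective⟩]
  refine le_lp ⟨fun q hq => ?_, fun q hq q' hq' hne => ?_⟩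
  · obtain ⟨r, hr, rfl⟩ := Finset.mem_map.1 hq
    obtain ⟨h1, h2, h3, h4, h5⟩ := hs.1 r hr
    exact ⟨h3, h4, h1, h2, h5⟩
  · obtain ⟨r, hr, rfl⟩ := Finset.mem_map.1 hq
    obtain ⟨r', hr', rfl⟩ := Finset.mem_map.1 hq'
    have hne' : r ≠ r' := fun he => hne (by rw [he])
    rcases hs.2 r hr r' hr' hne' with h1 | h1
    · exact Or.inl ⟨h1.2, h1.1⟩
    · exact Or.inr ⟨h1.2, h1.1⟩

theorem lp_transpose (m : ℕ → ℕ → Prop) (a b c d : ℕ) :
    lp (fun i j => m j i) c d a b = lp m a b c d :=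
  le_antisymm (LpBasic_transpose_le m a b c d)
    (LpBasic_transpose_le (fun i j => m j i) c d a b)

theorem lp_shift (m : ℕ → ℕ → Prop) (p q a b c d : ℕ) :
    lp (fun i j => m (i + p) (j + q)) a b c d = lp m (a + p) (b + p) (c + q) (d + q) := by
  apply le_antisymm
  · obtain ⟨s, hs, h⟩ := exists_chain (fun i j => m (i + p) (j + q)) a b c d
    have hinj : Function.Injective fun r : ℕ × ℕ => (r.1 + p, r.2 + q) := by
      rintro ⟨x, y⟩ ⟨x', y'⟩ he
      simp only [Prod.mk.injEq] at he ⊢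
      omega
    rw [← h, ← Finset.card_map ⟨_, hinj⟩]
    refine le_lp ⟨fun r hr => ?_, fun r hr r' hr' hne => ?_⟩
    · obtain ⟨t, ht, rfl⟩ := Finset.mem_map.1 hr
      obtain ⟨h1, h2, h3, h4, h5⟩ := hs.1 t ht
      simp only [Function.Embedding.coeFn_mk]
      exact ⟨by omega, by omega, by omega, by omega, h5⟩
    · obtain ⟨t, ht, rfl⟩ := Finset.mem_map.1 hr
      obtain ⟨t', ht', rfl⟩ := Finset.mem_map.1 hr'
      have hne' : t ≠ t' := fun he => hne (by rw [he])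
      simp only [Function.Embedding.coeFn_mk]
      have h1 := hs.2 t ht t' ht' hne'
      omega
  · obtain ⟨s, hs, h⟩ := exists_chain m (a + p) (b + p) (c + q) (d + q)
    have hinj : Set.InjOn (fun r : ℕ × ℕ => (r.1 - p, r.2 - q)) (s : Set (ℕ × ℕ)) := by
      rintro ⟨x, y⟩ hx ⟨x', y'⟩ hx' he
      obtain ⟨h1, h2, h3, h4, -⟩ := hs.1 _ (Finset.mem_coe.1 hx)
      obtain ⟨k1, k2, k3, k4, -⟩ := hs.1 _ (Finset.mem_coe.1 hx')
      simp only [Prod.mk.injEq] at he h1 h2 h3 h4 k1 k2 k3 k4 ⊢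
      omega
    rw [← h, ← Finset.card_image_of_injOn hinj]
    refine le_lp ⟨fun r hr => ?_, fun r hr r' hr' hne => ?_⟩
    · obtain ⟨t, ht, rfl⟩ := Finset.mem_image.1 hr
      obtain ⟨h1, h2, h3, h4, h5⟩ := hs.1 t ht
      have e1 : t.1 - p + p = t.1 := by omega
      have e2 : t.2 - q + q = t.2 := by omega
      refine ⟨by simp only; omega, by simp only; omega, by simp only; omega,
        by simp only; omega, ?_⟩
      simp only
      rw [e1, e2]
      exact h5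
    · obtain ⟨t, ht, rfl⟩ := Finset.mem_image.1 hr
      obtain ⟨t', ht', rfl⟩ := Finset.mem_image.1 hr'
      have hne' : t ≠ t' := fun he => hne (by rw [he])
      obtain ⟨h1, h2, h3, h4, -⟩ := hs.1 t ht
      obtain ⟨k1, k2, k3, k4, -⟩ := hs.1 t' ht'
      have h1 := hs.2 t ht t' ht' hne'
      simp only
      omega

theorem prof_mono (m : ℕ → ℕ → Prop) (T : ℕ) : Monotone (prof m T) := fun _ _ hcc =>
  lp_mono le_rfl le_rfl le_rfl hcc fun _ _ _ _ _ _ h => h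

end LCSH
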