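import Pool.Agent.Lib.MP_ae6bb1_pr.Key
import Pool.Agent.Lib.MP_ae6bb1_pr.EEBasic
import Pool.Agent.Lib.MP_ae6bb1_pr.LpBasic
import Pool.Agent.Lib.MP_ae6bb1_pr.LawFacts
import Pool.Agent.Lib.MP_ae6bb1_pr.FarPiv
import Pool.Agent.Lib.MP_ae6bb1_pr.GoodProb

/-! The exact identity in the random environment (proof document, section H3). -/

open Finset

namespace LCSH

variable {α : Type*} [Fintype α] [DecidableEq α] (L : Law α) {θ : ℝ} {T n : ℕ}

/-- averaged identity -/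
theorem key_EE (hθ : 0 < θ) :
    EE L θ T n (fun x y ξ =>
      (∏ j : Fin n, (1 - L.kp * L.u (y j) * ind (InJ (rl x y) (bt ξ) T n j))) *
      (1 - θ * L.kp / (1 + θ * L.kp) * ind (ZT (rl x y) (bt ξ) T n n = MT (rl x y) (bt ξ) T n))) =
    1 - θ * L.kp / (1 + θ * L.kp) := by
  have h1 : ∀ (x : Fin T → α) (y : Fin n → α),
      PE (fun j : Fin n => bw (L.rho θ (y j))) (fun ξ =>
        (∏ j : Fin n, (1 - L.kp * L.u (y j) * ind (InJ (rl x y) (bt ξ) T n j))) *
        (1 - θ * L.kp / (1 + θ * L.kp) *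
          ind (ZT (rl x y) (bt ξ) T n n = MT (rl x y) (bt ξ) T n))) =
      1 - θ * L.kp / (1 + θ * L.kp) := fun x y =>
    key_identity n (prof (rl x y) T) (prof_mono _ T) (fun j => L.u (y j))
      (fun j => u_nonneg L _) θ L.kp hθ (kp_pos L).le
  unfold EE
  simp only [h1]
  rw [PE_const (isW_law L), PE_const (isW_law L)]

/-- the product functional has the expected value up to the exit probability -/
theorem key_gain (hR : Reg L θ T n) :
    |EE L θ T n (fun x y ξ => L.sg / L.kp *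
      (1 - ∏ j : Fin n, (1 - L.kp * L.u (y j) * ind (InJ (rl x y) (bt ξ) T n j)))) -
      θ * L.sg / (1 + θ * L.kp)| ≤ θ * L.sg * L.sg ^ 50 := by
  have hθ : 0 < θ := by linarith [hR.hθ]
  have hk : 0 < L.kp := kp_pos L
  have hs : 0 < L.sg := sg_pos L
  have hk1 : L.kp ≤ 1 := (kp_le_et L).trans (et_le_one L)
  have hden : 0 < 1 + θ * L.kp := by positivity
  have hkey := key_EE (T := T) (n := n) L hθ
  have hfac : ∀ (x : Fin T → α) (y : Fin n → α) (ξ : Fin n → Bool) (j : Fin n),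
      0 ≤ 1 - L.kp * L.u (y j) * ind (InJ (rl x y) (bt ξ) T n j) ∧
        1 - L.kp * L.u (y j) * ind (InJ (rl x y) (bt ξ) T n j) ≤ 1 := by
    intro x y ξ j
    have e1 := ind_nonneg (InJ (rl x y) (bt ξ) T n j)
    have e2 := ind_le_one (InJ (rl x y) (bt ξ) T n j)
    have e3 := u_nonneg L (y j)
    have e4 : L.u (y j) ≤ 1 := (u_le_et L _).trans (et_le_one L)
    have e5 : 0 ≤ L.kp * L.u (y j) := mul_nonneg hk.le e3
    have e6 : L.kp * L.u (y j) ≤ 1 := mul_le_one₀ hk1 e3 e4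
    exact ⟨by linarith [mul_le_one₀ e6 e1 e2], by linarith [mul_nonneg e5 e1]⟩
  have hP : ∀ (x : Fin T → α) (y : Fin n → α) (ξ : Fin n → Bool),
      0 ≤ (∏ j : Fin n, (1 - L.kp * L.u (y j) * ind (InJ (rl x y) (bt ξ) T n j))) ∧
      (∏ j : Fin n, (1 - L.kp * L.u (y j) * ind (InJ (rl x y) (bt ξ) T n j))) ≤ 1 :=
    fun x y ξ => ⟨Finset.prod_nonneg fun j _ => (hfac x y ξ j).1,
      Finset.prod_le_one (fun j _ => (hfac x y ξ j).1) fun j _ => (hfac x y ξ j).2⟩
  -- the exit term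
  set X : ℝ := EE L θ T n (fun x y ξ =>
    (∏ j : Fin n, (1 - L.kp * L.u (y j) * ind (InJ (rl x y) (bt ξ) T n j))) *
      ind (ZT (rl x y) (bt ξ) T n n = MT (rl x y) (bt ξ) T n)) with hX
  have hX0 : 0 ≤ X := EE_nonneg L hθ fun x y ξ => mul_nonneg (hP x y ξ).1 (ind_nonneg _)
  have hX1 : X ≤ L.sg ^ 50 := by
    refine le_trans ?_ (good_prob L hR ⌈2 * 10 ^ 6 * L.Lam / L.sg⌉₊ (Nat.le_ceil _))
    refine EE_mono L hθ fun x y ξ => ?_
    have h2 : ind (ZT (rl x y) (bt ξ) T n n = MT (rl x y) (bt ξ) T n) ≤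
        ind (¬ Good (rl x y) (bt ξ) T n ⌈2 * 10 ^ 6 * L.Lam / L.sg⌉₊) := by
      refine ind_mono fun he hG => ?_
      have h3 : NearS (prof (rl x y) T) (bt ξ) n 5 n := by
        refine ⟨le_rfl, ?_⟩
        have h4 : Zf (prof (rl x y) T) (bt ξ) n n = Mf (prof (rl x y) T) (bt ξ) n := he
        rw [h4]
        exact Nat.le_add_right _ _
      have h5 := near_left_half _ _ _ _ _ _ hG h3
      omega
    calc _ ≤ 1 * ind (ZT (rl x y) (bt ξ) T n n = MT (rl x y) (bt ξ) T n) :=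
          mul_le_mul_of_nonneg_right (hP x y ξ).2 (ind_nonneg _)
      _ ≤ _ := by rw [one_mul]; exact h2
  -- the expectation of the product
  set Y : ℝ := EE L θ T n (fun x y ξ =>
    (∏ j : Fin n, (1 - L.kp * L.u (y j) * ind (InJ (rl x y) (bt ξ) T n j)))) with hY
  have hYX : Y - θ * L.kp / (1 + θ * L.kp) * X = 1 - θ * L.kp / (1 + θ * L.kp) := by
    rw [← hkey, hY, hX, ← EE_const_mul, ← EE_sub]
    refine congrArg (EE L θ T n) ?_
    funext x y ξ
    ring
  have hE : EE L θ T n (fun x y ξ => L.sg / L.kp *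
      (1 - ∏ j : Fin n, (1 - L.kp * L.u (y j) * ind (InJ (rl x y) (bt ξ) T n j)))) =
      L.sg / L.kp * (1 - Y) := by
    rw [EE_const_mul, EE_sub, EE_const L hθ, hY]
  have hfin : L.sg / L.kp * (1 - Y) - θ * L.sg / (1 + θ * L.kp) =
      -(θ * L.sg / (1 + θ * L.kp) * X) := by
    have h6 : Y = 1 - θ * L.kp / (1 + θ * L.kp) + θ * L.kp / (1 + θ * L.kp) * X := by linarith
    rw [h6]
    field_simp
    ring
  rw [hE, hfin, abs_neg, abs_of_nonneg (by positivity)]
  have h7 : θ * L.sg / (1 + θ * L.kp) ≤ θ * L.sg := by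
    apply div_le_self (by positivity)
    have : 0 ≤ θ * L.kp := by positivity
    linarith
  exact mul_le_mul h7 hX1 hX0 (by positivity)

end LCSH
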