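import Pool.Agent.Lib.MP_ae6bb1_pr.LpBasic

/-! Longest common subsequences and `lp` (proof document, section K1). -/

open Finset

namespace LCSH

/-- Length of a longest common subsequence of `x_0 … x_{n-1}` and `y_0 … y_{n-1}`: the largest
`m` such that there are strictly increasing index sequences `i, j` of length `m`, with values
below `n`, with `x (i r) = y (j r)` for all `r`. -/
noncomputable def lcsLen {α : Type*} (x y : ℕ → α) (n : ℕ) : ℕ :=
  sSup {m | ∃ i j : Fin m → ℕ, StrictMono i ∧ StrictMono j ∧ (∀ r, i r < n) ∧ (∀ r, j r < n) ∧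
    ∀ r, x (i r) = y (j r)}

private theorem Lcs_le {α : Type*} (x y : ℕ → α) (n k : ℕ)
    (h : ∃ i j : Fin k → ℕ, StrictMono i ∧ StrictMono j ∧ (∀ r, i r < n) ∧ (∀ r, j r < n) ∧
      ∀ r, x (i r) = y (j r)) : k ≤ lp (fun i j => x i = y j) 0 n 0 n := by
  obtain ⟨i, j, hi, hj, hin, hjn, hxy⟩ := h
  have hinj : Function.Injective fun r : Fin k => (i r, j r) := by
    intro r r' he
    exact hi.injective (congrArg Prod.fst he)
  have hc : (Finset.univ.map ⟨_, hinj⟩ : Finset (ℕ × ℕ)).card = k := by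
    rw [Finset.card_map, Finset.card_univ, Fintype.card_fin]
  rw [← hc]
  refine le_lp ⟨fun q hq => ?_, fun q hq q' hq' hne => ?_⟩
  · obtain ⟨r, -, rfl⟩ := Finset.mem_map.1 hq
    exact ⟨Nat.zero_le _, hin r, Nat.zero_le _, hjn r, hxy r⟩
  · obtain ⟨r, -, rfl⟩ := Finset.mem_map.1 hq
    obtain ⟨r', -, rfl⟩ := Finset.mem_map.1 hq'
    have hrr : r ≠ r' := fun he => hne (by rw [he])
    rcases lt_or_gt_of_ne hrr with h1 | h1
    · exact Or.inl ⟨hi h1, hj h1⟩
    · exact Or.inr ⟨hi h1, hj h1⟩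

private theorem Lcs_ex {α : Type*} (x y : ℕ → α) (n : ℕ) :
    ∃ i j : Fin (lp (fun i j => x i = y j) 0 n 0 n) → ℕ, StrictMono i ∧ StrictMono j ∧
      (∀ r, i r < n) ∧ (∀ r, j r < n) ∧ ∀ r, x (i r) = y (j r) := by
  obtain ⟨s, hs, hc⟩ := exists_chain (fun i j => x i = y j) 0 n 0 n
  have hinj : Set.InjOn Prod.fst (s : Set (ℕ × ℕ)) := by
    intro q hq q' hq' he
    by_contra hne
    rcases hs.2 q hq q' hq' hne with h1 | h1
    · exact absurd he h1.1.ne
    · exact absurd he h1.1.ne'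
  have hR : (s.image Prod.fst).card = lp (fun i j => x i = y j) 0 n 0 n := by
    rw [Finset.card_image_of_injOn hinj, hc]
  have hq : ∀ r, ∃ q ∈ s, q.1 = (s.image Prod.fst).orderEmbOfFin hR r := by
    intro r
    have := Finset.orderEmbOfFin_mem (s.image Prod.fst) hR r
    obtain ⟨q, hq, he⟩ := Finset.mem_image.1 this
    exact ⟨q, hq, he⟩
  choose q hqs hq1 using hq
  refine ⟨fun r => (q r).1, fun r => (q r).2, ?_, ?_, ?_, ?_, ?_⟩
  · intro r r' h
    simp only [hq1]
    exact ((s.image Prod.fst).orderEmbOfFin hR).strictMono h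
  · intro r r' h
    have h1 : (q r).1 < (q r').1 := by
      rw [hq1, hq1]
      exact ((s.image Prod.fst).orderEmbOfFin hR).strictMono h
    have hne : q r ≠ q r' := fun he => absurd (congrArg Prod.fst he) h1.ne
    rcases hs.2 _ (hqs r) _ (hqs r') hne with h2 | h2
    · exact h2.2
    · exact absurd h1 (not_lt.2 h2.1.le)
  · intro r
    exact (hs.1 _ (hqs r)).2.1
  · intro r
    exact (hs.1 _ (hqs r)).2.2.2.1
  · intro r
    exact (hs.1 _ (hqs r)).2.2.2.2

theorem lcsLen_eq {α : Type*} (x y : ℕ → α) (n : ℕ) :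
    lcsLen x y n = lp (fun i j => x i = y j) 0 n 0 n := by
  apply le_antisymm
  · refine csSup_le ⟨_, Lcs_ex x y n⟩ ?_
    intro k hk
    exact Lcs_le x y n k hk
  · exact le_csSup ⟨lp (fun i j => x i = y j) 0 n 0 n, fun k hk => Lcs_le x y n k hk⟩
      (Lcs_ex x y n)

theorem lcsLen_eq_rl {α : Type*} (x y : ℕ → α) (n : ℕ) :
    lcsLen x y n = lp (rl (fun i : Fin n => x i) (fun j : Fin n => y j)) 0 n 0 n := by
  rw [lcsLen_eq]
  apply lp_congr
  intro i j _ hi _ hj
  constructor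
  · intro h
    exact ⟨hi, hj, h⟩
  · rintro ⟨_, _, h⟩
    exact h

end LCSH
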