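import Pool.Agent.Lib.MP_ae6bb1_pr.GoodProb

/-! Choice of the numbers of rows and columns. -/

open Finset

namespace LCSH

theorem Params_X {α : Type*} [Fintype α] (L : Law α) (het : L.et ≤ c0) :
    (10 : ℝ) ^ 6 ≤ 1 / L.sg := by
  have h1 : L.sg ≤ c0 := (sg_le_kp L).trans ((kp_le_et L).trans het)
  have h0 := sg_pos L
  rw [le_div_iff₀ h0]
  calc (10 : ℝ) ^ 6 * L.sg ≤ 10 ^ 6 * c0 := by gcongr
    _ = 1 := by norm_num [c0]

/-- existence of suitable numbers of rows and columns -/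
theorem Params_exists {α : Type*} [Fintype α] (L : Law α) (het : L.et ≤ c0) (θ : ℝ)
    (hθ : 1 / 2 ≤ θ) (hθ' : θ ≤ 8) :
    ∃ T n : ℕ, Reg L θ T n ∧ (1 / L.sg) ^ 8 ≤ (T : ℝ) ∧ 1 ≤ T ∧ 1 ≤ n ∧
      50 * (T : ℝ) ≤ n * L.sg ∧ (n : ℝ) ≤ 51 * T * (1 / L.sg) := by
  have hs := sg_pos L
  set X : ℝ := 1 / L.sg with hX
  have hX6 : (10 : ℝ) ^ 6 ≤ X := Params_X L het
  have hX1 : 1 ≤ X := by linarith [hX6, (by norm_num : (1 : ℝ) ≤ 10 ^ 6)]
  have hXs : X * L.sg = 1 := by rw [hX]; field_simp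
  set T : ℕ := ⌈X ^ 8⌉₊ with hT
  have hT1 : X ^ 8 ≤ (T : ℝ) := Nat.le_ceil _
  have hT2 : (T : ℝ) ≤ X ^ 8 + 1 := (Nat.ceil_lt_add_one (by positivity)).le
  have hX8 : (10 : ℝ) ^ 6 ≤ X ^ 8 := hX6.trans (le_self_pow₀ hX1 (by norm_num))
  have hTbig : (10 : ℝ) ^ 6 ≤ (T : ℝ) := hX8.trans hT1
  set n : ℕ := ⌈50 * (T : ℝ) * X⌉₊ with hn
  have hn1 : 50 * (T : ℝ) * X ≤ (n : ℝ) := Nat.le_ceil _
  have hn2 : (n : ℝ) ≤ 50 * (T : ℝ) * X + 1 := (Nat.ceil_lt_add_one (by positivity)).le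
  have hTX : 1 ≤ (T : ℝ) * X := by nlinarith
  have hns : 50 * (T : ℝ) ≤ n * L.sg := by
    calc 50 * (T : ℝ) = (50 * (T : ℝ) * X) * L.sg := by rw [mul_assoc, hXs, mul_one]
      _ ≤ n * L.sg := by gcongr
  refine ⟨T, n, ⟨het, hθ, hθ', ?_, ?_, ?_⟩, hT1, ?_, ?_, hns, by nlinarith⟩
  · linarith
  · calc X ^ 2 ≤ X ^ 8 := pow_le_pow_right₀ hX1 (by norm_num)
      _ ≤ (T : ℝ) := hT1
      _ ≤ 50 * (T : ℝ) * X := by nlinarith
      _ ≤ n := hn1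
  · have e1 : (n : ℝ) ≤ 50 * (X ^ 8 + 1) * X + 1 := by
      calc (n : ℝ) ≤ 50 * (T : ℝ) * X + 1 := hn2
        _ ≤ 50 * (X ^ 8 + 1) * X + 1 := by gcongr
    have e2 : X ≤ X ^ 9 := le_self_pow₀ hX1 (by norm_num)
    have e3 : (1 : ℝ) ≤ X ^ 9 := one_le_pow₀ hX1
    have e4 : X ^ 10 = X * X ^ 9 := by ring
    have e5 : (10 : ℝ) ^ 6 * X ^ 9 ≤ X * X ^ 9 := by gcongr
    rw [e4]
    have : (50 : ℝ) * (X ^ 8 + 1) * X + 1 = 50 * X ^ 9 + 50 * X + 1 := by ring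
    have h9 : 0 < X ^ 9 := by positivity
    nlinarith
  · have : (1 : ℝ) ≤ (T : ℝ) := by linarith [hTbig, (by norm_num : (1 : ℝ) ≤ 10 ^ 6)]
    exact_mod_cast this
  · have : (1 : ℝ) ≤ (n : ℝ) := by nlinarith
    exact_mod_cast this

/-- logarithm of the number of columns -/
theorem Params_log {α : Type*} [Fintype α] (L : Law α) (het : L.et ≤ c0) {n : ℕ}
    (hn : (n : ℝ) ≤ (1 / L.sg) ^ 10) : Real.log (n + 2) ≤ 10 * L.Lam := by
  have hs := sg_pos L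
  have hX6 : (10 : ℝ) ^ 6 ≤ 1 / L.sg := Params_X L het
  set X : ℝ := 1 / L.sg with hX
  have hX1 : 1 ≤ X := by linarith [hX6, (by norm_num : (1 : ℝ) ≤ 10 ^ 6)]
  have hX10 : (1 : ℝ) ≤ X ^ 10 := one_le_pow₀ hX1
  have h1 : (n : ℝ) + 2 ≤ 3 * X ^ 10 := by linarith
  have h2 : Real.log (n + 2) ≤ Real.log (3 * X ^ 10) :=
    Real.log_le_log (by positivity) h1
  have h3 : Real.log (3 * X ^ 10) = Real.log 3 + 10 * Real.log X := by
    rw [Real.log_mul (by norm_num) (by positivity), Real.log_pow]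
    norm_num
  have h4 : Real.log 3 ≤ 2 := by
    have := Real.log_le_sub_one_of_pos (by norm_num : (0 : ℝ) < 3)
    linarith
  have h5 : L.Lam = 1 + Real.log X := rfl
  rw [h5]
  linarith

/-- the basic error quantity is at least `σ ^ (5/2)` (squared form) -/
theorem Params_D {α : Type*} [Fintype α] (L : Law α) :
    L.sg ^ 5 * L.Lam ^ 12 ≤ (L.sg * L.kp * Real.sqrt L.et * L.Lam ^ 6) ^ 2 := by
  have hs := sg_pos L
  have h1 := sg_le_kp L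
  have h2 := kp_le_et L
  have h3 := one_le_Lam L
  have he := et_pos L
  have : (L.sg * L.kp * Real.sqrt L.et * L.Lam ^ 6) ^ 2 =
      L.sg ^ 2 * L.kp ^ 2 * L.et * L.Lam ^ 12 := by
    have := Real.sq_sqrt he.le
    calc (L.sg * L.kp * Real.sqrt L.et * L.Lam ^ 6) ^ 2
        = L.sg ^ 2 * L.kp ^ 2 * (Real.sqrt L.et ^ 2) * L.Lam ^ 12 := by ring
      _ = _ := by rw [this]
  rw [this]
  have e : L.sg ^ 5 = L.sg ^ 2 * L.sg ^ 2 * L.sg := by ring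
  rw [e]
  have h4 : L.sg ≤ L.et := h1.trans h2
  gcongr

theorem Params_D_pos {α : Type*} [Fintype α] (L : Law α) :
    0 < L.sg * L.kp * Real.sqrt L.et * L.Lam ^ 6 := by
  have hs := sg_pos L
  have h1 := kp_pos L
  have h3 := one_le_Lam L
  have he := Real.sqrt_pos.mpr (et_pos L)
  positivity

/-- the concentration error is negligible -/
theorem Params_err {α : Type*} [Fintype α] (L : Law α) (het : L.et ≤ c0) {T n : ℕ}
    (hT : (1 / L.sg) ^ 8 ≤ (T : ℝ)) (hn : (n : ℝ) ≤ (1 / L.sg) ^ 10)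
    (hn2 : (n : ℝ) ≤ 51 * T * (1 / L.sg)) :
    Real.sqrt ((T + n : ℕ) * Real.log (n + 1)) ≤
      23 * T * (L.sg * L.kp * Real.sqrt L.et * L.Lam ^ 6) := by
  have hs := sg_pos L
  have hX6 : (10 : ℝ) ^ 6 ≤ 1 / L.sg := Params_X L het
  have hD := Params_D L
  have hDp := Params_D_pos L
  set D : ℝ := L.sg * L.kp * Real.sqrt L.et * L.Lam ^ 6 with hDdef
  have hlog : Real.log (n + 1) ≤ 10 * L.Lam :=
    (Real.log_le_log (by positivity) (by linarith)).trans (Params_log L het hn)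
  have hlog0 : 0 ≤ Real.log ((n : ℝ) + 1) := Real.log_nonneg (by
    have : (0 : ℝ) ≤ n := Nat.cast_nonneg n
    linarith)
  set X : ℝ := 1 / L.sg with hX
  have hX1 : 1 ≤ X := by linarith [hX6, (by norm_num : (1 : ℝ) ≤ 10 ^ 6)]
  have hXs : X * L.sg = 1 := by rw [hX]; field_simp
  have hT0 : 0 < (T : ℝ) := lt_of_lt_of_le (by positivity) hT
  have hLam := one_le_Lam L
  apply Real.sqrt_le_iff.mpr
  constructor
  · positivity
  have e1 : ((T + n : ℕ) : ℝ) ≤ 52 * T * X := by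
    push_cast
    nlinarith
  have e2 : ((T + n : ℕ) : ℝ) * Real.log (n + 1) ≤ 52 * T * X * (10 * L.Lam) := by
    gcongr
  have e3 : X ≤ (T : ℝ) * L.sg ^ 5 := by
    calc X = X * (X * L.sg) ^ 5 := by rw [hXs]; ring
      _ = X ^ 6 * L.sg ^ 5 := by ring
      _ ≤ X ^ 8 * L.sg ^ 5 := by
          have := pow_le_pow_right₀ hX1 (by norm_num : 6 ≤ 8)
          gcongr
      _ ≤ (T : ℝ) * L.sg ^ 5 := by gcongr
  have e4 : L.Lam ≤ L.Lam ^ 12 := le_self_pow₀ hLam (by norm_num)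
  calc ((T + n : ℕ) : ℝ) * Real.log (n + 1) ≤ 52 * T * X * (10 * L.Lam) := e2
    _ = 520 * T * X * L.Lam := by ring
    _ ≤ 529 * T * (T * L.sg ^ 5) * L.Lam ^ 12 := by
        have : (0 : ℝ) ≤ (T : ℝ) * L.sg ^ 5 := by positivity
        gcongr
        norm_num
    _ = 529 * T ^ 2 * (L.sg ^ 5 * L.Lam ^ 12) := by ring
    _ ≤ 529 * T ^ 2 * D ^ 2 := by gcongr
    _ = (23 * T * D) ^ 2 := by ring

end LCSH
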