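import Pool.Agent.Lib.MP_ae6bb1_pr.Step
import Pool.Agent.Lib.MP_ae6bb1_pr.Conc
import Pool.Agent.Lib.MP_ae6bb1_pr.Apriori
import Pool.Agent.Lib.MP_ae6bb1_pr.Params

/-! The lower bound (proof document, section J1). -/

open Finset

namespace LCSH

/-- the algebraic inequality -/
theorem amgm (κ θ : ℝ) (hκ0 : 0 ≤ κ) (hκ1 : κ ≤ 1) (hθ : 0 < θ) :
    2 / (1 + κ) ≤ 1 / (κ + θ) + θ / (1 + θ * κ) := by
  have h1 : 0 < 1 + κ := by linarith
  have h2 : 0 < κ + θ := by linarith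
  have h3 : 0 < 1 + θ * κ := by positivity
  rw [div_add_div _ _ h2.ne' h3.ne', div_le_div_iff₀ h1 (by positivity)]
  nlinarith [mul_nonneg (sub_nonneg.mpr hκ1) (sq_nonneg (1 - θ))]

theorem gam_lower_est : ∃ C : ℝ, 1 ≤ C ∧ ∀ (α : Type) [Fintype α] [DecidableEq α] (L : Law α),
    L.et ≤ c0 → 2 * L.sg - 2 * L.sg * L.kp -
      C * (L.sg * L.kp * Real.sqrt L.et * L.Lam ^ 6) ≤ gam L := by
  obtain ⟨C, hC, htel⟩ := telescope
  refine ⟨C + 46, by linarith, ?_⟩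
  intro α _ _ L het
  have hs := sg_pos L
  have hk := kp_pos L
  have hk1 : L.kp ≤ 1 := (kp_le_et L).trans (et_le_one L)
  have het' : L.et ≤ 1 / 10 := het.trans (by norm_num [c0])
  obtain ⟨θ, hθ1, hθ2, hθ3⟩ := exists_theta L (gam L) (gam_lower L het) (gam_upper L) het'
  have hθ0 : 0 < θ := by linarith
  obtain ⟨T, n, hR, hT8, hT1, hn1, hns, hn51⟩ := Params_exists L het θ hθ1 hθ2
  have htel' := htel α L θ T n hR
  set D : ℝ := L.sg * L.kp * Real.sqrt L.et * L.Lam ^ 6 with hD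
  have hDp : 0 < D := Params_D_pos L
  have hT0 : (0 : ℝ) < T := by exact_mod_cast hT1
  have hEM := EM_le L (T := T) (n := n) hθ0 hn1 (gam L * ((T + n : ℕ) : ℝ) / 2) (by
    intro c hc
    have h1 := EL_rect_le L T c
    rw [hθ3]
    have h2 : ((n - c : ℕ) : ℝ) = (n : ℝ) - c := by
      rw [Nat.cast_sub hc]
    rw [h2]
    push_cast at h1 ⊢
    linarith)
  have herr := Params_err L het hT8 hR.hn' hn51
  rw [← hD] at herr
  set g0 : ℝ := θ * L.sg / (1 + θ * L.kp) with hg0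
  have h1 := (abs_le.mp htel').1
  rw [hθ3] at h1
  push_cast at hEM
  push_cast at herr
  have h2 : (T : ℝ) * g0 - C * T * D ≤ gam L * T / 2 + 46 * T * D := by
    nlinarith
  have h3 : g0 - C * D ≤ gam L / 2 + 46 * D := by
    have : (T : ℝ) * (g0 - C * D) ≤ T * (gam L / 2 + 46 * D) := by nlinarith
    exact le_of_mul_le_mul_left this hT0
  have h4 : L.sg / (L.kp + θ) ≤ gam L / 2 := by
    rw [← hθ3]
    exact le_rb_kp L θ hθ0
  have h5 := amgm L.kp θ hk.le hk1 hθ0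
  have h6 : 2 * L.sg - 2 * L.sg * L.kp ≤ L.sg * (2 / (1 + L.kp)) := by
    have : 2 - 2 * L.kp ≤ 2 / (1 + L.kp) := by
      rw [le_div_iff₀ (by linarith)]
      nlinarith
    nlinarith
  have h7 : L.sg * (2 / (1 + L.kp)) ≤ L.sg / (L.kp + θ) + g0 := by
    have e : L.sg / (L.kp + θ) + g0 = L.sg * (1 / (L.kp + θ) + θ / (1 + θ * L.kp)) := by
      rw [hg0]; ring
    rw [e]
    gcongr
  nlinarith

end LCSH
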