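import Pool.Agent.Lib.MP_ae6bb1_pr.LpBasic

/-! Emptying rows and columns (proof document, section A3). -/

open Finset

namespace LCSH

variable {m : ℕ → ℕ → Prop} {a b c d : ℕ}

theorem lp_rmc_le (K : Finset ℕ) : lp (rmc K m) a b c d ≤ lp m a b c d :=
  lp_mono le_rfl le_rfl le_rfl le_rfl fun _ _ _ _ _ _ h => h.1

/-- each emptied column of the rectangle costs at most one -/
theorem lp_le_rmc (K : Finset ℕ) :
    lp m a b c d ≤ lp (rmc K m) a b c d + (K.filter (fun j => c ≤ j ∧ j < d)).card := by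
  classical
  obtain ⟨s, hs, hc⟩ := exists_chain m a b c d
  rw [← hc]
  have h1 : Chain (rmc K m) a b c d (s.filter fun q => ¬ q.2 ∈ K) := by
    refine ⟨fun q hq => ?_, fun q hq q' hq' hne => ?_⟩
    · obtain ⟨hqs, hqK⟩ := Finset.mem_filter.1 hq
      obtain ⟨x1, x2, x3, x4, x5⟩ := hs.1 q hqs
      exact ⟨x1, x2, x3, x4, x5, hqK⟩
    · exact hs.2 q (Finset.mem_filter.1 hq).1 q' (Finset.mem_filter.1 hq').1 hne
  have h2 : (s.filter fun q => q.2 ∈ K).card ≤ (K.filter (fun j => c ≤ j ∧ j < d)).card := by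
    refine Finset.card_le_card_of_injOn (fun q => q.2) ?_ ?_
    · intro q hq
      obtain ⟨hqs, hqK⟩ := Finset.mem_filter.1 (Finset.mem_coe.1 hq)
      obtain ⟨x1, x2, x3, x4, x5⟩ := hs.1 q hqs
      exact Finset.mem_coe.2 (Finset.mem_filter.2 ⟨hqK, x3, x4⟩)
    · intro q hq q' hq' hqq
      by_contra hne
      have hq1 := (Finset.mem_filter.1 (Finset.mem_coe.1 hq)).1
      have hq1' := (Finset.mem_filter.1 (Finset.mem_coe.1 hq')).1
      have hqq2 : q.2 = q'.2 := hqq
      rcases hs.2 q hq1 q' hq1' hne with h | h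
      · omega
      · omega
  have h3 := Finset.card_filter_add_card_filter_not (s := s) (fun q => q.2 ∈ K)
  have h4 := le_lp h1
  omega

theorem lp_rmr_le (R : Finset ℕ) : lp (rmr R m) a b c d ≤ lp m a b c d :=
  lp_mono le_rfl le_rfl le_rfl le_rfl fun _ _ _ _ _ _ h => h.1

theorem lp_le_rmr (R : Finset ℕ) :
    lp m a b c d ≤ lp (rmr R m) a b c d + (R.filter (fun i => a ≤ i ∧ i < b)).card := by
  classical
  obtain ⟨s, hs, hc⟩ := exists_chain m a b c d
  rw [← hc]
  have h1 : Chain (rmr R m) a b c d (s.filter fun q => ¬ q.1 ∈ R) := by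
    refine ⟨fun q hq => ?_, fun q hq q' hq' hne => ?_⟩
    · obtain ⟨hqs, hqK⟩ := Finset.mem_filter.1 hq
      obtain ⟨x1, x2, x3, x4, x5⟩ := hs.1 q hqs
      exact ⟨x1, x2, x3, x4, x5, hqK⟩
    · exact hs.2 q (Finset.mem_filter.1 hq).1 q' (Finset.mem_filter.1 hq').1 hne
  have h2 : (s.filter fun q => q.1 ∈ R).card ≤ (R.filter (fun i => a ≤ i ∧ i < b)).card := by
    refine Finset.card_le_card_of_injOn (fun q => q.1) ?_ ?_
    · intro q hq
      obtain ⟨hqs, hqK⟩ := Finset.mem_filter.1 (Finset.mem_coe.1 hq)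
      obtain ⟨x1, x2, x3, x4, x5⟩ := hs.1 q hqs
      exact Finset.mem_coe.2 (Finset.mem_filter.2 ⟨hqK, x1, x2⟩)
    · intro q hq q' hq' hqq
      by_contra hne
      have hq1 := (Finset.mem_filter.1 (Finset.mem_coe.1 hq)).1
      have hq1' := (Finset.mem_filter.1 (Finset.mem_coe.1 hq')).1
      have hqq2 : q.1 = q'.1 := hqq
      rcases hs.2 q hq1 q' hq1' hne with h | h
      · omega
      · omega
  have h3 := Finset.card_filter_add_card_filter_not (s := s) (fun q => q.1 ∈ R)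
  have h4 := le_lp h1
  omega

/-- if the columns of `K` matter, some optimal chain goes through a cell in such a column -/
theorem lp_use (K : Finset ℕ) (h : lp (rmc K m) a b c d < lp m a b c d) :
    ∃ i ∈ K, ∃ r, a ≤ r ∧ r < b ∧ c ≤ i ∧ i < d ∧ m r i ∧
      lp m a b c d ≤ lp m a r c i + 1 + lp m (r + 1) b (i + 1) d := by
  classical
  obtain ⟨s, hs, hc⟩ := exists_chain m a b c d
  have hex : ∃ q ∈ s, q.2 ∈ K := by
    by_contra hno
    push Not at hno
    have h1 : Chain (rmc K m) a b c d s := by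
      refine ⟨fun q hq => ?_, hs.2⟩
      obtain ⟨x1, x2, x3, x4, x5⟩ := hs.1 q hq
      exact ⟨x1, x2, x3, x4, x5, hno q hq⟩
    have h2 := le_lp h1
    omega
  obtain ⟨q, hq, hqK⟩ := hex
  obtain ⟨y1, y2, y3, y4, y5⟩ := hs.1 q hq
  refine ⟨q.2, hqK, q.1, y1, y2, y3, y4, y5, ?_⟩
  have h1 : Chain m a q.1 c q.2 (s.filter fun q' => q'.1 < q.1) := by
    refine ⟨fun q' hq' => ?_, fun x hx x' hx' hne => ?_⟩
    · obtain ⟨hqs, hlt⟩ := Finset.mem_filter.1 hq'
      obtain ⟨x1, x2, x3, x4, x5⟩ := hs.1 q' hqs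
      have hne : q' ≠ q := fun e => by rw [e] at hlt; exact lt_irrefl _ hlt
      refine ⟨x1, hlt, x3, ?_, x5⟩
      rcases hs.2 q' hqs q hq hne with h | h
      · exact h.2
      · omega
    · exact hs.2 x (Finset.mem_filter.1 hx).1 x' (Finset.mem_filter.1 hx').1 hne
  have h2 : Chain m (q.1 + 1) b (q.2 + 1) d (s.filter fun q' => q.1 < q'.1) := by
    refine ⟨fun q' hq' => ?_, fun x hx x' hx' hne => ?_⟩
    · obtain ⟨hqs, hlt⟩ := Finset.mem_filter.1 hq'
      obtain ⟨x1, x2, x3, x4, x5⟩ := hs.1 q' hqs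
      have hne : q' ≠ q := fun e => by rw [e] at hlt; exact lt_irrefl _ hlt
      refine ⟨hlt, x2, ?_, x4, x5⟩
      rcases hs.2 q' hqs q hq hne with h | h
      · omega
      · exact h.2
    · exact hs.2 x (Finset.mem_filter.1 hx).1 x' (Finset.mem_filter.1 hx').1 hne
  have hsub : s ⊆ ((s.filter fun q' => q'.1 < q.1) ∪ {q}) ∪ (s.filter fun q' => q.1 < q'.1) := by
    intro x hx
    by_cases hxq : x = q
    · subst hxq
      simp
    · rcases hs.2 x hx q hq hxq with h | h
      · simp [hx, h.1]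
      · simp [hx, h.1]
  have hcard := (Finset.card_le_card hsub).trans
    ((Finset.card_union_le _ _).trans (Nat.add_le_add_right (Finset.card_union_le _ _) _))
  rw [Finset.card_singleton] at hcard
  have e1 := le_lp h1
  have e2 := le_lp h2
  omega

end LCSH
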