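import Pool.Agent.Lib.MP_ae6bb1_pr.NBSwitch

/-! Iterated switching (proof document, section E4). -/

open Finset

namespace LCSH

theorem NBChain_ge {A b : ℕ → ℕ} {n ℓ r : ℕ} (l : List (ℕ × ℕ)) :
    ∀ (s M : ℕ), Ev A b n ℓ r s l M → ∀ q ∈ l, s ≤ q.1 := by
  induction l with
  | nil => intro s M _ q hq; simp at hq
  | cons p l ih =>
    obtain ⟨B, h⟩ := p
    intro s M hE q hq
    simp only [Ev] at hE
    obtain ⟨h1, -, -, -, h5⟩ := hE
    rcases List.mem_cons.1 hq with rfl | hq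
    · exact h1
    · have := ih (B + 2) M h5 q hq
      omega

theorem NBChain_sep {A b : ℕ → ℕ} {n ℓ r : ℕ} (l1 l2 : List (ℕ × ℕ)) (B h : ℕ) :
    ∀ (s M : ℕ), Ev A b n ℓ r s (l1 ++ (B, h) :: l2) M →
      (∀ q ∈ l1, q.1 ≠ B) ∧ (∀ q ∈ l2, q.1 ≠ B) ∧ (B + 2) * ℓ ≤ n := by
  induction l1 with
  | nil =>
    intro s M hE
    simp only [List.nil_append, Ev] at hE
    obtain ⟨-, h2, -, -, h5⟩ := hE
    refine ⟨by simp, ?_, h2⟩
    intro q hq
    have := NBChain_ge l2 (B + 2) M h5 q hq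
    omega
  | cons p l ih =>
    obtain ⟨B', h'⟩ := p
    intro s M hE
    simp only [List.cons_append, Ev] at hE
    obtain ⟨-, -, -, -, h5⟩ := hE
    obtain ⟨i1, i2, i3⟩ := ih (B' + 2) M h5
    have hge := NBChain_ge (l ++ (B, h) :: l2) (B' + 2) M h5 (B, h) (by simp)
    simp only at hge
    refine ⟨?_, i2, i3⟩
    intro q hq
    rcases List.mem_cons.1 hq with rfl | hq
    · simp only; omega
    · exact i1 q hq

theorem NBChain_bt_update {n : ℕ} (ξ : Fin n → Bool) (j : Fin n) (hj : ξ j = false) (l : ℕ) :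
    bt (Function.update ξ j true) l = if l = (j : ℕ) then bt ξ l + 1 else bt ξ l := by
  unfold bt
  by_cases hl : l < n
  · simp only [hl, dite_true]
    by_cases hlj : l = (j : ℕ)
    · have : (⟨l, hl⟩ : Fin n) = j := Fin.ext hlj
      rw [this, Function.update_self, hj]
      simp [hlj]
    · have : (⟨l, hl⟩ : Fin n) ≠ j := fun h => hlj (by rw [← h])
      rw [Function.update_of_ne this]
      simp [hlj]
  · simp only [hl, dite_false]
    have : l ≠ (j : ℕ) := fun h => hl (h ▸ j.2)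
    simp [this]

theorem NBChain_SB_le {n : ℕ} (ξ : Fin n → Bool) (j : Fin n) (hj : ξ j = false) (ℓ B : ℕ) :
    SB (bt (Function.update ξ j true)) ℓ B ≤ SB (bt ξ) ℓ B + 1 := by
  unfold SB
  rw [Finset.sum_congr rfl (fun l _ => NBChain_bt_update ξ j hj l)]
  have : ∀ l, (if l = (j : ℕ) then bt ξ l + 1 else bt ξ l) =
      bt ξ l + (if l = (j : ℕ) then 1 else 0) := by
    intro l; split_ifs <;> rfl
  rw [Finset.sum_congr rfl (fun l _ => this l), Finset.sum_add_distrib]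
  have h2 : (∑ l ∈ Finset.Ico (B * ℓ) ((B + 1) * ℓ), if l = (j : ℕ) then 1 else 0) ≤ 1 := by
    rw [Finset.sum_ite_eq']
    split_ifs <;> omega
  omega

theorem NBChain_SB_eq {n : ℕ} (ξ : Fin n → Bool) (j : Fin n) (hj : ξ j = false) (ℓ B : ℕ)
    (h : ¬ (B * ℓ ≤ (j : ℕ) ∧ (j : ℕ) < (B + 1) * ℓ)) :
    SB (bt (Function.update ξ j true)) ℓ B = SB (bt ξ) ℓ B := by
  unfold SB
  refine Finset.sum_congr rfl fun l hl => ?_
  rw [NBChain_bt_update ξ j hj l]
  rw [Finset.mem_Ico] at hl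
  have : l ≠ (j : ℕ) := by
    rintro rfl
    exact h hl
  simp [this]

theorem NBChain_card {n : ℕ} (ξ : Fin n → Bool) (ℓ B : ℕ) (hB : (B + 1) * ℓ ≤ n) :
    (((Finset.univ : Finset (Fin n)).filter
      (fun j : Fin n => B * ℓ ≤ (j : ℕ) ∧ (j : ℕ) < (B + 1) * ℓ)).filter (fun j => ξ j = true)).card =
      SB (bt ξ) ℓ B := by
  unfold SB
  rw [Finset.card_filter, Finset.sum_filter]
  rw [show (Finset.Ico (B * ℓ) ((B + 1) * ℓ)) =
    (Finset.range n).filter (fun l => B * ℓ ≤ l ∧ l < (B + 1) * ℓ) from by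
      ext l
      simp only [Finset.mem_Ico, Finset.mem_filter, Finset.mem_range]
      constructor
      · rintro ⟨h1, h2⟩
        exact ⟨lt_of_lt_of_le h2 hB, h1, h2⟩
      · rintro ⟨-, h⟩
        exact h]
  rw [Finset.sum_filter, Finset.sum_range]
  refine Finset.sum_congr rfl fun j _ => ?_
  by_cases hj : B * ℓ ≤ (j : ℕ) ∧ (j : ℕ) < (B + 1) * ℓ
  · simp only [hj, and_self, if_true]
    unfold bt
    simp only [j.2, dite_true, Fin.eta]
    cases ξ j <;> simp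
  · simp only [hj, if_false]

/-- one more source in the middle block of the pair `(B,h)` -/
theorem ev_step {n : ℕ} (A : ℕ → ℕ) (ℓ r H : ℕ) (hH : 0 < H) (o : Fin n → ℝ)
    (ho : ∀ j, 0 ≤ o j) (om : ℝ) (hom0 : 0 ≤ om)
    (hom : ∀ j, o j ≤ om) (D : ℕ → ℕ)
    (l1 l2 : List (ℕ × ℕ)) (B h : ℕ) (hh : h < H) (hBn : (B + 2) * ℓ ≤ n)
    (hD : (1 - 1 / (2 * (H : ℝ))) * ((D (B + 1) : ℝ) + H + 1) ≤
      mB o ℓ (B + 1) - ((D (B + 1) : ℝ) + H) * om) :
    (1 - 1 / (2 * (H : ℝ))) * PE (fun j => bw (o j / (o j + 1))) (fun ξ =>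
      ind (∃ M, Ev A (bt ξ) n ℓ r 0 (l1 ++ (B, h) :: l2) M ∧
        TypL (bt ξ) ℓ D (l1 ++ (B, h) :: l2))) ≤
    PE (fun j => bw (o j / (o j + 1))) (fun ξ =>
      ind (∃ M, Ev A (bt ξ) n ℓ r 0 (l1 ++ (B, h + 1) :: l2) M ∧
        TypL (bt ξ) ℓ D (l1 ++ (B, h + 1) :: l2))) := by
  set S : Finset (Fin n) := (Finset.univ : Finset (Fin n)).filter
      (fun j : Fin n => (B + 1) * ℓ ≤ (j : ℕ) ∧ (j : ℕ) < (B + 1 + 1) * ℓ) with hS
  have hw : IsW (fun j => bw (o j / (o j + 1))) := by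
    apply isW_bw
    · intro j
      exact div_nonneg (ho j) (by linarith [ho j])
    · intro j
      rw [div_le_one (by linarith [ho j])]
      linarith
  have key := switch_step o ho om hom0 hom S
    (fun ξ => ∃ M, Ev A (bt ξ) n ℓ r 0 (l1 ++ (B, h) :: l2) M ∧
        TypL (bt ξ) ℓ D (l1 ++ (B, h) :: l2))
    (fun ξ => ∃ M, Ev A (bt ξ) n ℓ r 0 (l1 ++ (B, h + 1) :: l2) M ∧
        TypL (bt ξ) ℓ D (l1 ++ (B, h + 1) :: l2))
    (D (B + 1) + h) ?_ ?_
  · set P := PE (fun j => bw (o j / (o j + 1))) (fun ξ =>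
      ind (∃ M, Ev A (bt ξ) n ℓ r 0 (l1 ++ (B, h) :: l2) M ∧
        TypL (bt ξ) ℓ D (l1 ++ (B, h) :: l2))) with hP
    set P' := PE (fun j => bw (o j / (o j + 1))) (fun ξ =>
      ind (∃ M, Ev A (bt ξ) n ℓ r 0 (l1 ++ (B, h + 1) :: l2) M ∧
        TypL (bt ξ) ℓ D (l1 ++ (B, h + 1) :: l2))) with hP'
    have hP0 : 0 ≤ P := PE_nonneg hw fun ξ => ind_nonneg _
    have hsum : (∑ j ∈ S, o j) = mB o ℓ (B + 1) := by
      rw [hS, Finset.sum_filter]
      rfl
    rw [hsum] at key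
    push_cast at key
    have hHr : (1 : ℝ) ≤ H := by exact_mod_cast hH
    have hhr : (h : ℝ) ≤ H := by exact_mod_cast hh.le
    have hc : 0 ≤ 1 - 1 / (2 * (H : ℝ)) := by
      have : 1 / (2 * (H : ℝ)) ≤ 1 := by
        rw [div_le_one (by linarith)]
        linarith
      linarith
    have hX : (0 : ℝ) ≤ (D (B + 1) : ℝ) := Nat.cast_nonneg _
    have hh0 : (0 : ℝ) ≤ (h : ℝ) := Nat.cast_nonneg _
    have h1 : (1 - 1 / (2 * (H : ℝ))) * ((D (B + 1) : ℝ) + h + 1) ≤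
        (1 - 1 / (2 * (H : ℝ))) * ((D (B + 1) : ℝ) + H + 1) :=
      mul_le_mul_of_nonneg_left (by linarith) hc
    have h2 : ((D (B + 1) : ℝ) + h) * om ≤ ((D (B + 1) : ℝ) + H) * om :=
      mul_le_mul_of_nonneg_right (by linarith) hom0
    have h3 : (1 - 1 / (2 * (H : ℝ))) * ((D (B + 1) : ℝ) + h + 1) ≤
        mB o ℓ (B + 1) - ((D (B + 1) : ℝ) + h) * om := by linarith
    have h4 : (1 - 1 / (2 * (H : ℝ))) * ((D (B + 1) : ℝ) + h + 1) * P ≤
        ((D (B + 1) : ℝ) + h + 1) * P' :=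
      le_trans (mul_le_mul_of_nonneg_right h3 hP0) key
    have hpos : 0 < (D (B + 1) : ℝ) + h + 1 := by linarith
    have h5 : ((D (B + 1) : ℝ) + h + 1) * ((1 - 1 / (2 * (H : ℝ))) * P) ≤
        ((D (B + 1) : ℝ) + h + 1) * P' := by
      calc ((D (B + 1) : ℝ) + h + 1) * ((1 - 1 / (2 * (H : ℝ))) * P)
          = (1 - 1 / (2 * (H : ℝ))) * ((D (B + 1) : ℝ) + h + 1) * P := by ring
        _ ≤ _ := h4
    exact le_of_mul_le_mul_left h5 hpos
  · rintro ξ ⟨M, hE, hT⟩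
    rw [hS, NBChain_card ξ ℓ (B + 1) hBn]
    exact hT (B, h) (by simp)
  · rintro ξ ⟨M, hE, hT⟩ j hj hξ
    rw [hS, Finset.mem_filter] at hj
    obtain ⟨-, hj1, hj2⟩ := hj
    obtain ⟨s1, s2, -⟩ := NBChain_sep l1 l2 B h 0 M hE
    refine ⟨M, ev_switch A (bt ξ) (bt (Function.update ξ j true)) n ℓ r l1 l2 B h 0 M j
      (NBChain_bt_update ξ j hξ) hj1 hj2 hE, ?_⟩
    have hne : ∀ q : ℕ × ℕ, q.1 ≠ B →
        SB (bt (Function.update ξ j true)) ℓ (q.1 + 1) = SB (bt ξ) ℓ (q.1 + 1) := by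
      intro q hq
      apply NBChain_SB_eq ξ j hξ
      rintro ⟨g1, g2⟩
      rcases lt_or_gt_of_ne hq with hlt | hgt
      · have : (q.1 + 1 + 1) * ℓ ≤ (B + 1) * ℓ := Nat.mul_le_mul_right _ (by omega)
        omega
      · have : (B + 1 + 1) * ℓ ≤ (q.1 + 1) * ℓ := Nat.mul_le_mul_right _ (by omega)
        omega
    intro q hq
    rcases List.mem_append.1 hq with hq1 | hq1
    · rw [hne q (s1 q hq1)]
      exact hT q (List.mem_append_left _ hq1)
    · rcases List.mem_cons.1 hq1 with rfl | hq2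
      · have e1 := NBChain_SB_le ξ j hξ ℓ (B + 1)
        have e2 := hT (B, h) (by simp)
        simp only at e2 ⊢
        omega
      · rw [hne q (s2 q hq2)]
        exact hT q (List.mem_append_right _ (List.mem_cons_of_mem _ hq2))

theorem NBChain_half {H : ℕ} (hH : 0 < H) {h : ℕ} (hh : h ≤ H) :
    (1 : ℝ) ≤ 2 * (1 - 1 / (2 * (H : ℝ))) ^ h := by
  have hHr : (1 : ℝ) ≤ H := by exact_mod_cast hH
  have hle : 1 / (2 * (H : ℝ)) ≤ 1 / 2 := by
    rw [div_le_div_iff₀ (by linarith) (by norm_num)]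
    linarith
  have hpos : 0 ≤ 1 / (2 * (H : ℝ)) := by positivity
  have hb := one_add_mul_le_pow (a := -(1 / (2 * (H : ℝ)))) (by linarith) H
  have h1 : (1 : ℝ) + H * -(1 / (2 * (H : ℝ))) = 1 / 2 := by
    field_simp
    ring
  rw [h1] at hb
  have h2 : (1 - 1 / (2 * (H : ℝ))) ^ H ≤ (1 - 1 / (2 * (H : ℝ))) ^ h :=
    pow_le_pow_of_le_one (by linarith) (by linarith) hh
  have h3 : (1 + -(1 / (2 * (H : ℝ)))) ^ H = (1 - 1 / (2 * (H : ℝ))) ^ H := by ring
  rw [h3] at hb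
  linarith

theorem NBChain_list {n : ℕ} (A : ℕ → ℕ) (ℓ r H : ℕ) (hH : 0 < H) (o : Fin n → ℝ)
    (ho : ∀ j, 0 ≤ o j) (om : ℝ) (hom0 : 0 ≤ om)
    (hom : ∀ j, o j ≤ om) (D : ℕ → ℕ)
    (hD : ∀ B, (B + 1) * ℓ ≤ n → (1 - 1 / (2 * (H : ℝ))) * ((D B : ℝ) + H + 1) ≤
      mB o ℓ B - ((D B : ℝ) + H) * om)
    (l2 : List (ℕ × ℕ)) : ∀ (_ : ∀ q ∈ l2, q.2 ≤ H) (l1 : List (ℕ × ℕ)),
    PE (fun j => bw (o j / (o j + 1))) (fun ξ =>
      ind (∃ M, Ev A (bt ξ) n ℓ r 0 (l1 ++ l2.map fun q => (q.1, 0)) M ∧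
        TypL (bt ξ) ℓ D (l1 ++ l2.map fun q => (q.1, 0)))) ≤
    2 ^ l2.length * PE (fun j => bw (o j / (o j + 1))) (fun ξ =>
      ind (∃ M, Ev A (bt ξ) n ℓ r 0 (l1 ++ l2) M ∧ TypL (bt ξ) ℓ D (l1 ++ l2))) := by
  have hw : IsW (fun j => bw (o j / (o j + 1))) := by
    apply isW_bw
    · intro j
      exact div_nonneg (ho j) (by linarith [ho j])
    · intro j
      rw [div_le_one (by linarith [ho j])]
      linarith
  have hHr : (1 : ℝ) ≤ H := by exact_mod_cast hH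
  have hc : 0 ≤ 1 - 1 / (2 * (H : ℝ)) := by
    have : 1 / (2 * (H : ℝ)) ≤ 1 := by
      rw [div_le_one (by linarith)]
      linarith
    linarith
  induction l2 with
  | nil =>
    intro _ l1
    simp
  | cons p l2 ih =>
    obtain ⟨B, h⟩ := p
    intro hq l1
    have hhH : h ≤ H := hq (B, h) (by simp)
    have ih' := ih (fun q hq' => hq q (List.mem_cons_of_mem _ hq')) (l1 ++ [(B, h)])
    rw [List.append_assoc, List.append_assoc] at ih'
    simp only [List.singleton_append] at ih'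
    set l3 : List (ℕ × ℕ) := l2.map fun q => (q.1, 0) with hl3
    rw [List.map_cons, ← hl3]
    simp only
    rw [List.length_cons, pow_succ]
    by_cases hBn : (B + 2) * ℓ ≤ n
    · have step : ∀ k, k ≤ H → (1 - 1 / (2 * (H : ℝ))) ^ k *
          PE (fun j => bw (o j / (o j + 1))) (fun ξ =>
            ind (∃ M, Ev A (bt ξ) n ℓ r 0 (l1 ++ (B, 0) :: l3) M ∧
              TypL (bt ξ) ℓ D (l1 ++ (B, 0) :: l3))) ≤
          PE (fun j => bw (o j / (o j + 1))) (fun ξ =>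
            ind (∃ M, Ev A (bt ξ) n ℓ r 0 (l1 ++ (B, k) :: l3) M ∧
              TypL (bt ξ) ℓ D (l1 ++ (B, k) :: l3))) := by
        intro k
        induction k with
        | zero => intro _; simp
        | succ k ihk =>
          intro hk
          have h1 := ihk (by omega)
          have h2 := ev_step A ℓ r H hH o ho om hom0 hom D l1 l3 B k (by omega) hBn
            (hD (B + 1) hBn)
          have h3 := mul_le_mul_of_nonneg_left h1 hc
          refine le_trans (le_of_eq ?_) (le_trans h3 h2)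
          ring
      have hs := step h hhH
      have hhalf := NBChain_half hH hhH
      have hP0 : 0 ≤ PE (fun j => bw (o j / (o j + 1))) (fun ξ =>
            ind (∃ M, Ev A (bt ξ) n ℓ r 0 (l1 ++ (B, 0) :: l3) M ∧
              TypL (bt ξ) ℓ D (l1 ++ (B, 0) :: l3))) := PE_nonneg hw fun ξ => ind_nonneg _
      calc PE (fun j => bw (o j / (o j + 1))) (fun ξ =>
            ind (∃ M, Ev A (bt ξ) n ℓ r 0 (l1 ++ (B, 0) :: l3) M ∧
              TypL (bt ξ) ℓ D (l1 ++ (B, 0) :: l3)))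
          ≤ (2 * (1 - 1 / (2 * (H : ℝ))) ^ h) *
            PE (fun j => bw (o j / (o j + 1))) (fun ξ =>
            ind (∃ M, Ev A (bt ξ) n ℓ r 0 (l1 ++ (B, 0) :: l3) M ∧
              TypL (bt ξ) ℓ D (l1 ++ (B, 0) :: l3))) := le_mul_of_one_le_left hP0 hhalf
        _ = 2 * ((1 - 1 / (2 * (H : ℝ))) ^ h *
            PE (fun j => bw (o j / (o j + 1))) (fun ξ =>
            ind (∃ M, Ev A (bt ξ) n ℓ r 0 (l1 ++ (B, 0) :: l3) M ∧
              TypL (bt ξ) ℓ D (l1 ++ (B, 0) :: l3)))) := by ring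
        _ ≤ 2 * PE (fun j => bw (o j / (o j + 1))) (fun ξ =>
            ind (∃ M, Ev A (bt ξ) n ℓ r 0 (l1 ++ (B, h) :: l3) M ∧
              TypL (bt ξ) ℓ D (l1 ++ (B, h) :: l3))) :=
            mul_le_mul_of_nonneg_left hs (by norm_num)
        _ ≤ 2 * (2 ^ l2.length * PE (fun j => bw (o j / (o j + 1))) (fun ξ =>
            ind (∃ M, Ev A (bt ξ) n ℓ r 0 (l1 ++ (B, h) :: l2) M ∧
              TypL (bt ξ) ℓ D (l1 ++ (B, h) :: l2)))) :=
            mul_le_mul_of_nonneg_left ih' (by norm_num)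
        _ = _ := by ring
    · have hz : PE (fun j => bw (o j / (o j + 1))) (fun ξ =>
            ind (∃ M, Ev A (bt ξ) n ℓ r 0 (l1 ++ (B, 0) :: l3) M ∧
              TypL (bt ξ) ℓ D (l1 ++ (B, 0) :: l3))) ≤ 0 := by
        apply PE_le_of_le hw
        intro ξ
        rw [ind_of_not]
        rintro ⟨M, hE, -⟩
        exact hBn (NBChain_sep l1 l3 B 0 0 M hE).2.2
      refine le_trans hz (mul_nonneg (by positivity) (PE_nonneg hw fun ξ => ind_nonneg _))

/-- all shifts from `0` to `h` -/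
theorem ev_chain {n : ℕ} (A : ℕ → ℕ) (ℓ r H : ℕ) (hH : 0 < H) (o : Fin n → ℝ)
    (ho : ∀ j, 0 ≤ o j) (om : ℝ) (hom0 : 0 ≤ om)
    (hom : ∀ j, o j ≤ om) (D : ℕ → ℕ)
    (hD : ∀ B, (B + 1) * ℓ ≤ n → (1 - 1 / (2 * (H : ℝ))) * ((D B : ℝ) + H + 1) ≤
      mB o ℓ B - ((D B : ℝ) + H) * om)
    (t : ℕ) (v h : Fin t → ℕ) (hh : ∀ i, h i ≤ H) :
    PE (fun j => bw (o j / (o j + 1))) (fun ξ =>
      ind (∃ M, Ev A (bt ξ) n ℓ r 0 (List.ofFn fun i => (v i, 0)) M ∧
        TypL (bt ξ) ℓ D (List.ofFn fun i => (v i, 0)))) ≤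
    2 ^ t * PE (fun j => bw (o j / (o j + 1))) (fun ξ =>
      ind (∃ M, Ev A (bt ξ) n ℓ r 0 (List.ofFn fun i => (v i, h i)) M)) := by
  have hw : IsW (fun j => bw (o j / (o j + 1))) := by
    apply isW_bw
    · intro j
      exact div_nonneg (ho j) (by linarith [ho j])
    · intro j
      rw [div_le_one (by linarith [ho j])]
      linarith
  have key := NBChain_list A ℓ r H hH o ho om hom0 hom D hD
    (List.ofFn fun i => (v i, h i)) (by
      intro q hq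
      rw [List.mem_ofFn] at hq
      obtain ⟨i, rfl⟩ := hq
      exact hh i) []
  have hmap : (List.ofFn fun i => (v i, h i)).map (fun q : ℕ × ℕ => (q.1, 0)) =
      List.ofFn fun i => (v i, 0) := by
    rw [List.map_ofFn]
    rfl
  rw [hmap, List.length_ofFn] at key
  simp only [List.nil_append] at key
  refine le_trans key (mul_le_mul_of_nonneg_left ?_ (by positivity))
  apply PE_mono hw
  intro ξ
  apply ind_mono
  rintro ⟨M, hM, -⟩
  exact ⟨M, hM⟩

end LCSH
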