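import Pool.Agent.Lib.MP_ae6bb1_pr.NBDefs

/-! Many near columns, or two distant near sites, give separated near blocks
(proof document, section E8). -/

open Finset

namespace LCSH

open Classical in
private noncomputable def NBCount_S (A b : ℕ → ℕ) (n ℓ r s : ℕ) : Finset ℕ :=
  (Finset.range (n + 1)).filter (fun B => s ≤ B ∧
    ∃ x, B * ℓ ≤ x ∧ x < (B + 1) * ℓ ∧ x ≤ n ∧ Mf A b n ≤ Zf A b n x + r)

private theorem NBCount_mem {A b : ℕ → ℕ} {n ℓ r s B : ℕ} :
    B ∈ NBCount_S A b n ℓ r s ↔ B ≤ n ∧ s ≤ B ∧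
      ∃ x, B * ℓ ≤ x ∧ x < (B + 1) * ℓ ∧ x ≤ n ∧ Mf A b n ≤ Zf A b n x + r := by
  classical
  unfold NBCount_S
  rw [Finset.mem_filter, Finset.mem_range, Nat.lt_succ_iff]

private theorem NBCount_sep (A b : ℕ → ℕ) (n ℓ r : ℕ) (t : ℕ) :
    ∀ s, 2 * t + 1 ≤ (NBCount_S A b n ℓ r s).card → Sep A b n ℓ r (Mf A b n) s t := by
  induction t with
  | zero =>
    intro s h
    have hne : (NBCount_S A b n ℓ r s).Nonempty := Finset.card_pos.1 (by omega)
    obtain ⟨B, hB⟩ := hne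
    obtain ⟨-, h1, x, h2, -, h4, h5⟩ := NBCount_mem.1 hB
    exact ⟨x, (Nat.mul_le_mul_right ℓ h1).trans h2, h4, h5⟩
  | succ t ih =>
    intro s h
    have hne : (NBCount_S A b n ℓ r s).Nonempty := Finset.card_pos.1 (by omega)
    set B := (NBCount_S A b n ℓ r s).min' hne with hBd
    have hB : B ∈ NBCount_S A b n ℓ r s := Finset.min'_mem _ hne
    obtain ⟨h0, h1, x, h2, h3, h4, h5⟩ := NBCount_mem.1 hB
    have hsub : NBCount_S A b n ℓ r s ⊆ {B, B + 1} ∪ NBCount_S A b n ℓ r (B + 2) := by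
      intro B' hB'
      have hle : B ≤ B' := Finset.min'_le _ _ hB'
      obtain ⟨k0, k1, k2⟩ := NBCount_mem.1 hB'
      rw [Finset.mem_union, Finset.mem_insert, Finset.mem_singleton]
      by_cases hc : B + 2 ≤ B'
      · exact Or.inr (NBCount_mem.2 ⟨k0, hc, k2⟩)
      · left
        omega
    have hcard := (Finset.card_le_card hsub).trans (Finset.card_union_le _ _)
    have h2c : ({B, B + 1} : Finset ℕ).card ≤ 2 := Finset.card_le_two
    exact ⟨B, h1, ⟨x, h2, h3, h4, h5⟩, ih (B + 2) (by omega)⟩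

theorem sep_of_card (A b : ℕ → ℕ) (n ℓ r t : ℕ) (hℓ : 0 < ℓ) (h : 2 * t * ℓ < NN A b n r) :
    Sep A b n ℓ r (Mf A b n) 0 t := by
  classical
  apply NBCount_sep
  unfold NN at h
  set N := (Finset.range n).filter (fun j => Mf A b n ≤ Vf A b n j + r) with hN
  have h1 : N.card ≤ ℓ * (N.image (fun j => j / ℓ)).card := by
    apply Finset.card_le_mul_card_image
    intro B _
    have h2 : N.filter (fun j => j / ℓ = B) ⊆ Finset.Ico (B * ℓ) ((B + 1) * ℓ) := by
      intro j hj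
      rw [Finset.mem_filter] at hj
      rw [Finset.mem_Ico, ← hj.2]
      constructor
      · exact Nat.div_mul_le_self j ℓ
      · have := Nat.lt_mul_div_succ j hℓ
        rw [mul_comm]
        exact this
    refine (Finset.card_le_card h2).trans ?_
    rw [Nat.card_Ico, add_mul, one_mul, Nat.add_sub_cancel_left]
  have h3 : N.image (fun j => j / ℓ) ⊆ NBCount_S A b n ℓ r 0 := by
    intro B hB
    obtain ⟨j, hj, rfl⟩ := Finset.mem_image.1 hB
    rw [hN, Finset.mem_filter, Finset.mem_range] at hj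
    refine NBCount_mem.2 ⟨(Nat.div_le_self j ℓ).trans hj.1.le, Nat.zero_le _, j,
      Nat.div_mul_le_self j ℓ, ?_, hj.1.le, ?_⟩
    · have := Nat.lt_mul_div_succ j hℓ
      rw [mul_comm]
      exact this
    · have := Vf_le_Zf (A := A) (b := b) (n := n) (j := j)
      omega
  have h4 := Finset.card_le_card h3
  have h5 : 2 * t * ℓ < ℓ * (NBCount_S A b n ℓ r 0).card :=
    (h.trans_le h1).trans_le (Nat.mul_le_mul_left ℓ h4)
  rw [mul_comm (2 * t) ℓ] at h5
  have := Nat.lt_of_mul_lt_mul_left h5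
  omega

theorem sep_of_far (A b : ℕ → ℕ) (n ℓ r w : ℕ) (hℓ : 0 < ℓ) (hw : 3 * ℓ ≤ w)
    (h : Far A b n r w) : Sep A b n ℓ r (Mf A b n) 0 1 := by
  obtain ⟨a, c, hac, ⟨ha1, ha2⟩, ⟨hc1, hc2⟩⟩ := h
  have h1 := Nat.div_mul_le_self a ℓ
  have h2 : a < (a / ℓ + 1) * ℓ := by
    have := Nat.lt_mul_div_succ a hℓ
    rw [mul_comm]
    exact this
  refine ⟨a / ℓ, Nat.zero_le _, ⟨a, h1, h2, ha1, ha2⟩, c, ?_, hc1, hc2⟩
  have e : (a / ℓ + 2) * ℓ = a / ℓ * ℓ + 2 * ℓ := by ring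
  rw [e]
  omega

end LCSH
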