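import Pool.Agent.Lib.MP_ae6bb1_pr.NBInit

/-! Decoding: few lists are compatible with a configuration (proof document, section E5). -/

open Finset

namespace LCSH

/-- a set of natural numbers of diameter at most `d` has at most `d + 1` elements -/
theorem NBDecode_card_diam (S : Finset ℕ) (d : ℕ) (h : ∀ a ∈ S, ∀ b ∈ S, a ≤ b + d) :
    S.card ≤ d + 1 := by
  rcases S.eq_empty_or_nonempty with h0 | h0
  · subst h0
    simp
  · obtain ⟨m, hm, hmin⟩ := S.exists_min_image id h0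
    have hsub : S ⊆ Finset.Ico m (m + (d + 1)) := by
      intro x hx
      rw [Finset.mem_Ico]
      have h1 := hmin x hx
      have h2 := h x hx m hm
      simp only [id] at h1
      omega
    have := Finset.card_le_card hsub
    simpa using this

/-- the information in the head of an event -/
theorem NBDecode_head {A b : ℕ → ℕ} {n ℓ r s B h : ℕ} {l : List (ℕ × ℕ)} {M : ℕ}
    (hE : Ev A b n ℓ r s ((B, h) :: l) M) :
    ∃ K : ℕ, s ≤ B ∧ (B + 2) * ℓ ≤ n ∧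
      (∀ x, s * ℓ ≤ x → x < (B + 2) * ℓ → Zf A b n x ≤ K + h) ∧
      (∃ x, B * ℓ ≤ x ∧ x < (B + 1) * ℓ ∧ K + h ≤ Zf A b n x + r) ∧
      (∀ x, (B + 2) * ℓ ≤ x → x ≤ n → Zf A b n x ≤ K) ∧
      (∃ x, (B + 2) * ℓ ≤ x ∧ x ≤ n ∧ K ≤ Zf A b n x + r) := by
  obtain ⟨h1, h2, h3, ⟨x, hx1, hx2, hx3⟩, h5⟩ := hE
  refine ⟨M + sumh l, h1, h2, ?_, ⟨x, hx1, hx2, ?_⟩, ?_, ?_⟩
  · intro y hy1 hy2
    have := h3 y hy1 hy2
    omega
  · omega
  · intro y hy1 hy2
    exact ev_le A b n ℓ r l (B + 2) M h5 y hy1 hy2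
  · exact ev_ge A b n ℓ r l (B + 2) M h5

open Classical in
theorem decode_card (A b : ℕ → ℕ) (n ℓ r H : ℕ) (hℓ : 0 < ℓ) (t s : ℕ) :
    ((Finset.univ : Finset (Fin t → Fin (n + 1) × Fin (H + 1))).filter (fun v =>
      (∀ i, 2 * r + 1 ≤ ((v i).2 : ℕ)) ∧
      ∃ M, Ev A b n ℓ r s (List.ofFn fun i => (((v i).1 : ℕ), ((v i).2 : ℕ))) M)).card ≤
    (2 * (2 * r + 1)) ^ t := by
  induction t generalizing s with
  | zero =>
    refine le_trans (Finset.card_le_univ _) ?_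
    simp
  | succ t ih =>
    set S := (Finset.univ : Finset (Fin (t + 1) → Fin (n + 1) × Fin (H + 1))).filter (fun v =>
      (∀ i, 2 * r + 1 ≤ ((v i).2 : ℕ)) ∧
      ∃ M, Ev A b n ℓ r s (List.ofFn fun i => (((v i).1 : ℕ), ((v i).2 : ℕ))) M) with hS
    -- the head of an element
    have hhead : ∀ v ∈ S, 2 * r + 1 ≤ ((v 0).2 : ℕ) ∧ ∃ M,
        Ev A b n ℓ r s ((((v 0).1 : ℕ), ((v 0).2 : ℕ)) ::
          List.ofFn fun i : Fin t => (((v i.succ).1 : ℕ), ((v i.succ).2 : ℕ))) M := by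
      intro v hv
      rw [hS, Finset.mem_filter] at hv
      obtain ⟨-, h1, M, h2⟩ := hv
      rw [List.ofFn_succ] at h2
      exact ⟨h1 0, M, h2⟩
    -- the fibres
    have hfib : ∀ q ∈ S.image (fun v => v 0), (S.filter fun v => v 0 = q).card ≤
        (2 * (2 * r + 1)) ^ t := by
      intro q _
      refine le_trans ?_ (ih ((q.1 : ℕ) + 2))
      refine Finset.card_le_card_of_injOn (fun v => fun i : Fin t => v i.succ) ?_ ?_
      · intro v hv
        rw [Finset.mem_coe, Finset.mem_filter] at hv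
        obtain ⟨hv, hq⟩ := hv
        obtain ⟨_, M, hE⟩ := hhead v hv
        rw [hS, Finset.mem_filter] at hv
        rw [Finset.mem_coe, Finset.mem_filter]
        refine ⟨Finset.mem_univ _, fun i => hv.2.1 i.succ, M, ?_⟩
        rw [hq] at hE
        exact hE.2.2.2.2
      · intro v hv w hw hvw
        rw [Finset.mem_coe, Finset.mem_filter] at hv hw
        funext i
        refine Fin.cases ?_ (fun j => ?_) i
        · rw [hv.2, hw.2]
        · exact congrFun hvw j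
    have hcard := Finset.card_le_mul_card_image S _ hfib
    refine le_trans hcard ?_
    rw [pow_succ]
    refine Nat.mul_le_mul_left _ ?_
    -- the heads that occur
    set Q := S.image (fun v => v 0) with hQ
    have hQp : ∀ q ∈ Q, 2 * r + 1 ≤ (q.2 : ℕ) ∧ ∃ K : ℕ, s ≤ (q.1 : ℕ) ∧
        ((q.1 : ℕ) + 2) * ℓ ≤ n ∧
        (∀ x, s * ℓ ≤ x → x < ((q.1 : ℕ) + 2) * ℓ → Zf A b n x ≤ K + q.2) ∧
        (∃ x, (q.1 : ℕ) * ℓ ≤ x ∧ x < ((q.1 : ℕ) + 1) * ℓ ∧ K + q.2 ≤ Zf A b n x + r) ∧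
        (∀ x, ((q.1 : ℕ) + 2) * ℓ ≤ x → x ≤ n → Zf A b n x ≤ K) ∧
        (∃ x, ((q.1 : ℕ) + 2) * ℓ ≤ x ∧ x ≤ n ∧ K ≤ Zf A b n x + r) := by
      intro q hq
      rw [hQ, Finset.mem_image] at hq
      obtain ⟨v, hv, rfl⟩ := hq
      obtain ⟨h1, M, hE⟩ := hhead v hv
      exact ⟨h1, NBDecode_head hE⟩
    -- at most two blocks
    have hB : (Q.image (fun q => (q.1 : ℕ))).card ≤ 1 + 1 := by
      refine NBDecode_card_diam _ 1 ?_
      intro B2 hB2 B1 hB1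
      rw [Finset.mem_image] at hB1 hB2
      obtain ⟨q, hq, rfl⟩ := hB1
      obtain ⟨q2, hq2, rfl⟩ := hB2
      by_contra hcon
      push Not at hcon
      obtain ⟨hr, K, k1, k2, k3, ⟨x, kx1, kx2, kx3⟩, k5, k6⟩ := hQp q hq
      obtain ⟨_, K2, l1, l2, l3, ⟨x2, lx1, lx2, lx3⟩, l5, l6⟩ := hQp q2 hq2
      have e1 : ((q.1 : ℕ) + 2) * ℓ ≤ (q2.1 : ℕ) * ℓ := Nat.mul_le_mul_right _ (by omega)
      have e2 : ((q2.1 : ℕ) + 1) * ℓ ≤ ((q2.1 : ℕ) + 2) * ℓ := Nat.mul_le_mul_right _ (by omega)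
      have e3 : ((q.1 : ℕ) + 1) * ℓ ≤ ((q2.1 : ℕ) + 2) * ℓ := Nat.mul_le_mul_right _ (by omega)
      have e4 : s * ℓ ≤ (q.1 : ℕ) * ℓ := Nat.mul_le_mul_right _ k1
      have f1 := k5 x2 (by omega) (by omega)
      have f2 := l3 x (by omega) (by omega)
      omega
    -- at most `2 r + 1` shifts for every block
    have hH : ∀ B ∈ Q.image (fun q => (q.1 : ℕ)), (Q.filter fun q => (q.1 : ℕ) = B).card ≤
        2 * r + 1 := by
      intro B _
      have hinj : Set.InjOn (fun q : Fin (n + 1) × Fin (H + 1) => (q.2 : ℕ))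
          (Q.filter fun q => (q.1 : ℕ) = B : Finset _) := by
        intro q hq q' hq' hqq
        rw [Finset.mem_coe, Finset.mem_filter] at hq hq'
        refine Prod.ext (Fin.ext ?_) (Fin.ext hqq)
        rw [hq.2, hq'.2]
      rw [← Finset.card_image_of_injOn hinj]
      refine NBDecode_card_diam _ (2 * r) ?_
      intro h1 hh1 h2 hh2
      rw [Finset.mem_image] at hh1 hh2
      obtain ⟨q, hq, rfl⟩ := hh1
      obtain ⟨q2, hq2, rfl⟩ := hh2
      rw [Finset.mem_filter] at hq hq2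
      obtain ⟨_, K, k1, k2, k3, ⟨x, kx1, kx2, kx3⟩, k5, ⟨y, ky1, ky2, ky3⟩⟩ := hQp q hq.1
      obtain ⟨_, K2, l1, l2, l3, ⟨x2, lx1, lx2, lx3⟩, l5, ⟨y2, ly1, ly2, ly3⟩⟩ := hQp q2 hq2.1
      rw [hq.2] at k1 k2 k3 kx1 kx2 k5 ky1
      rw [hq2.2] at l1 l2 l3 lx1 lx2 l5 ly1
      have e1 : (B + 1) * ℓ ≤ (B + 2) * ℓ := Nat.mul_le_mul_right _ (by omega)
      have e4 : s * ℓ ≤ B * ℓ := Nat.mul_le_mul_right _ k1
      have f1 := l3 x (by omega) (by omega)
      have f2 := k5 y2 ly1 ly2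
      omega
    have h1 := Finset.card_le_mul_card_image Q _ hH
    calc Q.card ≤ (2 * r + 1) * (Q.image (fun q => (q.1 : ℕ))).card := h1
      _ ≤ (2 * r + 1) * (1 + 1) := Nat.mul_le_mul_left _ hB
      _ = 2 * (2 * r + 1) := by ring

end LCSH
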