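import Pool.Agent.Lib.MP_ae6bb1_pr.Walk

/-! Definitions for the near maximiser block lemma (proof document, section E1). -/

open Finset

namespace LCSH

/-- total shift of a list of (block, shift) pairs -/
def sumh (l : List (ℕ × ℕ)) : ℕ := (l.map Prod.snd).sum

/-- The event `Ev s l M`: the sites in blocks `≥ s` are organised in parts separated by the
middle blocks `B + 1`, `(B,h) ∈ l`; every part is within `r` of `M` plus the total shift of the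
remaining list, and nothing exceeds these levels. Blocks have length `ℓ`. -/
def Ev (A b : ℕ → ℕ) (n ℓ r : ℕ) : ℕ → List (ℕ × ℕ) → ℕ → Prop
  | s, [], M => (∀ x, s * ℓ ≤ x → x ≤ n → Zf A b n x ≤ M) ∧
      ∃ x, s * ℓ ≤ x ∧ x ≤ n ∧ M ≤ Zf A b n x + r
  | s, (B, h) :: l, M => s ≤ B ∧ (B + 2) * ℓ ≤ n ∧
      (∀ x, s * ℓ ≤ x → x < (B + 2) * ℓ → Zf A b n x ≤ M + (h + sumh l)) ∧
      (∃ x, B * ℓ ≤ x ∧ x < (B + 1) * ℓ ∧ M + (h + sumh l) ≤ Zf A b n x + r) ∧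
      Ev A b n ℓ r (B + 2) l M

/-- `Sep s t`: there are `t + 1` pairwise separated blocks `≥ s` containing sites within `r` of
`M`. -/
def Sep (A b : ℕ → ℕ) (n ℓ r M : ℕ) : ℕ → ℕ → Prop
  | s, 0 => ∃ x, s * ℓ ≤ x ∧ x ≤ n ∧ M ≤ Zf A b n x + r
  | s, t + 1 => ∃ B, s ≤ B ∧ (∃ x, B * ℓ ≤ x ∧ x < (B + 1) * ℓ ∧ x ≤ n ∧ M ≤ Zf A b n x + r) ∧
      Sep A b n ℓ r M (B + 2) t

/-- number of sources in block `B` -/
def SB (b : ℕ → ℕ) (ℓ B : ℕ) : ℕ := ∑ l ∈ Finset.Ico (B * ℓ) ((B + 1) * ℓ), b l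

/-- typical source counts: at most `D (B + 1) + h` sources in the middle block `B + 1` -/
def TypL (b : ℕ → ℕ) (ℓ : ℕ) (D : ℕ → ℕ) (l : List (ℕ × ℕ)) : Prop :=
  ∀ q ∈ l, SB b ℓ (q.1 + 1) ≤ D (q.1 + 1) + q.2

/-- typical source counts for all full blocks -/
def Typ (b : ℕ → ℕ) (n ℓ : ℕ) (D : ℕ → ℕ) : Prop := ∀ B, (B + 1) * ℓ ≤ n → SB b ℓ B ≤ D B

/-- total odds of block `B` -/
noncomputable def mB {n : ℕ} (o : Fin n → ℝ) (ℓ B : ℕ) : ℝ :=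
  ∑ j : Fin n, if B * ℓ ≤ (j : ℕ) ∧ (j : ℕ) < (B + 1) * ℓ then o j else 0

end LCSH
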