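import Pool.Agent.Lib.MP_ae6bb1_pr.NBDefs

/-! Separated near blocks give an event `Ev` (proof document, section E2). -/

open Finset

namespace LCSH

private theorem NBInit_site (A b : ℕ → ℕ) (n ℓ r M : ℕ) (t : ℕ) : ∀ s : ℕ,
    Sep A b n ℓ r M s t → ∃ x, s * ℓ ≤ x ∧ x ≤ n := by
  induction t with
  | zero =>
    rintro s ⟨x, h1, h2, _⟩
    exact ⟨x, h1, h2⟩
  | succ t _ =>
    rintro s ⟨B, h1, ⟨x, h2, _, h4, _⟩, _⟩
    exact ⟨x, (Nat.mul_le_mul_right ℓ h1).trans h2, h4⟩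

private theorem NBInit_sumh {t : ℕ} (v : Fin t → ℕ) :
    sumh (List.ofFn fun i => (v i, 0)) = 0 := by
  unfold sumh
  apply List.sum_eq_zero
  intro x hx
  rw [List.mem_map] at hx
  obtain ⟨q, hq, rfl⟩ := hx
  rw [List.mem_ofFn] at hq
  obtain ⟨i, rfl⟩ := hq
  rfl

theorem ev_of_sep (A b : ℕ → ℕ) (n ℓ r M : ℕ) (hℓ : 0 < ℓ) (hM : ∀ x ≤ n, Zf A b n x ≤ M)
    (s t : ℕ) (h : Sep A b n ℓ r M s t) :
    ∃ v : Fin t → ℕ, (∀ i, v i ≤ n) ∧
      Ev A b n ℓ r s (List.ofFn fun i => (v i, 0)) M := by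
  induction t generalizing s with
  | zero =>
    refine ⟨fun i => i.elim0, fun i => i.elim0, ?_⟩
    rw [List.ofFn_zero]
    exact ⟨fun x _ hx => hM x hx, h⟩
  | succ t ih =>
    obtain ⟨B, h1, ⟨x, h2, h3, h4, h5⟩, h6⟩ := h
    obtain ⟨v, hv, hE⟩ := ih (B + 2) h6
    obtain ⟨x', hx'1, hx'2⟩ := NBInit_site A b n ℓ r M t (B + 2) h6
    refine ⟨Fin.cons B v, fun i => ?_, ?_⟩
    · refine Fin.cases ?_ (fun j => ?_) i
      · rw [Fin.cons_zero]
        exact (Nat.le_mul_of_pos_right B hℓ).trans (h2.trans h4)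
      · rw [Fin.cons_succ]
        exact hv j
    · rw [List.ofFn_succ]
      simp only [Fin.cons_zero, Fin.cons_succ]
      refine ⟨h1, hx'1.trans hx'2, fun y _ hy => ?_, ⟨x, h2, h3, ?_⟩, hE⟩
      · have := hM y (by omega)
        omega
      · rw [NBInit_sumh]
        omega

/-- the level bound contained in an event `Ev` -/
theorem ev_le (A b : ℕ → ℕ) (n ℓ r : ℕ) (l : List (ℕ × ℕ)) (s M : ℕ)
    (h : Ev A b n ℓ r s l M) (x : ℕ) (hx : s * ℓ ≤ x) (hxn : x ≤ n) :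
    Zf A b n x ≤ M + sumh l := by
  induction l generalizing s with
  | nil => exact h.1 x hx hxn
  | cons q l ih =>
    obtain ⟨B, k⟩ := q
    obtain ⟨h1, h2, h3, h4, h5⟩ := h
    have hs : sumh ((B, k) :: l) = k + sumh l := by
      unfold sumh
      rw [List.map_cons, List.sum_cons]
    rw [hs]
    rcases lt_or_ge x ((B + 2) * ℓ) with hlt | hge
    · exact h3 x hx hlt
    · have := ih (B + 2) h5 hge
      omega

/-- some site reaches the level -/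
theorem ev_ge (A b : ℕ → ℕ) (n ℓ r : ℕ) (l : List (ℕ × ℕ)) (s M : ℕ)
    (h : Ev A b n ℓ r s l M) :
    ∃ x, s * ℓ ≤ x ∧ x ≤ n ∧ M + sumh l ≤ Zf A b n x + r := by
  cases l with
  | nil => exact h.2
  | cons q l =>
    obtain ⟨B, k⟩ := q
    obtain ⟨h1, h2, h3, ⟨x, hx1, hx2, hx3⟩, h5⟩ := h
    have hs : sumh ((B, k) :: l) = k + sumh l := by
      unfold sumh
      rw [List.map_cons, List.sum_cons]
    have h6 : s * ℓ ≤ B * ℓ := Nat.mul_le_mul_right ℓ h1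
    have h7 : (B + 1) * ℓ ≤ (B + 2) * ℓ := Nat.mul_le_mul_right ℓ (by omega)
    refine ⟨x, by omega, by omega, ?_⟩
    rw [hs]
    exact hx3

end LCSH
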