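import Pool.Agent.Lib.MP_ae6bb1_pr.PEBasic

/-! Resampling, marginals, products (proof document, section C2). -/

open Finset

namespace LCSH

section
variable {ι β : Type*} [Fintype ι] [DecidableEq ι] [Fintype β]
variable {w : ι → β → ℝ}

private theorem PEProd_upd (w : ι → β → ℝ) (ω : ι → β) (i : ι) (b : β) :
    (∏ j, w j (Function.update ω i b j)) * w i (ω i) = (∏ j, w j (ω j)) * w i b := by
  rw [← Finset.mul_prod_erase univ (fun j => w j (Function.update ω i b j)) (mem_univ i),
    ← Finset.mul_prod_erase univ (fun j => w j (ω j)) (mem_univ i)]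
  have h : ∏ x ∈ univ.erase i, w x (Function.update ω i b x) = ∏ x ∈ univ.erase i, w x (ω x) :=
    prod_congr rfl fun x hx => by rw [Function.update_of_ne (ne_of_mem_erase hx)]
  rw [h, Function.update_self]
  ring

/-- resampling of one coordinate -/
theorem PE_resample (hw : IsW w) (i : ι) (f : (ι → β) → ℝ) :
    PE w f = PE w (fun ω => ∑ b, w i b * f (Function.update ω i b)) := by
  unfold PE
  have h1 : ∑ ω : ι → β, (∏ j, w j (ω j)) * f ω =
      ∑ p : (ι → β) × β, (∏ j, w j (p.1 j)) * w i p.2 * f p.1 := by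
    rw [Fintype.sum_prod_type]
    refine sum_congr rfl fun ω _ => ?_
    simp only
    rw [← Finset.sum_mul, ← Finset.mul_sum, hw.sum_one i, mul_one]
  have h2 : ∑ ω : ι → β, (∏ j, w j (ω j)) * ∑ b, w i b * f (Function.update ω i b) =
      ∑ p : (ι → β) × β, (∏ j, w j (p.1 j)) * w i p.2 * f (Function.update p.1 i p.2) := by
    rw [Fintype.sum_prod_type]
    refine sum_congr rfl fun ω _ => ?_
    simp only
    rw [Finset.mul_sum]
    refine sum_congr rfl fun b _ => ?_
    ring
  rw [h1, h2]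
  have hinv : Function.Involutive
      (fun p : (ι → β) × β => ((Function.update p.1 i p.2, p.1 i) : (ι → β) × β)) := by
    rintro ⟨ω, b⟩
    simp
  rw [← Equiv.sum_comp (hinv.toPerm _)]
  refine sum_congr rfl fun p _ => ?_
  simp only [Function.Involutive.coe_toPerm]
  rw [PEProd_upd]

/-- product functions -/
theorem PE_prod (w : ι → β → ℝ) (g : ι → β → ℝ) :
    PE w (fun ω => ∏ i, g i (ω i)) = ∏ i, ∑ b, w i b * g i b := by
  unfold PE
  rw [Finset.prod_univ_sum, Fintype.piFinset_univ]
  refine sum_congr rfl fun ω _ => ?_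
  rw [← Finset.prod_mul_distrib]

/-- marginals along an injection -/
theorem PE_marginal {κ : Type*} [Fintype κ] [DecidableEq κ] (hw : IsW w) (e : κ → ι)
    (he : Function.Injective e) (f : (κ → β) → ℝ) :
    PE w (fun ω => f (fun k => ω (e k))) = PE (fun k => w (e k)) f := by
  classical
  unfold PE
  obtain ⟨E, hE⟩ : ∃ E : κ ⊕ ↥(Set.range e)ᶜ ≃ ι,
      E = (Equiv.sumCongr (Equiv.ofInjective e he) (Equiv.refl _)).trans
        (Equiv.Set.sumCompl (Set.range e)) := ⟨_, rfl⟩
  have hl : ∀ k, E (Sum.inl k) = e k := fun k => by rw [hE]; simp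
  have hr : ∀ c : ↥(Set.range e)ᶜ, E (Sum.inr c) = c := fun c => by rw [hE]; simp
  obtain ⟨F, hF⟩ : ∃ F : (κ → β) × (↥(Set.range e)ᶜ → β) ≃ (ι → β),
      F = (Equiv.sumArrowEquivProdArrow κ ↥(Set.range e)ᶜ β).symm.trans
        (Equiv.arrowCongr E (Equiv.refl β)) := ⟨_, rfl⟩
  have hFE : ∀ p s, F p (E s) = Sum.elim p.1 p.2 s := fun p s => by
    rw [hF]
    cases s <;> simp only [Equiv.trans_apply, Equiv.arrowCongr_apply, Equiv.coe_refl,
      Function.comp_apply, Equiv.symm_apply_apply, id_eq] <;> rfl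
  rw [← Equiv.sum_comp F, Fintype.sum_prod_type]
  refine sum_congr rfl fun x _ => ?_
  have h1 : ∀ y : ↥(Set.range e)ᶜ → β, (∏ i, w i (F (x, y) i)) =
      (∏ k, w (e k) (x k)) * ∏ c : ↥(Set.range e)ᶜ, w c (y c) := by
    intro y
    rw [← Equiv.prod_comp E, Fintype.prod_sum_type]
    congr 1
    · refine prod_congr rfl fun k _ => ?_
      rw [hFE, hl, Sum.elim_inl]
    · refine prod_congr rfl fun c _ => ?_
      rw [hFE, hr, Sum.elim_inr]
  have h2 : ∀ y : ↥(Set.range e)ᶜ → β, (fun k => F (x, y) (e k)) = x := by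
    intro y
    funext k
    rw [← hl k, hFE, Sum.elim_inl]
  simp_rw [h1, h2]
  rw [← Finset.sum_mul, ← Finset.mul_sum]
  have h3 : ∑ y : ↥(Set.range e)ᶜ → β, ∏ c : ↥(Set.range e)ᶜ, w c (y c) = 1 := by
    have := Finset.prod_univ_sum (fun _ : ↥(Set.range e)ᶜ => (univ : Finset β))
      (fun c b => w (c : ι) b)
    rw [Fintype.piFinset_univ] at this
    rw [← this]
    exact Finset.prod_eq_one fun c _ => hw.sum_one c
  rw [h3, mul_one]

/-- expectation of a function of one coordinate -/
theorem PE_single (hw : IsW w) (i : ι) (g : β → ℝ) :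
    PE w (fun ω => g (ω i)) = ∑ b, w i b * g b := by
  rw [PE_resample hw i]
  simp only [Function.update_self]
  exact PE_const hw _
end

section
variable {β : Type*} [Fintype β]

/-- splitting off the last coordinate -/
theorem PE_snoc {n : ℕ} (w : Fin (n + 1) → β → ℝ) (f : (Fin (n + 1) → β) → ℝ) :
    PE w f = PE (fun i : Fin n => w i.castSucc)
      (fun ω => ∑ b, w (Fin.last n) b * f (Fin.snoc (α := fun _ => β) ω b)) := by
  unfold PE
  rw [← Equiv.sum_comp (Fin.snocEquiv (fun _ : Fin (n + 1) => β)), Fintype.sum_prod_type,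
    Finset.sum_comm]
  refine sum_congr rfl fun ω _ => ?_
  rw [Finset.mul_sum]
  refine sum_congr rfl fun b _ => ?_
  rw [Fin.prod_univ_castSucc]
  simp only [Fin.snocEquiv, Equiv.coe_fn_mk, Fin.snoc_castSucc, Fin.snoc_last]
  ring

/-- splitting off the first coordinate -/
theorem PE_cons {n : ℕ} (w : Fin (n + 1) → β → ℝ) (f : (Fin (n + 1) → β) → ℝ) :
    PE w f = ∑ b, w 0 b * PE (fun i : Fin n => w i.succ)
      (fun ω => f (Fin.cons (α := fun _ => β) b ω)) := by
  unfold PE
  rw [← Equiv.sum_comp (Fin.consEquiv (fun _ : Fin (n + 1) => β)), Fintype.sum_prod_type]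
  refine sum_congr rfl fun b _ => ?_
  rw [Finset.mul_sum]
  refine sum_congr rfl fun ω _ => ?_
  rw [Fin.prod_univ_succ]
  simp only [Fin.consEquiv, Equiv.coe_fn_mk, Fin.cons_zero, Fin.cons_succ]
  ring

/-- two consecutive groups of coordinates (constant weights) -/
theorem PE_append {a b : ℕ} (q : β → ℝ) (f : (Fin (a + b) → β) → ℝ) :
    PE (fun _ : Fin (a + b) => q) f =
      PE (fun _ : Fin a => q) (fun x => PE (fun _ : Fin b => q)
        (fun x' => f (Fin.append x x'))) := by
  unfold PE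
  rw [← Equiv.sum_comp (Fin.appendEquiv a b), Fintype.sum_prod_type]
  refine sum_congr rfl fun x _ => ?_
  rw [Finset.mul_sum]
  refine sum_congr rfl fun y _ => ?_
  rw [Fin.prod_univ_add]
  simp only [Fin.appendEquiv, Equiv.coe_fn_mk, Fin.append_left, Fin.append_right]
  ring
end

end LCSH
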