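import Pool.Agent.Lib.MP_ae6bb1_pr.NBDefs
import Pool.Agent.Lib.MP_ae6bb1_pr.PEProd

/-! Typical source counts (proof document, section E6). -/

open Finset

namespace LCSH

private theorem NBTyp_exp_le {s : ℝ} (hs0 : 0 ≤ s) (hs1 : s ≤ 1) :
    Real.exp s - 1 ≤ s + s ^ 2 := by
  have h := Real.abs_exp_sub_one_sub_id_le (x := s) (by rw [abs_of_nonneg hs0]; exact hs1)
  have h2 := (abs_le.1 h).2
  linarith

private theorem NBTyp_rho {x : ℝ} (hx : 0 ≤ x) : 0 ≤ x / (x + 1) ∧ x / (x + 1) ≤ 1 ∧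
    x / (x + 1) ≤ x := by
  have h1 : 0 < x + 1 := by linarith
  refine ⟨div_nonneg hx h1.le, ?_, ?_⟩
  · rw [div_le_one h1]; linarith
  · rw [div_le_iff₀ h1]; nlinarith

/-- exponential moment of the number of sources in a set of columns -/
theorem bern_mgf {n : ℕ} (o : Fin n → ℝ) (ho : ∀ j, 0 ≤ o j) (S : Finset (Fin n)) (s : ℝ)
    (hs0 : 0 ≤ s) (hs1 : s ≤ 1) :
    PE (fun j => bw (o j / (o j + 1))) (fun ξ =>
      Real.exp (s * ((S.filter (fun j => ξ j = true)).card : ℝ))) ≤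
    Real.exp ((s + s ^ 2) * ∑ j ∈ S, o j) := by
  classical
  have h1 : (fun ξ : Fin n → Bool => Real.exp (s * ((S.filter (fun j => ξ j = true)).card : ℝ)))
      = fun ξ => ∏ j, (fun (j : Fin n) (b : Bool) =>
        if j ∈ S ∧ b = true then Real.exp s else 1) j (ξ j) := by
    funext ξ
    have h2 : (∏ j, (fun (j : Fin n) (b : Bool) =>
        if j ∈ S ∧ b = true then Real.exp s else 1) j (ξ j))
        = ∏ j ∈ S.filter (fun j => ξ j = true), Real.exp s := by
      rw [Finset.prod_ite, Finset.prod_const_one, mul_one]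
      refine Finset.prod_congr ?_ fun _ _ => rfl
      ext j
      simp
    rw [h2, Finset.prod_const, ← Real.exp_nat_mul, mul_comm]
  rw [h1, PE_prod (fun j => bw (o j / (o j + 1))) (fun (j : Fin n) (b : Bool) =>
        if j ∈ S ∧ b = true then Real.exp s else 1), Finset.mul_sum, Real.exp_sum]
  have h3 : (∏ j ∈ S, Real.exp ((s + s ^ 2) * o j))
      = ∏ j, (if j ∈ S then Real.exp ((s + s ^ 2) * o j) else 1) := by
    rw [Finset.prod_ite_mem, Finset.univ_inter]
  rw [h3]
  refine Finset.prod_le_prod (fun j _ => ?_) (fun j _ => ?_)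
  · obtain ⟨hr0, hr1, _⟩ := NBTyp_rho (ho j)
    rw [Fintype.sum_bool]
    have e1 : 0 ≤ (if j ∈ S ∧ true = true then Real.exp s else 1) := by
      split <;> positivity
    have e2 : 0 ≤ (if j ∈ S ∧ false = true then Real.exp s else 1) := by
      split <;> positivity
    have b1 : 0 ≤ bw (o j / (o j + 1)) true := by simpa [bw] using hr0
    have b2 : 0 ≤ bw (o j / (o j + 1)) false := by
      simp only [bw, Bool.false_eq_true, if_false]
      linarith
    exact add_nonneg (mul_nonneg b1 e1) (mul_nonneg b2 e2)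
  · obtain ⟨hr0, hr1, hr2⟩ := NBTyp_rho (ho j)
    rw [Fintype.sum_bool]
    by_cases hj : j ∈ S
    · simp only [bw, hj, true_and, if_true, Bool.false_eq_true, if_false, mul_one]
      have h5 := NBTyp_exp_le hs0 hs1
      have h6 : o j / (o j + 1) * Real.exp s + (1 - o j / (o j + 1))
          ≤ (s + s ^ 2) * o j + 1 := by
        have h7 : o j / (o j + 1) * (Real.exp s - 1) ≤ o j * (s + s ^ 2) := by
          have h8 : 0 ≤ Real.exp s - 1 := by
            have := Real.add_one_le_exp s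
            linarith
          exact mul_le_mul hr2 h5 h8 (ho j)
        nlinarith
      exact h6.trans (Real.add_one_le_exp _)
    · simp only [bw, hj, false_and, if_false, if_true, Bool.false_eq_true, mul_one]
      linarith

private theorem NBTyp_SB {n : ℕ} (ξ : Fin n → Bool) (ℓ B : ℕ) (hB : (B + 1) * ℓ ≤ n) :
    SB (bt ξ) ℓ B = ((Finset.univ.filter
      (fun j : Fin n => B * ℓ ≤ (j : ℕ) ∧ (j : ℕ) < (B + 1) * ℓ)).filter
        (fun j => ξ j = true)).card := by
  classical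
  unfold SB
  rw [Finset.card_filter]
  symm
  have h1 : ∀ j : Fin n, (if ξ j = true then 1 else 0) = bt ξ (j : ℕ) := by
    intro j
    unfold bt
    rw [dif_pos j.2]
    cases ξ j <;> simp
  rw [Finset.sum_congr rfl fun j _ => h1 j]
  refine Finset.sum_bij (fun (j : Fin n) _ => (j : ℕ)) ?_ ?_ ?_ ?_
  · intro j hj
    rw [Finset.mem_filter] at hj
    rw [Finset.mem_Ico]
    exact hj.2
  · intro a _ b _ h
    exact Fin.ext h
  · intro l hl
    rw [Finset.mem_Ico] at hl
    exact ⟨⟨l, lt_of_lt_of_le hl.2 hB⟩, by simpa using hl, rfl⟩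
  · intro j _
    rfl

/-- block counts are rarely much larger than the total odds -/
theorem typ_prob {n : ℕ} (ℓ : ℕ) (hℓ : 0 < ℓ) (o : Fin n → ℝ) (ho : ∀ j, 0 ≤ o j) (lam : ℝ)
    (hlam : 0 ≤ lam) (hm : ∀ B, (B + 1) * ℓ ≤ n → lam ^ 2 ≤ mB o ℓ B) :
    PE (fun j => bw (o j / (o j + 1))) (fun ξ =>
      ind (¬ Typ (bt ξ) n ℓ (fun B => ⌊mB o ℓ B + lam * Real.sqrt (mB o ℓ B)⌋₊))) ≤
    n * Real.exp (-(lam ^ 2 / 4)) := by
  classical
  have hw : IsW (fun j : Fin n => bw (o j / (o j + 1))) :=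
    isW_bw (fun j => (NBTyp_rho (ho j)).1) (fun j => (NBTyp_rho (ho j)).2.1)
  set D : ℕ → ℕ := fun B => ⌊mB o ℓ B + lam * Real.sqrt (mB o ℓ B)⌋₊ with hD
  have h1 : ∀ ξ : Fin n → Bool, ind (¬ Typ (bt ξ) n ℓ D)
      ≤ ∑ B ∈ Finset.range n, ind ((B + 1) * ℓ ≤ n ∧ D B < SB (bt ξ) ℓ B) := by
    intro ξ
    refine le_trans (ind_mono ?_) (ind_exists_le (Finset.range n)
      (fun B => (B + 1) * ℓ ≤ n ∧ D B < SB (bt ξ) ℓ B))
    intro h
    unfold Typ at h
    push Not at h
    obtain ⟨B, hB1, hB2⟩ := h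
    refine ⟨B, ?_, hB1, hB2⟩
    rw [Finset.mem_range]
    have : B + 1 ≤ (B + 1) * ℓ := Nat.le_mul_of_pos_right _ hℓ
    omega
  refine le_trans (PE_mono hw h1) ?_
  rw [PE_sum]
  have h2 : ∀ B ∈ Finset.range n, PE (fun j => bw (o j / (o j + 1)))
      (fun ξ => ind ((B + 1) * ℓ ≤ n ∧ D B < SB (bt ξ) ℓ B)) ≤ Real.exp (-(lam ^ 2 / 4)) := by
    intro B _
    by_cases hB : (B + 1) * ℓ ≤ n
    swap
    · refine PE_le_of_le hw fun ξ => ?_
      rw [ind_of_not (by tauto)]
      exact (Real.exp_pos _).le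
    have hm' := hm B hB
    set m := mB o ℓ B with hmdef
    have hm0 : 0 ≤ m := le_trans (sq_nonneg lam) hm'
    set S : Finset (Fin n) := Finset.univ.filter
      (fun j : Fin n => B * ℓ ≤ (j : ℕ) ∧ (j : ℕ) < (B + 1) * ℓ) with hS
    have hsum : ∑ j ∈ S, o j = m := by
      rw [hS, Finset.sum_filter, hmdef]
      rfl
    rcases hm0.lt_or_eq with hmp | hmz
    swap
    · have hl0 : lam = 0 := by
        have : lam ^ 2 ≤ 0 := by rw [hmz]; exact hm'
        exact pow_eq_zero_iff (two_ne_zero) |>.1 (le_antisymm this (sq_nonneg _))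
      rw [hl0]
      simp only [ne_eq, OfNat.ofNat_ne_zero, not_false_eq_true, zero_pow, zero_div, neg_zero,
        Real.exp_zero]
      exact PE_le_of_le hw fun ξ => ind_le_one _
    · have hq : 0 < Real.sqrt m := Real.sqrt_pos.2 hmp
      have hqq : Real.sqrt m * Real.sqrt m = m := Real.mul_self_sqrt hm0
      have hlq : lam ≤ Real.sqrt m := by
        rw [← Real.sqrt_sq hlam]
        exact Real.sqrt_le_sqrt hm'
      set s : ℝ := lam / (2 * Real.sqrt m) with hs
      have hs0 : 0 ≤ s := by positivity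
      have hs1 : s ≤ 1 := by
        rw [hs, div_le_one (by positivity)]
        linarith
      have h3 : ∀ ξ : Fin n → Bool, ind ((B + 1) * ℓ ≤ n ∧ D B < SB (bt ξ) ℓ B)
          ≤ ind (m + lam * Real.sqrt m ≤ ((S.filter (fun j => ξ j = true)).card : ℝ)) := by
        intro ξ
        refine ind_mono ?_
        rintro ⟨_, h⟩
        rw [NBTyp_SB ξ ℓ B hB] at h
        exact (Nat.lt_of_floor_lt h).le
      refine le_trans (PE_mono hw h3) ?_
      refine le_trans (PE_exp_markov hw _ hs0) ?_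
      have h4 := bern_mgf o ho S s hs0 hs1
      rw [hsum] at h4
      refine le_trans (mul_le_mul_of_nonneg_left h4 (Real.exp_pos _).le) ?_
      rw [← Real.exp_add]
      refine le_of_eq ?_
      congr 1
      have h5 : s * Real.sqrt m = lam / 2 := by
        rw [hs]
        field_simp
      have h6 : s ^ 2 * m = lam ^ 2 / 4 := by
        calc s ^ 2 * m = (s * Real.sqrt m) ^ 2 := by rw [mul_pow, sq (Real.sqrt m), hqq]
          _ = lam ^ 2 / 4 := by rw [h5]; ring
      have h7 : s * (lam * Real.sqrt m) = lam ^ 2 / 2 := by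
        calc s * (lam * Real.sqrt m) = lam * (s * Real.sqrt m) := by ring
          _ = lam ^ 2 / 2 := by rw [h5]; ring
      calc -(s * (m + lam * Real.sqrt m)) + (s + s ^ 2) * m
          = -(s * (lam * Real.sqrt m)) + s ^ 2 * m := by ring
        _ = -(lam ^ 2 / 4) := by rw [h6, h7]; ring
  refine le_trans (Finset.sum_le_sum h2) ?_
  rw [Finset.sum_const, Finset.card_range, nsmul_eq_mul]

/-- the arithmetic condition of the switching argument -/
theorem ratio_cond (H : ℕ) (hH : 0 < H) (m om lam : ℝ) (hlam : 1 ≤ lam)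
    (hHm : 6 * lam * H ≤ Real.sqrt m) (hom : 0 ≤ om) (hHo : 12 * H * om ≤ 1) :
    (1 - 1 / (2 * (H : ℝ))) * ((⌊m + lam * Real.sqrt m⌋₊ : ℝ) + H + 1) ≤
      m - ((⌊m + lam * Real.sqrt m⌋₊ : ℝ) + H) * om := by
  have hH1 : (1 : ℝ) ≤ H := by exact_mod_cast hH
  have hH0 : (0 : ℝ) < H := by linarith
  set q := Real.sqrt m with hq
  have hq6 : 6 * (H : ℝ) ≤ q := by
    have : 6 * (H : ℝ) ≤ 6 * lam * H := by nlinarith
    linarith
  have hq0 : 0 < q := by linarith
  have hm0 : 0 < m := Real.sqrt_pos.1 hq0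
  have hqm : q ^ 2 = m := Real.sq_sqrt hm0.le
  have hX0 : 0 ≤ m + lam * q := by positivity
  set X0 : ℝ := (⌊m + lam * q⌋₊ : ℝ) with hX0def
  have hXle : X0 ≤ m + lam * q := Nat.floor_le hX0
  have hXnn : 0 ≤ X0 := Nat.cast_nonneg _
  have hcoef : 0 ≤ 1 - 1 / (2 * (H : ℝ)) := by
    have : 1 / (2 * (H : ℝ)) ≤ 1 := by
      rw [div_le_one (by positivity)]
      linarith
    linarith
  have h1 : (1 - 1 / (2 * (H : ℝ))) * (X0 + H + 1)
      ≤ (1 - 1 / (2 * (H : ℝ))) * (m + lam * q + H + 1) :=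
    mul_le_mul_of_nonneg_left (by linarith) hcoef
  have h2 : m - (m + lam * q + H) * om ≤ m - (X0 + H) * om := by
    have : (X0 + H) * om ≤ (m + lam * q + H) * om := mul_le_mul_of_nonneg_right (by linarith) hom
    linarith
  refine h1.trans (le_trans ?_ h2)
  -- multiply by 2H
  have h3 : lam * q * (6 * H) ≤ q ^ 2 := by nlinarith
  have h4 : (H : ℝ) * H * 36 ≤ q ^ 2 := by nlinarith
  have h5 : om ≤ 1 / (12 * H) := by
    rw [le_div_iff₀ (by positivity)]
    linarith
  have h6 : m + lam * q + H ≤ 6 / 5 * q ^ 2 := by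
    have h61 : lam * q * 6 ≤ q ^ 2 := by nlinarith [mul_nonneg (by linarith : (0:ℝ) ≤ lam) hq0.le]
    have h62 : (H : ℝ) * 36 ≤ q ^ 2 := by nlinarith
    rw [← hqm]
    nlinarith
  have h7 : (m + lam * q + H) * om ≤ 6 / 5 * q ^ 2 * (1 / (12 * H)) :=
    mul_le_mul h6 h5 hom (by positivity)
  have h8 : (1 - 1 / (2 * (H : ℝ))) * (m + lam * q + H + 1)
      ≤ m + lam * q + H + 1 - m / (2 * H) := by
    have h81 : m / (2 * H) ≤ (m + lam * q + H + 1) / (2 * H) := by
      apply div_le_div_of_nonneg_right _ (by positivity)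
      nlinarith [mul_nonneg (by linarith : (0:ℝ) ≤ lam) hq0.le]
    have h82 : (1 - 1 / (2 * (H : ℝ))) * (m + lam * q + H + 1)
        = m + lam * q + H + 1 - (m + lam * q + H + 1) / (2 * H) := by ring
    rw [h82]
    linarith
  have h9 : lam * q ≤ q ^ 2 / (6 * H) := by
    rw [le_div_iff₀ (by positivity)]
    exact h3
  have h10 : (H : ℝ) + 1 ≤ q ^ 2 / (18 * H) := by
    rw [le_div_iff₀ (by positivity)]
    nlinarith
  have h11 : m / (2 * H) = q ^ 2 / H * (1 / 2) := by
    rw [← hqm]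
    field_simp
  have h12 : q ^ 2 / (6 * H) = q ^ 2 / H * (1 / 6) := by field_simp
  have h13 : q ^ 2 / (18 * H) = q ^ 2 / H * (1 / 18) := by field_simp
  have h14 : 6 / 5 * q ^ 2 * (1 / (12 * H)) = q ^ 2 / H * (1 / 10) := by
    field_simp
    norm_num
  have h15 : 0 ≤ q ^ 2 / H := by positivity
  rw [h12] at h9
  rw [h13] at h10
  rw [h14] at h7
  rw [h11] at h8
  nlinarith

end LCSH
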