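import Pool.Agent.Lib.MP_ae6bb1_pr.NBChain
import Pool.Agent.Lib.MP_ae6bb1_pr.NBDecode
import Pool.Agent.Lib.MP_ae6bb1_pr.NBTyp

/-! The near maximiser block lemma (proof document, section E7). -/

open Finset

namespace LCSH

theorem NBMain_isW {n : ℕ} (o : Fin n → ℝ) (ho : ∀ j, 0 ≤ o j) :
    IsW (fun j : Fin n => bw (o j / (o j + 1))) := by
  refine isW_bw (r := fun j => o j / (o j + 1)) (fun j => ?_) (fun j => ?_)
  · have := ho j
    positivity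
  · have := ho j
    rw [div_le_one (by linarith)]
    linarith

theorem NBMain_ev_full (A b : ℕ → ℕ) (n ℓ r : ℕ) (l : List (ℕ × ℕ)) (s M : ℕ)
    (h : Ev A b n ℓ r s l M) : ∀ q ∈ l, (q.1 + 2) * ℓ ≤ n := by
  induction l generalizing s with
  | nil => intro q hq; simp at hq
  | cons p l ih =>
    obtain ⟨B, k⟩ := p
    obtain ⟨h1, h2, h3, h4, h5⟩ := h
    intro q hq
    rcases List.mem_cons.1 hq with rfl | hq
    · exact h2
    · exact ih _ h5 q hq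

theorem NBMain_sep (A b : ℕ → ℕ) (n ℓ r : ℕ) (hℓ : 0 < ℓ) (D : ℕ → ℕ) (t : ℕ)
    (h : Sep A b n ℓ r (Mf A b n) 0 t ∧ Typ b n ℓ D) :
    ∃ v ∈ (Finset.univ : Finset (Fin t → Fin (n + 1))),
      ∃ M, Ev A b n ℓ r 0 (List.ofFn fun i => ((v i : ℕ), 0)) M ∧
        TypL b ℓ D (List.ofFn fun i => ((v i : ℕ), 0)) := by
  obtain ⟨v, hv, hE⟩ := ev_of_sep A b n ℓ r (Mf A b n) hℓ (fun x hx => Zf_le_Mf hx) 0 t h.1
  refine ⟨fun i => ⟨v i, Nat.lt_succ_of_le (hv i)⟩, Finset.mem_univ _, Mf A b n, hE, ?_⟩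
  intro q hq
  have h1 := NBMain_ev_full A b n ℓ r _ 0 _ hE q hq
  exact (h.2 (q.1 + 1) h1).trans (Nat.le_add_right _ _)

theorem NBMain_card (H r : ℕ) (hH : 2 * r + 1 ≤ H) (t : ℕ) :
    ((((Finset.univ : Finset (Fin t → Fin (H + 1))).filter
      (fun h => ∀ i, 2 * r + 1 ≤ (h i : ℕ))).card : ℕ) : ℝ) = ((H : ℝ) - 2 * r) ^ t := by
  have h1 : (Finset.univ : Finset (Fin t → Fin (H + 1))).filter
      (fun h => ∀ i, 2 * r + 1 ≤ (h i : ℕ)) =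
      Fintype.piFinset (fun _ : Fin t => Finset.Ici (⟨2 * r + 1, by omega⟩ : Fin (H + 1))) := by
    ext h
    simp only [Finset.mem_filter, Finset.mem_univ, true_and, Fintype.mem_piFinset,
      Finset.mem_Ici, Fin.le_def]
  rw [h1, Fintype.card_piFinset]
  simp only [Fin.card_Ici, Finset.prod_const, Finset.card_univ, Fintype.card_fin]
  push_cast
  congr 1
  have h3 : ((H - 2 * r : ℕ) : ℝ) = (H : ℝ) - 2 * r := by
    rw [Nat.cast_sub (by omega)]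
    push_cast
    ring
  exact h3

theorem NBMain_sum_ind {κ : Type*} (s : Finset κ) (E : κ → Prop) [DecidablePred E] :
    ∑ k ∈ s, ind (E k) = ((s.filter E).card : ℝ) := by
  rw [Finset.card_filter]
  push_cast
  refine Finset.sum_congr rfl fun k _ => ?_
  split_ifs with h
  · exact ind_of h
  · exact ind_of_not h

theorem NBMain_count (A b : ℕ → ℕ) (n ℓ r H : ℕ) (hℓ : 0 < ℓ) (t : ℕ) :
    ∑ v : Fin t → Fin (n + 1), ∑ h ∈ (Finset.univ : Finset (Fin t → Fin (H + 1))).filter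
      (fun h => ∀ i, 2 * r + 1 ≤ (h i : ℕ)),
      ind (∃ M, Ev A b n ℓ r 0 (List.ofFn fun i => ((v i : ℕ), (h i : ℕ))) M) ≤
    (2 * (2 * (r : ℝ) + 1)) ^ t := by
  classical
  rw [← Finset.sum_product', NBMain_sum_ind _
    (fun p : (Fin t → Fin (n + 1)) × (Fin t → Fin (H + 1)) =>
      ∃ M, Ev A b n ℓ r 0 (List.ofFn fun i => ((p.1 i : ℕ), (p.2 i : ℕ))) M)]
  have h1 := decode_card A b n ℓ r H hℓ t 0
  have h2 : (((Finset.univ : Finset (Fin t → Fin (n + 1))) ×ˢ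
      (Finset.univ : Finset (Fin t → Fin (H + 1))).filter
      (fun h => ∀ i, 2 * r + 1 ≤ (h i : ℕ))).filter
      (fun p : (Fin t → Fin (n + 1)) × (Fin t → Fin (H + 1)) =>
      ∃ M, Ev A b n ℓ r 0 (List.ofFn fun i => ((p.1 i : ℕ), (p.2 i : ℕ))) M)).card ≤
      (2 * (2 * r + 1)) ^ t := by
    refine le_trans ?_ h1
    refine Finset.card_le_card_of_injOn (fun p i => (p.1 i, p.2 i)) ?_ ?_
    · intro p hp
      have hp' := Finset.mem_coe.1 hp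
      rw [Finset.mem_filter, Finset.mem_product, Finset.mem_filter] at hp'
      rw [Finset.mem_coe, Finset.mem_filter]
      exact ⟨Finset.mem_univ _, hp'.1.2.2, hp'.2⟩
    · intro p _ q _ hpq
      have h3 : ∀ i, (p.1 i, p.2 i) = (q.1 i, q.2 i) := fun i => congrFun hpq i
      refine Prod.ext (funext fun i => ?_) (funext fun i => ?_)
      · exact (Prod.ext_iff.1 (h3 i)).1
      · exact (Prod.ext_iff.1 (h3 i)).2
  exact_mod_cast h2

theorem nb_typical {n : ℕ} (A : ℕ → ℕ) (ℓ r H : ℕ) (hℓ : 0 < ℓ) (hH : 2 * r + 1 ≤ H)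
    (o : Fin n → ℝ) (ho : ∀ j, 0 ≤ o j) (om : ℝ) (hom0 : 0 ≤ om)
    (hom : ∀ j, o j ≤ om) (D : ℕ → ℕ)
    (hD : ∀ B, (B + 1) * ℓ ≤ n → (1 - 1 / (2 * (H : ℝ))) * ((D B : ℝ) + H + 1) ≤
      mB o ℓ B - ((D B : ℝ) + H) * om) (t : ℕ) :
    PE (fun j => bw (o j / (o j + 1))) (fun ξ =>
      ind (Sep A (bt ξ) n ℓ r (Mf A (bt ξ) n) 0 t ∧ Typ (bt ξ) n ℓ D)) ≤
    (4 * (2 * r + 1) / ((H : ℝ) - 2 * r)) ^ t := by
  classical
  have hw := NBMain_isW o ho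
  set w : Fin n → Bool → ℝ := fun j => bw (o j / (o j + 1)) with hwdef
  set Pv : (Fin t → Fin (n + 1)) → ℝ := fun v => PE w (fun ξ =>
    ind (∃ M, Ev A (bt ξ) n ℓ r 0 (List.ofFn fun i => ((v i : ℕ), 0)) M ∧
      TypL (bt ξ) ℓ D (List.ofFn fun i => ((v i : ℕ), 0)))) with hPv
  have h1 : PE w (fun ξ => ind (Sep A (bt ξ) n ℓ r (Mf A (bt ξ) n) 0 t ∧ Typ (bt ξ) n ℓ D)) ≤
      ∑ v, Pv v := by
    have e1 := PE_sum w (Finset.univ : Finset (Fin t → Fin (n + 1))) (fun v ξ =>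
      ind (∃ M, Ev A (bt ξ) n ℓ r 0 (List.ofFn fun i => ((v i : ℕ), 0)) M ∧
        TypL (bt ξ) ℓ D (List.ofFn fun i => ((v i : ℕ), 0))))
    rw [hPv, ← e1]
    refine PE_mono hw fun ξ => ?_
    exact (ind_mono (NBMain_sep A (bt ξ) n ℓ r hℓ D t)).trans (ind_exists_le _ _)
  set HH : Finset (Fin t → Fin (H + 1)) := (Finset.univ : Finset (Fin t → Fin (H + 1))).filter
      (fun h => ∀ i, 2 * r + 1 ≤ (h i : ℕ)) with hHH
  have hcard : (HH.card : ℝ) = ((H : ℝ) - 2 * r) ^ t := NBMain_card H r hH t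
  have h2 : (HH.card : ℝ) * ∑ v, Pv v ≤ 2 ^ t * (2 * (2 * (r : ℝ) + 1)) ^ t := by
    have e1 : (HH.card : ℝ) * ∑ v, Pv v = ∑ v, ∑ _h ∈ HH, Pv v := by
      rw [Finset.mul_sum]
      refine Finset.sum_congr rfl fun v _ => ?_
      rw [Finset.sum_const, nsmul_eq_mul]
    rw [e1]
    have e2 : ∀ v : Fin t → Fin (n + 1), ∀ h : Fin t → Fin (H + 1), Pv v ≤
        2 ^ t * PE w (fun ξ =>
          ind (∃ M, Ev A (bt ξ) n ℓ r 0 (List.ofFn fun i => ((v i : ℕ), (h i : ℕ))) M)) := by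
      intro v h
      exact ev_chain A ℓ r H (by omega) o ho om hom0 hom D hD t (fun i => (v i : ℕ))
        (fun i => (h i : ℕ)) (fun i => Nat.lt_succ_iff.1 (h i).2)
    calc ∑ v, ∑ _h ∈ HH, Pv v ≤ ∑ v : Fin t → Fin (n + 1), ∑ h ∈ HH, 2 ^ t * PE w (fun ξ =>
          ind (∃ M, Ev A (bt ξ) n ℓ r 0 (List.ofFn fun i => ((v i : ℕ), (h i : ℕ))) M)) :=
          Finset.sum_le_sum fun v _ => Finset.sum_le_sum fun h _ => e2 v h
      _ = 2 ^ t * PE w (fun ξ => ∑ v : Fin t → Fin (n + 1), ∑ h ∈ HH,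
          ind (∃ M, Ev A (bt ξ) n ℓ r 0 (List.ofFn fun i => ((v i : ℕ), (h i : ℕ))) M)) := by
          rw [PE_sum w (Finset.univ : Finset (Fin t → Fin (n + 1))) (fun v ξ => ∑ h ∈ HH,
            ind (∃ M, Ev A (bt ξ) n ℓ r 0 (List.ofFn fun i => ((v i : ℕ), (h i : ℕ))) M)),
            Finset.mul_sum]
          refine Finset.sum_congr rfl fun v _ => ?_
          rw [PE_sum w HH (fun h ξ =>
            ind (∃ M, Ev A (bt ξ) n ℓ r 0 (List.ofFn fun i => ((v i : ℕ), (h i : ℕ))) M)),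
            Finset.mul_sum]
      _ ≤ 2 ^ t * (2 * (2 * (r : ℝ) + 1)) ^ t := by
          refine mul_le_mul_of_nonneg_left ?_ (by positivity)
          exact PE_le_of_le hw fun ξ => NBMain_count A (bt ξ) n ℓ r H hℓ t
  have hpos : (0 : ℝ) < (H : ℝ) - 2 * r := by
    have : ((2 * r + 1 : ℕ) : ℝ) ≤ H := by exact_mod_cast hH
    push_cast at this
    linarith
  rw [hcard] at h2
  refine h1.trans ?_
  rw [div_pow, le_div_iff₀ (pow_pos hpos t), mul_comm]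
  refine h2.trans (le_of_eq ?_)
  rw [← mul_pow]
  congr 1
  ring

/-- conditional form: all full blocks have odds at least `mm` -/
theorem nb_main {n : ℕ} (A : ℕ → ℕ) (ℓ r H : ℕ) (hℓ : 0 < ℓ) (hH : 2 * r + 1 ≤ H)
    (o : Fin n → ℝ) (ho : ∀ j, 0 ≤ o j) (om : ℝ) (hom0 : 0 ≤ om)
    (hom : ∀ j, o j ≤ om) (mm lam : ℝ)
    (hlam : 1 ≤ lam) (hm : ∀ B, (B + 1) * ℓ ≤ n → mm ≤ mB o ℓ B)
    (hHm : 6 * lam * H ≤ Real.sqrt mm) (hHo : 12 * H * om ≤ 1) (t : ℕ) :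
    PE (fun j => bw (o j / (o j + 1))) (fun ξ =>
      ind (Sep A (bt ξ) n ℓ r (Mf A (bt ξ) n) 0 t)) ≤
    (4 * (2 * r + 1) / ((H : ℝ) - 2 * r)) ^ t + n * Real.exp (-(lam ^ 2 / 4)) := by
  have hw := NBMain_isW o ho
  have hH0 : 0 < H := by omega
  have hH1 : (1 : ℝ) ≤ H := by exact_mod_cast hH0
  have hlam0 : 0 < lam := by linarith
  have hlm : lam ^ 2 ≤ mm := by
    have h1 : 6 * lam ≤ 6 * lam * H := by nlinarith
    have h2 : lam ≤ Real.sqrt mm := by linarith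
    have h3 : 0 < Real.sqrt mm := by linarith
    have h4 : 0 < mm := Real.sqrt_pos.1 h3
    calc lam ^ 2 ≤ Real.sqrt mm ^ 2 := pow_le_pow_left₀ hlam0.le h2 2
      _ = mm := Real.sq_sqrt h4.le
  set D : ℕ → ℕ := fun B => ⌊mB o ℓ B + lam * Real.sqrt (mB o ℓ B)⌋₊ with hDdef
  have h1 := nb_typical A ℓ r H hℓ hH o ho om hom0 hom D (fun B hB =>
    ratio_cond H hH0 (mB o ℓ B) om lam hlam
      (hHm.trans (Real.sqrt_le_sqrt (hm B hB))) hom0 hHo) t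
  have h2 := typ_prob ℓ hℓ o ho lam hlam0.le (fun B hB => hlm.trans (hm B hB))
  have h3 : PE (fun j => bw (o j / (o j + 1))) (fun ξ =>
      ind (Sep A (bt ξ) n ℓ r (Mf A (bt ξ) n) 0 t)) ≤
      PE (fun j => bw (o j / (o j + 1))) (fun ξ =>
        ind (Sep A (bt ξ) n ℓ r (Mf A (bt ξ) n) 0 t ∧ Typ (bt ξ) n ℓ D)) +
      PE (fun j => bw (o j / (o j + 1))) (fun ξ => ind (¬ Typ (bt ξ) n ℓ D)) := by
    rw [← PE_add]
    refine PE_mono hw fun ξ => ?_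
    refine (ind_mono (F := (Sep A (bt ξ) n ℓ r (Mf A (bt ξ) n) 0 t ∧ Typ (bt ξ) n ℓ D) ∨
      ¬ Typ (bt ξ) n ℓ D) ?_).trans (ind_or_le _ _)
    intro h
    by_cases hT : Typ (bt ξ) n ℓ D
    · exact Or.inl ⟨h, hT⟩
    · exact Or.inr hT
  linarith

end LCSH
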