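import Pool.Agent.Lib.MP_ae6bb1_pr.NBMain
import Pool.Agent.Lib.MP_ae6bb1_pr.NBCount
import Pool.Agent.Lib.MP_ae6bb1_pr.GoodProb

/-! The near maximiser block lemma in the random environment (proof document, section E9). -/

open Finset

namespace LCSH

variable {α : Type*} [Fintype α] [DecidableEq α] (L : Law α) {θ : ℝ} {T n : ℕ}

theorem NBRandom_exp {x : ℝ} (hx : 0 ≤ x) : Real.exp (-x) ≤ 1 - x + x ^ 2 / 2 := by
  have h1 := Real.quadratic_le_exp_of_nonneg hx
  have h2 : 0 < 1 + x + x ^ 2 / 2 := by positivity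
  have h3 : Real.exp (-x) * Real.exp x = 1 := by rw [← Real.exp_add, neg_add_cancel, Real.exp_zero]
  have h4 : Real.exp (-x) * (1 + x + x ^ 2 / 2) ≤ 1 :=
    (mul_le_mul_of_nonneg_left h1 (Real.exp_pos _).le).trans h3.le
  have h5 : 1 ≤ (1 - x + x ^ 2 / 2) * (1 + x + x ^ 2 / 2) := by
    have : (1 - x + x ^ 2 / 2) * (1 + x + x ^ 2 / 2) = 1 + (x ^ 2) ^ 2 / 4 := by ring
    rw [this]
    have := sq_nonneg (x ^ 2)
    linarith
  exact le_of_mul_le_mul_right (h4.trans h5) h2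

/-- one letter -/
theorem NBRandom_one (hθ : 0 < θ) :
    ∑ a, L.p a * Real.exp (-(θ / (2 * L.et) * (L.u a / θ))) ≤
      Real.exp (-(3 * L.sg / (8 * L.et))) := by
  have he := et_pos L
  have hs := sg_pos L
  have h1 : ∀ a, L.p a * Real.exp (-(θ / (2 * L.et) * (L.u a / θ))) ≤
      L.p a - L.p a * L.u a / (2 * L.et) + L.p a * L.u a / (8 * L.et) := by
    intro a
    have hu := u_nonneg L a
    have hue := u_le_et L a
    have hp := L.nonneg a
    have e1 : θ / (2 * L.et) * (L.u a / θ) = L.u a / (2 * L.et) := by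
      field_simp
    rw [e1]
    have h2 : 0 ≤ L.u a / (2 * L.et) := by positivity
    have h3 := mul_le_mul_of_nonneg_left (NBRandom_exp h2) hp
    have h4 : (L.u a / (2 * L.et)) ^ 2 / 2 ≤ L.u a / (8 * L.et) := by
      have e2 : (L.u a / (2 * L.et)) ^ 2 / 2 = L.u a / (8 * L.et) * (L.u a / L.et) := by
        field_simp
        ring
      rw [e2]
      have h5 : L.u a / L.et ≤ 1 := by rw [div_le_one he]; exact hue
      have h6 : 0 ≤ L.u a / (8 * L.et) := by positivity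
      calc L.u a / (8 * L.et) * (L.u a / L.et) ≤ L.u a / (8 * L.et) * 1 :=
            mul_le_mul_of_nonneg_left h5 h6
        _ = _ := mul_one _
    have h5 := mul_le_mul_of_nonneg_left h4 hp
    calc L.p a * Real.exp (-(L.u a / (2 * L.et)))
        ≤ L.p a * (1 - L.u a / (2 * L.et) + (L.u a / (2 * L.et)) ^ 2 / 2) := h3
      _ = L.p a - L.p a * (L.u a / (2 * L.et)) + L.p a * ((L.u a / (2 * L.et)) ^ 2 / 2) := by ring
      _ ≤ L.p a - L.p a * (L.u a / (2 * L.et)) + L.p a * (L.u a / (8 * L.et)) := by linarith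
      _ = _ := by rw [mul_div_assoc, mul_div_assoc]
  calc ∑ a, L.p a * Real.exp (-(θ / (2 * L.et) * (L.u a / θ)))
      ≤ ∑ a, (L.p a - L.p a * L.u a / (2 * L.et) + L.p a * L.u a / (8 * L.et)) :=
        Finset.sum_le_sum fun a _ => h1 a
    _ = 1 - L.sg / (2 * L.et) + L.sg / (8 * L.et) := by
        rw [Finset.sum_add_distrib, Finset.sum_sub_distrib, L.sum_one, ← Finset.sum_div,
          ← Finset.sum_div, sum_p_u]
    _ = -(3 * L.sg / (8 * L.et)) + 1 := by
        field_simp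
        ring
    _ ≤ _ := Real.add_one_le_exp _

/-- number of columns of a full block -/
theorem NBRandom_card (ℓ B : ℕ) (hB : (B + 1) * ℓ ≤ n) {K : ℝ} :
    (∏ j : Fin n, if B * ℓ ≤ (j : ℕ) ∧ (j : ℕ) < (B + 1) * ℓ then K else 1) = K ^ ℓ := by
  rw [Fin.prod_univ_eq_prod_range (fun j : ℕ => if B * ℓ ≤ j ∧ j < (B + 1) * ℓ then K else 1) n,
    ← Finset.prod_filter, Finset.prod_const]
  congr 1
  have h1 : (Finset.range n).filter (fun j => B * ℓ ≤ j ∧ j < (B + 1) * ℓ) =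
      Finset.Ico (B * ℓ) ((B + 1) * ℓ) := by
    ext j
    rw [Finset.mem_filter, Finset.mem_range, Finset.mem_Ico]
    constructor
    · exact fun h => h.2
    · exact fun h => ⟨lt_of_lt_of_le h.2 hB, h⟩
  rw [h1, Nat.card_Ico, add_mul, one_mul, Nat.add_sub_cancel_left]

/-- one full block -/
theorem NBRandom_block (hθ : 0 < θ) (ℓ B : ℕ) (hB : (B + 1) * ℓ ≤ n) :
    PE (fun _ : Fin n => L.p) (fun y => ind (mB (fun j => L.u (y j) / θ) ℓ B ≤
      ℓ * L.sg / (2 * θ))) ≤ Real.exp (-(ℓ * L.sg / (8 * L.et))) := by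
  have he := et_pos L
  have hs := sg_pos L
  have hw : IsW (fun _ : Fin n => L.p) := isW_law L
  have hs0 : 0 ≤ θ / (2 * L.et) := by positivity
  refine (PE_exp_markov' hw (fun y => mB (fun j => L.u (y j) / θ) ℓ B) (c := ℓ * L.sg / (2 * θ))
    hs0).trans ?_
  have e1 : ∀ y : Fin n → α, Real.exp (-(θ / (2 * L.et) * mB (fun j => L.u (y j) / θ) ℓ B)) =
      ∏ j : Fin n, (fun (j : Fin n) (a : α) =>
        Real.exp (-(θ / (2 * L.et) * (if B * ℓ ≤ (j : ℕ) ∧ (j : ℕ) < (B + 1) * ℓ then L.u a / θ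
          else 0)))) j (y j) := by
    intro y
    rw [← Real.exp_sum]
    congr 1
    unfold mB
    rw [Finset.mul_sum, Finset.sum_neg_distrib]
  have e2 : PE (fun _ : Fin n => L.p) (fun y =>
      Real.exp (-(θ / (2 * L.et) * mB (fun j => L.u (y j) / θ) ℓ B))) =
      ∏ j : Fin n, ∑ a, L.p a * Real.exp (-(θ / (2 * L.et) *
        (if B * ℓ ≤ (j : ℕ) ∧ (j : ℕ) < (B + 1) * ℓ then L.u a / θ else 0))) := by
    rw [← PE_prod]
    congr 1
    funext y
    exact e1 y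
  have h1 : ∀ j : Fin n, ∑ a, L.p a * Real.exp (-(θ / (2 * L.et) *
        (if B * ℓ ≤ (j : ℕ) ∧ (j : ℕ) < (B + 1) * ℓ then L.u a / θ else 0))) ≤
      (if B * ℓ ≤ (j : ℕ) ∧ (j : ℕ) < (B + 1) * ℓ then
        Real.exp (-(3 * L.sg / (8 * L.et))) else 1) := by
    intro j
    split_ifs with hj
    · exact NBRandom_one L hθ
    · simp only [mul_zero, neg_zero, Real.exp_zero, mul_one]
      exact L.sum_one.le
  have h2 : PE (fun _ : Fin n => L.p) (fun y =>
      Real.exp (-(θ / (2 * L.et) * mB (fun j => L.u (y j) / θ) ℓ B))) ≤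
      Real.exp (-(3 * L.sg / (8 * L.et))) ^ ℓ := by
    rw [e2, ← NBRandom_card ℓ B hB]
    refine Finset.prod_le_prod (fun j _ => ?_) fun j _ => h1 j
    exact Finset.sum_nonneg fun a _ => mul_nonneg (L.nonneg a) (Real.exp_pos _).le
  calc Real.exp (θ / (2 * L.et) * (ℓ * L.sg / (2 * θ))) * PE (fun _ : Fin n => L.p) (fun y =>
        Real.exp (-(θ / (2 * L.et) * mB (fun j => L.u (y j) / θ) ℓ B)))
      ≤ Real.exp (θ / (2 * L.et) * (ℓ * L.sg / (2 * θ))) *
          Real.exp (-(3 * L.sg / (8 * L.et))) ^ ℓ :=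
        mul_le_mul_of_nonneg_left h2 (Real.exp_pos _).le
    _ = Real.exp (-(ℓ * L.sg / (8 * L.et))) := by
        rw [← Real.exp_nat_mul, ← Real.exp_add]
        congr 1
        field_simp
        ring

/-- all full blocks have total odds at least half of their mean, with high probability -/
theorem odds_prob (hθ : 0 < θ) (ℓ : ℕ) (hℓ : 0 < ℓ) :
    PE (fun _ : Fin n => L.p) (fun y => ind (¬ ∀ B, (B + 1) * ℓ ≤ n →
      ℓ * L.sg / (2 * θ) ≤ mB (fun j => L.u (y j) / θ) ℓ B)) ≤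
    n * Real.exp (-(ℓ * L.sg / (8 * L.et))) := by
  classical
  have hw : IsW (fun _ : Fin n => L.p) := isW_law L
  have h1 : ∀ y : Fin n → α, ind (¬ ∀ B, (B + 1) * ℓ ≤ n →
      ℓ * L.sg / (2 * θ) ≤ mB (fun j => L.u (y j) / θ) ℓ B) ≤
      ∑ B ∈ (Finset.range n).filter (fun B => (B + 1) * ℓ ≤ n),
        ind (mB (fun j => L.u (y j) / θ) ℓ B ≤ ℓ * L.sg / (2 * θ)) := by
    intro y
    refine (ind_mono ?_).trans (ind_exists_le _ _)
    intro h
    push Not at h
    obtain ⟨B, hB, hlt⟩ := h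
    refine ⟨B, Finset.mem_filter.2 ⟨Finset.mem_range.2 ?_, hB⟩, hlt.le⟩
    calc B < B + 1 := Nat.lt_succ_self B
      _ = (B + 1) * 1 := (mul_one _).symm
      _ ≤ (B + 1) * ℓ := Nat.mul_le_mul_left _ hℓ
      _ ≤ n := hB
  calc PE (fun _ : Fin n => L.p) (fun y => ind (¬ ∀ B, (B + 1) * ℓ ≤ n →
        ℓ * L.sg / (2 * θ) ≤ mB (fun j => L.u (y j) / θ) ℓ B))
      ≤ PE (fun _ : Fin n => L.p) (fun y =>
          ∑ B ∈ (Finset.range n).filter (fun B => (B + 1) * ℓ ≤ n),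
            ind (mB (fun j => L.u (y j) / θ) ℓ B ≤ ℓ * L.sg / (2 * θ))) := PE_mono hw h1
    _ = ∑ B ∈ (Finset.range n).filter (fun B => (B + 1) * ℓ ≤ n),
          PE (fun _ : Fin n => L.p) (fun y =>
            ind (mB (fun j => L.u (y j) / θ) ℓ B ≤ ℓ * L.sg / (2 * θ))) := PE_sum _ _ _
    _ ≤ ∑ _B ∈ (Finset.range n).filter (fun B => (B + 1) * ℓ ≤ n),
          Real.exp (-(ℓ * L.sg / (8 * L.et))) :=
        Finset.sum_le_sum fun B hB => NBRandom_block L hθ ℓ B (Finset.mem_filter.1 hB).2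
    _ = (((Finset.range n).filter (fun B => (B + 1) * ℓ ≤ n)).card : ℝ) *
          Real.exp (-(ℓ * L.sg / (8 * L.et))) := by
        rw [Finset.sum_const, nsmul_eq_mul]
    _ ≤ _ := by
        refine mul_le_mul_of_nonneg_right ?_ (Real.exp_pos _).le
        have h2 := Finset.card_filter_le (Finset.range n) (fun B => (B + 1) * ℓ ≤ n)
        rw [Finset.card_range] at h2
        exact_mod_cast h2

theorem EE_sep (hθ : 0 < θ) (ℓ H t : ℕ) (lam : ℝ) (hℓ : 0 < ℓ) (hH : 11 ≤ H) (hlam : 1 ≤ lam)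
    (hHm : 6 * lam * H ≤ Real.sqrt (ℓ * L.sg / (2 * θ))) (hHo : 12 * H * (L.et / θ) ≤ 1) :
    EE L θ T n (fun x y ξ =>
      ind (Sep (prof (rl x y) T) (bt ξ) n ℓ 5 (Mf (prof (rl x y) T) (bt ξ) n) 0 t)) ≤
    (44 / ((H : ℝ) - 10)) ^ t + n * Real.exp (-(lam ^ 2 / 4)) +
      n * Real.exp (-(ℓ * L.sg / (8 * L.et))) := by
  have he := et_pos L
  have hH' : (11 : ℝ) ≤ H := by exact_mod_cast hH
  have hw : IsW (fun _ : Fin n => L.p) := isW_law L
  have hb0 : 0 ≤ (44 / ((H : ℝ) - 10)) ^ t + n * Real.exp (-(lam ^ 2 / 4)) := by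
    have h1 : 0 ≤ 44 / ((H : ℝ) - 10) := div_nonneg (by norm_num) (by linarith)
    have h2 : 0 ≤ (n : ℝ) * Real.exp (-(lam ^ 2 / 4)) :=
      mul_nonneg (Nat.cast_nonneg _) (Real.exp_pos _).le
    have := pow_nonneg h1 t
    linarith
  have hxy : ∀ (x : Fin T → α) (y : Fin n → α),
      PE (fun j : Fin n => bw (L.rho θ (y j))) (fun ξ =>
        ind (Sep (prof (rl x y) T) (bt ξ) n ℓ 5 (Mf (prof (rl x y) T) (bt ξ) n) 0 t)) ≤
      ((44 / ((H : ℝ) - 10)) ^ t + n * Real.exp (-(lam ^ 2 / 4))) +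
        ind (¬ ∀ B, (B + 1) * ℓ ≤ n →
          ℓ * L.sg / (2 * θ) ≤ mB (fun j => L.u (y j) / θ) ℓ B) := by
    intro x y
    have hwy : IsW (fun j : Fin n => bw (L.rho θ (y j))) := isW_rho L hθ y
    by_cases hg : ∀ B, (B + 1) * ℓ ≤ n →
        ℓ * L.sg / (2 * θ) ≤ mB (fun j => L.u (y j) / θ) ℓ B
    · rw [ind_of_not (not_not.2 hg), add_zero]
      have h1 := nb_main (n := n) (prof (rl x y) T) ℓ 5 H hℓ (by omega)
        (fun j => L.u (y j) / θ) (fun j => div_nonneg (u_nonneg L _) hθ.le) (L.et / θ)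
        (div_nonneg he.le hθ.le) (fun j => div_le_div_of_nonneg_right (u_le_et L _) hθ.le)
        (ℓ * L.sg / (2 * θ)) lam hlam hg hHm hHo t
      have e1 : (fun j : Fin n => bw (L.rho θ (y j))) =
          fun j : Fin n => bw (L.u (y j) / θ / (L.u (y j) / θ + 1)) := by
        funext j
        rw [rho_eq L θ hθ]
      rw [e1]
      refine h1.trans (le_of_eq ?_)
      congr 2
      push_cast
      norm_num
    · rw [ind_of hg]
      have h1 := PE_le_of_le hwy (f := fun ξ =>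
        ind (Sep (prof (rl x y) T) (bt ξ) n ℓ 5 (Mf (prof (rl x y) T) (bt ξ) n) 0 t)) (c := 1)
        (fun ξ => ind_le_one _)
      linarith
  have hx : ∀ x : Fin T → α, PE (fun _ : Fin n => L.p) (fun y =>
      PE (fun j : Fin n => bw (L.rho θ (y j))) (fun ξ =>
        ind (Sep (prof (rl x y) T) (bt ξ) n ℓ 5 (Mf (prof (rl x y) T) (bt ξ) n) 0 t))) ≤
      (44 / ((H : ℝ) - 10)) ^ t + n * Real.exp (-(lam ^ 2 / 4)) +
        n * Real.exp (-(ℓ * L.sg / (8 * L.et))) := by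
    intro x
    refine (PE_mono hw (hxy x)).trans ?_
    rw [PE_add, PE_const hw]
    have := odds_prob L (n := n) hθ ℓ hℓ
    linarith
  have _ := hb0
  exact PE_le_of_le (isW_law L) hx

end LCSH
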