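import Pool.Agent.Lib.MP_ae6bb1_pr.NBDefs
import Pool.Agent.Lib.MP_ae6bb1_pr.PEProd

/-! Adding a source in a middle block (proof document, section E3). -/

open Finset

namespace LCSH

/-- the values to the left of the new source rise by one -/
private theorem NBSwitch_left {A b b' : ℕ → ℕ} {n j x : ℕ}
    (hb' : ∀ l, b' l = if l = j then b l + 1 else b l) (hjn : j < n) (hx : x ≤ j) :
    Zf A b' n x = Zf A b n x + 1 := by
  unfold Zf Wt
  have h1 : ∑ l ∈ Finset.Ico x n, b' l = ∑ l ∈ Finset.Ico x n, (b l + if l = j then 1 else 0) :=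
    Finset.sum_congr rfl fun l _ => by
      rw [hb' l]
      split_ifs <;> simp
  rw [h1, Finset.sum_add_distrib, Finset.sum_ite_eq', if_pos (Finset.mem_Ico.2 ⟨hx, hjn⟩)]
  rfl

/-- the values to the right of the new source do not change -/
private theorem NBSwitch_right {A b b' : ℕ → ℕ} {n j x : ℕ}
    (hb' : ∀ l, b' l = if l = j then b l + 1 else b l) (hx : j < x) :
    Zf A b' n x = Zf A b n x := by
  unfold Zf Wt
  congr 1
  refine Finset.sum_congr rfl fun l hl => ?_
  rw [hb' l, if_neg]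
  have h := (Finset.mem_Ico.1 hl).1
  omega

private theorem NBSwitch_congr {A b b' : ℕ → ℕ} {n ℓ r M : ℕ} (l : List (ℕ × ℕ)) :
    ∀ s, (∀ x, s * ℓ ≤ x → Zf A b' n x = Zf A b n x) → Ev A b n ℓ r s l M →
      Ev A b' n ℓ r s l M := by
  induction l with
  | nil =>
    intro s h hE
    obtain ⟨h1, x, h2, h3, h4⟩ := hE
    refine ⟨fun x hx hxn => ?_, x, h2, h3, ?_⟩
    · rw [h x hx]
      exact h1 x hx hxn
    · rw [h x h2]
      exact h4
  | cons q l ih =>
    obtain ⟨B, t⟩ := q
    intro s h hE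
    obtain ⟨h1, h2, h3, ⟨x, h4, h5, h6⟩, h7⟩ := hE
    have hsB : s * ℓ ≤ B * ℓ := Nat.mul_le_mul_right ℓ h1
    have hsB2 : B * ℓ ≤ (B + 2) * ℓ := Nat.mul_le_mul_right ℓ (by omega)
    refine ⟨h1, h2, fun x hx hxB => ?_, ⟨x, h4, h5, ?_⟩, ih _ (fun x hx => h x (by omega)) h7⟩
    · rw [h x hx]
      exact h3 x hx hxB
    · rw [h x (by omega)]
      exact h6

private theorem NBSwitch_head {A b : ℕ → ℕ} {n ℓ r M B h : ℕ} {l2 : List (ℕ × ℕ)}
    (l1 : List (ℕ × ℕ)) : ∀ s, Ev A b n ℓ r s (l1 ++ (B, h) :: l2) M → s ≤ B ∧ (B + 2) * ℓ ≤ n := by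
  induction l1 with
  | nil =>
    intro s hE
    exact ⟨hE.1, hE.2.1⟩
  | cons q l ih =>
    obtain ⟨B', t⟩ := q
    intro s hE
    obtain ⟨h1, h2, h3, h4, h5⟩ := hE
    have h6 := ih _ h5
    exact ⟨by omega, h6.2⟩

private theorem NBSwitch_sumh (l1 l2 : List (ℕ × ℕ)) (B h : ℕ) :
    sumh (l1 ++ (B, h + 1) :: l2) = sumh (l1 ++ (B, h) :: l2) + 1 := by
  simp only [sumh, List.map_append, List.map_cons, List.sum_append, List.sum_cons]
  omega

/-- effect of one additional source in column `j` on the events -/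
theorem ev_switch (A b b' : ℕ → ℕ) (n ℓ r : ℕ) (l1 l2 : List (ℕ × ℕ)) (B h s M j : ℕ)
    (hb' : ∀ l, b' l = if l = j then b l + 1 else b l) (hj : (B + 1) * ℓ ≤ j)
    (hj' : j < (B + 2) * ℓ) (hE : Ev A b n ℓ r s (l1 ++ (B, h) :: l2) M) :
    Ev A b' n ℓ r s (l1 ++ (B, h + 1) :: l2) M := by
  have hjn : j < n := hj'.trans_le (NBSwitch_head l1 s hE).2
  have hup : ∀ x, Zf A b' n x ≤ Zf A b n x + 1 := fun x => by
    rcases le_or_gt x j with hx | hx
    · rw [NBSwitch_left hb' hjn hx]
    · rw [NBSwitch_right hb' hx]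
      omega
  induction l1 generalizing s with
  | nil =>
    obtain ⟨h1, h2, h3, ⟨x, h4, h5, h6⟩, h7⟩ := hE
    refine ⟨h1, h2, fun x hx hxB => ?_, ⟨x, h4, h5, ?_⟩,
      NBSwitch_congr _ _ (fun x hx => NBSwitch_right hb' (by omega)) h7⟩
    · have h8 := hup x
      have h9 := h3 x hx hxB
      omega
    · rw [NBSwitch_left hb' hjn (by omega)]
      omega
  | cons q l ih =>
    obtain ⟨B', t⟩ := q
    obtain ⟨h1, h2, h3, ⟨x, h4, h5, h6⟩, h7⟩ := hE
    have h8 := (NBSwitch_head l _ h7).1
    have h9 : (B' + 1) * ℓ ≤ (B + 1) * ℓ := Nat.mul_le_mul_right ℓ (by omega)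
    have h10 : sumh (List.append l ((B, h + 1) :: l2)) = sumh (List.append l ((B, h) :: l2)) + 1 :=
      NBSwitch_sumh l l2 B h
    refine ⟨h1, h2, fun x hx hxB => ?_, ⟨x, h4, h5, ?_⟩, ih _ h7⟩
    · have h11 := hup x
      have h12 := h3 x hx hxB
      omega
    · rw [NBSwitch_left hb' hjn (by omega)]
      omega

/-- weights of the configuration with one more source -/
private theorem NBSwitch_weight {n : ℕ} (o : Fin n → ℝ) (ho : ∀ j, 0 ≤ o j) (ξ : Fin n → Bool)
    (j : Fin n) (hj : ξ j = false) :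
    ∏ i, bw (o i / (o i + 1)) (Function.update ξ j true i)
      = o j * ∏ i, bw (o i / (o i + 1)) (ξ i) := by
  rw [← Finset.mul_prod_erase Finset.univ _ (Finset.mem_univ j),
    ← Finset.mul_prod_erase Finset.univ (fun i => bw (o i / (o i + 1)) (ξ i))
      (Finset.mem_univ j), ← mul_assoc]
  have h1 : ∏ i ∈ Finset.univ.erase j, bw (o i / (o i + 1)) (Function.update ξ j true i)
      = ∏ i ∈ Finset.univ.erase j, bw (o i / (o i + 1)) (ξ i) :=
    Finset.prod_congr rfl fun i hi => by
      rw [Function.update_of_ne (Finset.ne_of_mem_erase hi)]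
  rw [h1]
  congr 1
  rw [Function.update_self, hj]
  have h2 := ho j
  have h3 : o j + 1 ≠ 0 := by positivity
  simp only [bw, if_true, Bool.false_eq_true, if_false]
  field_simp
  ring

private theorem NBSwitch_bij {n : ℕ} (o : Fin n → ℝ) (ho : ∀ j, 0 ≤ o j)
    (E : (Fin n → Bool) → Prop) (j : Fin n) :
    ∑ ξ : Fin n → Bool, (∏ i, bw (o i / (o i + 1)) (ξ i)) *
      ((if ξ j = false then o j else 0) * ind (E ξ))
    = ∑ ξ : Fin n → Bool, (∏ i, bw (o i / (o i + 1)) (ξ i)) *
      (if ξ j = true then ind (E (Function.update ξ j false)) else 0) := by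
  have hinv : Function.Involutive fun ξ : Fin n → Bool => Function.update ξ j (!ξ j) := by
    intro ξ
    simp only [Function.update_self, Bool.not_not, Function.update_idem, Function.update_eq_self]
  rw [← Equiv.sum_comp hinv.toPerm fun ξ : Fin n → Bool =>
    (∏ i, bw (o i / (o i + 1)) (ξ i)) *
      (if ξ j = true then ind (E (Function.update ξ j false)) else 0)]
  refine Finset.sum_congr rfl fun ξ _ => ?_
  simp only [Function.Involutive.coe_toPerm, Function.update_self, Function.update_idem]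
  cases hξ : ξ j with
  | false =>
    rw [if_pos rfl, Bool.not_false, if_pos rfl, NBSwitch_weight o ho ξ j hξ]
    have h1 : Function.update ξ j false = ξ := by
      rw [← hξ]
      exact Function.update_eq_self j ξ
    rw [h1]
    ring
  | true => simp

/-- one-step switching inequality -/
theorem switch_step {n : ℕ} (o : Fin n → ℝ) (ho : ∀ j, 0 ≤ o j) (om : ℝ) (hom0 : 0 ≤ om)
    (hom : ∀ j, o j ≤ om)
    (S : Finset (Fin n)) (E E' : (Fin n → Bool) → Prop) (D : ℕ)
    (hE : ∀ ξ, E ξ → (S.filter (fun j => ξ j = true)).card ≤ D)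
    (hsw : ∀ ξ, E ξ → ∀ j ∈ S, ξ j = false → E' (Function.update ξ j true)) :
    ((∑ j ∈ S, o j) - D * om) * PE (fun j => bw (o j / (o j + 1))) (fun ξ => ind (E ξ)) ≤
      (D + 1) * PE (fun j => bw (o j / (o j + 1))) (fun ξ => ind (E' ξ)) := by
  have hw : IsW (fun j : Fin n => bw (o j / (o j + 1))) :=
    isW_bw (fun j => div_nonneg (ho j) (by have := ho j; linarith))
      (fun j => (div_le_one (by have := ho j; linarith)).2 (by linarith))
  have hW : ∀ ξ : Fin n → Bool, 0 ≤ ∏ i, bw (o i / (o i + 1)) (ξ i) := fun ξ =>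
    Finset.prod_nonneg fun i _ => hw.nonneg i (ξ i)
  -- pointwise lower bound
  have hA : ∀ ξ, ((∑ j ∈ S, o j) - D * om) * ind (E ξ)
      ≤ ∑ j ∈ S, (if ξ j = false then o j else 0) * ind (E ξ) := by
    intro ξ
    by_cases h : E ξ
    · rw [ind_of h, mul_one]
      have h1 : ∑ j ∈ S, (if ξ j = false then o j else 0) * (1 : ℝ)
          = ∑ j ∈ S, o j - ∑ j ∈ S.filter (fun j => ξ j = true), o j := by
        rw [Finset.sum_filter, ← Finset.sum_sub_distrib]
        refine Finset.sum_congr rfl fun j _ => ?_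
        cases ξ j <;> simp
      rw [h1]
      have h2 : ∑ j ∈ S.filter (fun j => ξ j = true), o j
          ≤ (S.filter (fun j => ξ j = true)).card * om := by
        rw [← nsmul_eq_mul]
        exact Finset.sum_le_card_nsmul _ _ _ fun j _ => hom j
      have h3 : ((S.filter (fun j => ξ j = true)).card : ℝ) * om ≤ D * om :=
        mul_le_mul_of_nonneg_right (by exact_mod_cast hE ξ h) hom0
      linarith
    · rw [ind_of_not h, mul_zero]
      exact (Finset.sum_eq_zero fun j _ => mul_zero _).ge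
  -- pointwise upper bound
  have hC : ∀ ξ, ∑ j ∈ S, (if ξ j = true then ind (E (Function.update ξ j false)) else 0)
      ≤ ((D : ℝ) + 1) * ind (E' ξ) := by
    intro ξ
    by_cases h : ∃ j ∈ S, ξ j = true ∧ E (Function.update ξ j false)
    · obtain ⟨j0, hj0, hξ, hE0⟩ := h
      have h1 : E' ξ := by
        have h2 := hsw _ hE0 j0 hj0 (Function.update_self _ _ _)
        rw [Function.update_idem, ← hξ, Function.update_eq_self] at h2
        exact h2
      rw [ind_of h1, mul_one]
      have h3 : ∑ j ∈ S, (if ξ j = true then ind (E (Function.update ξ j false)) else 0)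
          ≤ ∑ j ∈ S, (if ξ j = true then (1 : ℝ) else 0) := by
        refine Finset.sum_le_sum fun j _ => ?_
        split_ifs
        · exact ind_le_one _
        · exact le_rfl
      refine h3.trans ?_
      rw [← Finset.sum_filter, Finset.sum_const, nsmul_eq_mul, mul_one]
      have h4 : S.filter (fun j => ξ j = true)
          ⊆ insert j0 (S.filter (fun j => Function.update ξ j0 false j = true)) := by
        intro j hj
        rw [Finset.mem_filter] at hj
        rw [Finset.mem_insert, Finset.mem_filter]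
        by_cases hjj : j = j0
        · exact Or.inl hjj
        · refine Or.inr ⟨hj.1, ?_⟩
          rw [Function.update_of_ne hjj]
          exact hj.2
      have h5 := (Finset.card_le_card h4).trans (Finset.card_insert_le _ _)
      have h6 := hE _ hE0
      have h7 : (S.filter (fun j => ξ j = true)).card ≤ D + 1 := by omega
      exact_mod_cast h7
    · have h1 : ∑ j ∈ S, (if ξ j = true then ind (E (Function.update ξ j false)) else 0) = 0 := by
        refine Finset.sum_eq_zero fun j hj => ?_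
        split_ifs with hξ
        · exact ind_of_not fun hEj => h ⟨j, hj, hξ, hEj⟩
        · rfl
      rw [h1]
      exact mul_nonneg (by positivity) (ind_nonneg _)
  unfold PE
  calc ((∑ j ∈ S, o j) - D * om) *
        ∑ ξ : Fin n → Bool, (∏ i, bw (o i / (o i + 1)) (ξ i)) * ind (E ξ)
      = ∑ ξ : Fin n → Bool, (∏ i, bw (o i / (o i + 1)) (ξ i)) *
          (((∑ j ∈ S, o j) - D * om) * ind (E ξ)) := by
        rw [Finset.mul_sum]
        exact Finset.sum_congr rfl fun ξ _ => by ring
    _ ≤ ∑ ξ : Fin n → Bool, (∏ i, bw (o i / (o i + 1)) (ξ i)) *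
          ∑ j ∈ S, (if ξ j = false then o j else 0) * ind (E ξ) :=
        Finset.sum_le_sum fun ξ _ => mul_le_mul_of_nonneg_left (hA ξ) (hW ξ)
    _ = ∑ j ∈ S, ∑ ξ : Fin n → Bool, (∏ i, bw (o i / (o i + 1)) (ξ i)) *
          ((if ξ j = false then o j else 0) * ind (E ξ)) := by
        rw [Finset.sum_comm]
        exact Finset.sum_congr rfl fun ξ _ => Finset.mul_sum _ _ _
    _ = ∑ j ∈ S, ∑ ξ : Fin n → Bool, (∏ i, bw (o i / (o i + 1)) (ξ i)) *
          (if ξ j = true then ind (E (Function.update ξ j false)) else 0) :=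
        Finset.sum_congr rfl fun j _ => NBSwitch_bij o ho E j
    _ = ∑ ξ : Fin n → Bool, (∏ i, bw (o i / (o i + 1)) (ξ i)) *
          ∑ j ∈ S, (if ξ j = true then ind (E (Function.update ξ j false)) else 0) := by
        rw [Finset.sum_comm]
        exact Finset.sum_congr rfl fun ξ _ => (Finset.mul_sum _ _ _).symm
    _ ≤ ∑ ξ : Fin n → Bool, (∏ i, bw (o i / (o i + 1)) (ξ i)) *
          (((D : ℝ) + 1) * ind (E' ξ)) :=
        Finset.sum_le_sum fun ξ _ => mul_le_mul_of_nonneg_left (hC ξ) (hW ξ)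
    _ = ((D : ℝ) + 1) *
        ∑ ξ : Fin n → Bool, (∏ i, bw (o i / (o i + 1)) (ξ i)) * ind (E' ξ) := by
        rw [Finset.mul_sum]
        exact Finset.sum_congr rfl fun ξ _ => by ring

end LCSH
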