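import Pool.Agent.Lib.MP_ae6bb1_pr.NearTail

/-! Moments of the number of near columns (proof document, section E11). -/

open Finset

namespace LCSH

theorem NearMom_NN_le (A b : ℕ → ℕ) (n r : ℕ) : NN A b n r ≤ n := by
  classical
  unfold NN
  refine (Finset.card_filter_le _ _).trans ?_
  rw [Finset.card_range]

/-- pointwise split at a level `K` -/
theorem NearMom_pt (A b : ℕ → ℕ) (n r k : ℕ) {K : ℝ} (hK : 0 ≤ K) :
    (NN A b n r : ℝ) ^ k ≤ K ^ k + (n : ℝ) ^ k * ind (K < (NN A b n r : ℝ)) := by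
  have h0 : (0 : ℝ) ≤ (NN A b n r : ℝ) := Nat.cast_nonneg _
  have h1 : (NN A b n r : ℝ) ≤ n := by exact_mod_cast NearMom_NN_le A b n r
  by_cases h : K < (NN A b n r : ℝ)
  · rw [ind_of h, mul_one]
    have h2 := pow_le_pow_left₀ h0 h1 k
    have h3 : 0 ≤ K ^ k := pow_nonneg hK k
    linarith
  · rw [ind_of_not h, mul_zero, add_zero]
    exact pow_le_pow_left₀ h0 (not_lt.1 h) k

section
variable {α : Type} [Fintype α] [DecidableEq α] {L : Law α} {θ : ℝ} {T n : ℕ}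

theorem NearMom_theta (hR : Reg L θ T n) : 0 < θ := by
  have := hR.hθ
  linarith

theorem NearMom_n_mul (hR : Reg L θ T n) {k : ℕ} (hk : k ≤ 3) :
    (n : ℝ) ^ k * L.sg ^ 40 ≤ L.sg ^ 10 := by
  have hs := sg_pos L
  have hs1 := sg_le_one L
  have h1 : (n : ℝ) ≤ (1 / L.sg) ^ 10 := hR.hn'
  have h2 : (n : ℝ) ^ k ≤ ((1 / L.sg) ^ 10) ^ k := pow_le_pow_left₀ (Nat.cast_nonneg _) h1 k
  have h3 : ((1 / L.sg) ^ 10) ^ k ≤ ((1 / L.sg) ^ 10) ^ 3 := by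
    refine pow_le_pow_right₀ ?_ hk
    exact one_le_pow₀ (by rw [le_div_iff₀ hs]; linarith)
  have h4 : ((1 / L.sg) ^ 10) ^ 3 * L.sg ^ 40 = L.sg ^ 10 := by
    have h5 : L.sg ≠ 0 := hs.ne'
    field_simp
  calc (n : ℝ) ^ k * L.sg ^ 40 ≤ ((1 / L.sg) ^ 10) ^ 3 * L.sg ^ 40 :=
        mul_le_mul_of_nonneg_right (h2.trans h3) (pow_nonneg hs.le _)
    _ = _ := h4

theorem NearMom_moment {C0 : ℝ} (hC0 : 1 ≤ C0) (hR : Reg L θ T n)
    (ht : EE L θ T n (fun x y ξ => ind (C0 * L.Lam ^ 2 / L.sg <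
      (NN (prof (rl x y) T) (bt ξ) n 5 : ℝ))) ≤ L.sg ^ 40) {k : ℕ} (hk : k ≤ 3) :
    EE L θ T n (fun x y ξ => (NN (prof (rl x y) T) (bt ξ) n 5 : ℝ) ^ k) ≤
      (C0 ^ k + 1) * (L.Lam ^ 2) ^ k / L.sg ^ k := by
  have hs := sg_pos L
  have hs1 := sg_le_one L
  have hL := one_le_Lam L
  have hθ := NearMom_theta hR
  have hK : 0 ≤ C0 * L.Lam ^ 2 / L.sg := by positivity
  have h1 : EE L θ T n (fun x y ξ => (NN (prof (rl x y) T) (bt ξ) n 5 : ℝ) ^ k) ≤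
      (C0 * L.Lam ^ 2 / L.sg) ^ k + (n : ℝ) ^ k * L.sg ^ 40 := by
    calc EE L θ T n (fun x y ξ => (NN (prof (rl x y) T) (bt ξ) n 5 : ℝ) ^ k)
        ≤ EE L θ T n (fun x y ξ => (C0 * L.Lam ^ 2 / L.sg) ^ k + (n : ℝ) ^ k *
            ind (C0 * L.Lam ^ 2 / L.sg < (NN (prof (rl x y) T) (bt ξ) n 5 : ℝ))) :=
          EE_mono L hθ fun x y ξ => NearMom_pt _ _ _ _ _ hK
      _ = (C0 * L.Lam ^ 2 / L.sg) ^ k + (n : ℝ) ^ k * EE L θ T n (fun x y ξ =>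
            ind (C0 * L.Lam ^ 2 / L.sg < (NN (prof (rl x y) T) (bt ξ) n 5 : ℝ))) := by
          rw [EE_add, EE_const L hθ, EE_const_mul]
      _ ≤ _ := by
          have := mul_le_mul_of_nonneg_left ht (pow_nonneg (Nat.cast_nonneg n : (0 : ℝ) ≤ n) k)
          linarith
  have h2 := NearMom_n_mul hR hk
  have h3 : L.sg ^ 10 ≤ 1 := pow_le_one₀ hs.le hs1
  have h4 : 1 ≤ (L.Lam ^ 2) ^ k / L.sg ^ k := by
    rw [le_div_iff₀ (pow_pos hs k), one_mul]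
    have h5 : L.sg ^ k ≤ 1 := pow_le_one₀ hs.le hs1
    have h6 : 1 ≤ (L.Lam ^ 2) ^ k := one_le_pow₀ (one_le_pow₀ hL)
    linarith
  have h5 : (C0 * L.Lam ^ 2 / L.sg) ^ k = C0 ^ k * ((L.Lam ^ 2) ^ k / L.sg ^ k) := by
    rw [div_pow, mul_pow, mul_div_assoc]
  rw [h5] at h1
  rw [mul_div_assoc, add_mul, one_mul]
  linarith

end

theorem near_sq : ∃ C : ℝ, 1 ≤ C ∧ ∀ (α : Type) [Fintype α] [DecidableEq α] (L : Law α)
    (θ : ℝ) (T n : ℕ), Reg L θ T n →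
    EE L θ T n (fun x y ξ => (NN (prof (rl x y) T) (bt ξ) n 5 : ℝ) ^ 2) ≤
      C * L.Lam ^ 4 / L.sg ^ 2 := by
  obtain ⟨C0, hC0, h0⟩ := near_tail
  refine ⟨C0 ^ 2 + 1, by nlinarith, ?_⟩
  intro α _ _ L θ T n hR
  have h1 := NearMom_moment hC0 hR (h0 α L θ T n hR) (k := 2) (by norm_num)
  have h2 : (L.Lam ^ 2) ^ 2 = L.Lam ^ 4 := by ring
  rwa [h2] at h1

theorem near_cube : ∃ C : ℝ, 1 ≤ C ∧ ∀ (α : Type) [Fintype α] [DecidableEq α] (L : Law α)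
    (θ : ℝ) (T n : ℕ), Reg L θ T n →
    EE L θ T n (fun x y ξ => (NN (prof (rl x y) T) (bt ξ) n 5 : ℝ) ^ 3) ≤
      C * L.Lam ^ 6 / L.sg ^ 3 := by
  obtain ⟨C0, hC0, h0⟩ := near_tail
  refine ⟨C0 ^ 3 + 1, by have := pow_nonneg (by linarith : (0 : ℝ) ≤ C0) 3; linarith, ?_⟩
  intro α _ _ L θ T n hR
  have h1 := NearMom_moment hC0 hR (h0 α L θ T n hR) (k := 3) (by norm_num)
  have h2 : (L.Lam ^ 2) ^ 3 = L.Lam ^ 6 := by ring
  rwa [h2] at h1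

theorem near_far : ∃ C : ℝ, 1 ≤ C ∧ ∀ (α : Type) [Fintype α] [DecidableEq α] (L : Law α)
    (θ : ℝ) (T n : ℕ), Reg L θ T n → ∀ w : ℕ, 1 ≤ w →
    EE L θ T n (fun x y ξ => (NN (prof (rl x y) T) (bt ξ) n 5 : ℝ) ^ 2 *
      ind (Far (prof (rl x y) T) (bt ξ) n 5 w)) ≤
      C * L.Lam ^ 4 / L.sg ^ 2 * (Real.sqrt (L.Lam / (L.sg * w)) + L.et) := by
  obtain ⟨C0, hC0, h0⟩ := near_tail
  obtain ⟨C1, hC1, h1⟩ := far_prob
  refine ⟨C0 ^ 2 * C1 + 1, by nlinarith [sq_nonneg C0], ?_⟩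
  intro α _ _ L θ T n hR w hw
  have hs := sg_pos L
  have hs1 := sg_le_one L
  have hL := one_le_Lam L
  have hθ := NearMom_theta hR
  have ht := h0 α L θ T n hR
  have hf := h1 α L θ T n hR w hw
  have hK : 0 ≤ C0 * L.Lam ^ 2 / L.sg := by positivity
  set K := C0 * L.Lam ^ 2 / L.sg with hKdef
  set G := Real.sqrt (L.Lam / (L.sg * w)) + L.et with hG
  have h2 : EE L θ T n (fun x y ξ => (NN (prof (rl x y) T) (bt ξ) n 5 : ℝ) ^ 2 *
      ind (Far (prof (rl x y) T) (bt ξ) n 5 w)) ≤ K ^ 2 * (C1 * G) + (n : ℝ) ^ 2 * L.sg ^ 40 := by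
    calc EE L θ T n (fun x y ξ => (NN (prof (rl x y) T) (bt ξ) n 5 : ℝ) ^ 2 *
          ind (Far (prof (rl x y) T) (bt ξ) n 5 w))
        ≤ EE L θ T n (fun x y ξ => K ^ 2 * ind (Far (prof (rl x y) T) (bt ξ) n 5 w) +
            (n : ℝ) ^ 2 * ind (K < (NN (prof (rl x y) T) (bt ξ) n 5 : ℝ))) := by
          refine EE_mono L hθ fun x y ξ => ?_
          have a1 := NearMom_pt (prof (rl x y) T) (bt ξ) n 5 2 hK
          have a2 := ind_nonneg (Far (prof (rl x y) T) (bt ξ) n 5 w)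
          have a3 := ind_le_one (Far (prof (rl x y) T) (bt ξ) n 5 w)
          have a4 : 0 ≤ (n : ℝ) ^ 2 * ind (K < (NN (prof (rl x y) T) (bt ξ) n 5 : ℝ)) :=
            mul_nonneg (by positivity) (ind_nonneg _)
          calc (NN (prof (rl x y) T) (bt ξ) n 5 : ℝ) ^ 2 *
                ind (Far (prof (rl x y) T) (bt ξ) n 5 w)
              ≤ (K ^ 2 + (n : ℝ) ^ 2 * ind (K < (NN (prof (rl x y) T) (bt ξ) n 5 : ℝ))) *
                ind (Far (prof (rl x y) T) (bt ξ) n 5 w) := mul_le_mul_of_nonneg_right a1 a2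
            _ = K ^ 2 * ind (Far (prof (rl x y) T) (bt ξ) n 5 w) +
                (n : ℝ) ^ 2 * ind (K < (NN (prof (rl x y) T) (bt ξ) n 5 : ℝ)) *
                ind (Far (prof (rl x y) T) (bt ξ) n 5 w) := by ring
            _ ≤ _ := by
                have a5 := mul_le_mul_of_nonneg_left a3 a4
                rw [mul_one] at a5
                linarith
      _ = K ^ 2 * EE L θ T n (fun x y ξ => ind (Far (prof (rl x y) T) (bt ξ) n 5 w)) +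
            (n : ℝ) ^ 2 * EE L θ T n (fun x y ξ =>
              ind (K < (NN (prof (rl x y) T) (bt ξ) n 5 : ℝ))) := by
          rw [EE_add, EE_const_mul, EE_const_mul]
      _ ≤ _ := by
          have a1 := mul_le_mul_of_nonneg_left ht (sq_nonneg (n : ℝ))
          have a2 := mul_le_mul_of_nonneg_left hf (sq_nonneg K)
          linarith
  have h3 := NearMom_n_mul hR (k := 2) (by norm_num)
  have h4 : L.sg ^ 10 ≤ L.et := by
    have a1 : L.sg ^ 10 ≤ L.sg ^ 1 := pow_le_pow_of_le_one hs.le hs1 (by norm_num)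
    have a2 := sg_le_kp L
    have a3 := kp_le_et L
    rw [pow_one] at a1
    linarith
  have h5 : 1 ≤ L.Lam ^ 4 / L.sg ^ 2 := by
    rw [le_div_iff₀ (pow_pos hs 2), one_mul]
    have h5 : L.sg ^ 2 ≤ 1 := pow_le_one₀ hs.le hs1
    have h6 : 1 ≤ L.Lam ^ 4 := one_le_pow₀ hL
    linarith
  have h6 : K ^ 2 * (C1 * G) = C0 ^ 2 * C1 * (L.Lam ^ 4 / L.sg ^ 2) * G := by
    rw [hKdef]
    ring
  have h7 : L.et ≤ G := by
    rw [hG]
    have := Real.sqrt_nonneg (L.Lam / (L.sg * w))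
    linarith
  have h8 : G ≤ (L.Lam ^ 4 / L.sg ^ 2) * G := by
    have a1 : 0 ≤ G := (et_pos L).le.trans h7
    nlinarith
  rw [h6] at h2
  rw [mul_div_assoc, add_mul, one_mul, add_mul]
  linarith

end LCSH
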