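import Pool.Agent.Lib.MP_ae6bb1_pr.NBRandom

/-! Number of near columns and distant near sites (proof document, section E10). -/

open Finset

namespace LCSH

private theorem NearTail_exp {α : Type} [Fintype α] (L : Law α) (k : ℕ) {v : ℝ}
    (hv : k * L.Lam ≤ v) : Real.exp (-v) ≤ L.sg ^ k := by
  have h1 : Real.exp (-v) ≤ Real.exp (-L.Lam) ^ k := by
    rw [← Real.exp_nat_mul]
    apply Real.exp_le_exp.mpr
    linarith
  exact h1.trans (pow_le_pow_left₀ (Real.exp_pos _).le (exp_Lam L) k)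

private theorem NearTail_n {α : Type} [Fintype α] [DecidableEq α] (L : Law α) {θ : ℝ} {T n : ℕ}
    (hR : Reg L θ T n) {v : ℝ} (hv : 100 * L.Lam ≤ v) : n * Real.exp (-v) ≤ L.sg ^ 90 := by
  have hs : 0 < L.sg := sg_pos L
  have h1 : Real.exp (-v) ≤ L.sg ^ 100 := NearTail_exp L 100 (by exact_mod_cast hv)
  calc n * Real.exp (-v) ≤ (1 / L.sg) ^ 10 * L.sg ^ 100 :=
        mul_le_mul hR.hn' h1 (Real.exp_pos _).le (by positivity)
    _ = L.sg ^ 90 := by
        field_simp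

private theorem NearTail_small {α : Type} [Fintype α] [DecidableEq α] (L : Law α) {θ : ℝ}
    {T n : ℕ} (hR : Reg L θ T n) : L.sg ≤ L.et ∧ L.et ≤ 1 / 10 ^ 6 ∧ L.sg ≤ 1 / 10 ^ 6 := by
  have h1 : L.sg ≤ L.et := (sg_le_kp L).trans (kp_le_et L)
  have h2 : L.et ≤ 1 / 10 ^ 6 := hR.het
  exact ⟨h1, h2, h1.trans h2⟩

theorem near_tail : ∃ C : ℝ, 1 ≤ C ∧ ∀ (α : Type) [Fintype α] [DecidableEq α] (L : Law α)
    (θ : ℝ) (T n : ℕ), Reg L θ T n →
    EE L θ T n (fun x y ξ => ind (C * L.Lam ^ 2 / L.sg <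
      (NN (prof (rl x y) T) (bt ξ) n 5 : ℝ))) ≤ L.sg ^ 40 := by
  refine ⟨10 ^ 12, by norm_num, ?_⟩
  intro α _ _ L θ T n hR
  have hs : 0 < L.sg := sg_pos L
  obtain ⟨hse, he, hs6⟩ := NearTail_small L hR
  have he0 : 0 < L.et := et_pos L
  have hΛ : 1 ≤ L.Lam := one_le_Lam L
  have hθ : 0 < θ := by linarith [hR.hθ]
  set Λ := L.Lam with hΛd
  set t : ℕ := ⌈100 * Λ⌉₊ with htd
  set ℓ : ℕ := ⌈24 * 10 ^ 8 * Λ / L.sg⌉₊ with hℓd
  have hℓ1 : 24 * 10 ^ 8 * Λ / L.sg ≤ ℓ := Nat.le_ceil _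
  have hΛs : 1 ≤ Λ / L.sg := by
    rw [le_div_iff₀ hs]
    linarith
  have hℓ2 : (ℓ : ℝ) ≤ 25 * 10 ^ 8 * Λ / L.sg := by
    have h1 : (ℓ : ℝ) < 24 * 10 ^ 8 * Λ / L.sg + 1 := Nat.ceil_lt_add_one (by positivity)
    have h2 : 25 * 10 ^ 8 * Λ / L.sg = 24 * 10 ^ 8 * Λ / L.sg + 10 ^ 8 * (Λ / L.sg) := by ring
    rw [h2]
    linarith
  have hℓσ : 24 * 10 ^ 8 * Λ ≤ ℓ * L.sg := by
    rwa [div_le_iff₀ hs] at hℓ1
  have hℓ0 : 0 < ℓ := by
    have : (0 : ℝ) < ℓ := lt_of_lt_of_le (by positivity) hℓ1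
    exact_mod_cast this
  have ht1 : 100 * Λ ≤ t := Nat.le_ceil _
  have ht2 : (t : ℝ) ≤ 101 * Λ := by
    have h1 : (t : ℝ) < 100 * Λ + 1 := Nat.ceil_lt_add_one (by positivity)
    linarith
  have hsep := EE_sep (T := T) (n := n) L hθ ℓ 100 t (20 * √Λ) hℓ0 (by norm_num) (by
      have h1 : 1 ≤ √Λ := Real.one_le_sqrt.mpr hΛ
      linarith) (by
      apply Real.le_sqrt_of_sq_le
      have h1 : √Λ ^ 2 = Λ := Real.sq_sqrt (by linarith)
      have h2 : (6 * (20 * √Λ) * ((100 : ℕ) : ℝ)) ^ 2 = 144000000 * Λ := by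
        have h5 : (6 * (20 * √Λ) * ((100 : ℕ) : ℝ)) ^ 2 = 144000000 * √Λ ^ 2 := by
          push_cast
          ring
        rw [h5, h1]
      rw [h2, le_div_iff₀ (by positivity)]
      have h3 : θ ≤ 8 := hR.hθ'
      have h4 : 144000000 * Λ * (2 * θ) ≤ 144000000 * Λ * 16 :=
        mul_le_mul_of_nonneg_left (by linarith) (by positivity)
      linarith) (by
      have h1 : L.et / θ ≤ 2 * L.et := by
        rw [div_le_iff₀ hθ]
        have := hR.hθ
        nlinarith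
      push_cast
      linarith)
  have h1 : EE L θ T n (fun x y ξ => ind (10 ^ 12 * Λ ^ 2 / L.sg <
      (NN (prof (rl x y) T) (bt ξ) n 5 : ℝ))) ≤
      EE L θ T n (fun x y ξ =>
      ind (Sep (prof (rl x y) T) (bt ξ) n ℓ 5 (Mf (prof (rl x y) T) (bt ξ) n) 0 t)) := by
    refine EE_mono L hθ fun x y ξ => ind_mono fun h => ?_
    apply sep_of_card _ _ _ _ _ _ hℓ0
    have h2 : ((2 * t * ℓ : ℕ) : ℝ) ≤ 10 ^ 12 * Λ ^ 2 / L.sg := by
      push_cast
      calc 2 * (t : ℝ) * ℓ ≤ 2 * (101 * Λ) * (25 * 10 ^ 8 * Λ / L.sg) := by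
            apply mul_le_mul _ hℓ2 (Nat.cast_nonneg _) (by positivity)
            linarith
        _ = 505 * 10 ^ 9 * (Λ ^ 2 / L.sg) := by ring
        _ ≤ 10 ^ 12 * (Λ ^ 2 / L.sg) := by
            apply mul_le_mul_of_nonneg_right (by norm_num) (by positivity)
        _ = 10 ^ 12 * Λ ^ 2 / L.sg := by ring
    exact_mod_cast h2.trans_lt h
  refine h1.trans (hsep.trans ?_)
  have e1 : (44 / (((100 : ℕ) : ℝ) - 10)) ^ t ≤ L.sg ^ 50 := by
    have h2 : (44 / (((100 : ℕ) : ℝ) - 10)) ≤ Real.exp (-(1 / 2)) := by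
      have := Real.add_one_le_exp (-(1 / 2) : ℝ)
      push_cast
      linarith
    calc (44 / (((100 : ℕ) : ℝ) - 10)) ^ t ≤ Real.exp (-(1 / 2)) ^ t :=
          pow_le_pow_left₀ (by norm_num) h2 t
      _ = Real.exp (-(t / 2)) := by
          rw [← Real.exp_nat_mul]
          congr 1
          ring
      _ ≤ L.sg ^ 50 := by
          apply NearTail_exp L 50
          push_cast
          linarith
  have e2 : n * Real.exp (-((20 * √Λ) ^ 2 / 4)) ≤ L.sg ^ 90 := by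
    apply NearTail_n L hR
    have h2 : √Λ ^ 2 = Λ := Real.sq_sqrt (by linarith)
    rw [mul_pow, h2]
    linarith
  have e3 : n * Real.exp (-(ℓ * L.sg / (8 * L.et))) ≤ L.sg ^ 90 := by
    apply NearTail_n L hR
    rw [le_div_iff₀ (by positivity)]
    have h2 : 100 * L.Lam * (8 * L.et) ≤ 100 * Λ * 1 := by
      apply mul_le_mul_of_nonneg_left (by linarith) (by positivity)
    linarith
  have hs1 : L.sg ≤ 1 := by linarith
  have e4 : L.sg ^ 90 ≤ L.sg ^ 50 := pow_le_pow_of_le_one hs.le hs1 (by norm_num)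
  have e5 : 3 * L.sg ^ 50 ≤ L.sg ^ 40 := by
    have h2 : L.sg ^ 50 = L.sg ^ 40 * L.sg ^ 10 := by rw [← pow_add]
    have h3 : L.sg ^ 10 ≤ L.sg ^ 1 := pow_le_pow_of_le_one hs.le hs1 (by norm_num)
    rw [pow_one] at h3
    rw [h2]
    have h4 : 0 < L.sg ^ 40 := by positivity
    nlinarith
  linarith

theorem far_prob : ∃ C : ℝ, 1 ≤ C ∧ ∀ (α : Type) [Fintype α] [DecidableEq α] (L : Law α)
    (θ : ℝ) (T n : ℕ), Reg L θ T n → ∀ w : ℕ, 1 ≤ w →
    EE L θ T n (fun x y ξ => ind (Far (prof (rl x y) T) (bt ξ) n 5 w)) ≤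
      C * (Real.sqrt (L.Lam / (L.sg * w)) + L.et) := by
  refine ⟨10 ^ 6, by norm_num, ?_⟩
  intro α _ _ L θ T n hR w hw
  have hs : 0 < L.sg := sg_pos L
  obtain ⟨hse, he, hs6⟩ := NearTail_small L hR
  have he0 : 0 < L.et := et_pos L
  have hΛ : 1 ≤ L.Lam := one_le_Lam L
  have hθ : 0 < θ := by linarith [hR.hθ]
  have hw0 : (0 : ℝ) < w := by exact_mod_cast hw
  set Λ := L.Lam with hΛd
  set a : ℝ := √(Λ / (L.sg * w)) with ha
  have ha0 : 0 ≤ a := Real.sqrt_nonneg _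
  have hone : EE L θ T n (fun x y ξ => ind (Far (prof (rl x y) T) (bt ξ) n 5 w)) ≤ 1 := by
    refine (EE_mono L hθ (g := fun _ _ _ => 1) fun x y ξ => ind_le_one _).trans ?_
    rw [EE_const L hθ]
  by_cases hbig : 1 / 30000 ≤ a
  · refine hone.trans ?_
    linarith
  push Not at hbig
  have hsw : 9 * 10 ^ 8 * Λ < L.sg * w := by
    have h1 : Λ / (L.sg * w) < (1 / 30000) ^ 2 := by
      rwa [ha, Real.sqrt_lt' (by norm_num)] at hbig
    rw [div_lt_iff₀ (by positivity)] at h1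
    linarith
  have hwbig : 9 * 10 ^ 8 < (w : ℝ) := by
    nlinarith
  set ℓ : ℕ := w / 3 with hℓd
  have h3ℓ : 3 * ℓ ≤ w := Nat.mul_div_le w 3
  have hℓw : (w : ℝ) / 5 ≤ ℓ := by
    have h1 : w < 3 * ℓ + 3 := by omega
    have h2 : (w : ℝ) < 3 * ℓ + 3 := by exact_mod_cast h1
    linarith
  have hℓ0 : 0 < ℓ := by
    have : (0 : ℝ) < ℓ := lt_of_lt_of_le (by positivity) hℓw
    exact_mod_cast this
  have hℓr : (0 : ℝ) < ℓ := by exact_mod_cast hℓ0
  have hℓσ : L.sg * w / 5 ≤ ℓ * L.sg := by nlinarith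
  set q : ℝ := √(ℓ * L.sg / (2 * θ)) with hq
  have hq0 : 0 < q := Real.sqrt_pos.mpr (by positivity)
  have hsΛ : 0 < √Λ := Real.sqrt_pos.mpr (by linarith)
  have hsΛ2 : √Λ ^ 2 = Λ := Real.sq_sqrt (by linarith)
  -- `q` is large
  have hq21 : 21 ≤ q / (6 * (20 * √Λ)) := by
    rw [le_div_iff₀ (by positivity)]
    apply Real.le_sqrt_of_sq_le
    have h2 : (21 * (6 * (20 * √Λ))) ^ 2 = 6350400 * Λ := by
      have h5 : (21 * (6 * (20 * √Λ))) ^ 2 = 6350400 * √Λ ^ 2 := by ring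
      rw [h5, hsΛ2]
    rw [h2, le_div_iff₀ (by positivity)]
    have h3 : θ ≤ 8 := hR.hθ'
    have h4 : 6350400 * Λ * (2 * θ) ≤ 6350400 * Λ * 16 :=
      mul_le_mul_of_nonneg_left (by linarith) (by positivity)
    linarith
  have hη21 : 21 ≤ θ / (12 * L.et) := by
    rw [le_div_iff₀ (by positivity)]
    have := hR.hθ
    linarith
  set X : ℝ := min (q / (6 * (20 * √Λ))) (θ / (12 * L.et)) with hX
  have hX21 : 21 ≤ X := le_min hq21 hη21
  set H : ℕ := ⌊X⌋₊ with hH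
  have hH1 : (H : ℝ) ≤ X := Nat.floor_le (by linarith)
  have hH2 : X < H + 1 := Nat.lt_floor_add_one X
  have hH11 : 11 ≤ H := by
    have h1 : (21 : ℕ) ≤ H := Nat.le_floor (by exact_mod_cast hX21)
    omega
  have hsep := EE_sep (T := T) (n := n) L hθ ℓ H 1 (20 * √Λ) hℓ0 hH11 (by
      have h1 : 1 ≤ √Λ := Real.one_le_sqrt.mpr hΛ
      linarith) (by
      have h1 : (H : ℝ) ≤ q / (6 * (20 * √Λ)) := hH1.trans (min_le_left _ _)
      rw [le_div_iff₀ (by positivity)] at h1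
      linarith) (by
      have h1 : (H : ℝ) ≤ θ / (12 * L.et) := hH1.trans (min_le_right _ _)
      rw [le_div_iff₀ (by positivity)] at h1
      have h2 : 12 * (H : ℝ) * (L.et / θ) = H * (12 * L.et) / θ := by ring
      rw [h2, div_le_one hθ]
      exact h1)
  have h1 : EE L θ T n (fun x y ξ => ind (Far (prof (rl x y) T) (bt ξ) n 5 w)) ≤
      EE L θ T n (fun x y ξ =>
      ind (Sep (prof (rl x y) T) (bt ξ) n ℓ 5 (Mf (prof (rl x y) T) (bt ξ) n) 0 1)) :=
    EE_mono L hθ fun x y ξ => ind_mono fun h => sep_of_far _ _ _ _ _ w hℓ0 h3ℓ h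
  refine h1.trans (hsep.trans ?_)
  -- the main term
  have hXinv : 1 / X ≤ 1080 * a + 24 * L.et := by
    have hX0 : 0 < X := by linarith
    have b1 : 1 / (q / (6 * (20 * √Λ))) ≤ 1080 * a := by
      rw [one_div_div, div_le_iff₀ hq0]
      have h2 : √Λ ≤ 9 * a * q := by
        apply Real.sqrt_le_iff.mpr
        refine ⟨by positivity, ?_⟩
        have h3 : (9 * a * q) ^ 2 = 81 * (Λ / (L.sg * w)) * (ℓ * L.sg / (2 * θ)) := by
          rw [mul_pow, mul_pow, ha, hq, Real.sq_sqrt (by positivity), Real.sq_sqrt (by positivity)]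
          norm_num
        rw [h3]
        have h4 : 81 * (Λ / (L.sg * w)) * (ℓ * L.sg / (2 * θ)) = Λ * (81 * ℓ / (2 * θ * w)) := by
          field_simp
        rw [h4]
        have h5 : 1 ≤ 81 * (ℓ : ℝ) / (2 * θ * w) := by
          rw [le_div_iff₀ (by positivity)]
          have h6 : θ ≤ 8 := hR.hθ'
          have h7 : 2 * θ * w ≤ 16 * w := by nlinarith
          linarith
        nlinarith
      linarith
    have b2 : 1 / (θ / (12 * L.et)) ≤ 24 * L.et := by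
      rw [one_div_div, div_le_iff₀ hθ]
      have := hR.hθ
      nlinarith
    rcases min_choice (q / (6 * (20 * √Λ))) (θ / (12 * L.et)) with h2 | h2
    · rw [hX, h2]
      linarith
    · rw [hX, h2]
      linarith
  have e1 : (44 / ((H : ℝ) - 10)) ^ 1 ≤ 10 ^ 5 * (a + L.et) := by
    rw [pow_one]
    have hX0 : 0 < X := by linarith
    have h2 : 10 / 21 * X ≤ (H : ℝ) - 10 := by linarith
    calc 44 / ((H : ℝ) - 10) ≤ 44 / (10 / 21 * X) :=
          div_le_div_of_nonneg_left (by norm_num) (by positivity) h2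
      _ = 92.4 * (1 / X) := by
          field_simp
          norm_num
      _ ≤ 92.4 * (1080 * a + 24 * L.et) := mul_le_mul_of_nonneg_left hXinv (by norm_num)
      _ ≤ 10 ^ 5 * (a + L.et) := by nlinarith
  have hs1 : L.sg ≤ 1 := by linarith
  have e0 : L.sg ^ 90 ≤ L.et := by
    have := pow_le_pow_of_le_one hs.le hs1 (show 1 ≤ 90 by norm_num)
    rw [pow_one] at this
    linarith
  have e2 : n * Real.exp (-((20 * √Λ) ^ 2 / 4)) ≤ L.sg ^ 90 := by
    apply NearTail_n L hR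
    rw [mul_pow, hsΛ2]
    linarith
  have e3 : n * Real.exp (-(ℓ * L.sg / (8 * L.et))) ≤ L.sg ^ 90 := by
    apply NearTail_n L hR
    rw [le_div_iff₀ (by positivity)]
    have h2 : 100 * L.Lam * (8 * L.et) ≤ 100 * Λ * 1 := by
      apply mul_le_mul_of_nonneg_left (by linarith) (by positivity)
    linarith
  nlinarith

end LCSH
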