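import Pool.Agent.Lib.MP_ae6bb1_pr.Defs

/-! Basic facts on product expectations (proof document, section C1). -/

open Finset

namespace LCSH

theorem ind_nonneg (E : Prop) : 0 ≤ ind E := by
  unfold ind
  split_ifs
  · exact zero_le_one
  · exact le_rfl

theorem ind_le_one (E : Prop) : ind E ≤ 1 := by
  unfold ind
  split_ifs
  · exact le_rfl
  · exact zero_le_one

theorem ind_of {E : Prop} (h : E) : ind E = 1 := by
  unfold ind
  exact if_pos h

theorem ind_of_not {E : Prop} (h : ¬ E) : ind E = 0 := by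
  unfold ind
  exact if_neg h

theorem ind_mono {E F : Prop} (h : E → F) : ind E ≤ ind F := by
  by_cases hE : E
  · rw [ind_of hE, ind_of (h hE)]
  · rw [ind_of_not hE]
    exact ind_nonneg F

theorem ind_or_le (E F : Prop) : ind (E ∨ F) ≤ ind E + ind F := by
  by_cases hE : E
  · rw [ind_of (Or.inl hE), ind_of hE]
    linarith [ind_nonneg F]
  · by_cases hF : F
    · rw [ind_of (Or.inr hF), ind_of hF]
      linarith [ind_nonneg E]
    · rw [ind_of_not (fun h => h.elim hE hF)]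
      linarith [ind_nonneg E, ind_nonneg F]

theorem ind_exists_le {κ : Type*} (s : Finset κ) (E : κ → Prop) :
    ind (∃ k ∈ s, E k) ≤ ∑ k ∈ s, ind (E k) := by
  by_cases h : ∃ k ∈ s, E k
  · obtain ⟨k, hk, hE⟩ := h
    rw [ind_of ⟨k, hk, hE⟩, ← ind_of hE]
    exact Finset.single_le_sum (f := fun k => ind (E k)) (fun i _ => ind_nonneg (E i)) hk
  · rw [ind_of_not h]
    exact Finset.sum_nonneg fun i _ => ind_nonneg _

section
variable {ι β : Type*} [Fintype ι] [DecidableEq ι] [Fintype β]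
variable {w : ι → β → ℝ}

theorem PE_add (w : ι → β → ℝ) (f g : (ι → β) → ℝ) :
    PE w (fun ω => f ω + g ω) = PE w f + PE w g := by
  unfold PE
  rw [← Finset.sum_add_distrib]
  exact Finset.sum_congr rfl fun ω _ => mul_add _ _ _

theorem PE_sub (w : ι → β → ℝ) (f g : (ι → β) → ℝ) :
    PE w (fun ω => f ω - g ω) = PE w f - PE w g := by
  unfold PE
  rw [← Finset.sum_sub_distrib]
  exact Finset.sum_congr rfl fun ω _ => mul_sub _ _ _

theorem PE_const_mul (w : ι → β → ℝ) (c : ℝ) (f : (ι → β) → ℝ) :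
    PE w (fun ω => c * f ω) = c * PE w f := by
  unfold PE
  rw [Finset.mul_sum]
  exact Finset.sum_congr rfl fun ω _ => by ring

theorem PE_mul_const (w : ι → β → ℝ) (c : ℝ) (f : (ι → β) → ℝ) :
    PE w (fun ω => f ω * c) = PE w f * c := by
  unfold PE
  rw [Finset.sum_mul]
  exact Finset.sum_congr rfl fun ω _ => by ring

theorem PE_sum {κ : Type*} (w : ι → β → ℝ) (s : Finset κ) (f : κ → (ι → β) → ℝ) :
    PE w (fun ω => ∑ k ∈ s, f k ω) = ∑ k ∈ s, PE w (f k) := by
  unfold PE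
  rw [Finset.sum_comm]
  exact Finset.sum_congr rfl fun ω _ => Finset.mul_sum _ _ _

private theorem PEBasic_one (hw : IsW w) : ∑ ω : ι → β, ∏ i, w i (ω i) = 1 := by
  rw [← Finset.prod_eq_one (s := (Finset.univ : Finset ι)) (f := fun i => ∑ b, w i b)
    (fun i _ => hw.sum_one i), Finset.prod_univ_sum, Fintype.piFinset_univ]

theorem PE_const (hw : IsW w) (c : ℝ) : PE w (fun _ => c) = c := by
  unfold PE
  rw [← Finset.sum_mul, PEBasic_one hw, one_mul]

theorem PE_mono (hw : IsW w) {f g : (ι → β) → ℝ} (h : ∀ ω, f ω ≤ g ω) : PE w f ≤ PE w g := by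
  unfold PE
  exact Finset.sum_le_sum fun ω _ =>
    mul_le_mul_of_nonneg_left (h ω) (Finset.prod_nonneg fun i _ => hw.nonneg i _)

theorem PE_nonneg (hw : IsW w) {f : (ι → β) → ℝ} (h : ∀ ω, 0 ≤ f ω) : 0 ≤ PE w f := by
  unfold PE
  exact Finset.sum_nonneg fun ω _ =>
    mul_nonneg (Finset.prod_nonneg fun i _ => hw.nonneg i _) (h ω)

theorem PE_le_of_le (hw : IsW w) {f : (ι → β) → ℝ} {c : ℝ} (h : ∀ ω, f ω ≤ c) :
    PE w f ≤ c := by
  have h1 := PE_mono hw h
  rwa [PE_const hw] at h1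

theorem le_PE_of_le (hw : IsW w) {f : (ι → β) → ℝ} {c : ℝ} (h : ∀ ω, c ≤ f ω) :
    c ≤ PE w f := by
  have h1 := PE_mono hw h
  rwa [PE_const hw] at h1

theorem abs_PE_le (hw : IsW w) (f : (ι → β) → ℝ) : |PE w f| ≤ PE w (fun ω => |f ω|) := by
  unfold PE
  refine (Finset.abs_sum_le_sum_abs _ _).trans (Finset.sum_le_sum fun ω _ => ?_)
  rw [abs_mul, abs_of_nonneg (Finset.prod_nonneg fun i _ => hw.nonneg i _)]

/-- order of two product expectations -/
theorem PE_comm {ι' β' : Type*} [Fintype ι'] [DecidableEq ι'] [Fintype β'] (w : ι → β → ℝ)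
    (w' : ι' → β' → ℝ) (f : (ι → β) → (ι' → β') → ℝ) :
    PE w (fun ω => PE w' (fun ω' => f ω ω')) = PE w' (fun ω' => PE w (fun ω => f ω ω')) := by
  unfold PE
  simp only [Finset.mul_sum]
  rw [Finset.sum_comm]
  exact Finset.sum_congr rfl fun ω' _ => Finset.sum_congr rfl fun ω _ => by ring

/-- Markov inequality -/
theorem PE_markov (hw : IsW w) {f : (ι → β) → ℝ} (hf : ∀ ω, 0 ≤ f ω) {c : ℝ} (hc : 0 < c) :
    PE w (fun ω => ind (c ≤ f ω)) ≤ PE w f / c := by
  rw [div_eq_mul_inv, ← PE_mul_const]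
  refine PE_mono hw fun ω => ?_
  by_cases h : c ≤ f ω
  · rw [ind_of h, ← div_eq_mul_inv, one_le_div hc]
    exact h
  · rw [ind_of_not h]
    exact mul_nonneg (hf ω) (inv_nonneg.mpr hc.le)

/-- exponential Markov inequality, upper tail -/
theorem PE_exp_markov (hw : IsW w) (f : (ι → β) → ℝ) {c s : ℝ} (hs : 0 ≤ s) :
    PE w (fun ω => ind (c ≤ f ω)) ≤ Real.exp (-(s * c)) * PE w (fun ω => Real.exp (s * f ω)) := by
  rw [← PE_const_mul]
  refine PE_mono hw fun ω => ?_
  rw [← Real.exp_add]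
  by_cases h : c ≤ f ω
  · rw [ind_of h]
    apply Real.one_le_exp
    have := mul_le_mul_of_nonneg_left h hs
    linarith
  · rw [ind_of_not h]
    exact (Real.exp_pos _).le

/-- exponential Markov inequality, lower tail -/
theorem PE_exp_markov' (hw : IsW w) (f : (ι → β) → ℝ) {c s : ℝ} (hs : 0 ≤ s) :
    PE w (fun ω => ind (f ω ≤ c)) ≤ Real.exp (s * c) * PE w (fun ω => Real.exp (-(s * f ω))) := by
  rw [← PE_const_mul]
  refine PE_mono hw fun ω => ?_
  rw [← Real.exp_add]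
  by_cases h : f ω ≤ c
  · rw [ind_of h]
    apply Real.one_le_exp
    have := mul_le_mul_of_nonneg_left h hs
    linarith
  · rw [ind_of_not h]
    exact (Real.exp_pos _).le

/-- Jensen inequality for the exponential function -/
theorem exp_PE_le (hw : IsW w) (f : (ι → β) → ℝ) :
    Real.exp (PE w f) ≤ PE w (fun ω => Real.exp (f ω)) := by
  have h1 : ∀ ω, Real.exp (PE w f) * (f ω + (1 - PE w f)) ≤ Real.exp (f ω) := by
    intro ω
    have h2 := Real.add_one_le_exp (f ω - PE w f)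
    have h3 := mul_le_mul_of_nonneg_left h2 (Real.exp_pos (PE w f)).le
    rw [← Real.exp_add, add_sub_cancel] at h3
    calc _ = Real.exp (PE w f) * (f ω - PE w f + 1) := by ring
      _ ≤ _ := h3
  have h4 := PE_mono hw h1
  rw [PE_const_mul, PE_add, PE_const hw, add_sub_cancel, mul_one] at h4
  exact h4

/-- Cauchy–Schwarz -/
theorem PE_mul_sq_le (hw : IsW w) (f g : (ι → β) → ℝ) :
    PE w (fun ω => f ω * g ω) ^ 2 ≤ PE w (fun ω => f ω ^ 2) * PE w (fun ω => g ω ^ 2) := by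
  unfold PE
  have h0 : ∀ ω : ι → β, 0 ≤ ∏ i, w i (ω i) := fun ω => Finset.prod_nonneg fun i _ => hw.nonneg i _
  refine Finset.sum_sq_le_sum_mul_sum_of_sq_le_mul _ (fun ω _ => mul_nonneg (h0 ω) (sq_nonneg _))
    (fun ω _ => mul_nonneg (h0 ω) (sq_nonneg _)) (fun ω _ => le_of_eq ?_)
  ring
end

theorem isW_bw {ι : Type*} {r : ι → ℝ} (h0 : ∀ i, 0 ≤ r i) (h1 : ∀ i, r i ≤ 1) :
    IsW (fun i : ι => bw (r i)) := by
  constructor
  · intro i b
    cases b
    · show 0 ≤ 1 - r i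
      linarith [h1 i]
    · exact h0 i
  · intro i
    rw [Fintype.sum_bool]
    show r i + (1 - r i) = 1
    ring

theorem isW_law {ι α : Type*} [Fintype α] (L : Law α) : IsW (fun _ : ι => L.p) := by
  exact ⟨fun _ b => L.nonneg b, fun _ => L.sum_one⟩

end LCSH
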