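import Pool.Agent.Lib.MP_ae6bb1_pr.PEProd

/-! Exponential moments of functions with bounded differences (proof document, section C3). -/

open Finset

namespace LCSH

variable {β : Type*} [Fintype β]

/-- one random variable: values in an interval of length one -/
theorem mgf_one {q : β → ℝ} (hq0 : ∀ b, 0 ≤ q b) (hq1 : ∑ b, q b = 1) (g : β → ℝ)
    (hg : ∀ b b', g b - g b' ≤ 1) {s : ℝ} (hs : |s| ≤ 1) :
    ∑ b, q b * Real.exp (s * (g b - ∑ b', q b' * g b')) ≤ Real.exp (s ^ 2) := by
  set m := ∑ b', q b' * g b' with hm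
  have hX : ∀ b, |g b - m| ≤ 1 := by
    intro b
    have h1 : g b - m = ∑ b', q b' * (g b - g b') := by
      simp_rw [mul_sub]
      rw [Finset.sum_sub_distrib, ← Finset.sum_mul, hq1, one_mul]
    have h2 : g b - m ≤ 1 := by
      rw [h1, ← hq1]
      refine Finset.sum_le_sum fun b' _ => ?_
      have := mul_le_mul_of_nonneg_left (hg b b') (hq0 b')
      rwa [mul_one] at this
    have h3 : -1 ≤ g b - m := by
      rw [h1, ← hq1, ← Finset.sum_neg_distrib]
      refine Finset.sum_le_sum fun b' _ => ?_
      have := mul_le_mul_of_nonneg_left (hg b' b) (hq0 b')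
      rw [mul_one] at this
      linarith
    exact abs_le.2 ⟨h3, h2⟩
  have hmean : ∑ b, q b * (g b - m) = 0 := by
    simp_rw [mul_sub]
    rw [Finset.sum_sub_distrib, ← Finset.sum_mul, hq1, one_mul, ← hm, sub_self]
  have hpt : ∀ b, q b * Real.exp (s * (g b - m)) ≤ q b + s * (q b * (g b - m)) + s ^ 2 * q b := by
    intro b
    have h1 : |s * (g b - m)| ≤ 1 := by
      rw [abs_mul]
      exact mul_le_one₀ hs (abs_nonneg _) (hX b)
    have h2 := (abs_le.1 (Real.abs_exp_sub_one_sub_id_le h1)).2
    have h3 : (s * (g b - m)) ^ 2 ≤ s ^ 2 := by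
      rw [mul_pow]
      have h4 : (g b - m) ^ 2 ≤ 1 := by
        rw [← sq_abs]
        exact pow_le_one₀ (abs_nonneg _) (hX b)
      nlinarith [sq_nonneg s]
    have h5 : Real.exp (s * (g b - m)) ≤ 1 + s * (g b - m) + s ^ 2 := by linarith
    have h6 := mul_le_mul_of_nonneg_left h5 (hq0 b)
    linarith
  calc ∑ b, q b * Real.exp (s * (g b - m))
      ≤ ∑ b, (q b + s * (q b * (g b - m)) + s ^ 2 * q b) := Finset.sum_le_sum fun b _ => hpt b
    _ = 1 + s ^ 2 := by
        rw [Finset.sum_add_distrib, Finset.sum_add_distrib, ← Finset.mul_sum, ← Finset.mul_sum, hq1,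
          hmean]
        ring
    _ ≤ Real.exp (s ^ 2) := by
        have := Real.add_one_le_exp (s ^ 2)
        linarith

/-- bounded differences: exponential moment -/
theorem mgf_bounded {n : ℕ} {w : Fin n → β → ℝ} (hw : IsW w) (f : (Fin n → β) → ℝ)
    (hf : ∀ ω i b, f (Function.update ω i b) - f ω ≤ 1) {s : ℝ} (hs : |s| ≤ 1) :
    PE w (fun ω => Real.exp (s * (f ω - PE w f))) ≤ Real.exp (s ^ 2 * n) := by
  induction n with
  | zero =>
    have h1 : ∀ ω : Fin 0 → β, f ω = PE w f := by
      intro ω
      unfold PE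
      rw [Fintype.sum_unique]
      simp only [Finset.univ_eq_empty, Finset.prod_empty, one_mul]
      congr 1
      exact Subsingleton.elim _ _
    have h2 : (fun ω : Fin 0 → β => Real.exp (s * (f ω - PE w f))) = fun _ => 1 := by
      funext ω
      rw [h1 ω, sub_self, mul_zero, Real.exp_zero]
    rw [h2, PE_const hw]
    simp
  | succ n ih =>
    have hw' : IsW (fun i : Fin n => w i.castSucc) :=
      ⟨fun i b => hw.nonneg _ b, fun i => hw.sum_one _⟩
    set q : β → ℝ := w (Fin.last n) with hq
    have hq0 : ∀ b, 0 ≤ q b := fun b => hw.nonneg _ b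
    have hq1 : ∑ b, q b = 1 := hw.sum_one _
    set f' : (Fin n → β) → ℝ := fun ω => ∑ b, q b * f (Fin.snoc (α := fun _ => β) ω b) with hf'
    have hE : PE w f = PE (fun i : Fin n => w i.castSucc) f' := PE_snoc w f
    have hbd : ∀ ω i b, f' (Function.update ω i b) - f' ω ≤ 1 := by
      intro ω i c
      rw [hf']
      simp only
      rw [← Finset.sum_sub_distrib, ← hq1]
      refine Finset.sum_le_sum fun b _ => ?_
      rw [← mul_sub]
      have h1 : (Fin.snoc (α := fun _ => β) (Function.update ω i c) b : Fin (n + 1) → β) =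
          Function.update (Fin.snoc (α := fun _ => β) ω b) i.castSucc c := Fin.snoc_update ..
      rw [h1]
      have := mul_le_mul_of_nonneg_left (hf (Fin.snoc (α := fun _ => β) ω b) i.castSucc c) (hq0 b)
      rwa [mul_one] at this
    have hih := ih hw' f' hbd
    rw [PE_snoc, hE]
    have hpt : ∀ ω : Fin n → β, ∑ b, q b * Real.exp (s * (f (Fin.snoc (α := fun _ => β) ω b) -
        PE (fun i : Fin n => w i.castSucc) f')) ≤
        Real.exp (s ^ 2) * Real.exp (s * (f' ω - PE (fun i : Fin n => w i.castSucc) f')) := by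
      intro ω
      have h1 := mgf_one hq0 hq1 (fun b => f (Fin.snoc (α := fun _ => β) ω b))
        (fun b b' => by
          have h2 := hf (Fin.snoc (α := fun _ => β) ω b') (Fin.last n) b
          rw [Fin.update_snoc_last] at h2
          exact h2) hs
      have h3 : ∀ b, q b * Real.exp (s * (f (Fin.snoc (α := fun _ => β) ω b) -
        PE (fun i : Fin n => w i.castSucc) f')) =
        (q b * Real.exp (s * (f (Fin.snoc (α := fun _ => β) ω b) - f' ω))) *
          Real.exp (s * (f' ω - PE (fun i : Fin n => w i.castSucc) f')) := by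
        intro b
        rw [mul_assoc, ← Real.exp_add]
        congr 2
        ring
      simp_rw [h3]
      rw [← Finset.sum_mul]
      exact mul_le_mul_of_nonneg_right h1 (Real.exp_pos _).le
    refine (PE_mono hw' hpt).trans ?_
    rw [PE_const_mul]
    refine (mul_le_mul_of_nonneg_left hih (Real.exp_pos _).le).trans (le_of_eq ?_)
    rw [← Real.exp_add]
    congr 1
    push_cast
    ring

/-- bounded differences in two groups of variables (constant weights in each group) -/
theorem mgf_two {β' : Type*} [Fintype β'] {a b : ℕ} {q : β → ℝ} {q' : β' → ℝ}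
    (hq0 : ∀ b, 0 ≤ q b) (hq1 : ∑ b, q b = 1) (hq0' : ∀ b, 0 ≤ q' b) (hq1' : ∑ b, q' b = 1)
    (f : (Fin a → β) → (Fin b → β') → ℝ)
    (hf : ∀ x y i c, f (Function.update x i c) y - f x y ≤ 1)
    (hf' : ∀ x y i c, f x (Function.update y i c) - f x y ≤ 1) {s : ℝ} (hs : |s| ≤ 1) :
    PE (fun _ : Fin a => q) (fun x => PE (fun _ : Fin b => q') (fun y =>
      Real.exp (s * (f x y - PE (fun _ : Fin a => q) (fun x => PE (fun _ : Fin b => q')
        (fun y => f x y)))))) ≤ Real.exp (s ^ 2 * (a + b : ℕ)) := by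
  have hw : IsW (fun _ : Fin a => q) := ⟨fun _ b => hq0 b, fun _ => hq1⟩
  have hw' : IsW (fun _ : Fin b => q') := ⟨fun _ b => hq0' b, fun _ => hq1'⟩
  set φ : (Fin a → β) → ℝ := fun x => PE (fun _ : Fin b => q') (fun y => f x y) with hφ
  set E := PE (fun _ : Fin a => q) φ with hE
  have hφd : ∀ ω i c, φ (Function.update ω i c) - φ ω ≤ 1 := by
    intro x i c
    rw [hφ]
    simp only
    rw [← PE_sub]
    exact PE_le_of_le hw' fun y => hf x y i c
  have h1 := mgf_bounded hw φ hφd hs
  have hpt : ∀ x, PE (fun _ : Fin b => q') (fun y => Real.exp (s * (f x y - E))) ≤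
      Real.exp (s ^ 2 * b) * Real.exp (s * (φ x - E)) := by
    intro x
    have h2 := mgf_bounded hw' (fun y => f x y) (fun y i c => hf' x y i c) hs
    have h3 : (fun y => Real.exp (s * (f x y - E))) =
        fun y => Real.exp (s * (f x y - PE (fun _ : Fin b => q') (fun y => f x y))) *
          Real.exp (s * (φ x - E)) := by
      funext y
      rw [← Real.exp_add]
      congr 1
      rw [hφ]
      ring
    rw [h3, PE_mul_const]
    exact mul_le_mul_of_nonneg_right h2 (Real.exp_pos _).le
  refine (PE_mono hw hpt).trans ?_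
  rw [PE_const_mul]
  refine (mul_le_mul_of_nonneg_left h1 (Real.exp_pos _).le).trans (le_of_eq ?_)
  rw [← Real.exp_add]
  congr 1
  push_cast
  ring

end LCSH
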