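import Pool.Agent.Lib.MP_ae6bb1_pr.Coef
import Pool.Agent.Lib.MP_ae6bb1_pr.Decouple
import Pool.Agent.Lib.MP_ae6bb1_pr.FarPiv

/-! Decoupling of one pair of columns (proof document, section G2). -/

open Finset

namespace LCSH

variable {α : Type*} [Fintype α] [DecidableEq α] (L : Law α) {θ : ℝ} {T n : ℕ}

/-- both columns are pivotal -/
def PJ (x : Fin T → α) (y : Fin n → α) (ξ : Fin n → Bool) (j j' : ℕ) : Prop :=
  InJ (rl x y) (bt ξ) T n j ∧ InJ (rl x y) (bt ξ) T n j'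

/-- both columns are within 5 of the maximum -/
def PN (x : Fin T → α) (y : Fin n → α) (ξ : Fin n → Bool) (j j' : ℕ) : Prop :=
  NearC (rl x y) (bt ξ) T n 5 j ∧ NearC (rl x y) (bt ξ) T n 5 j'

/-- two distant sites within 5 of the maximum -/
def FF (x : Fin T → α) (y : Fin n → α) (ξ : Fin n → Bool) (w : ℕ) : Prop :=
  Far (prof (rl x y) T) (bt ξ) n 5 w

/-- the good event -/
def GG (x : Fin T → α) (y : Fin n → α) (ξ : Fin n → Bool) (h1 : ℕ) : Prop :=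
  Good (rl x y) (bt ξ) T n h1

omit [Fintype α] [DecidableEq α] in
private theorem PairBound_rmr_empty (m : ℕ → ℕ → Prop) : rmr ∅ m = m := by
  funext i j
  simp [rmr]

omit [Fintype α] [DecidableEq α] in
private theorem PairBound_near_mono {m : ℕ → ℕ → Prop} {b : ℕ → ℕ} {T n r r' j : ℕ}
    (h : NearC m b T n r j) (hr : r ≤ r') : NearC m b T n r' j := by
  unfold NearC at *
  omega

omit [Fintype α] [DecidableEq α] in
private theorem PairBound_card (j j' : ℕ) : ({j, j'} : Finset ℕ).card ≤ 2 := Finset.card_le_two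

omit [Fintype α] [DecidableEq α] in
/-- near columns of the environment with two emptied columns -/
private theorem PairBound_PN (x : Fin T → α) (y : Fin n → α) (ξ : Fin n → Bool) (j j' : Fin n)
    (R : Finset ℕ) (hR : R.card ≤ 1)
    (h : NearC (rmr R (rmc {(j : ℕ), (j' : ℕ)} (rl x y))) (rmb {(j : ℕ), (j' : ℕ)} (bt ξ)) T n 2 j)
    (h' : NearC (rmr R (rmc {(j : ℕ), (j' : ℕ)} (rl x y))) (rmb {(j : ℕ), (j' : ℕ)} (bt ξ)) T n 2
      j') : PN x y ξ j j' := by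
  have hc := PairBound_card (j : ℕ) (j' : ℕ)
  exact ⟨near_transfer _ _ (bt_le_one ξ) T n _ R (by omega) _ h,
    near_transfer _ _ (bt_le_one ξ) T n _ R (by omega) _ h'⟩

omit [Fintype α] [DecidableEq α] in
private theorem PairBound_PN0 (x : Fin T → α) (y : Fin n → α) (ξ : Fin n → Bool) (j j' : Fin n)
    (h : NearC (rmc {(j : ℕ), (j' : ℕ)} (rl x y)) (rmb {(j : ℕ), (j' : ℕ)} (bt ξ)) T n 2 j)
    (h' : NearC (rmc {(j : ℕ), (j' : ℕ)} (rl x y)) (rmb {(j : ℕ), (j' : ℕ)} (bt ξ)) T n 2 j') :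
    PN x y ξ j j' := by
  refine PairBound_PN x y ξ j j' ∅ (by simp) ?_ ?_
  · rw [PairBound_rmr_empty]
    exact h
  · rw [PairBound_rmr_empty]
    exact h'

/-- the three error events, pointwise -/
theorem pair_pointwise (x : Fin T → α) (y : Fin n → α) (ξ : Fin n → Bool) (j j' : Fin n)
    (hjj : j < j') (w0 : ℕ) :
    |ind (PJ x y ξ j j') -
      ind (InJ (rmc {(j : ℕ), (j' : ℕ)} (rl x y)) (rmb {(j : ℕ), (j' : ℕ)} (bt ξ)) T n j ∧
        InJ (rmc {(j : ℕ), (j' : ℕ)} (rl x y)) (rmb {(j : ℕ), (j' : ℕ)} (bt ξ)) T n j')| ≤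
    (ind (ξ j = true) + ind (ξ j' = true)) *
      ind (InJ (rmc {(j : ℕ), (j' : ℕ)} (rl x y)) (rmb {(j : ℕ), (j' : ℕ)} (bt ξ)) T n j ∧
        InJ (rmc {(j : ℕ), (j' : ℕ)} (rl x y)) (rmb {(j : ℕ), (j' : ℕ)} (bt ξ)) T n j') +
    (∑ r : Fin T, if T - ((r : ℕ) + 1) < w0 then
      ∑ i ∈ ({j, j'} : Finset (Fin n)), ind (x r = y i) *
        ind (NearC (rmr {(r : ℕ)} (rmc {(j : ℕ), (j' : ℕ)} (rl x y)))
              (rmb {(j : ℕ), (j' : ℕ)} (bt ξ)) T n 2 j ∧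
          NearC (rmr {(r : ℕ)} (rmc {(j : ℕ), (j' : ℕ)} (rl x y)))
              (rmb {(j : ℕ), (j' : ℕ)} (bt ξ)) T n 2 j' ∧
          Piv (rmr {(r : ℕ)} (rmc {(j : ℕ), (j' : ℕ)} (rl x y)))
              (rmb {(j : ℕ), (j' : ℕ)} (bt ξ)) T n r i) else 0) +
    ind (NearC (rmc {(j : ℕ), (j' : ℕ)} (rl x y)) (rmb {(j : ℕ), (j' : ℕ)} (bt ξ)) T n 1 j ∧
      NearC (rmc {(j : ℕ), (j' : ℕ)} (rl x y)) (rmb {(j : ℕ), (j' : ℕ)} (bt ξ)) T n 1 j' ∧
      ∃ r, r + 1 + w0 ≤ T ∧ ∃ i ∈ ({(j : ℕ), (j' : ℕ)} : Finset ℕ),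
        Piv (rmc {(j : ℕ), (j' : ℕ)} (rl x y)) (rmb {(j : ℕ), (j' : ℕ)} (bt ξ)) T n r i) := by
  have hlast := ind_nonneg (NearC (rmc {(j : ℕ), (j' : ℕ)} (rl x y))
      (rmb {(j : ℕ), (j' : ℕ)} (bt ξ)) T n 1 j ∧
      NearC (rmc {(j : ℕ), (j' : ℕ)} (rl x y)) (rmb {(j : ℕ), (j' : ℕ)} (bt ξ)) T n 1 j' ∧
      ∃ r, r + 1 + w0 ≤ T ∧ ∃ i ∈ ({(j : ℕ), (j' : ℕ)} : Finset ℕ),
        Piv (rmc {(j : ℕ), (j' : ℕ)} (rl x y)) (rmb {(j : ℕ), (j' : ℕ)} (bt ξ)) T n r i)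
  have hterm : ∀ (r : Fin T) (i : Fin n), 0 ≤ ind (x r = y i) *
        ind (NearC (rmr {(r : ℕ)} (rmc {(j : ℕ), (j' : ℕ)} (rl x y)))
              (rmb {(j : ℕ), (j' : ℕ)} (bt ξ)) T n 2 j ∧
          NearC (rmr {(r : ℕ)} (rmc {(j : ℕ), (j' : ℕ)} (rl x y)))
              (rmb {(j : ℕ), (j' : ℕ)} (bt ξ)) T n 2 j' ∧
          Piv (rmr {(r : ℕ)} (rmc {(j : ℕ), (j' : ℕ)} (rl x y)))
              (rmb {(j : ℕ), (j' : ℕ)} (bt ξ)) T n r i) :=
    fun r i => mul_nonneg (ind_nonneg _) (ind_nonneg _)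
  have hrow : ∀ r : Fin T, 0 ≤ (if T - ((r : ℕ) + 1) < w0 then
      ∑ i ∈ ({j, j'} : Finset (Fin n)), ind (x r = y i) *
        ind (NearC (rmr {(r : ℕ)} (rmc {(j : ℕ), (j' : ℕ)} (rl x y)))
              (rmb {(j : ℕ), (j' : ℕ)} (bt ξ)) T n 2 j ∧
          NearC (rmr {(r : ℕ)} (rmc {(j : ℕ), (j' : ℕ)} (rl x y)))
              (rmb {(j : ℕ), (j' : ℕ)} (bt ξ)) T n 2 j' ∧
          Piv (rmr {(r : ℕ)} (rmc {(j : ℕ), (j' : ℕ)} (rl x y)))
              (rmb {(j : ℕ), (j' : ℕ)} (bt ξ)) T n r i) else 0) := by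
    intro r
    split_ifs
    · exact Finset.sum_nonneg fun i _ => hterm r i
    · exact le_rfl
  have hsum := Finset.sum_nonneg fun (r : Fin T) (_ : r ∈ Finset.univ) => hrow r
  have hfirst : 0 ≤ (ind (ξ j = true) + ind (ξ j' = true)) *
      ind (InJ (rmc {(j : ℕ), (j' : ℕ)} (rl x y)) (rmb {(j : ℕ), (j' : ℕ)} (bt ξ)) T n j ∧
        InJ (rmc {(j : ℕ), (j' : ℕ)} (rl x y)) (rmb {(j : ℕ), (j' : ℕ)} (bt ξ)) T n j') :=
    mul_nonneg (add_nonneg (ind_nonneg _) (ind_nonneg _)) (ind_nonneg _)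
  by_cases hD : PJ x y ξ j j' ↔
      (InJ (rmc {(j : ℕ), (j' : ℕ)} (rl x y)) (rmb {(j : ℕ), (j' : ℕ)} (bt ξ)) T n j ∧
        InJ (rmc {(j : ℕ), (j' : ℕ)} (rl x y)) (rmb {(j : ℕ), (j' : ℕ)} (bt ξ)) T n j')
  · have e1 : ind (PJ x y ξ j j') =
        ind (InJ (rmc {(j : ℕ), (j' : ℕ)} (rl x y)) (rmb {(j : ℕ), (j' : ℕ)} (bt ξ)) T n j ∧
        InJ (rmc {(j : ℕ), (j' : ℕ)} (rl x y)) (rmb {(j : ℕ), (j' : ℕ)} (bt ξ)) T n j') := by
      rw [propext hD]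
    rw [e1, sub_self, abs_zero]
    exact add_nonneg (add_nonneg hfirst hsum) hlast
  · have hle : |ind (PJ x y ξ j j') -
      ind (InJ (rmc {(j : ℕ), (j' : ℕ)} (rl x y)) (rmb {(j : ℕ), (j' : ℕ)} (bt ξ)) T n j ∧
        InJ (rmc {(j : ℕ), (j' : ℕ)} (rl x y)) (rmb {(j : ℕ), (j' : ℕ)} (bt ξ)) T n j')| ≤ 1 := by
      rw [abs_le]
      constructor <;> linarith [ind_nonneg (PJ x y ξ j j'), ind_le_one (PJ x y ξ j j'),
        ind_nonneg (InJ (rmc {(j : ℕ), (j' : ℕ)} (rl x y))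
          (rmb {(j : ℕ), (j' : ℕ)} (bt ξ)) T n j ∧
          InJ (rmc {(j : ℕ), (j' : ℕ)} (rl x y)) (rmb {(j : ℕ), (j' : ℕ)} (bt ξ)) T n j'),
        ind_le_one (InJ (rmc {(j : ℕ), (j' : ℕ)} (rl x y))
          (rmb {(j : ℕ), (j' : ℕ)} (bt ξ)) T n j ∧
          InJ (rmc {(j : ℕ), (j' : ℕ)} (rl x y)) (rmb {(j : ℕ), (j' : ℕ)} (bt ξ)) T n j')]
    refine hle.trans ?_
    have hb1 : ∀ i : Fin n, bt ξ i = 1 → ξ i = true := by
      intro i hi
      unfold bt at hi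
      rw [dif_pos i.2] at hi
      cases h : ξ i
      · have : ξ ⟨(i : ℕ), i.2⟩ = false := h
        rw [this] at hi
        simp at hi
      · rfl
    rcases dichotomy (rl x y) (bt ξ) (bt_le_one ξ) T n j j' hjj j'.2 hD with
      ⟨hb, hJ⟩ | ⟨hN, hN', i, hi, r, hr, hm, hP⟩
    · have h1 : 1 ≤ ind (ξ j = true) + ind (ξ j' = true) := by
        rcases hb with hb | hb
        · rw [ind_of (hb1 j hb)]
          linarith [ind_nonneg (ξ j' = true)]
        · rw [ind_of (hb1 j' hb)]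
          linarith [ind_nonneg (ξ j = true)]
      have h2 : 1 ≤ (ind (ξ j = true) + ind (ξ j' = true)) *
        ind (InJ (rmc {(j : ℕ), (j' : ℕ)} (rl x y)) (rmb {(j : ℕ), (j' : ℕ)} (bt ξ)) T n j ∧
        InJ (rmc {(j : ℕ), (j' : ℕ)} (rl x y)) (rmb {(j : ℕ), (j' : ℕ)} (bt ξ)) T n j') := by
        rw [ind_of hJ, mul_one]
        exact h1
      linarith
    · by_cases hrw : T - (r + 1) < w0
      · obtain ⟨hr', hi', hxy⟩ := hm
        have hN2 := piv_rmr _ _ T n r i j hN hP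
        have hN2' := piv_rmr _ _ T n r i j' hN' hP
        have hmem : (⟨i, hi'⟩ : Fin n) ∈ ({j, j'} : Finset (Fin n)) := by
          rw [Finset.mem_insert, Finset.mem_singleton] at hi ⊢
          rcases hi with hi | hi
          · exact Or.inl (Fin.ext hi)
          · exact Or.inr (Fin.ext hi)
        have h3 := Finset.single_le_sum (f := fun r : Fin T => (if T - ((r : ℕ) + 1) < w0 then
            ∑ i ∈ ({j, j'} : Finset (Fin n)), ind (x r = y i) *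
            ind (NearC (rmr {(r : ℕ)} (rmc {(j : ℕ), (j' : ℕ)} (rl x y)))
              (rmb {(j : ℕ), (j' : ℕ)} (bt ξ)) T n 2 j ∧
            NearC (rmr {(r : ℕ)} (rmc {(j : ℕ), (j' : ℕ)} (rl x y)))
              (rmb {(j : ℕ), (j' : ℕ)} (bt ξ)) T n 2 j' ∧
            Piv (rmr {(r : ℕ)} (rmc {(j : ℕ), (j' : ℕ)} (rl x y)))
              (rmb {(j : ℕ), (j' : ℕ)} (bt ξ)) T n r i) else 0))
          (fun r _ => hrow r) (Finset.mem_univ (⟨r, hr⟩ : Fin T))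
        have h4 := Finset.single_le_sum (f := fun i : Fin n => ind (x ⟨r, hr⟩ = y i) *
            ind (NearC (rmr {r} (rmc {(j : ℕ), (j' : ℕ)} (rl x y)))
              (rmb {(j : ℕ), (j' : ℕ)} (bt ξ)) T n 2 j ∧
            NearC (rmr {r} (rmc {(j : ℕ), (j' : ℕ)} (rl x y)))
              (rmb {(j : ℕ), (j' : ℕ)} (bt ξ)) T n 2 j' ∧
            Piv (rmr {r} (rmc {(j : ℕ), (j' : ℕ)} (rl x y)))
              (rmb {(j : ℕ), (j' : ℕ)} (bt ξ)) T n r i))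
          (fun i _ => hterm ⟨r, hr⟩ i) hmem
        have h5 : ind (x ⟨r, hr⟩ = y ⟨i, hi'⟩) *
            ind (NearC (rmr {r} (rmc {(j : ℕ), (j' : ℕ)} (rl x y)))
              (rmb {(j : ℕ), (j' : ℕ)} (bt ξ)) T n 2 j ∧
            NearC (rmr {r} (rmc {(j : ℕ), (j' : ℕ)} (rl x y)))
              (rmb {(j : ℕ), (j' : ℕ)} (bt ξ)) T n 2 j' ∧
            Piv (rmr {r} (rmc {(j : ℕ), (j' : ℕ)} (rl x y)))
              (rmb {(j : ℕ), (j' : ℕ)} (bt ξ)) T n r ((⟨i, hi'⟩ : Fin n) : ℕ)) = 1 := by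
          rw [ind_of hxy, ind_of ⟨hN2.1, hN2'.1, hN2.2⟩, mul_one]
        simp only [] at h3 h4
        rw [if_pos hrw] at h3
        rw [h5] at h4
        have h6 := h4.trans h3
        linarith
      · have h7 : ind (NearC (rmc {(j : ℕ), (j' : ℕ)} (rl x y))
            (rmb {(j : ℕ), (j' : ℕ)} (bt ξ)) T n 1 j ∧
            NearC (rmc {(j : ℕ), (j' : ℕ)} (rl x y)) (rmb {(j : ℕ), (j' : ℕ)} (bt ξ)) T n 1 j' ∧
            ∃ r, r + 1 + w0 ≤ T ∧ ∃ i ∈ ({(j : ℕ), (j' : ℕ)} : Finset ℕ),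
            Piv (rmc {(j : ℕ), (j' : ℕ)} (rl x y)) (rmb {(j : ℕ), (j' : ℕ)} (bt ξ)) T n r i) = 1 :=
          ind_of ⟨hN, hN', r, by omega, i, hi, hP⟩
        rw [h7]
        linarith

/-- first error event -/
theorem pair_err1 (hθ : 1 / 2 ≤ θ) (j j' : Fin n) (hjj : j < j') :
    EE L θ T n (fun x y ξ => |ff L (y j) (y j')| * ((ind (ξ j = true) + ind (ξ j' = true)) *
      ind (InJ (rmc {(j : ℕ), (j' : ℕ)} (rl x y)) (rmb {(j : ℕ), (j' : ℕ)} (bt ξ)) T n j ∧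
        InJ (rmc {(j : ℕ), (j' : ℕ)} (rl x y)) (rmb {(j : ℕ), (j' : ℕ)} (bt ξ)) T n j'))) ≤
    8 * (L.sg ^ 3 * (L.et * L.kp)) * EE L θ T n (fun x y ξ => ind (PN x y ξ j j')) := by
  have hθ0 : 0 < θ := by linarith
  have hne : j ≠ j' := ne_of_lt hjj
  set g : (Fin T → α) → (Fin n → α) → (Fin n → Bool) → ℝ := fun x y ξ =>
    ind (InJ (rmc {(j : ℕ), (j' : ℕ)} (rl x y)) (rmb {(j : ℕ), (j' : ℕ)} (bt ξ)) T n j ∧
        InJ (rmc {(j : ℕ), (j' : ℕ)} (rl x y)) (rmb {(j : ℕ), (j' : ℕ)} (bt ξ)) T n j') with hg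
  have hi : IndC g j := by
    intro x y ξ a c
    simp only [hg]
    rw [rmc_rl_update _ x y j a (by simp), rmb_bt_update _ ξ j c (by simp)]
  have hi' : IndC g j' := by
    intro x y ξ a c
    simp only [hg]
    rw [rmc_rl_update _ x y j' a (by simp), rmb_bt_update _ ξ j' c (by simp)]
  have e1 := EE_dec2s L hθ0 (fun a b => |ff L a b|) g hne hi hi'
  have e2 := EE_dec2s L hθ0 (fun a b => |ff L b a|) g hne.symm hi' hi
  have c1 := ff_abs_rho L hθ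
  have e3 : (∑ a, ∑ a', L.p a * L.p a' * |ff L a' a| * L.rho θ a) =
      ∑ a, ∑ a', L.p a * L.p a' * |ff L a a'| * L.rho θ a := by
    refine Finset.sum_congr rfl fun a _ => Finset.sum_congr rfl fun b _ => ?_
    rw [ff_symm]
  have hg0 : 0 ≤ EE L θ T n g := EE_nonneg L hθ0 fun x y ξ => ind_nonneg _
  have hgle : EE L θ T n g ≤ EE L θ T n (fun x y ξ => ind (PN x y ξ j j')) := by
    refine EE_mono L hθ0 fun x y ξ => ind_mono fun h => ?_
    refine PairBound_PN0 x y ξ j j' ?_ ?_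
    · have := h.1
      unfold InJ at this
      unfold NearC
      omega
    · have := h.2
      unfold InJ at this
      unfold NearC
      omega
  have e4 : EE L θ T n (fun x y ξ => |ff L (y j) (y j')| *
      ((ind (ξ j = true) + ind (ξ j' = true)) * g x y ξ)) =
      EE L θ T n (fun x y ξ => |ff L (y j) (y j')| * ind (ξ j = true) * g x y ξ) +
      EE L θ T n (fun x y ξ => |ff L (y j) (y j')| * ind (ξ j' = true) * g x y ξ) := by
    rw [← EE_add]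
    congr 1
    funext x y ξ
    ring
  have e5 : EE L θ T n (fun x y ξ => |ff L (y j) (y j')| *
      ((ind (ξ j = true) + ind (ξ j' = true)) * g x y ξ)) =
      2 * (∑ a, ∑ a', L.p a * L.p a' * |ff L a a'| * L.rho θ a) * EE L θ T n g := by
    rw [e4]
    have e1' : EE L θ T n (fun x y ξ => |ff L (y j) (y j')| * ind (ξ j = true) * g x y ξ) =
      (∑ a, ∑ a', L.p a * L.p a' * |ff L a a'| * L.rho θ a) * EE L θ T n g := e1
    have e2' : EE L θ T n (fun x y ξ => |ff L (y j) (y j')| * ind (ξ j' = true) * g x y ξ) =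
      (∑ a, ∑ a', L.p a * L.p a' * |ff L a' a| * L.rho θ a) * EE L θ T n g := e2
    rw [e1', e2', e3]
    ring
  rw [e5]
  have hK : 0 ≤ L.sg ^ 3 * (L.et * L.kp) :=
    mul_nonneg (pow_nonneg (sg_pos L).le 3) (mul_nonneg (et_pos L).le (kp_pos L).le)
  calc 2 * (∑ a, ∑ a', L.p a * L.p a' * |ff L a a'| * L.rho θ a) * EE L θ T n g
      ≤ 8 * (L.sg ^ 3 * (L.et * L.kp)) * EE L θ T n g :=
        mul_le_mul_of_nonneg_right (by linarith) hg0
    _ ≤ 8 * (L.sg ^ 3 * (L.et * L.kp)) * EE L θ T n (fun x y ξ => ind (PN x y ξ j j')) :=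
        mul_le_mul_of_nonneg_left hgle (by linarith)

/-- second error event, one row `r` and one of the two columns -/
theorem pair_err2 (hθ : 1 / 2 ≤ θ) (hTn : T ≤ n) (j j' : Fin n) (hjj : j < j') (r : Fin T)
    (i : Fin n) (hi : i ∈ ({j, j'} : Finset (Fin n))) (h1 : ℕ) :
    EE L θ T n (fun x y ξ => |ff L (y j) (y j')| * (ind (x r = y i) *
        ind (NearC (rmr {(r : ℕ)} (rmc {(j : ℕ), (j' : ℕ)} (rl x y)))
              (rmb {(j : ℕ), (j' : ℕ)} (bt ξ)) T n 2 j ∧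
          NearC (rmr {(r : ℕ)} (rmc {(j : ℕ), (j' : ℕ)} (rl x y)))
              (rmb {(j : ℕ), (j' : ℕ)} (bt ξ)) T n 2 j' ∧
          Piv (rmr {(r : ℕ)} (rmc {(j : ℕ), (j' : ℕ)} (rl x y)))
              (rmb {(j : ℕ), (j' : ℕ)} (bt ξ)) T n r i))) ≤
    2 * (L.sg ^ 4 * (L.et * L.kp)) * (EE L θ T n (fun x y ξ => ind (PN x y ξ j j') *
        ind (h1 ≤ T - ((r : ℕ) + 1) → FF x y ξ ((T - ((r : ℕ) + 1)) / 2 ^ 30))) +
      EE L θ T n (fun x y ξ => ind (¬ GG x y ξ h1))) := by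
  have hθ0 : 0 < θ := by linarith
  have hne : j ≠ j' := ne_of_lt hjj
  set g : (Fin T → α) → (Fin n → α) → (Fin n → Bool) → ℝ := fun x y ξ =>
    ind (NearC (rmr {(r : ℕ)} (rmc {(j : ℕ), (j' : ℕ)} (rl x y)))
              (rmb {(j : ℕ), (j' : ℕ)} (bt ξ)) T n 2 j ∧
          NearC (rmr {(r : ℕ)} (rmc {(j : ℕ), (j' : ℕ)} (rl x y)))
              (rmb {(j : ℕ), (j' : ℕ)} (bt ξ)) T n 2 j' ∧
          Piv (rmr {(r : ℕ)} (rmc {(j : ℕ), (j' : ℕ)} (rl x y)))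
              (rmb {(j : ℕ), (j' : ℕ)} (bt ξ)) T n r i) with hg
  have hi1 : IndC g j := by
    intro x y ξ a c
    simp only [hg]
    rw [rmc_rl_update _ x y j a (by simp), rmb_bt_update _ ξ j c (by simp)]
  have hi1' : IndC g j' := by
    intro x y ξ a c
    simp only [hg]
    rw [rmc_rl_update _ x y j' a (by simp), rmb_bt_update _ ξ j' c (by simp)]
  have hir : IndR g r := by
    intro x y ξ a
    simp only [hg]
    rw [rmr_rmc_rl_update _ _ x y r a (by simp)]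
  have c1 := ff_abs_p L
  have hg0 : 0 ≤ EE L θ T n g := EE_nonneg L hθ0 fun x y ξ => ind_nonneg _
  have e1 : EE L θ T n (fun x y ξ => |ff L (y j) (y j')| * (ind (x r = y i) * g x y ξ)) =
      (∑ a, ∑ a', L.p a * L.p a' * |ff L a a'| * L.p a) * EE L θ T n g := by
    rw [Finset.mem_insert, Finset.mem_singleton] at hi
    rcases hi with rfl | rfl
    · have := EE_dec2r L hθ0 (fun a b => |ff L a b|) g hne hi1 hi1' hir
      rw [← this]
      congr 1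
      funext x y ξ
      ring
    · have := EE_dec2r L hθ0 (fun a b => |ff L b a|) g hne.symm hi1' hi1 hir
      have e3 : (∑ a, ∑ a', L.p a * L.p a' * |ff L a' a| * L.p a) =
          ∑ a, ∑ a', L.p a * L.p a' * |ff L a a'| * L.p a := by
        refine Finset.sum_congr rfl fun a _ => Finset.sum_congr rfl fun b _ => ?_
        rw [ff_symm]
      rw [e3] at this
      rw [← this]
      congr 1
      funext x y ξ
      ring
  have hgle : EE L θ T n g ≤ EE L θ T n (fun x y ξ => ind (PN x y ξ j j') *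
        ind (h1 ≤ T - ((r : ℕ) + 1) → FF x y ξ ((T - ((r : ℕ) + 1)) / 2 ^ 30))) +
      EE L θ T n (fun x y ξ => ind (¬ GG x y ξ h1)) := by
    rw [← EE_add]
    refine EE_mono L hθ0 fun x y ξ => ?_
    simp only [hg]
    have hnn : 0 ≤ ind (PN x y ξ j j') *
        ind (h1 ≤ T - ((r : ℕ) + 1) → FF x y ξ ((T - ((r : ℕ) + 1)) / 2 ^ 30)) :=
      mul_nonneg (ind_nonneg _) (ind_nonneg _)
    by_cases hE : NearC (rmr {(r : ℕ)} (rmc {(j : ℕ), (j' : ℕ)} (rl x y)))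
              (rmb {(j : ℕ), (j' : ℕ)} (bt ξ)) T n 2 j ∧
          NearC (rmr {(r : ℕ)} (rmc {(j : ℕ), (j' : ℕ)} (rl x y)))
              (rmb {(j : ℕ), (j' : ℕ)} (bt ξ)) T n 2 j' ∧
          Piv (rmr {(r : ℕ)} (rmc {(j : ℕ), (j' : ℕ)} (rl x y)))
              (rmb {(j : ℕ), (j' : ℕ)} (bt ξ)) T n r i
    · by_cases hGG : GG x y ξ h1
      · have hPN : PN x y ξ j j' := PairBound_PN x y ξ j j' {(r : ℕ)} (by simp) hE.1 hE.2.1
        have hF : h1 ≤ T - ((r : ℕ) + 1) → FF x y ξ ((T - ((r : ℕ) + 1)) / 2 ^ 30) := by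
          intro hh
          have hc := PairBound_card (j : ℕ) (j' : ℕ)
          have hrT := r.2
          have hNi : NearC (rmr {(r : ℕ)} (rmc {(j : ℕ), (j' : ℕ)} (rl x y)))
              (rmb {(j : ℕ), (j' : ℕ)} (bt ξ)) T n 2 i := by
            rw [Finset.mem_insert, Finset.mem_singleton] at hi
            rcases hi with hi | hi
            · rw [hi]
              exact hE.1
            · rw [hi]
              exact hE.2.1
          exact far_of_piv (rl x y) (bt ξ) (bt_le_one ξ) T n h1 r i {(j : ℕ), (j' : ℕ)} {(r : ℕ)}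
            (by rw [Finset.card_singleton]; omega) hTn hGG i.2 (by omega) hNi hE.2.2
        rw [ind_of hE, ind_of hPN, ind_of hF, mul_one]
        linarith [ind_nonneg (¬ GG x y ξ h1)]
      · rw [ind_of hGG]
        linarith [ind_le_one (NearC (rmr {(r : ℕ)} (rmc {(j : ℕ), (j' : ℕ)} (rl x y)))
              (rmb {(j : ℕ), (j' : ℕ)} (bt ξ)) T n 2 j ∧
          NearC (rmr {(r : ℕ)} (rmc {(j : ℕ), (j' : ℕ)} (rl x y)))
              (rmb {(j : ℕ), (j' : ℕ)} (bt ξ)) T n 2 j' ∧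
          Piv (rmr {(r : ℕ)} (rmc {(j : ℕ), (j' : ℕ)} (rl x y)))
              (rmb {(j : ℕ), (j' : ℕ)} (bt ξ)) T n r i)]
    · rw [ind_of_not hE]
      linarith [ind_nonneg (¬ GG x y ξ h1)]
  rw [e1]
  have hK : 0 ≤ L.sg ^ 4 * (L.et * L.kp) :=
    mul_nonneg (pow_nonneg (sg_pos L).le 4) (mul_nonneg (et_pos L).le (kp_pos L).le)
  calc (∑ a, ∑ a', L.p a * L.p a' * |ff L a a'| * L.p a) * EE L θ T n g
      ≤ 2 * (L.sg ^ 4 * (L.et * L.kp)) * EE L θ T n g := mul_le_mul_of_nonneg_right c1 hg0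
    _ ≤ _ := mul_le_mul_of_nonneg_left hgle (by linarith)

/-- third error event -/
theorem pair_err3 (hθ : 1 / 2 ≤ θ) (hTn : T ≤ n) (j j' : Fin n) (hjj : j < j') (h1 w0 : ℕ)
    (hw : h1 ≤ w0) :
    EE L θ T n (fun x y ξ => |ff L (y j) (y j')| *
      ind (NearC (rmc {(j : ℕ), (j' : ℕ)} (rl x y)) (rmb {(j : ℕ), (j' : ℕ)} (bt ξ)) T n 1 j ∧
      NearC (rmc {(j : ℕ), (j' : ℕ)} (rl x y)) (rmb {(j : ℕ), (j' : ℕ)} (bt ξ)) T n 1 j' ∧
      ∃ r, r + 1 + w0 ≤ T ∧ ∃ i ∈ ({(j : ℕ), (j' : ℕ)} : Finset ℕ),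
        Piv (rmc {(j : ℕ), (j' : ℕ)} (rl x y)) (rmb {(j : ℕ), (j' : ℕ)} (bt ξ)) T n r i)) ≤
    2 * (L.sg ^ 3 * L.kp) * (EE L θ T n (fun x y ξ => ind (PN x y ξ j j') *
        ind (FF x y ξ (w0 / 2 ^ 30))) +
      EE L θ T n (fun x y ξ => ind (¬ GG x y ξ h1))) := by
  have hθ0 : 0 < θ := by linarith
  have hne : j ≠ j' := ne_of_lt hjj
  set g : (Fin T → α) → (Fin n → α) → (Fin n → Bool) → ℝ := fun x y ξ =>
    ind (NearC (rmc {(j : ℕ), (j' : ℕ)} (rl x y)) (rmb {(j : ℕ), (j' : ℕ)} (bt ξ)) T n 1 j ∧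
      NearC (rmc {(j : ℕ), (j' : ℕ)} (rl x y)) (rmb {(j : ℕ), (j' : ℕ)} (bt ξ)) T n 1 j' ∧
      ∃ r, r + 1 + w0 ≤ T ∧ ∃ i ∈ ({(j : ℕ), (j' : ℕ)} : Finset ℕ),
        Piv (rmc {(j : ℕ), (j' : ℕ)} (rl x y)) (rmb {(j : ℕ), (j' : ℕ)} (bt ξ)) T n r i) with hg
  have hi1 : IndC g j := by
    intro x y ξ a c
    simp only [hg]
    rw [rmc_rl_update _ x y j a (by simp), rmb_bt_update _ ξ j c (by simp)]
  have hi1' : IndC g j' := by
    intro x y ξ a c
    simp only [hg]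
    rw [rmc_rl_update _ x y j' a (by simp), rmb_bt_update _ ξ j' c (by simp)]
  have c1 := ff_abs L
  have hg0 : 0 ≤ EE L θ T n g := EE_nonneg L hθ0 fun x y ξ => ind_nonneg _
  have e1 : EE L θ T n (fun x y ξ => |ff L (y j) (y j')| * g x y ξ) =
      (∑ a, ∑ a', L.p a * L.p a' * |ff L a a'|) * EE L θ T n g :=
    EE_dec2 L hθ0 (fun a b => |ff L a b|) g hne hi1 hi1'
  have hgle : EE L θ T n g ≤ EE L θ T n (fun x y ξ => ind (PN x y ξ j j') *
        ind (FF x y ξ (w0 / 2 ^ 30))) + EE L θ T n (fun x y ξ => ind (¬ GG x y ξ h1)) := by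
    rw [← EE_add]
    refine EE_mono L hθ0 fun x y ξ => ?_
    simp only [hg]
    have hnn : 0 ≤ ind (PN x y ξ j j') * ind (FF x y ξ (w0 / 2 ^ 30)) :=
      mul_nonneg (ind_nonneg _) (ind_nonneg _)
    by_cases hE : NearC (rmc {(j : ℕ), (j' : ℕ)} (rl x y))
        (rmb {(j : ℕ), (j' : ℕ)} (bt ξ)) T n 1 j ∧
      NearC (rmc {(j : ℕ), (j' : ℕ)} (rl x y)) (rmb {(j : ℕ), (j' : ℕ)} (bt ξ)) T n 1 j' ∧
      ∃ r, r + 1 + w0 ≤ T ∧ ∃ i ∈ ({(j : ℕ), (j' : ℕ)} : Finset ℕ),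
        Piv (rmc {(j : ℕ), (j' : ℕ)} (rl x y)) (rmb {(j : ℕ), (j' : ℕ)} (bt ξ)) T n r i
    · by_cases hGG : GG x y ξ h1
      · have hN2 := PairBound_near_mono hE.1 (show 1 ≤ 2 by norm_num)
        have hN2' := PairBound_near_mono hE.2.1 (show 1 ≤ 2 by norm_num)
        have hPN : PN x y ξ j j' := PairBound_PN0 x y ξ j j' hN2 hN2'
        obtain ⟨r, hr, i, hi, hP⟩ := hE.2.2
        have hF : FF x y ξ (w0 / 2 ^ 30) := by
          have hc := PairBound_card (j : ℕ) (j' : ℕ)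
          have hin : i < n := by
            rw [Finset.mem_insert, Finset.mem_singleton] at hi
            rcases hi with hi | hi
            · rw [hi]
              exact j.2
            · rw [hi]
              exact j'.2
          have hNi : NearC (rmr ∅ (rmc {(j : ℕ), (j' : ℕ)} (rl x y)))
              (rmb {(j : ℕ), (j' : ℕ)} (bt ξ)) T n 2 i := by
            rw [PairBound_rmr_empty]
            rw [Finset.mem_insert, Finset.mem_singleton] at hi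
            rcases hi with hi | hi
            · rw [hi]
              exact hN2
            · rw [hi]
              exact hN2'
          have hP' : Piv (rmr ∅ (rmc {(j : ℕ), (j' : ℕ)} (rl x y)))
              (rmb {(j : ℕ), (j' : ℕ)} (bt ξ)) T n r i := by
            rw [PairBound_rmr_empty]
            exact hP
          have hfar := far_of_piv (rl x y) (bt ξ) (bt_le_one ξ) T n h1 r i
            {(j : ℕ), (j' : ℕ)} ∅ (by rw [Finset.card_empty]; omega) hTn hGG hin (by omega) hNi hP'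
          exact Far_mono (Nat.div_le_div_right (by omega)) hfar
        rw [ind_of hE, ind_of hPN, ind_of hF, mul_one]
        linarith [ind_nonneg (¬ GG x y ξ h1)]
      · rw [ind_of hGG]
        linarith [ind_le_one (NearC (rmc {(j : ℕ), (j' : ℕ)} (rl x y))
          (rmb {(j : ℕ), (j' : ℕ)} (bt ξ)) T n 1 j ∧
          NearC (rmc {(j : ℕ), (j' : ℕ)} (rl x y)) (rmb {(j : ℕ), (j' : ℕ)} (bt ξ)) T n 1 j' ∧
          ∃ r, r + 1 + w0 ≤ T ∧ ∃ i ∈ ({(j : ℕ), (j' : ℕ)} : Finset ℕ),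
          Piv (rmc {(j : ℕ), (j' : ℕ)} (rl x y)) (rmb {(j : ℕ), (j' : ℕ)} (bt ξ)) T n r i)]
    · rw [ind_of_not hE]
      linarith [ind_nonneg (¬ GG x y ξ h1)]
  rw [e1]
  have hK : 0 ≤ L.sg ^ 3 * L.kp := mul_nonneg (pow_nonneg (sg_pos L).le 3) (kp_pos L).le
  calc (∑ a, ∑ a', L.p a * L.p a' * |ff L a a'|) * EE L θ T n g
      ≤ 2 * (L.sg ^ 3 * L.kp) * EE L θ T n g := mul_le_mul_of_nonneg_right c1 hg0
    _ ≤ _ := mul_le_mul_of_nonneg_left hgle (by linarith)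

end LCSH
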