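import Pool.Agent.Lib.MP_ae6bb1_pr.PairSum
import Pool.Agent.Lib.MP_ae6bb1_pr.NearMom

/-! Final estimate for pairs (proof document, section G4). -/

open Finset

namespace LCSH

private theorem PairEst_sum_inv_sqrt (w : ℕ) :
    ∑ h ∈ Finset.range (w + 1), 1 / Real.sqrt (h : ℝ) ≤ 2 * Real.sqrt w := by
  induction w with
  | zero => simp
  | succ w ih =>
    rw [Finset.sum_range_succ]
    have h1 : 0 < Real.sqrt ((w : ℝ) + 1) := Real.sqrt_pos.mpr (by positivity)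
    have h0 : 0 ≤ Real.sqrt (w : ℝ) := Real.sqrt_nonneg _
    have h2 : Real.sqrt ((w : ℝ) + 1) ^ 2 = w + 1 := Real.sq_sqrt (by positivity)
    have h3 : Real.sqrt (w : ℝ) ^ 2 = w := Real.sq_sqrt (by positivity)
    have h4 : 1 / Real.sqrt ((w : ℝ) + 1) ≤ 2 * Real.sqrt ((w : ℝ) + 1) - 2 * Real.sqrt w := by
      rw [div_le_iff₀ h1]
      nlinarith [sq_nonneg (Real.sqrt ((w : ℝ) + 1) - Real.sqrt w)]
    push_cast
    linarith

private theorem PairEst_sum_Ico (a w : ℕ) :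
    ∑ h ∈ Finset.Ico a w, 1 / Real.sqrt (h : ℝ) ≤ 2 * Real.sqrt w := by
  refine le_trans (Finset.sum_le_sum_of_subset_of_nonneg (t := Finset.range (w + 1)) ?_ ?_)
    (PairEst_sum_inv_sqrt w)
  · intro i hi
    rw [Finset.mem_Ico] at hi
    rw [Finset.mem_range]
    omega
  · intro i _ _
    positivity

private theorem PairEst_sqrt {s Λ : ℝ} {h w : ℕ} (hs : 0 < s) (hΛ : 1 ≤ Λ) (hw : 1 ≤ w)
    (hh : 1 ≤ h) (hhw : h ≤ 2 ^ 31 * w) :
    Real.sqrt (Λ / (s * w)) ≤ 2 ^ 16 * Λ / Real.sqrt s * (1 / Real.sqrt h) := by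
  have hw' : (0 : ℝ) < w := by exact_mod_cast hw
  have hh' : (0 : ℝ) < h := by exact_mod_cast hh
  have hhw' : (h : ℝ) ≤ 2 ^ 31 * w := by exact_mod_cast hhw
  have e1 : Real.sqrt s ^ 2 = s := Real.sq_sqrt hs.le
  have e2 : Real.sqrt (h : ℝ) ^ 2 = h := Real.sq_sqrt hh'.le
  rw [Real.sqrt_le_iff]
  refine ⟨by positivity, ?_⟩
  have e3 : (2 ^ 16 * Λ / Real.sqrt s * (1 / Real.sqrt h)) ^ 2 = 2 ^ 32 * Λ ^ 2 / (s * h) := by
    rw [mul_pow, div_pow, div_pow, e1, e2]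
    field_simp
  rw [e3, div_le_div_iff₀ (by positivity) (by positivity)]
  have h1 : (h : ℝ) ≤ 2 ^ 32 * (Λ * w) := by nlinarith
  calc Λ * (s * h) = (Λ * s) * h := by ring
    _ ≤ (Λ * s) * (2 ^ 32 * (Λ * w)) := mul_le_mul_of_nonneg_left h1 (by positivity)
    _ = _ := by ring

private theorem PairEst_w0 {s e Λ a b w : ℝ} (hs : 0 < s) (hs6 : s ≤ 1 / 10 ^ 6) (hse : s ≤ e)
    (hΛ : 1 ≤ Λ) (ha : a ≤ 3 * 10 ^ 6 * (Λ / s) - 10) (hb : b ≤ 2 / (s * e)) (hw : w ≤ a + b) :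
    w ≤ 3 * 10 ^ 6 * (Λ / s ^ 2) := by
  have he : 0 < e := lt_of_lt_of_le hs hse
  have h4 : 2 / (s * e) ≤ 2 * (Λ / s ^ 2) := by
    have h5 : 2 / (s * e) ≤ 2 / (s * s) :=
      div_le_div_of_nonneg_left (by norm_num) (by positivity)
        (mul_le_mul_of_nonneg_left hse hs.le)
    have h6 : 2 * (Λ / s ^ 2) = 2 / (s * s) * Λ := by
      field_simp
    rw [h6]
    exact h5.trans (le_mul_of_one_le_right (by positivity) hΛ)
  have h7 : Λ / s * 10 ^ 6 ≤ Λ / s ^ 2 := by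
    have h8 : Λ / s ^ 2 = Λ / s * (1 / s) := by
      field_simp
    rw [h8]
    refine mul_le_mul_of_nonneg_left ?_ (by positivity)
    rw [le_div_iff₀ hs]
    linarith
  have h9 : 0 < Λ / s ^ 2 := by positivity
  linarith

private theorem PairEst_final {s k e r Λ C1 C2 A S B : ℝ} (hs : 0 < s) (hs1 : s ≤ 1)
    (hsk : s ≤ k) (hke : k ≤ e) (hr : 0 < r) (hr1 : r ≤ 1) (hre : r ^ 2 = e) (hΛ : 1 ≤ Λ)
    (hC1 : 1 ≤ C1) (hC2 : 1 ≤ C2)
    (hA : A ≤ C1 * Λ ^ 4 / s ^ 2)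
    (hS : S ≤ (3 * 10 ^ 6 * C1 * (Λ ^ 5 / s ^ 3) +
      C2 * Λ ^ 4 / s ^ 2 * (2 ^ 18 * Λ / (s * r) + 2 / s)) + 3 * 10 ^ 6 * Λ * s ^ 28)
    (hB : B ≤ C2 * Λ ^ 4 / s ^ 2 * (2 ^ 16 * Λ * r + e) + s ^ 30) :
    8 * (s ^ 3 * (e * k)) * A + 4 * (s ^ 4 * (e * k)) * S + 2 * (s ^ 3 * k) * B ≤
      10 ^ 8 * (C1 + C2) * (s * k * r * Λ ^ 6) := by
  have hk : 0 < k := lt_of_lt_of_le hs hsk
  have he : 0 < e := lt_of_lt_of_le hk hke
  have her : e ≤ r := by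
    rw [← hre]
    nlinarith
  have hsr : s ≤ r := by linarith
  have hΛ0 : 0 < Λ := by linarith
  have hW : 0 < s * k * r := by positivity
  have l4 : Λ ^ 4 ≤ Λ ^ 6 := pow_le_pow_right₀ hΛ (by norm_num)
  have l5 : Λ ^ 5 ≤ Λ ^ 6 := pow_le_pow_right₀ hΛ (by norm_num)
  have l1 : Λ ≤ Λ ^ 6 := by
    calc Λ = Λ ^ 1 := (pow_one _).symm
      _ ≤ Λ ^ 6 := pow_le_pow_right₀ hΛ (by norm_num)
  have l0 : 1 ≤ Λ ^ 6 := one_le_pow₀ hΛ
  have t1 : 8 * (s ^ 3 * (e * k)) * A ≤ 8 * C1 * (s * k * r * Λ ^ 6) := by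
    calc 8 * (s ^ 3 * (e * k)) * A ≤ 8 * (s ^ 3 * (e * k)) * (C1 * Λ ^ 4 / s ^ 2) :=
          mul_le_mul_of_nonneg_left hA (by positivity)
      _ = 8 * C1 * (s * k) * (e * Λ ^ 4) := by
          field_simp
      _ ≤ 8 * C1 * (s * k) * (r * Λ ^ 6) := by
          refine mul_le_mul_of_nonneg_left ?_ (by positivity)
          exact mul_le_mul her l4 (by positivity) hr.le
      _ = _ := by ring
  have t2 : 4 * (s ^ 4 * (e * k)) * S ≤
      (12 * 10 ^ 6 * C1 + (2 ^ 20 + 8) * C2 + 12 * 10 ^ 6) * (s * k * r * Λ ^ 6) := by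
    calc 4 * (s ^ 4 * (e * k)) * S ≤ 4 * (s ^ 4 * (e * k)) * ((3 * 10 ^ 6 * C1 * (Λ ^ 5 / s ^ 3) +
          C2 * Λ ^ 4 / s ^ 2 * (2 ^ 18 * Λ / (s * r) + 2 / s)) + 3 * 10 ^ 6 * Λ * s ^ 28) :=
          mul_le_mul_of_nonneg_left hS (by positivity)
      _ = 12 * 10 ^ 6 * C1 * (s * k) * (e * Λ ^ 5) +
          (2 ^ 20 * C2 * (s * k) * (r * Λ ^ 5) + 8 * C2 * (s * k) * (e * Λ ^ 4)) +
          12 * 10 ^ 6 * (s * k) * ((s ^ 31 * e) * Λ) := by
          rw [← hre]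
          field_simp
          ring
      _ ≤ 12 * 10 ^ 6 * C1 * (s * k) * (r * Λ ^ 6) +
          (2 ^ 20 * C2 * (s * k) * (r * Λ ^ 6) + 8 * C2 * (s * k) * (r * Λ ^ 6)) +
          12 * 10 ^ 6 * (s * k) * (r * Λ ^ 6) := by
          have a1 : e * Λ ^ 5 ≤ r * Λ ^ 6 := mul_le_mul her l5 (by positivity) hr.le
          have a2 : r * Λ ^ 5 ≤ r * Λ ^ 6 := mul_le_mul_of_nonneg_left l5 hr.le
          have a3 : e * Λ ^ 4 ≤ r * Λ ^ 6 := mul_le_mul her l4 (by positivity) hr.le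
          have a4 : (s ^ 31 * e) * Λ ≤ r * Λ ^ 6 := by
            refine mul_le_mul ?_ l1 (by positivity) hr.le
            have : s ^ 31 ≤ 1 := pow_le_one₀ hs.le hs1
            nlinarith
          gcongr
      _ = _ := by ring
  have t3 : 2 * (s ^ 3 * k) * B ≤ ((2 ^ 17 + 2) * C2 + 2) * (s * k * r * Λ ^ 6) := by
    calc 2 * (s ^ 3 * k) * B ≤
          2 * (s ^ 3 * k) * (C2 * Λ ^ 4 / s ^ 2 * (2 ^ 16 * Λ * r + e) + s ^ 30) :=
          mul_le_mul_of_nonneg_left hB (by positivity)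
      _ = 2 ^ 17 * C2 * (s * k) * (r * Λ ^ 5) + 2 * C2 * (s * k) * (e * Λ ^ 4) +
          2 * (s * k) * (s ^ 31 * s) := by
          field_simp
      _ ≤ 2 ^ 17 * C2 * (s * k) * (r * Λ ^ 6) + 2 * C2 * (s * k) * (r * Λ ^ 6) +
          2 * (s * k) * (r * Λ ^ 6) := by
          have a2 : r * Λ ^ 5 ≤ r * Λ ^ 6 := mul_le_mul_of_nonneg_left l5 hr.le
          have a3 : e * Λ ^ 4 ≤ r * Λ ^ 6 := mul_le_mul her l4 (by positivity) hr.le
          have a4 : s ^ 31 * s ≤ r * Λ ^ 6 := by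
            have : s ^ 31 ≤ 1 := pow_le_one₀ hs.le hs1
            nlinarith
          gcongr
      _ = _ := by ring
  have hW' : 0 < s * k * r * Λ ^ 6 := by positivity
  have hfin : 8 * C1 + (12 * 10 ^ 6 * C1 + (2 ^ 20 + 8) * C2 + 12 * 10 ^ 6) +
      ((2 ^ 17 + 2) * C2 + 2) ≤ 10 ^ 8 * (C1 + C2) := by
    norm_num
    linarith
  calc _ ≤ 8 * C1 * (s * k * r * Λ ^ 6) +
        (12 * 10 ^ 6 * C1 + (2 ^ 20 + 8) * C2 + 12 * 10 ^ 6) * (s * k * r * Λ ^ 6) +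
        ((2 ^ 17 + 2) * C2 + 2) * (s * k * r * Λ ^ 6) := by linarith
    _ = (8 * C1 + (12 * 10 ^ 6 * C1 + (2 ^ 20 + 8) * C2 + 12 * 10 ^ 6) +
      ((2 ^ 17 + 2) * C2 + 2)) * (s * k * r * Λ ^ 6) := by ring
    _ ≤ _ := mul_le_mul_of_nonneg_right hfin hW'.le

theorem pair_est : ∃ C : ℝ, 1 ≤ C ∧ ∀ (α : Type) [Fintype α] [DecidableEq α] (L : Law α)
    (θ : ℝ) (T n : ℕ), Reg L θ T n →
    |EE L θ T n (fun x y ξ => ∑ j : Fin n, ∑ j' : Fin n,
      (if j < j' then ff L (y j) (y j') * ind (PJ x y ξ j j') else 0))| ≤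
    C * (L.sg * L.kp * Real.sqrt L.et * L.Lam ^ 6) := by
  obtain ⟨C1, hC1, hsq⟩ := near_sq
  obtain ⟨C2, hC2, hfar⟩ := near_far
  refine ⟨10 ^ 8 * (C1 + C2), by linarith, ?_⟩
  intro α _ _ L θ T n hR
  have hθ : 0 < θ := by linarith [hR.hθ]
  have hs := sg_pos L
  have hk := kp_pos L
  have he := et_pos L
  have he1 := et_le_one L
  have hL := one_le_Lam L
  have hs1 := sg_le_one L
  have hsk := sg_le_kp L
  have hke := kp_le_et L
  have hc : L.et ≤ 1 / 10 ^ 6 := hR.het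
  have hL0 : 0 < L.Lam := by linarith
  -- the two thresholds
  obtain ⟨h1, hh1⟩ : ∃ h1 : ℕ, h1 = ⌈2 * 10 ^ 6 * L.Lam / L.sg⌉₊ := ⟨_, rfl⟩
  obtain ⟨v0, hv0⟩ : ∃ v0 : ℕ, v0 = ⌈1 / (L.sg * L.et)⌉₊ := ⟨_, rfl⟩
  obtain ⟨w0, hw0⟩ : ∃ w0 : ℕ, w0 = max h1 v0 := ⟨_, rfl⟩
  have hh1l : 2 * 10 ^ 6 * L.Lam / L.sg ≤ h1 := by
    rw [hh1]
    exact Nat.le_ceil _
  have hone : 1 ≤ L.Lam / L.sg := by
    rw [le_div_iff₀ hs]
    linarith
  have hh1u : (h1 : ℝ) ≤ 3 * 10 ^ 6 * (L.Lam / L.sg) - 10 := by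
    have h3 : (h1 : ℝ) < 2 * 10 ^ 6 * L.Lam / L.sg + 1 := by
      rw [hh1]
      exact Nat.ceil_lt_add_one (by positivity)
    have h4 : 2 * 10 ^ 6 * L.Lam / L.sg = 2 * 10 ^ 6 * (L.Lam / L.sg) := by ring
    rw [h4] at h3
    linarith
  have hse : 0 < L.sg * L.et := mul_pos hs he
  have hse1 : 1 ≤ 1 / (L.sg * L.et) := by
    rw [le_div_iff₀ hse]
    nlinarith
  have hv0l : 1 / (L.sg * L.et) ≤ v0 := by
    rw [hv0]
    exact Nat.le_ceil _
  have hv0u : (v0 : ℝ) ≤ 2 / (L.sg * L.et) := by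
    have h3 : (v0 : ℝ) < 1 / (L.sg * L.et) + 1 := by
      rw [hv0]
      exact Nat.ceil_lt_add_one (by positivity)
    have h4 : 2 / (L.sg * L.et) = 2 * (1 / (L.sg * L.et)) := by ring
    rw [h4]
    linarith
  have hw : h1 ≤ w0 := by
    rw [hw0]
    exact le_max_left _ _
  have hvw : v0 ≤ w0 := by
    rw [hw0]
    exact le_max_right _ _
  have hbig : 2 ^ 30 ≤ h1 := by
    have h3 : (2 : ℝ) ^ 30 ≤ 2 * 10 ^ 6 * L.Lam / L.sg := by
      rw [le_div_iff₀ hs]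
      have : L.sg ≤ 1 / 10 ^ 6 := by linarith
      nlinarith
    have h4 : ((2 ^ 30 : ℕ) : ℝ) ≤ h1 := by
      push_cast
      linarith
    exact_mod_cast h4
  -- the good event
  have hG : EE L θ T n (fun x y ξ => ind (¬ GG x y ξ h1)) ≤ L.sg ^ 50 :=
    good_prob L hR h1 hh1l
  have hGn : (n : ℝ) ^ 2 * EE L θ T n (fun x y ξ => ind (¬ GG x y ξ h1)) ≤ L.sg ^ 30 := by
    have h3 : (n : ℝ) ^ 2 ≤ ((1 / L.sg) ^ 10) ^ 2 := pow_le_pow_left₀ (by positivity) hR.hn' 2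
    calc (n : ℝ) ^ 2 * EE L θ T n (fun x y ξ => ind (¬ GG x y ξ h1)) ≤
          (n : ℝ) ^ 2 * L.sg ^ 50 := mul_le_mul_of_nonneg_left hG (by positivity)
      _ ≤ ((1 / L.sg) ^ 10) ^ 2 * L.sg ^ 50 := mul_le_mul_of_nonneg_right h3 (by positivity)
      _ = _ := by
        field_simp
  have hA := hsq α L θ T n hR
  obtain ⟨A, hAdef⟩ : ∃ A : ℝ, A = EE L θ T n
      (fun x y ξ => (NN (prof (rl x y) T) (bt ξ) n 5 : ℝ) ^ 2) := ⟨_, rfl⟩
  -- the bound for one distance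
  have hfar' : ∀ h : ℕ, h1 ≤ h → EE L θ T n (fun x y ξ =>
      (NN (prof (rl x y) T) (bt ξ) n 5 : ℝ) ^ 2 * ind (FF x y ξ (h / 2 ^ 30))) ≤
      C2 * L.Lam ^ 4 / L.sg ^ 2 *
        (2 ^ 16 * L.Lam / Real.sqrt L.sg * (1 / Real.sqrt h) + L.et) := by
    intro h hh
    have h3 : 1 ≤ h / 2 ^ 30 := by omega
    have h4 : h ≤ 2 ^ 31 * (h / 2 ^ 30) := by omega
    refine (hfar α L θ T n hR (h / 2 ^ 30) h3).trans ?_
    refine mul_le_mul_of_nonneg_left ?_ (by positivity)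
    have h5 := PairEst_sqrt hs hL h3 (by omega : 1 ≤ h) h4
    linarith
  have hr0 : 0 < Real.sqrt L.et := Real.sqrt_pos.mpr he
  have hr1 : Real.sqrt L.et ≤ 1 := Real.sqrt_le_one.mpr he1
  have hre : Real.sqrt L.et ^ 2 = L.et := Real.sq_sqrt he.le
  have hss0 : 0 < Real.sqrt L.sg := Real.sqrt_pos.mpr hs
  have hss : Real.sqrt L.sg ^ 2 = L.sg := Real.sq_sqrt hs.le
  -- the third term
  have hB : (EE L θ T n (fun x y ξ => (NN (prof (rl x y) T) (bt ξ) n 5 : ℝ) ^ 2 *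
          ind (FF x y ξ (w0 / 2 ^ 30))) +
        (n : ℝ) ^ 2 * EE L θ T n (fun x y ξ => ind (¬ GG x y ξ h1))) ≤
      C2 * L.Lam ^ 4 / L.sg ^ 2 * (2 ^ 16 * L.Lam * Real.sqrt L.et + L.et) + L.sg ^ 30 := by
    refine add_le_add ((hfar' w0 hw).trans ?_) hGn
    refine mul_le_mul_of_nonneg_left ?_ (by positivity)
    have h3 : 1 / (Real.sqrt L.sg * Real.sqrt L.et) ≤ Real.sqrt w0 := by
      apply Real.le_sqrt_of_sq_le
      rw [div_pow, mul_pow, hss, hre, one_pow]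
      refine hv0l.trans ?_
      exact_mod_cast hvw
    have h4 : 1 / Real.sqrt w0 ≤ Real.sqrt L.sg * Real.sqrt L.et := by
      rw [div_le_iff₀ (lt_of_lt_of_le (by positivity) h3)]
      rw [div_le_iff₀ (by positivity)] at h3
      linarith
    have h5 : 2 ^ 16 * L.Lam / Real.sqrt L.sg * (1 / Real.sqrt w0) ≤
        2 ^ 16 * L.Lam / Real.sqrt L.sg * (Real.sqrt L.sg * Real.sqrt L.et) :=
      mul_le_mul_of_nonneg_left h4 (by positivity)
    have h6 : 2 ^ 16 * L.Lam / Real.sqrt L.sg * (Real.sqrt L.sg * Real.sqrt L.et) =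
        2 ^ 16 * L.Lam * Real.sqrt L.et := by
      field_simp
    linarith
  -- the second term
  have hS1 : ∑ h ∈ Finset.range h1, (EE L θ T n (fun x y ξ =>
      (NN (prof (rl x y) T) (bt ξ) n 5 : ℝ) ^ 2 * ind (h1 ≤ h → FF x y ξ (h / 2 ^ 30)))) ≤
      3 * 10 ^ 6 * C1 * (L.Lam ^ 5 / L.sg ^ 3) := by
    calc _ ≤ ∑ h ∈ Finset.range h1, (C1 * L.Lam ^ 4 / L.sg ^ 2) := by
          refine Finset.sum_le_sum fun h _ => ?_
          refine le_trans (EE_mono L hθ fun x y ξ => ?_) hA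
          have h3 : ind (h1 ≤ h → FF x y ξ (h / 2 ^ 30)) ≤ 1 := by
            unfold ind
            split_ifs <;> norm_num
          exact mul_le_of_le_one_right (by positivity) h3
      _ = h1 * (C1 * L.Lam ^ 4 / L.sg ^ 2) := by
          rw [Finset.sum_const, Finset.card_range, nsmul_eq_mul]
      _ ≤ (3 * 10 ^ 6 * (L.Lam / L.sg)) * (C1 * L.Lam ^ 4 / L.sg ^ 2) :=
          mul_le_mul_of_nonneg_right (by linarith) (by positivity)
      _ = _ := by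
          field_simp
  have hS2 : ∑ h ∈ Finset.Ico h1 w0, (EE L θ T n (fun x y ξ =>
      (NN (prof (rl x y) T) (bt ξ) n 5 : ℝ) ^ 2 * ind (h1 ≤ h → FF x y ξ (h / 2 ^ 30)))) ≤
      C2 * L.Lam ^ 4 / L.sg ^ 2 *
        (2 ^ 18 * L.Lam / (L.sg * Real.sqrt L.et) + 2 / L.sg) := by
    rcases le_or_gt v0 h1 with hcase | hcase
    · have h3 : w0 = h1 := by
        rw [hw0]
        exact max_eq_left hcase
      rw [h3, Finset.Ico_self, Finset.sum_empty]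
      positivity
    · have h3 : w0 = v0 := by
        rw [hw0]
        exact max_eq_right hcase.le
      have hw0u : (w0 : ℝ) ≤ 2 / (L.sg * L.et) := by
        rw [h3]
        exact hv0u
      have hsqw : Real.sqrt w0 ≤ 2 / (Real.sqrt L.sg * Real.sqrt L.et) := by
        rw [Real.sqrt_le_iff]
        refine ⟨by positivity, ?_⟩
        rw [div_pow, mul_pow, hss, hre]
        refine hw0u.trans ?_
        gcongr
        norm_num
      calc _ ≤ ∑ h ∈ Finset.Ico h1 w0, (C2 * L.Lam ^ 4 / L.sg ^ 2 *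
            (2 ^ 16 * L.Lam / Real.sqrt L.sg * (1 / Real.sqrt h) + L.et)) := by
            refine Finset.sum_le_sum fun h hh => ?_
            have hh' := (Finset.mem_Ico.mp hh).1
            refine le_trans (EE_mono L hθ fun x y ξ => ?_) (hfar' h hh')
            have h4 : (h1 ≤ h → FF x y ξ (h / 2 ^ 30)) ↔ FF x y ξ (h / 2 ^ 30) :=
              ⟨fun f => f hh', fun f _ => f⟩
            have h5 : ind (h1 ≤ h → FF x y ξ (h / 2 ^ 30)) = ind (FF x y ξ (h / 2 ^ 30)) := by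
              rw [propext h4]
            rw [h5]
        _ = C2 * L.Lam ^ 4 / L.sg ^ 2 * (2 ^ 16 * L.Lam / Real.sqrt L.sg *
            (∑ h ∈ Finset.Ico h1 w0, 1 / Real.sqrt (h : ℝ)) + ((w0 - h1 : ℕ) : ℝ) * L.et) := by
            rw [← Finset.mul_sum, Finset.sum_add_distrib, ← Finset.mul_sum, Finset.sum_const,
              Nat.card_Ico, nsmul_eq_mul]
        _ ≤ _ := by
            refine mul_le_mul_of_nonneg_left (add_le_add ?_ ?_) (by positivity)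
            · calc 2 ^ 16 * L.Lam / Real.sqrt L.sg *
                  (∑ h ∈ Finset.Ico h1 w0, 1 / Real.sqrt (h : ℝ)) ≤
                  2 ^ 16 * L.Lam / Real.sqrt L.sg *
                    (2 * (2 / (Real.sqrt L.sg * Real.sqrt L.et))) := by
                    refine mul_le_mul_of_nonneg_left ?_ (by positivity)
                    refine (PairEst_sum_Ico h1 w0).trans ?_
                    linarith
                _ = 2 ^ 18 * L.Lam / (Real.sqrt L.sg ^ 2 * Real.sqrt L.et) := by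
                    field_simp
                _ = _ := by rw [hss]
            · have h4 : ((w0 - h1 : ℕ) : ℝ) ≤ w0 := by exact_mod_cast Nat.sub_le _ _
              calc ((w0 - h1 : ℕ) : ℝ) * L.et ≤ 2 / (L.sg * L.et) * L.et :=
                    mul_le_mul_of_nonneg_right (h4.trans hw0u) he.le
                _ = _ := by
                    field_simp
  have hS3 : ∑ _h ∈ Finset.range w0,
      ((n : ℝ) ^ 2 * EE L θ T n (fun x y ξ => ind (¬ GG x y ξ h1))) ≤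
      3 * 10 ^ 6 * L.Lam * L.sg ^ 28 := by
    rw [Finset.sum_const, Finset.card_range, nsmul_eq_mul]
    have h3 : (w0 : ℝ) ≤ h1 + v0 := by
      have : w0 ≤ h1 + v0 := by
        rw [hw0]
        omega
      exact_mod_cast this
    have h10 : (w0 : ℝ) ≤ 3 * 10 ^ 6 * (L.Lam / L.sg ^ 2) :=
      PairEst_w0 hs (hsk.trans (hke.trans hc)) (hsk.trans hke) hL hh1u hv0u h3
    calc (w0 : ℝ) * ((n : ℝ) ^ 2 * EE L θ T n (fun x y ξ => ind (¬ GG x y ξ h1))) ≤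
          w0 * L.sg ^ 30 := mul_le_mul_of_nonneg_left hGn (by positivity)
      _ ≤ (3 * 10 ^ 6 * (L.Lam / L.sg ^ 2)) * L.sg ^ 30 :=
          mul_le_mul_of_nonneg_right h10 (by positivity)
      _ = _ := by
          field_simp
  have hS : (∑ h ∈ Finset.range w0,
      (EE L θ T n (fun x y ξ => (NN (prof (rl x y) T) (bt ξ) n 5 : ℝ) ^ 2 *
          ind (h1 ≤ h → FF x y ξ (h / 2 ^ 30))) +
        (n : ℝ) ^ 2 * EE L θ T n (fun x y ξ => ind (¬ GG x y ξ h1)))) ≤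
      (3 * 10 ^ 6 * C1 * (L.Lam ^ 5 / L.sg ^ 3) +
      C2 * L.Lam ^ 4 / L.sg ^ 2 * (2 ^ 18 * L.Lam / (L.sg * Real.sqrt L.et) + 2 / L.sg)) +
        3 * 10 ^ 6 * L.Lam * L.sg ^ 28 := by
    rw [Finset.sum_add_distrib]
    refine add_le_add ?_ hS3
    rw [Finset.range_eq_Ico, ← Finset.sum_Ico_consecutive _ (Nat.zero_le h1) hw,
      ← Finset.range_eq_Ico]
    exact add_le_add hS1 hS2
  refine (pairs_total L hR.hθ hR.T_le h1 w0 hw).trans ?_
  exact PairEst_final hs hs1 hsk hke hr0 hr1 hre hL hC1 hC2 hA hS hB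

end LCSH
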