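import Pool.Agent.Lib.MP_ae6bb1_pr.PairBound

/-! Sum over pairs of columns (proof document, section G3). -/

open Finset

namespace LCSH

variable {α : Type*} [Fintype α] [DecidableEq α] (L : Law α) {θ : ℝ} {T n : ℕ}

private noncomputable def PairSum_S (j j' : Fin n) (x : Fin T → α) (y : Fin n → α)
    (ξ : Fin n → Bool) : ℝ :=
  ind (InJ (rmc {(j : ℕ), (j' : ℕ)} (rl x y)) (rmb {(j : ℕ), (j' : ℕ)} (bt ξ)) T n j ∧
        InJ (rmc {(j : ℕ), (j' : ℕ)} (rl x y)) (rmb {(j : ℕ), (j' : ℕ)} (bt ξ)) T n j')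

private noncomputable def PairSum_E1 (j j' : Fin n) (x : Fin T → α) (y : Fin n → α)
    (ξ : Fin n → Bool) : ℝ :=
  (ind (ξ j = true) + ind (ξ j' = true)) *
      ind (InJ (rmc {(j : ℕ), (j' : ℕ)} (rl x y)) (rmb {(j : ℕ), (j' : ℕ)} (bt ξ)) T n j ∧
        InJ (rmc {(j : ℕ), (j' : ℕ)} (rl x y)) (rmb {(j : ℕ), (j' : ℕ)} (bt ξ)) T n j')

private noncomputable def PairSum_E2 (j j' : Fin n) (r : Fin T) (i : Fin n) (x : Fin T → α)
    (y : Fin n → α) (ξ : Fin n → Bool) : ℝ :=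
  ind (x r = y i) *
        ind (NearC (rmr {(r : ℕ)} (rmc {(j : ℕ), (j' : ℕ)} (rl x y)))
              (rmb {(j : ℕ), (j' : ℕ)} (bt ξ)) T n 2 j ∧
          NearC (rmr {(r : ℕ)} (rmc {(j : ℕ), (j' : ℕ)} (rl x y)))
              (rmb {(j : ℕ), (j' : ℕ)} (bt ξ)) T n 2 j' ∧
          Piv (rmr {(r : ℕ)} (rmc {(j : ℕ), (j' : ℕ)} (rl x y)))
              (rmb {(j : ℕ), (j' : ℕ)} (bt ξ)) T n r i)

private noncomputable def PairSum_E3 (j j' : Fin n) (w0 : ℕ) (x : Fin T → α)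
    (y : Fin n → α) (ξ : Fin n → Bool) : ℝ :=
  ind (NearC (rmc {(j : ℕ), (j' : ℕ)} (rl x y)) (rmb {(j : ℕ), (j' : ℕ)} (bt ξ)) T n 1 j ∧
      NearC (rmc {(j : ℕ), (j' : ℕ)} (rl x y)) (rmb {(j : ℕ), (j' : ℕ)} (bt ξ)) T n 1 j' ∧
      ∃ r, r + 1 + w0 ≤ T ∧ ∃ i ∈ ({(j : ℕ), (j' : ℕ)} : Finset ℕ),
        Piv (rmc {(j : ℕ), (j' : ℕ)} (rl x y)) (rmb {(j : ℕ), (j' : ℕ)} (bt ξ)) T n r i)

omit [Fintype α] [DecidableEq α] in
private theorem PairSum_reindex (F : ℕ → ℝ) (hF : ∀ k, 0 ≤ F k) (T w0 : ℕ) :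
    ∑ r : Fin T, (if T - ((r : ℕ) + 1) < w0 then F (T - ((r : ℕ) + 1)) else 0) ≤
      ∑ k ∈ Finset.range w0, F k := by
  have h1 : ∑ r : Fin T, (if T - ((r : ℕ) + 1) < w0 then F (T - ((r : ℕ) + 1)) else 0) =
      ∑ r ∈ Finset.range T, (if T - (r + 1) < w0 then F (T - (r + 1)) else 0) :=
    (Finset.sum_range (fun r => if T - (r + 1) < w0 then F (T - (r + 1)) else 0)).symm
  have h2 : ∑ r ∈ Finset.range T, (if T - (r + 1) < w0 then F (T - (r + 1)) else 0) =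
      ∑ k ∈ Finset.range T, (if k < w0 then F k else 0) := by
    rw [← Finset.sum_range_reflect (fun k => if k < w0 then F k else 0) T]
    refine Finset.sum_congr rfl fun r _ => ?_
    have e : T - (r + 1) = T - 1 - r := by omega
    rw [e]
  rw [h1, h2, ← Finset.sum_filter]
  refine Finset.sum_le_sum_of_subset_of_nonneg ?_ fun k _ _ => hF k
  intro k hk
  exact Finset.mem_range.2 (Finset.mem_filter.1 hk).2

/-- one pair -/
theorem pair_total (hθ : 1 / 2 ≤ θ) (hTn : T ≤ n) (j j' : Fin n) (hjj : j < j') (h1 w0 : ℕ)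
    (hw : h1 ≤ w0) :
    |EE L θ T n (fun x y ξ => ff L (y j) (y j') * ind (PJ x y ξ j j'))| ≤
    8 * (L.sg ^ 3 * (L.et * L.kp)) * EE L θ T n (fun x y ξ => ind (PN x y ξ j j')) +
    4 * (L.sg ^ 4 * (L.et * L.kp)) * (∑ h ∈ Finset.range w0,
      (EE L θ T n (fun x y ξ => ind (PN x y ξ j j') * ind (h1 ≤ h → FF x y ξ (h / 2 ^ 30))) +
        EE L θ T n (fun x y ξ => ind (¬ GG x y ξ h1)))) +
    2 * (L.sg ^ 3 * L.kp) * (EE L θ T n (fun x y ξ => ind (PN x y ξ j j') *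
        ind (FF x y ξ (w0 / 2 ^ 30))) +
      EE L θ T n (fun x y ξ => ind (¬ GG x y ξ h1))) := by
  have hθ0 : 0 < θ := by linarith
  have hne : j ≠ j' := ne_of_lt hjj
  have hi : IndC (PairSum_S (α := α) (T := T) j j') j := by
    intro x y ξ a c
    simp only [PairSum_S]
    rw [rmc_rl_update _ x y j a (by simp), rmb_bt_update _ ξ j c (by simp)]
  have hi' : IndC (PairSum_S (α := α) (T := T) j j') j' := by
    intro x y ξ a c
    simp only [PairSum_S]
    rw [rmc_rl_update _ x y j' a (by simp), rmb_bt_update _ ξ j' c (by simp)]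
  have h0 : EE L θ T n (fun x y ξ => ff L (y j) (y j') * PairSum_S j j' x y ξ) = 0 := by
    rw [EE_dec2 L hθ0 (ff L) (PairSum_S j j') hne hi hi', ff_mean, zero_mul]
  have h2 : EE L θ T n (fun x y ξ => ff L (y j) (y j') * ind (PJ x y ξ j j')) =
      EE L θ T n (fun x y ξ => ff L (y j) (y j') * ind (PJ x y ξ j j') -
        ff L (y j) (y j') * PairSum_S j j' x y ξ) := by
    rw [EE_sub, h0, sub_zero]
  have h3 : |EE L θ T n (fun x y ξ => ff L (y j) (y j') * ind (PJ x y ξ j j'))| ≤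
      EE L θ T n (fun x y ξ => |ff L (y j) (y j')| * PairSum_E1 j j' x y ξ +
        (∑ r : Fin T, if T - ((r : ℕ) + 1) < w0 then
          ∑ i ∈ ({j, j'} : Finset (Fin n)), |ff L (y j) (y j')| * PairSum_E2 j j' r i x y ξ else 0) +
        |ff L (y j) (y j')| * PairSum_E3 j j' w0 x y ξ) := by
    rw [h2]
    refine (abs_EE_le L hθ0 _).trans (EE_mono L hθ0 fun x y ξ => ?_)
    rw [← mul_sub, abs_mul]
    have h4 : |ind (PJ x y ξ j j') - PairSum_S j j' x y ξ| ≤ PairSum_E1 j j' x y ξ +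
        (∑ r : Fin T, if T - ((r : ℕ) + 1) < w0 then
          ∑ i ∈ ({j, j'} : Finset (Fin n)), PairSum_E2 j j' r i x y ξ else 0) +
        PairSum_E3 j j' w0 x y ξ := pair_pointwise x y ξ j j' hjj w0
    refine (mul_le_mul_of_nonneg_left h4 (abs_nonneg _)).trans (le_of_eq ?_)
    rw [mul_add, mul_add, Finset.mul_sum]
    congr 2
    refine Finset.sum_congr rfl fun r _ => ?_
    rw [mul_ite, mul_zero, Finset.mul_sum]
  refine h3.trans ?_
  rw [EE_add, EE_add, EE_sum]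
  have hK : 0 ≤ L.sg ^ 4 * (L.et * L.kp) :=
    mul_nonneg (pow_nonneg (sg_pos L).le 4) (mul_nonneg (et_pos L).le (kp_pos L).le)
  set F : ℕ → ℝ := fun h => EE L θ T n (fun x y ξ => ind (PN x y ξ j j') *
      ind (h1 ≤ h → FF x y ξ (h / 2 ^ 30))) + EE L θ T n (fun x y ξ => ind (¬ GG x y ξ h1)) with hF
  have hF0 : ∀ k, 0 ≤ F k := fun k =>
    add_nonneg (EE_nonneg L hθ0 fun x y ξ => mul_nonneg (ind_nonneg _) (ind_nonneg _))
      (EE_nonneg L hθ0 fun x y ξ => ind_nonneg _)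
  refine add_le_add (add_le_add (pair_err1 L hθ j j' hjj) ?_) (pair_err3 L hθ hTn j j' hjj h1 w0 hw)
  have h5 : ∀ r : Fin T, EE L θ T n (fun x y ξ => if T - ((r : ℕ) + 1) < w0 then
      ∑ i ∈ ({j, j'} : Finset (Fin n)), |ff L (y j) (y j')| * PairSum_E2 j j' r i x y ξ else 0) ≤
      (if T - ((r : ℕ) + 1) < w0 then
        4 * (L.sg ^ 4 * (L.et * L.kp)) * F (T - ((r : ℕ) + 1)) else 0) := by
    intro r
    by_cases hc : T - ((r : ℕ) + 1) < w0
    · simp only [if_pos hc]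
      rw [EE_sum]
      calc ∑ i ∈ ({j, j'} : Finset (Fin n)),
          EE L θ T n (fun x y ξ => |ff L (y j) (y j')| * PairSum_E2 j j' r i x y ξ)
          ≤ ∑ i ∈ ({j, j'} : Finset (Fin n)),
            2 * (L.sg ^ 4 * (L.et * L.kp)) * F (T - ((r : ℕ) + 1)) :=
          Finset.sum_le_sum fun i hi => pair_err2 L hθ hTn j j' hjj r i hi h1
        _ = 4 * (L.sg ^ 4 * (L.et * L.kp)) * F (T - ((r : ℕ) + 1)) := by
          rw [Finset.sum_const, Finset.card_pair hne, nsmul_eq_mul]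
          push_cast
          ring
    · simp only [if_neg hc]
      rw [EE_const L hθ0]
  refine (Finset.sum_le_sum fun r _ => h5 r).trans ?_
  have h6 := PairSum_reindex (fun k => 4 * (L.sg ^ 4 * (L.et * L.kp)) * F k)
    (fun k => mul_nonneg (by linarith) (hF0 k)) T w0
  refine h6.trans (le_of_eq ?_)
  rw [Finset.mul_sum]

omit [Fintype α] [DecidableEq α] in
/-- the number of near pairs is at most the square of the number of near columns -/
theorem sum_PN_le (x : Fin T → α) (y : Fin n → α) (ξ : Fin n → Bool) :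
    ∑ j : Fin n, ∑ j' : Fin n, (if j < j' then ind (PN x y ξ j j') else 0) ≤
      (NN (prof (rl x y) T) (bt ξ) n 5 : ℝ) ^ 2 := by
  classical
  have h1 : (NN (prof (rl x y) T) (bt ξ) n 5 : ℝ) =
      ∑ j : Fin n, ind (NearC (rl x y) (bt ξ) T n 5 j) := by
    unfold NN
    rw [Finset.card_filter, Nat.cast_sum]
    rw [Finset.sum_range (fun j => (((if Mf (prof (rl x y) T) (bt ξ) n ≤
      Vf (prof (rl x y) T) (bt ξ) n j + 5 then 1 else 0 : ℕ)) : ℝ))]
    refine Finset.sum_congr rfl fun j _ => ?_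
    by_cases h : NearC (rl x y) (bt ξ) T n 5 j
    · rw [ind_of h, if_pos (show Mf (prof (rl x y) T) (bt ξ) n ≤
        Vf (prof (rl x y) T) (bt ξ) n j + 5 from h), Nat.cast_one]
    · rw [ind_of_not h, if_neg (show ¬ Mf (prof (rl x y) T) (bt ξ) n ≤
        Vf (prof (rl x y) T) (bt ξ) n j + 5 from h), Nat.cast_zero]
  rw [h1, sq, Finset.sum_mul_sum]
  refine Finset.sum_le_sum fun j _ => Finset.sum_le_sum fun j' _ => ?_
  have hnn : 0 ≤ ind (NearC (rl x y) (bt ξ) T n 5 j) * ind (NearC (rl x y) (bt ξ) T n 5 j') :=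
    mul_nonneg (ind_nonneg _) (ind_nonneg _)
  split_ifs
  · by_cases h : PN x y ξ j j'
    · rw [ind_of h, ind_of h.1, ind_of h.2, mul_one]
    · rw [ind_of_not h]
      exact hnn
  · exact hnn

private def PairSum_Pr (n : ℕ) : Finset (Fin n × Fin n) := Finset.univ.filter (fun q => q.1 < q.2)

private theorem PairSum_eq (F : Fin n → Fin n → ℝ) :
    ∑ j : Fin n, ∑ j' : Fin n, (if j < j' then F j j' else 0) =
      ∑ q ∈ PairSum_Pr n, F q.1 q.2 := by
  unfold PairSum_Pr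
  rw [Finset.sum_filter, Fintype.sum_prod_type]

private theorem PairSum_card (n : ℕ) : ((PairSum_Pr n).card : ℝ) ≤ (n : ℝ) ^ 2 := by
  have h1 : (PairSum_Pr n).card ≤ n * n := by
    refine (Finset.card_filter_le _ _).trans (le_of_eq ?_)
    simp
  have h2 : ((PairSum_Pr n).card : ℝ) ≤ ((n * n : ℕ) : ℝ) := by exact_mod_cast h1
  rw [sq]
  push_cast at h2
  exact h2

omit [DecidableEq α] in
private theorem PairSum_W (hθ : 0 < θ) (W : (Fin T → α) → (Fin n → α) → (Fin n → Bool) → ℝ)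
    (hW : ∀ x y ξ, 0 ≤ W x y ξ) :
    ∑ q ∈ PairSum_Pr n, EE L θ T n (fun x y ξ => ind (PN x y ξ q.1 q.2) * W x y ξ) ≤
      EE L θ T n (fun x y ξ => (NN (prof (rl x y) T) (bt ξ) n 5 : ℝ) ^ 2 * W x y ξ) := by
  rw [← EE_sum]
  refine EE_mono L hθ fun x y ξ => ?_
  rw [← Finset.sum_mul]
  refine mul_le_mul_of_nonneg_right ?_ (hW x y ξ)
  rw [← PairSum_eq (fun j j' : Fin n => ind (PN x y ξ j j'))]
  exact sum_PN_le x y ξ

/-- all pairs -/
theorem pairs_total (hθ : 1 / 2 ≤ θ) (hTn : T ≤ n) (h1 w0 : ℕ) (hw : h1 ≤ w0) :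
    |EE L θ T n (fun x y ξ => ∑ j : Fin n, ∑ j' : Fin n,
      (if j < j' then ff L (y j) (y j') * ind (PJ x y ξ j j') else 0))| ≤
    8 * (L.sg ^ 3 * (L.et * L.kp)) *
      EE L θ T n (fun x y ξ => (NN (prof (rl x y) T) (bt ξ) n 5 : ℝ) ^ 2) +
    4 * (L.sg ^ 4 * (L.et * L.kp)) * (∑ h ∈ Finset.range w0,
      (EE L θ T n (fun x y ξ => (NN (prof (rl x y) T) (bt ξ) n 5 : ℝ) ^ 2 *
          ind (h1 ≤ h → FF x y ξ (h / 2 ^ 30))) +
        (n : ℝ) ^ 2 * EE L θ T n (fun x y ξ => ind (¬ GG x y ξ h1)))) +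
    2 * (L.sg ^ 3 * L.kp) *
      (EE L θ T n (fun x y ξ => (NN (prof (rl x y) T) (bt ξ) n 5 : ℝ) ^ 2 *
          ind (FF x y ξ (w0 / 2 ^ 30))) +
        (n : ℝ) ^ 2 * EE L θ T n (fun x y ξ => ind (¬ GG x y ξ h1))) := by
  have hθ0 : 0 < θ := by linarith
  have hs := (sg_pos L).le
  have he := (et_pos L).le
  have hk := (kp_pos L).le
  have hG : 0 ≤ EE L θ T n (fun x y ξ => ind (¬ GG x y ξ h1)) :=
    EE_nonneg L hθ0 fun x y ξ => ind_nonneg _
  have hcard := PairSum_card n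
  have hGc : ((PairSum_Pr n).card : ℝ) * EE L θ T n (fun x y ξ => ind (¬ GG x y ξ h1)) ≤
      (n : ℝ) ^ 2 * EE L θ T n (fun x y ξ => ind (¬ GG x y ξ h1)) :=
    mul_le_mul_of_nonneg_right hcard hG
  have h2 : (fun (x : Fin T → α) (y : Fin n → α) (ξ : Fin n → Bool) =>
      ∑ j : Fin n, ∑ j' : Fin n,
      (if j < j' then ff L (y j) (y j') * ind (PJ x y ξ j j') else 0)) =
      fun x y ξ => ∑ q ∈ PairSum_Pr n, ff L (y q.1) (y q.2) * ind (PJ x y ξ q.1 q.2) := by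
    funext x y ξ
    exact PairSum_eq (fun j j' : Fin n => ff L (y j) (y j') * ind (PJ x y ξ j j'))
  rw [h2, EE_sum]
  refine (Finset.abs_sum_le_sum_abs _ _).trans ?_
  refine (Finset.sum_le_sum fun q hq => pair_total L hθ hTn q.1 q.2
    (Finset.mem_filter.1 hq).2 h1 w0 hw).trans ?_
  rw [Finset.sum_add_distrib, Finset.sum_add_distrib, ← Finset.mul_sum, ← Finset.mul_sum,
    ← Finset.mul_sum]
  refine add_le_add (add_le_add ?_ ?_) ?_
  · refine mul_le_mul_of_nonneg_left ?_ (by positivity)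
    have h3 := PairSum_W (T := T) (n := n) L hθ0 (fun _ _ _ => 1) (fun _ _ _ => zero_le_one)
    simp only [mul_one] at h3
    exact h3
  · refine mul_le_mul_of_nonneg_left ?_ (by positivity)
    rw [Finset.sum_comm]
    refine Finset.sum_le_sum fun h _ => ?_
    rw [Finset.sum_add_distrib, Finset.sum_const, nsmul_eq_mul]
    exact add_le_add (PairSum_W L hθ0 _ fun x y ξ => ind_nonneg _) hGc
  · refine mul_le_mul_of_nonneg_left ?_ (by positivity)
    rw [Finset.sum_add_distrib, Finset.sum_const, nsmul_eq_mul]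
    exact add_le_add (PairSum_W L hθ0 _ fun x y ξ => ind_nonneg _) hGc

end LCSH
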