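import Pool.Agent.Lib.MP_ae6bb1_pr.EEBasic
import Pool.Agent.Lib.MP_ae6bb1_pr.LpBasic

/-! Sub-rectangles and windows of columns (proof document, section F1). -/

open Finset

namespace LCSH

variable {α : Type*} [Fintype α] [DecidableEq α] (L : Law α) {θ : ℝ} {T n : ℕ}

/-- expectation of a function of the last passage value of an `h × u` rectangle -/
noncomputable def ER (L : Law α) (h u : ℕ) (φ : ℕ → ℝ) : ℝ :=
  PE (fun _ : Fin h => L.p) fun x => PE (fun _ : Fin u => L.p) fun y => φ (lp (rl x y) 0 h 0 u)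

omit [DecidableEq α] in
private theorem Rect_isW {ι : Type*} (L : Law α) : IsW (fun _ : ι => L.p) :=
  ⟨fun _ b => L.nonneg b, fun _ => L.sum_one⟩

theorem ER_mono {h u : ℕ} {φ ψ : ℕ → ℝ} (H : ∀ k, φ k ≤ ψ k) : ER L h u φ ≤ ER L h u ψ :=
  PE_mono (Rect_isW L) fun _ => PE_mono (Rect_isW L) fun _ => H _

omit [DecidableEq α] in
/-- no sources: the innermost expectation is trivial -/
private theorem Rect_EE_noxi (hθ : 0 < θ) (f : (Fin T → α) → (Fin n → α) → ℝ) :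
    EE L θ T n (fun x y _ => f x y) =
      PE (fun _ : Fin T => L.p) fun x => PE (fun _ : Fin n => L.p) fun y => f x y := by
  unfold EE
  congr 1
  funext x
  congr 1
  funext y
  exact PE_const (isW_rho L hθ y) _

omit [Fintype α] [DecidableEq α] in
private theorem Rect_rl_shift {T' n' : ℕ} (x : Fin T → α) (y : Fin n → α) {h a : ℕ}
    (ha : ∀ i < h, i + a < T) {u c : ℕ} (hc : ∀ j < u, j + c < n) (x' : Fin T' → α)
    (y' : Fin n' → α) (hT' : h ≤ T') (hn' : u ≤ n')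
    (hx : ∀ i (hi : i < h), x' ⟨i, lt_of_lt_of_le hi hT'⟩ = x ⟨i + a, ha i hi⟩)
    (hy : ∀ j (hj : j < u), y' ⟨j, lt_of_lt_of_le hj hn'⟩ = y ⟨j + c, hc j hj⟩) :
    lp (rl x y) a (a + h) c (c + u) = lp (rl x' y') 0 h 0 u := by
  have h1 := lp_shift (rl x y) a c 0 h 0 u
  rw [zero_add, zero_add] at h1
  rw [add_comm a h, add_comm c u, ← h1]
  refine lp_congr fun i j _ hi _ hj => ?_
  unfold rl
  constructor
  · rintro ⟨h2, h3, h4⟩
    refine ⟨lt_of_lt_of_le hi hT', lt_of_lt_of_le hj hn', ?_⟩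
    rw [hx i hi, hy j hj]
    exact h4
  · rintro ⟨h2, h3, h4⟩
    refine ⟨ha i hi, hc j hj, ?_⟩
    rw [← hx i hi, ← hy j hj]
    exact h4

/-- law of the last passage value of a sub-rectangle -/
theorem EE_rect (hθ : 0 < θ) (a h c u : ℕ) (ha : a + h ≤ T) (hc : c + u ≤ n) (φ : ℕ → ℝ) :
    EE L θ T n (fun x y _ => φ (lp (rl x y) a (a + h) c (c + u))) = ER L h u φ := by
  rw [Rect_EE_noxi L hθ]
  have hea : ∀ k < h, k + a < T := fun k hk => by omega
  have hec : ∀ k < u, k + c < n := fun k hk => by omega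
  obtain ⟨e, he⟩ : ∃ e : Fin h → Fin T, e = fun k => ⟨k + a, hea k k.2⟩ := ⟨_, rfl⟩
  obtain ⟨e', he'⟩ : ∃ e' : Fin u → Fin n, e' = fun k => ⟨k + c, hec k k.2⟩ := ⟨_, rfl⟩
  have hei : Function.Injective e := by
    intro i j hij
    rw [he] at hij
    simp only [Fin.mk.injEq] at hij
    exact Fin.ext (by omega)
  have hei' : Function.Injective e' := by
    intro i j hij
    rw [he'] at hij
    simp only [Fin.mk.injEq] at hij
    exact Fin.ext (by omega)
  have h1 : ∀ (x : Fin T → α) (y : Fin n → α), lp (rl x y) a (a + h) c (c + u) =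
      lp (rl (fun k => x (e k)) (fun k => y (e' k))) 0 h 0 u := by
    intro x y
    refine Rect_rl_shift x y hea hec _ _ le_rfl le_rfl (fun i hi => ?_) (fun j hj => ?_)
    · rw [he]
    · rw [he']
  simp_rw [h1]
  have h2 : ∀ x : Fin T → α, PE (fun _ : Fin n => L.p)
      (fun y => φ (lp (rl (fun k => x (e k)) (fun k => y (e' k))) 0 h 0 u)) =
      PE (fun _ : Fin u => L.p) (fun y => φ (lp (rl (fun k => x (e k)) y) 0 h 0 u)) := fun x =>
    PE_marginal (Rect_isW L) e' hei' (fun y => φ (lp (rl (fun k => x (e k)) y) 0 h 0 u))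
  simp_rw [h2]
  exact PE_marginal (Rect_isW L) e hei
    (fun x => PE (fun _ : Fin u => L.p) (fun y => φ (lp (rl x y) 0 h 0 u)))

/-- two independent sub-rectangles (rows and columns disjoint) -/
theorem EE_rect_mul (hθ : 0 < θ) (h1 h2 u1 u2 : ℕ) (ha : h1 + h2 ≤ T) (hc : u1 + u2 ≤ n)
    (φ ψ : ℕ → ℝ) :
    EE L θ T n (fun x y _ => φ (lp (rl x y) 0 h1 0 u1) *
      ψ (lp (rl x y) h1 (h1 + h2) u1 (u1 + u2))) = ER L h1 u1 φ * ER L h2 u2 ψ := by
  rw [Rect_EE_noxi L hθ]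
  obtain ⟨e, he⟩ : ∃ e : Fin (h1 + h2) → Fin T, e = Fin.castLE ha := ⟨_, rfl⟩
  obtain ⟨e', he'⟩ : ∃ e' : Fin (u1 + u2) → Fin n, e' = Fin.castLE hc := ⟨_, rfl⟩
  have hei : Function.Injective e := by rw [he]; exact Fin.castLE_injective ha
  have hei' : Function.Injective e' := by rw [he']; exact Fin.castLE_injective hc
  have h3 : ∀ (x : Fin T → α) (y : Fin n → α), ∀ a b c d, b ≤ h1 + h2 → d ≤ u1 + u2 →
      lp (rl x y) a b c d = lp (rl (fun k => x (e k)) (fun k => y (e' k))) a b c d := by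
    intro x y a b c d hb hd
    refine lp_congr fun i j _ hi _ hj => ?_
    unfold rl
    rw [he, he']
    constructor
    · rintro ⟨_, _, h4⟩
      exact ⟨by omega, by omega, h4⟩
    · rintro ⟨_, _, h4⟩
      exact ⟨by omega, by omega, h4⟩
  have h4 : ∀ (x : Fin T → α) (y : Fin n → α), φ (lp (rl x y) 0 h1 0 u1) *
      ψ (lp (rl x y) h1 (h1 + h2) u1 (u1 + u2)) =
      φ (lp (rl (fun k => x (e k)) (fun k => y (e' k))) 0 h1 0 u1) *
        ψ (lp (rl (fun k => x (e k)) (fun k => y (e' k))) h1 (h1 + h2) u1 (u1 + u2)) := by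
    intro x y
    rw [← h3 x y 0 h1 0 u1 (by omega) (by omega),
      ← h3 x y h1 (h1 + h2) u1 (u1 + u2) le_rfl le_rfl]
  simp_rw [h4]
  have h5 : ∀ x : Fin T → α, PE (fun _ : Fin n => L.p)
      (fun y => φ (lp (rl (fun k => x (e k)) (fun k => y (e' k))) 0 h1 0 u1) *
        ψ (lp (rl (fun k => x (e k)) (fun k => y (e' k))) h1 (h1 + h2) u1 (u1 + u2))) =
      PE (fun _ : Fin (u1 + u2) => L.p) (fun y => φ (lp (rl (fun k => x (e k)) y) 0 h1 0 u1) *
        ψ (lp (rl (fun k => x (e k)) y) h1 (h1 + h2) u1 (u1 + u2))) := fun x =>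
    PE_marginal (Rect_isW L) e' hei' (fun y => φ (lp (rl (fun k => x (e k)) y) 0 h1 0 u1) *
        ψ (lp (rl (fun k => x (e k)) y) h1 (h1 + h2) u1 (u1 + u2)))
  simp_rw [h5]
  have h6 := PE_marginal (w := fun _ : Fin T => L.p) (Rect_isW L) e hei
    (fun x => PE (fun _ : Fin (u1 + u2) => L.p) (fun y => φ (lp (rl x y) 0 h1 0 u1) *
        ψ (lp (rl x y) h1 (h1 + h2) u1 (u1 + u2))))
  refine h6.trans ?_
  rw [PE_append]
  simp_rw [PE_append]
  have h7 : ∀ (x1 : Fin h1 → α) (x2 : Fin h2 → α) (y1 : Fin u1 → α) (y2 : Fin u2 → α),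
      lp (rl (Fin.append x1 x2) (Fin.append y1 y2)) 0 h1 0 u1 = lp (rl x1 y1) 0 h1 0 u1 := by
    intro x1 x2 y1 y2
    refine lp_congr fun i j _ hi _ hj => ?_
    unfold rl
    have e1 : ∀ hi', Fin.append x1 x2 ⟨i, hi'⟩ = x1 ⟨i, hi⟩ := fun hi' =>
      Fin.append_left x1 x2 ⟨i, hi⟩
    have e2 : ∀ hj', Fin.append y1 y2 ⟨j, hj'⟩ = y1 ⟨j, hj⟩ := fun hj' =>
      Fin.append_left y1 y2 ⟨j, hj⟩
    constructor
    · rintro ⟨h8, h9, h10⟩
      rw [e1, e2] at h10
      exact ⟨hi, hj, h10⟩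
    · rintro ⟨h8, h9, h10⟩
      refine ⟨by omega, by omega, ?_⟩
      rw [e1, e2]
      exact h10
  have h8 : ∀ (x1 : Fin h1 → α) (x2 : Fin h2 → α) (y1 : Fin u1 → α) (y2 : Fin u2 → α),
      lp (rl (Fin.append x1 x2) (Fin.append y1 y2)) h1 (h1 + h2) u1 (u1 + u2) =
        lp (rl x2 y2) 0 h2 0 u2 := by
    intro x1 x2 y1 y2
    refine Rect_rl_shift (T := h1 + h2) (n := u1 + u2) (Fin.append x1 x2) (Fin.append y1 y2)
      (fun i hi => by omega) (fun j hj => by omega) x2 y2 le_rfl le_rfl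
      (fun i hi => ?_) (fun j hj => ?_)
    · have e1 := Fin.append_right x1 x2 ⟨i, hi⟩
      rw [← e1]
      congr 1
      ext
      simp [add_comm]
    · have e1 := Fin.append_right y1 y2 ⟨j, hj⟩
      rw [← e1]
      congr 1
      ext
      simp [add_comm]
  simp_rw [h7, h8, PE_const_mul, PE_mul_const, PE_const_mul]
  rw [PE_mul_const]
  rfl

private theorem Rect_prod_window (c u : ℕ) (hc : c + u ≤ n) (F : ℕ → ℝ) :
    ∏ j : Fin n, (if (j : ℕ) ∈ Ico c (c + u) then F j else 1) = ∏ l ∈ Ico c (c + u), F l := by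
  rw [Fin.prod_univ_eq_prod_range (fun l => if l ∈ Ico c (c + u) then F l else 1) n,
    Finset.prod_ite_mem]
  congr 1
  ext l
  simp only [mem_inter, mem_range, mem_Ico]
  omega

/-- exponential moment of the number of sources in a window of columns -/
theorem EE_window_mgf (hθ : 0 < θ) (c u : ℕ) (hc : c + u ≤ n) (s : ℝ) :
    EE L θ T n (fun _ _ ξ => Real.exp (s * ((∑ l ∈ Finset.Ico c (c + u), bt ξ l : ℕ) : ℝ))) =
      (1 + L.rb θ * (Real.exp s - 1)) ^ u := by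
  obtain ⟨gB, hgB⟩ : ∃ gB : Fin n → Bool → ℝ, gB = fun (j : Fin n) (b : Bool) =>
    if (j : ℕ) ∈ Ico c (c + u) then Real.exp (s * (b.toNat : ℝ)) else 1 := ⟨_, rfl⟩
  obtain ⟨gA, hgA⟩ : ∃ gA : Fin n → α → ℝ, gA = fun (j : Fin n) (a : α) =>
    if (j : ℕ) ∈ Ico c (c + u) then 1 + L.rho θ a * (Real.exp s - 1) else 1 := ⟨_, rfl⟩
  have h1 : ∀ ξ : Fin n → Bool, Real.exp (s * ((∑ l ∈ Finset.Ico c (c + u), bt ξ l : ℕ) : ℝ)) =
      ∏ j : Fin n, gB j (ξ j) := by
    intro ξ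
    rw [Nat.cast_sum, mul_sum, Real.exp_sum,
      ← Rect_prod_window c u hc (fun l => Real.exp (s * (bt ξ l : ℝ)))]
    refine prod_congr rfl fun j _ => ?_
    have h2 : bt ξ j = (ξ j).toNat := by
      unfold bt
      rw [dif_pos j.2]
    rw [hgB, h2]
  unfold EE
  simp_rw [h1]
  have h2 : ∀ y : Fin n → α, PE (fun j : Fin n => bw (L.rho θ (y j)))
      (fun ξ => ∏ j : Fin n, gB j (ξ j)) = ∏ j : Fin n, gA j (y j) := by
    intro y
    rw [PE_prod]
    refine prod_congr rfl fun j _ => ?_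
    rw [Fintype.sum_bool, hgB, hgA]
    unfold bw
    simp only [if_true, Bool.toNat_true, Nat.cast_one, mul_one, Bool.toNat_false, Nat.cast_zero,
      mul_zero, Real.exp_zero, Bool.false_eq_true, if_false]
    split_ifs
    · ring
    · ring
  simp_rw [h2]
  have h3 : PE (fun _ : Fin n => L.p) (fun y => ∏ j : Fin n, gA j (y j)) =
      (1 + L.rb θ * (Real.exp s - 1)) ^ u := by
    rw [PE_prod]
    have h4 : ∀ j : Fin n, ∑ a, L.p a * gA j a =
        if (j : ℕ) ∈ Ico c (c + u) then (fun _ : ℕ => 1 + L.rb θ * (Real.exp s - 1)) j else 1 := by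
      intro j
      rw [hgA]
      simp only
      split_ifs
      · have h5 : ∀ a, L.p a * (1 + L.rho θ a * (Real.exp s - 1)) =
            L.p a + L.p a * L.rho θ a * (Real.exp s - 1) := fun a => by ring
        rw [sum_congr rfl fun a _ => h5 a, sum_add_distrib, L.sum_one, ← sum_mul]
        rfl
      · simp only [mul_one]
        exact L.sum_one
    rw [prod_congr rfl fun j _ => h4 j]
    refine (Rect_prod_window c u hc (fun _ => 1 + L.rb θ * (Real.exp s - 1))).trans ?_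
    rw [prod_const, Nat.card_Ico, Nat.add_sub_cancel_left]
  rw [h3]
  exact PE_const (Rect_isW L) _

/-- expected number of sources in a window -/
theorem EE_window (hθ : 0 < θ) (c u : ℕ) (hc : c + u ≤ n) :
    EE L θ T n (fun _ _ ξ => ((∑ l ∈ Finset.Ico c (c + u), bt ξ l : ℕ) : ℝ)) =
      u * L.rb θ := by
  have h1 : ∀ l ∈ Ico c (c + u), EE L θ T n (fun _ _ ξ => (bt ξ l : ℝ)) = L.rb θ := by
    intro l hl
    have hln : l < n := by
      rw [mem_Ico] at hl
      omega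
    have h2 : ∀ ξ : Fin n → Bool, (bt ξ l : ℝ) = ((ξ ⟨l, hln⟩).toNat : ℝ) := by
      intro ξ
      unfold bt
      rw [dif_pos hln]
    unfold EE
    simp_rw [h2]
    have h3 : ∀ y : Fin n → α, PE (fun j : Fin n => bw (L.rho θ (y j)))
        (fun ξ => ((ξ ⟨l, hln⟩).toNat : ℝ)) = L.rho θ (y ⟨l, hln⟩) := by
      intro y
      rw [PE_single (isW_rho L hθ y) ⟨l, hln⟩ (fun b => (b.toNat : ℝ)), Fintype.sum_bool]
      unfold bw
      simp
    simp_rw [h3]
    rw [PE_const (Rect_isW L)]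
    exact PE_single (w := fun _ : Fin n => L.p) (Rect_isW L) ⟨l, hln⟩ (fun a => L.rho θ a)
  have h4 : EE L θ T n (fun _ _ ξ => ((∑ l ∈ Finset.Ico c (c + u), bt ξ l : ℕ) : ℝ)) =
      ∑ l ∈ Ico c (c + u), EE L θ T n (fun _ _ ξ => (bt ξ l : ℝ)) := by
    rw [← EE_sum L (Ico c (c + u)) (fun l _ _ ξ => (bt ξ l : ℝ))]
    simp only [Nat.cast_sum]
  rw [h4, sum_congr rfl h1, sum_const, Nat.card_Ico, Nat.add_sub_cancel_left, nsmul_eq_mul]

end LCSH
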