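import Pool.Agent.Lib.MP_ae6bb1_pr.Rect
import Pool.Agent.Lib.MP_ae6bb1_pr.LawFacts

/-! First moment and second moment bounds for rectangles (proof document, section F2). -/

open Finset

namespace LCSH

variable {α : Type*} [Fintype α] [DecidableEq α] (L : Law α)

omit [Fintype α] [DecidableEq α] in
/-- a chain of length `k` gives increasing rows and columns that match -/
theorem RectA_exists {h u k : ℕ} (x : Fin h → α) (y : Fin u → α)
    (hk : k ≤ lp (rl x y) 0 h 0 u) : ∃ f : Fin k → Fin h, ∃ g : Fin k → Fin u,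
      StrictMono f ∧ StrictMono g ∧ ∀ i, x (f i) = y (g i) := by
  obtain ⟨s, hs, hcard⟩ := exists_chain (rl x y) 0 h 0 u
  obtain ⟨t, hts, htc⟩ := Finset.exists_subset_card_eq (hcard ▸ hk)
  have hinj : Set.InjOn Prod.fst (t : Set (ℕ × ℕ)) := by
    intro q hq q' hq' he
    by_contra hne
    rcases hs.2 q (hts hq) q' (hts hq') hne with h1 | h1
    · exact absurd he h1.1.ne
    · exact absurd he h1.1.ne'
  have hR : (t.image Prod.fst).card = k := by
    rw [Finset.card_image_of_injOn hinj, htc]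
  have hq : ∀ i : Fin k, ∃ q ∈ t, q.1 = (t.image Prod.fst).orderEmbOfFin hR i := by
    intro i
    have := Finset.orderEmbOfFin_mem (t.image Prod.fst) hR i
    rw [Finset.mem_image] at this
    exact this
  choose q hqt hq1 using hq
  have hb : ∀ i, rl x y (q i).1 (q i).2 := fun i => (hs.1 _ (hts (hqt i))).2.2.2.2
  choose h1 h2 h3 using hb
  refine ⟨fun i => ⟨(q i).1, h1 i⟩, fun i => ⟨(q i).2, h2 i⟩, ?_, ?_, h3⟩
  · intro i j hij
    rw [Fin.mk_lt_mk, hq1, hq1]
    exact (OrderEmbedding.strictMono _) hij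
  · intro i j hij
    rw [Fin.mk_lt_mk]
    have h4 : (q i).1 < (q j).1 := by
      rw [hq1, hq1]
      exact (OrderEmbedding.strictMono _) hij
    have hne : q i ≠ q j := fun he => by rw [he] at h4; exact lt_irrefl _ h4
    rcases hs.2 _ (hts (hqt i)) _ (hts (hqt j)) hne with h5 | h5
    · exact h5.2
    · exact absurd h4 (not_lt.2 h5.1.le)

open Classical in
theorem RectA_card (h k : ℕ) :
    ((Finset.univ : Finset (Fin k → Fin h)).filter StrictMono).card ≤ h.choose k := by
  have h1 : (Finset.powersetCard k (Finset.univ : Finset (Fin h))).card = h.choose k := by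
    rw [Finset.card_powersetCard, Finset.card_univ, Fintype.card_fin]
  rw [← h1]
  refine Finset.card_le_card_of_injOn (fun f => Finset.univ.image f) ?_ ?_
  · intro f hf
    rw [Finset.mem_coe, Finset.mem_filter] at hf
    rw [Finset.mem_coe, Finset.mem_powersetCard]
    refine ⟨Finset.subset_univ _, ?_⟩
    rw [Finset.card_image_of_injective _ hf.2.injective, Finset.card_univ, Fintype.card_fin]
  · intro f hf g hg hfg
    rw [Finset.mem_coe, Finset.mem_filter] at hf hg
    have hfg' : Finset.univ.image f = Finset.univ.image g := hfg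
    have h2 : Set.range f = Set.range g := by
      have h3 : ((Finset.univ.image f : Finset (Fin h)) : Set (Fin h)) =
          ((Finset.univ.image g : Finset (Fin h)) : Set (Fin h)) := by
        rw [hfg']
      simpa using h3
    exact (StrictMono.range_inj hf.2 hg.2).1 h2

theorem RectA_choose (h k : ℕ) (hk : 1 ≤ k) :
    (h.choose k : ℝ) ≤ (Real.exp 1 * h / k) ^ k := by
  have hk0 : (0 : ℝ) < k := by exact_mod_cast hk
  have h1 : (h.choose k : ℝ) ≤ (h : ℝ) ^ k / (k.factorial : ℝ) := Nat.choose_le_pow_div k h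
  have h2 : (k : ℝ) ^ k / (k.factorial : ℝ) ≤ Real.exp k :=
    Real.pow_div_factorial_le_exp (k : ℝ) hk0.le k
  have h3 : (h : ℝ) ^ k / (k.factorial : ℝ) =
      ((h : ℝ) / k) ^ k * ((k : ℝ) ^ k / (k.factorial : ℝ)) := by
    rw [div_pow]
    field_simp
  have h4 : (Real.exp 1 * h / k) ^ k = ((h : ℝ) / k) ^ k * Real.exp k := by
    rw [mul_div_assoc, mul_pow, mul_comm, ← Real.exp_nat_mul, mul_one]
  rw [h4]
  rw [h3] at h1
  exact h1.trans (mul_le_mul_of_nonneg_left h2 (by positivity))

omit [DecidableEq α] in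
theorem RectA_isW (ι : Type*) : IsW (fun _ : ι => L.p) :=
  ⟨fun _ b => L.nonneg b, fun _ => L.sum_one⟩

theorem RectA_ind_forall {k : ℕ} (E : Fin k → Prop) : ind (∀ i, E i) = ∏ i, ind (E i) := by
  by_cases h : ∀ i, E i
  · rw [ind_of h]
    symm
    exact Finset.prod_eq_one fun i _ => ind_of (h i)
  · rw [ind_of_not h]
    push Not at h
    obtain ⟨i, hi⟩ := h
    symm
    exact Finset.prod_eq_zero (Finset.mem_univ i) (ind_of_not hi)

omit [DecidableEq α] in
theorem RectA_sum_ind (a : α) (F : α → ℝ) : ∑ b, F b * ind (a = b) = F a := by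
  rw [Finset.sum_eq_single a]
  · rw [ind_of rfl, mul_one]
  · intro b _ hb
    rw [ind_of_not (fun h => hb h.symm), mul_zero]
  · intro h
    exact absurd (Finset.mem_univ a) h

omit [DecidableEq α] in
/-- expectation of one term -/
theorem RectA_term {h u k : ℕ} (f : Fin k → Fin h) (g : Fin k → Fin u)
    (hf : Function.Injective f) (hg : Function.Injective g) :
    PE (fun _ : Fin h => L.p) (fun x => PE (fun _ : Fin u => L.p)
      (fun y => ind (∀ i, x (f i) = y (g i)))) = (L.sg ^ 2) ^ k := by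
  have h1 : ∀ x : Fin h → α, PE (fun _ : Fin u => L.p)
      (fun y => ind (∀ i, x (f i) = y (g i))) = ∏ i, L.p (x (f i)) := by
    intro x
    have h2 := PE_marginal (RectA_isW L (Fin u)) g hg
      (fun y' : Fin k → α => ∏ i, ind (x (f i) = y' i))
    have h3 := PE_prod (fun _ : Fin k => L.p) (fun i b => ind (x (f i) = b))
    simp only [RectA_ind_forall]
    rw [h2, h3]
    exact Finset.prod_congr rfl fun i _ => RectA_sum_ind _ _
  simp only [h1]
  have h2 := PE_marginal (RectA_isW L (Fin h)) f hf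
    (fun x' : Fin k → α => ∏ i, L.p (x' i))
  have h3 := PE_prod (fun _ : Fin k => L.p) (fun _ b => L.p b)
  rw [h2, h3, Finset.prod_const, Finset.card_univ, Fintype.card_fin, sg_sq]
  congr 1
  exact Finset.sum_congr rfl fun a _ => by ring

/-- first moment bound: `P(lp ≥ k) ≤ C(h,k) C(u,k) p^k ≤ (e² h u p / k²)^k` -/
theorem ER_first_moment (h u k : ℕ) (hk : 1 ≤ k) :
    ER L h u (fun v => ind (k ≤ v)) ≤ (Real.exp 2 * h * u * L.sg ^ 2 / (k : ℝ) ^ 2) ^ k := by
  classical
  have hk0 : (0 : ℝ) < k := by exact_mod_cast hk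
  set A := (Finset.univ : Finset (Fin k → Fin h)).filter StrictMono with hA
  set B := (Finset.univ : Finset (Fin k → Fin u)).filter StrictMono with hB
  have hpt : ∀ (x : Fin h → α) (y : Fin u → α), ind (k ≤ lp (rl x y) 0 h 0 u) ≤
      ∑ f ∈ A, ∑ g ∈ B, ind (∀ i, x (f i) = y (g i)) := by
    intro x y
    by_cases hc : k ≤ lp (rl x y) 0 h 0 u
    · obtain ⟨f, g, hf, hg, hfg⟩ := RectA_exists x y hc
      have hfA : f ∈ A := by rw [hA, Finset.mem_filter]; exact ⟨Finset.mem_univ _, hf⟩
      have hgB : g ∈ B := by rw [hB, Finset.mem_filter]; exact ⟨Finset.mem_univ _, hg⟩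
      rw [ind_of hc, ← ind_of hfg]
      refine le_trans ?_ (Finset.single_le_sum
        (f := fun f : Fin k → Fin h => ∑ g ∈ B, ind (∀ i, x (f i) = y (g i)))
        (fun f _ => Finset.sum_nonneg fun g _ => ind_nonneg _) hfA)
      exact Finset.single_le_sum (f := fun g : Fin k → Fin u => ind (∀ i, x (f i) = y (g i)))
        (fun g _ => ind_nonneg _) hgB
    · rw [ind_of_not hc]
      exact Finset.sum_nonneg fun f _ => Finset.sum_nonneg fun g _ => ind_nonneg _
  have h1 : ER L h u (fun v => ind (k ≤ v)) ≤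
      ∑ f ∈ A, ∑ g ∈ B, PE (fun _ : Fin h => L.p) (fun x => PE (fun _ : Fin u => L.p)
        (fun y => ind (∀ i, x (f i) = y (g i)))) := by
    unfold ER
    refine le_trans (PE_mono (RectA_isW L (Fin h)) fun x =>
      PE_mono (RectA_isW L (Fin u)) fun y => hpt x y) (le_of_eq ?_)
    simp only [PE_sum]
  have h2 : ∑ f ∈ A, ∑ g ∈ B, PE (fun _ : Fin h => L.p) (fun x => PE (fun _ : Fin u => L.p)
        (fun y => ind (∀ i, x (f i) = y (g i)))) = A.card * (B.card * (L.sg ^ 2) ^ k) := by
    have h3 : ∀ f ∈ A, ∑ g ∈ B, PE (fun _ : Fin h => L.p) (fun x =>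
        PE (fun _ : Fin u => L.p) (fun y => ind (∀ i, x (f i) = y (g i)))) =
        B.card * (L.sg ^ 2) ^ k := by
      intro f hf
      rw [hA, Finset.mem_filter] at hf
      have h4 : ∀ g ∈ B, PE (fun _ : Fin h => L.p) (fun x =>
          PE (fun _ : Fin u => L.p) (fun y => ind (∀ i, x (f i) = y (g i)))) =
          (L.sg ^ 2) ^ k := by
        intro g hg
        rw [hB, Finset.mem_filter] at hg
        exact RectA_term L f g hf.2.injective hg.2.injective
      rw [Finset.sum_congr rfl h4, Finset.sum_const, nsmul_eq_mul]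
    rw [Finset.sum_congr rfl h3, Finset.sum_const, nsmul_eq_mul]
  rw [h2] at h1
  refine h1.trans ?_
  have hAc : (A.card : ℝ) ≤ (Real.exp 1 * h / k) ^ k :=
    le_trans (by exact_mod_cast RectA_card h k) (RectA_choose h k hk)
  have hBc : (B.card : ℝ) ≤ (Real.exp 1 * u / k) ^ k :=
    le_trans (by exact_mod_cast RectA_card u k) (RectA_choose u k hk)
  have hs : (0 : ℝ) ≤ (L.sg ^ 2) ^ k := by positivity
  have he : (Real.exp 2 * h * u * L.sg ^ 2 / (k : ℝ) ^ 2) ^ k =
      (Real.exp 1 * h / k) ^ k * ((Real.exp 1 * u / k) ^ k * (L.sg ^ 2) ^ k) := by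
    rw [← mul_pow, ← mul_pow]
    congr 1
    have : Real.exp 2 = Real.exp 1 * Real.exp 1 := by
      rw [← Real.exp_add]
      norm_num
    rw [this]
    field_simp
  rw [he]
  exact mul_le_mul hAc (mul_le_mul_of_nonneg_right hBc hs) (by positivity) (by positivity)

/-! ### second moment -/

theorem RectA_pair {ι β : Type*} [Fintype ι] [DecidableEq ι] [Fintype β] {w : ι → β → ℝ}
    (hw : IsW w) {i i' : ι} (hi : i ≠ i') (F : β → β → ℝ) :
    PE w (fun ω => F (ω i) (ω i')) = ∑ a, w i' a * ∑ b, w i b * F b a := by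
  rw [PE_resample hw i (fun ω => F (ω i) (ω i'))]
  have h1 : ∀ (ω : ι → β) (b : β), Function.update ω i b i' = ω i' := fun ω b =>
    Function.update_of_ne hi.symm b ω
  simp only [Function.update_self, h1]
  exact PE_single hw i' (fun a => ∑ b, w i b * F b a)

omit [DecidableEq α] in
theorem RectA_cell {s s' : ℕ} (i : Fin s) (j : Fin s') :
    PE (fun _ : Fin s => L.p) (fun x => PE (fun _ : Fin s' => L.p)
      (fun y => ind (x i = y j))) = L.sg ^ 2 := by
  have h1 : ∀ x : Fin s → α, PE (fun _ : Fin s' => L.p) (fun y => ind (x i = y j)) =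
      L.p (x i) := by
    intro x
    rw [PE_single (RectA_isW L (Fin s')) j (fun b => ind (x i = b))]
    exact RectA_sum_ind _ _
  simp only [h1]
  rw [PE_single (RectA_isW L (Fin s)) i L.p, sg_sq]
  exact Finset.sum_congr rfl fun a _ => by ring

/-- the four cases of a pair of cells -/
theorem RectA_cells {s s' : ℕ} (i i' : Fin s) (j j' : Fin s') :
    PE (fun _ : Fin s => L.p) (fun x => PE (fun _ : Fin s' => L.p)
      (fun y => ind (x i = y j) * ind (x i' = y j'))) ≤
      (if i = i' then 1 else 0) * (if j = j' then 1 else 0) * L.sg ^ 2 + (L.sg ^ 2) ^ 2 +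
      (if i = i' then 1 else 0) * (L.sg ^ 3 * L.kp) +
      (if j = j' then 1 else 0) * (L.sg ^ 3 * L.kp) := by
  have hq : (0 : ℝ) ≤ L.sg ^ 3 * L.kp := by
    rw [← sum_p_cube]
    exact Finset.sum_nonneg fun a _ => pow_nonneg (L.nonneg a) 3
  have hp2 : (0 : ℝ) ≤ (L.sg ^ 2) ^ 2 := by positivity
  have hp : (0 : ℝ) ≤ L.sg ^ 2 := by positivity
  by_cases hj : j = j'
  · subst hj
    have h1 : ∀ x : Fin s → α, PE (fun _ : Fin s' => L.p)
        (fun y => ind (x i = y j) * ind (x i' = y j)) = L.p (x i) * ind (x i' = x i) := by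
      intro x
      rw [PE_single (RectA_isW L (Fin s')) j (fun b => ind (x i = b) * ind (x i' = b))]
      have h2 : ∀ b, L.p b * (ind (x i = b) * ind (x i' = b)) =
          (L.p b * ind (x i' = b)) * ind (x i = b) := fun b => by ring
      simp only [h2]
      exact RectA_sum_ind (x i) (fun b => L.p b * ind (x i' = b))
    simp only [h1]
    by_cases hi : i = i'
    · subst hi
      have hT : ind True = 1 := ind_of trivial
      simp only [hT, mul_one]
      rw [PE_single (RectA_isW L (Fin s)) i L.p]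
      have h3 : ∑ b, L.p b * L.p b = L.sg ^ 2 := by
        rw [sg_sq]
        exact Finset.sum_congr rfl fun a _ => by ring
      rw [h3]
      simp only [if_true]
      linarith
    · rw [RectA_pair (RectA_isW L (Fin s)) hi (fun a b => L.p a * ind (b = a))]
      have h2 : ∀ a, ∑ b, L.p b * (L.p b * ind (a = b)) = L.p a * L.p a := by
        intro a
        have h3 : ∀ b, L.p b * (L.p b * ind (a = b)) = (L.p b * L.p b) * ind (a = b) :=
          fun b => by ring
        simp only [h3]
        exact RectA_sum_ind a (fun b => L.p b * L.p b)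
      simp only [h2]
      have h4 : ∑ a, L.p a * (L.p a * L.p a) = L.sg ^ 3 * L.kp := by
        rw [← sum_p_cube]
        exact Finset.sum_congr rfl fun a _ => by ring
      rw [h4]
      simp only [if_neg hi, if_true]
      linarith
  · have h1 : ∀ x : Fin s → α, PE (fun _ : Fin s' => L.p)
        (fun y => ind (x i = y j) * ind (x i' = y j')) = L.p (x i) * L.p (x i') := by
      intro x
      rw [RectA_pair (RectA_isW L (Fin s')) hj (fun a b => ind (x i = a) * ind (x i' = b))]
      have h2 : ∀ a, ∑ b, L.p b * (ind (x i = b) * ind (x i' = a)) =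
          L.p (x i) * ind (x i' = a) := by
        intro a
        have h3 : ∀ b, L.p b * (ind (x i = b) * ind (x i' = a)) =
            (L.p b * ind (x i' = a)) * ind (x i = b) := fun b => by ring
        simp only [h3]
        exact RectA_sum_ind (x i) (fun b => L.p b * ind (x i' = a))
      simp only [h2]
      have h3 : ∀ a, L.p a * (L.p (x i) * ind (x i' = a)) =
          (L.p a * L.p (x i)) * ind (x i' = a) := fun a => by ring
      simp only [h3]
      rw [RectA_sum_ind (x i') (fun a => L.p a * L.p (x i)), mul_comm]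
    simp only [h1]
    by_cases hi : i = i'
    · subst hi
      rw [PE_single (RectA_isW L (Fin s)) i (fun a => L.p a * L.p a)]
      have h4 : ∑ a, L.p a * (L.p a * L.p a) = L.sg ^ 3 * L.kp := by
        rw [← sum_p_cube]
        exact Finset.sum_congr rfl fun a _ => by ring
      rw [h4]
      simp only [if_neg hj, if_true]
      linarith
    · rw [RectA_pair (RectA_isW L (Fin s)) hi (fun a b => L.p a * L.p b)]
      have h4 : ∑ a, L.p a * ∑ b, L.p b * (L.p b * L.p a) = (L.sg ^ 2) ^ 2 := by
        have h5 : ∀ a, ∑ b, L.p b * (L.p b * L.p a) = L.sg ^ 2 * L.p a := by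
          intro a
          rw [sg_sq, Finset.sum_mul]
          exact Finset.sum_congr rfl fun b _ => by ring
        simp only [h5]
        have h6 : ∀ a, L.p a * (L.sg ^ 2 * L.p a) = L.sg ^ 2 * L.p a ^ 2 := fun a => by ring
        simp only [h6]
        rw [← Finset.mul_sum, ← sg_sq]
        ring
      rw [h4]
      simp only [if_neg hi, if_neg hj]
      linarith

/-- second moment bound: a match exists with probability at least 2/5 -/
theorem ER_match (s s' : ℕ) (h1 : 1 ≤ (s : ℝ) * s' * L.sg ^ 2)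
    (h2 : ((s : ℝ) + s') * L.sg * L.kp ≤ 1 / 2) :
    2 / 5 ≤ ER L s s' (fun v => ind (1 ≤ v)) := by
  classical
  set e0 : ℝ := (s : ℝ) * s' * L.sg ^ 2 with he0
  have hE0 : 0 ≤ e0 := by linarith
  obtain ⟨t, ht⟩ : ∃ t : ℝ, t = 1 / (e0 + 3 / 2) := ⟨_, rfl⟩
  have ht0 : 0 < t := by rw [ht]; positivity
  have htt : t * (e0 + 3 / 2) = 1 := by
    rw [ht]
    field_simp
  -- pointwise
  have hpt : ∀ (x : Fin s → α) (y : Fin s' → α),
      2 * t * (∑ i, ∑ j, ind (x i = y j)) -
        t ^ 2 * (∑ i, ∑ j, ∑ i', ∑ j', ind (x i = y j) * ind (x i' = y j')) ≤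
      ind (1 ≤ lp (rl x y) 0 s 0 s') := by
    intro x y
    obtain ⟨N, hN⟩ : ∃ N : ℝ, N = ∑ i, ∑ j, ind (x i = y j) := ⟨_, rfl⟩
    have hNN : ∑ i, ∑ j, ∑ i', ∑ j', ind (x i = y j) * ind (x i' = y j') = N * N := by
      rw [hN, Finset.sum_mul]
      refine Finset.sum_congr rfl fun i _ => ?_
      rw [Finset.sum_mul]
      refine Finset.sum_congr rfl fun j _ => ?_
      rw [Finset.mul_sum]
      refine Finset.sum_congr rfl fun i' _ => ?_
      rw [Finset.mul_sum]
    rw [hNN, ← hN]
    by_cases hc : 1 ≤ lp (rl x y) 0 s 0 s'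
    · rw [ind_of hc]
      nlinarith [sq_nonneg (1 - t * N)]
    · have hz : N = 0 := by
        rw [hN]
        refine Finset.sum_eq_zero fun i _ => Finset.sum_eq_zero fun j _ => ind_of_not ?_
        intro hxy
        apply hc
        have hch : Chain (rl x y) 0 s 0 s' {((i : ℕ), (j : ℕ))} := by
          refine ⟨?_, ?_⟩
          · intro q hq
            rw [Finset.mem_singleton] at hq
            subst hq
            exact ⟨Nat.zero_le _, i.2, Nat.zero_le _, j.2, i.2, j.2, hxy⟩
          · intro q hq q' hq' hne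
            rw [Finset.mem_singleton] at hq hq'
            exact absurd (hq.trans hq'.symm) hne
        have := le_lp hch
        simpa using this
      rw [ind_of_not hc, hz]
      simp
  have hmono : PE (fun _ : Fin s => L.p) (fun x => PE (fun _ : Fin s' => L.p) (fun y =>
      2 * t * (∑ i, ∑ j, ind (x i = y j)) -
        t ^ 2 * (∑ i, ∑ j, ∑ i', ∑ j', ind (x i = y j) * ind (x i' = y j')))) ≤
      ER L s s' (fun v => ind (1 ≤ v)) := by
    unfold ER
    exact PE_mono (RectA_isW L (Fin s)) fun x => PE_mono (RectA_isW L (Fin s')) fun y => hpt x y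
  refine le_trans ?_ hmono
  simp only [PE_sub, PE_const_mul, PE_sum, RectA_cell]
  have hs1 : ∑ _i : Fin s, ∑ _j : Fin s', L.sg ^ 2 = e0 := by
    rw [Finset.sum_const, Finset.sum_const, Finset.card_univ, Finset.card_univ, Fintype.card_fin,
      Fintype.card_fin, nsmul_eq_mul, nsmul_eq_mul, he0]
    ring
  have hs2 : ∑ i : Fin s, ∑ j : Fin s', ∑ i' : Fin s, ∑ j' : Fin s',
      PE (fun _ : Fin s => L.p) (fun x => PE (fun _ : Fin s' => L.p)
        (fun y => ind (x i = y j) * ind (x i' = y j'))) ≤ e0 * (e0 + 3 / 2) := by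
    refine le_trans (Finset.sum_le_sum fun i _ => Finset.sum_le_sum fun j _ =>
      Finset.sum_le_sum fun i' _ => Finset.sum_le_sum fun j' _ => RectA_cells L i i' j j') ?_
    have hval : ∑ i : Fin s, ∑ j : Fin s', ∑ i' : Fin s, ∑ j' : Fin s',
        ((if i = i' then 1 else 0) * (if j = j' then 1 else 0) * L.sg ^ 2 + (L.sg ^ 2) ^ 2 +
        (if i = i' then 1 else 0) * (L.sg ^ 3 * L.kp) +
        (if j = j' then 1 else 0) * (L.sg ^ 3 * L.kp) : ℝ) =
        e0 + e0 ^ 2 + e0 * (((s : ℝ) + s') * L.sg * L.kp) := by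
      simp only [Finset.sum_add_distrib, ← Finset.sum_mul, ← Finset.mul_sum,
        Finset.sum_ite_eq, Finset.mem_univ, if_true, Finset.sum_const, Finset.card_univ,
        Fintype.card_fin, nsmul_eq_mul]
      rw [he0]
      ring
    rw [hval]
    nlinarith
  rw [hs1]
  have h3 : t ^ 2 * (∑ i : Fin s, ∑ j : Fin s', ∑ i' : Fin s, ∑ j' : Fin s',
      PE (fun _ : Fin s => L.p) (fun x => PE (fun _ : Fin s' => L.p)
        (fun y => ind (x i = y j) * ind (x i' = y j')))) ≤ t ^ 2 * (e0 * (e0 + 3 / 2)) :=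
    mul_le_mul_of_nonneg_left hs2 (by positivity)
  have h4 : t ^ 2 * (e0 * (e0 + 3 / 2)) = t * e0 := by
    calc t ^ 2 * (e0 * (e0 + 3 / 2)) = (t * (e0 + 3 / 2)) * (t * e0) := by ring
      _ = t * e0 := by rw [htt, one_mul]
  have h5 : 2 / 5 ≤ t * e0 := by
    have h6 : 2 / 5 * (e0 + 3 / 2) ≤ e0 := by linarith
    have h7 := mul_le_mul_of_nonneg_left h6 ht0.le
    calc (2 / 5 : ℝ) = 2 / 5 * (t * (e0 + 3 / 2)) := by rw [htt, mul_one]
      _ = t * (2 / 5 * (e0 + 3 / 2)) := by ring
      _ ≤ t * e0 := h7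
  linarith

end LCSH
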