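import Pool.Agent.Lib.MP_ae6bb1_pr.RectB

/-! Gain, cost and thin rectangles (proof document, section F4). -/

open Finset

namespace LCSH

variable {α : Type*} [Fintype α] [DecidableEq α] (L : Law α)

omit [DecidableEq α] in
theorem RectC_sg_le (het : L.et ≤ c0) : L.sg ≤ 1 / 10 ^ 6 ∧ L.kp ≤ 1 / 10 ^ 6 := by
  have h1 := sg_le_kp L
  have h2 := kp_le_et L
  unfold c0 at het
  constructor <;> linarith

omit [DecidableEq α] in
theorem RectC_const_mul (h u : ℕ) (c : ℝ) (φ : ℕ → ℝ) :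
    ER L h u (fun v => c * φ v) = c * ER L h u φ := by
  unfold ER
  rw [← PE_const_mul]
  congr 1
  funext x
  rw [← PE_const_mul]

theorem RectC_markov (h u : ℕ) (x : ℝ) :
    ER L h u (fun v => ind ((v : ℝ) ≤ x)) ≤
      Real.exp x * ER L h u (fun v => Real.exp (-(v : ℝ))) := by
  rw [← RectC_const_mul]
  refine ER_mono L fun v => ?_
  rw [← Real.exp_add]
  by_cases hv : (v : ℝ) ≤ x
  · rw [ind_of hv]
    refine Real.one_le_exp ?_
    linarith
  · rw [ind_of_not hv]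
    exact (Real.exp_pos _).le

theorem gain_prob (het : L.et ≤ c0) (h : ℕ) (hh : 10 ^ 5 ≤ L.sg * h) :
    ER L h (h / 2 ^ 14) (fun v => ind ((v : ℝ) ≤ L.sg * h / 1100)) ≤
      Real.exp (-(L.sg * h / 1000)) := by
  obtain ⟨hs6, hk6⟩ := RectC_sg_le L het
  have hs0 := sg_pos L
  have hk0 := kp_pos L
  have hh' : (10 : ℝ) ^ 11 ≤ h := by
    have h0 : (0 : ℝ) ≤ h := Nat.cast_nonneg _
    nlinarith
  set S := L.sg with hS
  set s : ℕ := ⌈128 / S⌉₊ with hs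
  set s' : ℕ := ⌈1 / (128 * S)⌉₊ with hs'
  set K : ℕ := ⌊S * h / 130⌋₊ with hK
  have a1 : 128 / S ≤ s := Nat.le_ceil _
  have a2 : (s : ℝ) < 128 / S + 1 := Nat.ceil_lt_add_one (by positivity)
  have b1 : 1 / (128 * S) ≤ s' := Nat.le_ceil _
  have b2 : (s' : ℝ) < 1 / (128 * S) + 1 := Nat.ceil_lt_add_one (by positivity)
  have k1 : (K : ℝ) ≤ S * h / 130 := Nat.floor_le (by positivity)
  have k2 : S * h / 130 < K + 1 := Nat.lt_floor_add_one _
  have K0 : (0 : ℝ) ≤ K := Nat.cast_nonneg _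
  have e1 : 1 ≤ (s : ℝ) * s' * S ^ 2 := by
    have : (128 / S) * (1 / (128 * S)) ≤ (s : ℝ) * s' :=
      mul_le_mul a1 b1 (by positivity) (Nat.cast_nonneg _)
    calc (1 : ℝ) = (128 / S) * (1 / (128 * S)) * S ^ 2 := by field_simp
      _ ≤ (s : ℝ) * s' * S ^ 2 := mul_le_mul_of_nonneg_right this (by positivity)
  have e2 : ((s : ℝ) + s') * S * L.kp ≤ 1 / 2 := by
    have h3 : ((s : ℝ) + s') * S ≤ 131 := by
      have : ((s : ℝ) + s') ≤ (128 / S + 1) + (1 / (128 * S) + 1) := by linarith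
      calc ((s : ℝ) + s') * S ≤ ((128 / S + 1) + (1 / (128 * S) + 1)) * S :=
            mul_le_mul_of_nonneg_right this hs0.le
        _ = 128 + 1 / 128 + 2 * S := by field_simp; ring
        _ ≤ 131 := by linarith
    nlinarith
  have hKs : K * s ≤ h := by
    have : (K : ℝ) * s ≤ h := by
      calc (K : ℝ) * s ≤ (S * h / 130) * (128 / S + 1) :=
            mul_le_mul k1 a2.le (Nat.cast_nonneg _) (by positivity)
        _ = h * ((128 + S) / 130) := by field_simp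
        _ ≤ h * 1 := mul_le_mul_of_nonneg_left (by linarith) (Nat.cast_nonneg _)
        _ = h := mul_one _
    exact_mod_cast this
  have hKs' : K * s' ≤ h / 2 ^ 14 := by
    have h4 : (K : ℝ) * s' ≤ h / 16384 - 1 := by
      calc (K : ℝ) * s' ≤ (S * h / 130) * (1 / (128 * S) + 1) :=
            mul_le_mul k1 b2.le (Nat.cast_nonneg _) (by positivity)
        _ = h * (1 / 16640 + S / 130) := by field_simp; ring
        _ ≤ h * (1 / 16384 - 1 / 10 ^ 11) :=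
            mul_le_mul_of_nonneg_left (by nlinarith) (Nat.cast_nonneg _)
        _ ≤ h / 16384 - 1 := by nlinarith
    rw [Nat.le_div_iff_mul_le (by positivity)]
    have h5 : ((K * s' * 2 ^ 14 : ℕ) : ℝ) ≤ (h : ℝ) := by
      push_cast
      nlinarith
    exact_mod_cast h5
  have hmain := ER_exp_blocks L s s' K h (h / 2 ^ 14) hKs hKs' e1 e2
  refine (RectC_markov L h (h / 2 ^ 14) _).trans ?_
  refine (mul_le_mul_of_nonneg_left hmain (Real.exp_pos _).le).trans ?_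
  rw [← Real.exp_add]
  refine Real.exp_le_exp.2 ?_
  nlinarith

theorem thin_prob (h : ℕ) (hh : 10 ^ 5 ≤ L.sg * h) :
    ER L h (h / 2 ^ 30) (fun v => ind (L.sg * h / 5000 ≤ (v : ℝ))) ≤
      Real.exp (-(L.sg * h / 5000)) := by
  have hs0 := sg_pos L
  set S := L.sg with hS
  set k : ℕ := ⌈S * h / 5000⌉₊ with hk
  have a1 : S * h / 5000 ≤ k := Nat.le_ceil _
  have hk20 : (20 : ℝ) ≤ k := by linarith
  have hk1 : 1 ≤ k := by
    have : (1 : ℝ) ≤ k := by linarith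
    exact_mod_cast this
  have h1 : ER L h (h / 2 ^ 30) (fun v => ind (S * h / 5000 ≤ (v : ℝ))) ≤
      ER L h (h / 2 ^ 30) (fun v => ind (k ≤ v)) := by
    refine ER_mono L fun v => ind_mono fun hv => ?_
    exact Nat.ceil_le.2 hv
  refine h1.trans ((ER_first_moment L h (h / 2 ^ 30) k hk1).trans ?_)
  have hb0 : 0 ≤ Real.exp 2 * h * ((h / 2 ^ 30 : ℕ) : ℝ) * S ^ 2 / (k : ℝ) ^ 2 := by positivity
  have he2 : Real.exp 2 ≤ 7.4 := by
    have : Real.exp 2 = Real.exp 1 * Real.exp 1 := by rw [← Real.exp_add]; norm_num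
    rw [this]
    have := Real.exp_one_lt_d9
    have h0 := Real.exp_pos 1
    nlinarith
  have hinv : (0.36 : ℝ) ≤ Real.exp (-1) := by
    rw [Real.exp_neg]
    have := Real.exp_one_lt_d9
    have h0 := Real.exp_pos 1
    rw [le_inv_comm₀ (by norm_num) h0]
    norm_num at this ⊢
    linarith
  have hbase : Real.exp 2 * h * ((h / 2 ^ 30 : ℕ) : ℝ) * S ^ 2 / (k : ℝ) ^ 2 ≤ Real.exp (-1) := by
    refine le_trans ?_ hinv
    rw [div_le_iff₀ (by positivity)]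
    have hu : ((h / 2 ^ 30 : ℕ) : ℝ) ≤ (h : ℝ) / 2 ^ 30 := by
      refine (Nat.cast_div_le (α := ℝ) (m := h) (n := 2 ^ 30)).trans (le_of_eq ?_)
      norm_num
    have h3 : Real.exp 2 * h * ((h / 2 ^ 30 : ℕ) : ℝ) * S ^ 2 ≤
        7.4 * h * ((h : ℝ) / 2 ^ 30) * S ^ 2 := by
      gcongr
    refine h3.trans ?_
    have h4 : (S * h / 5000) ^ 2 ≤ (k : ℝ) ^ 2 := pow_le_pow_left₀ (by positivity) a1 2
    have h5 : 7.4 * h * ((h : ℝ) / 2 ^ 30) * S ^ 2 = (7.4 * 5000 ^ 2 / 2 ^ 30) * (S * h / 5000) ^ 2 := by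
      ring
    rw [h5]
    refine mul_le_mul (by norm_num) h4 (by positivity) (by norm_num)
  calc (Real.exp 2 * h * ((h / 2 ^ 30 : ℕ) : ℝ) * S ^ 2 / (k : ℝ) ^ 2) ^ k
      ≤ (Real.exp (-1)) ^ k := pow_le_pow_left₀ hb0 hbase k
    _ = Real.exp (-(k : ℝ)) := by rw [← Real.exp_nat_mul]; ring_nf
    _ ≤ Real.exp (-(S * h / 5000)) := Real.exp_le_exp.2 (by linarith)

theorem cost_prob {θ : ℝ} {T n : ℕ} (hθ : 1 / 2 ≤ θ) (h c : ℕ) (hc : c + h / 2 ^ 14 ≤ n) :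
    EE L θ T n (fun _ _ ξ => ind (L.sg * h / 4000 ≤
      ((∑ l ∈ Finset.Ico c (c + h / 2 ^ 14), bt ξ l : ℕ) : ℝ))) ≤
      Real.exp (-(L.sg * h / 25000)) := by
  have hθ0 : 0 < θ := by linarith
  have hs0 := sg_pos L
  have h1 := EE_exp_markov L (T := T) hθ0
    (fun (_ : Fin T → α) (_ : Fin n → α) (ξ : Fin n → Bool) =>
      ((∑ l ∈ Finset.Ico c (c + h / 2 ^ 14), bt ξ l : ℕ) : ℝ)) (c := L.sg * h / 4000) (s := 1)
    zero_le_one
  refine h1.trans ?_
  rw [EE_window_mgf L hθ0 c (h / 2 ^ 14) hc 1]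
  have hrb : L.rb θ ≤ 2 * L.sg := by
    refine (rb_le L θ hθ0).trans ?_
    rw [div_le_iff₀ hθ0]
    nlinarith
  have hrb0 := rb_pos L θ hθ0
  have he := Real.exp_one_lt_d9
  have he' := Real.exp_one_gt_d9
  have hu : ((h / 2 ^ 14 : ℕ) : ℝ) ≤ (h : ℝ) / 2 ^ 14 := by
    refine (Nat.cast_div_le (α := ℝ) (m := h) (n := 2 ^ 14)).trans (le_of_eq ?_)
    norm_num
  have h2 : (1 + L.rb θ * (Real.exp 1 - 1)) ^ (h / 2 ^ 14) ≤
      Real.exp (3.44 * L.sg * ((h : ℝ) / 2 ^ 14)) := by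
    have h3 : 1 + L.rb θ * (Real.exp 1 - 1) ≤ Real.exp (3.44 * L.sg) := by
      have h4 : L.rb θ * (Real.exp 1 - 1) ≤ 3.44 * L.sg := by
        have h5 : L.rb θ * (Real.exp 1 - 1) ≤ (2 * L.sg) * 1.72 :=
          mul_le_mul hrb (by linarith) (by linarith) (by linarith)
        linarith
      have h6 := Real.add_one_le_exp (3.44 * L.sg)
      linarith
    have h7 : 0 ≤ 1 + L.rb θ * (Real.exp 1 - 1) := by
      have : 0 ≤ L.rb θ * (Real.exp 1 - 1) := mul_nonneg hrb0.le (by linarith)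
      linarith
    calc (1 + L.rb θ * (Real.exp 1 - 1)) ^ (h / 2 ^ 14)
        ≤ (Real.exp (3.44 * L.sg)) ^ (h / 2 ^ 14) := pow_le_pow_left₀ h7 h3 _
      _ = Real.exp (((h / 2 ^ 14 : ℕ) : ℝ) * (3.44 * L.sg)) := by rw [← Real.exp_nat_mul]
      _ ≤ Real.exp (3.44 * L.sg * ((h : ℝ) / 2 ^ 14)) := by
          refine Real.exp_le_exp.2 ?_
          rw [mul_comm]
          exact mul_le_mul_of_nonneg_left hu (by linarith)
  refine (mul_le_mul_of_nonneg_left h2 (Real.exp_pos _).le).trans ?_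
  rw [← Real.exp_add]
  refine Real.exp_le_exp.2 ?_
  have h8 : (0 : ℝ) ≤ L.sg * h := mul_nonneg hs0.le (Nat.cast_nonneg _)
  have h9 : 3.44 * L.sg * ((h : ℝ) / 2 ^ 14) = (3.44 / 2 ^ 14) * (L.sg * h) := by ring
  rw [h9]
  have h10 : (3.44 / 2 ^ 14 : ℝ) ≤ 1 / 4000 - 1 / 25000 := by norm_num
  nlinarith

theorem exit_prob {θ : ℝ} {T n : ℕ} (hθ : 1 / 2 ≤ θ) (hθ' : θ ≤ 8) (het : L.et ≤ c0)
    (hn : 40 * ((T : ℝ) + 10) ≤ n * L.sg) :
    EE L θ T n (fun _ _ ξ => ind ((∑ l ∈ Finset.range (n / 2), bt ξ l) ≤ T + 10)) ≤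
      Real.exp (-(n * L.sg / 100)) := by
  have hθ0 : 0 < θ := by linarith
  have hs0 := sg_pos L
  have hs1 := sg_le_one L
  have het6 : L.et ≤ 1 / 10 ^ 6 := het
  have het0 := et_pos L
  have hcast : ∀ ξ : Fin n → Bool, ((∑ l ∈ Finset.range (n / 2), bt ξ l) ≤ T + 10) ↔
      (((∑ l ∈ Finset.Ico 0 (0 + n / 2), bt ξ l : ℕ) : ℝ) ≤ (T : ℝ) + 10) := by
    intro ξ
    rw [zero_add, Finset.range_eq_Ico]
    constructor
    · intro h
      have : ((∑ l ∈ Finset.Ico 0 (n / 2), bt ξ l : ℕ) : ℝ) ≤ ((T + 10 : ℕ) : ℝ) := by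
        exact_mod_cast h
      push_cast at this ⊢
      exact this
    · intro h
      have : ((∑ l ∈ Finset.Ico 0 (n / 2), bt ξ l : ℕ) : ℝ) ≤ ((T + 10 : ℕ) : ℝ) := by
        push_cast at h ⊢
        exact h
      exact_mod_cast this
  have h1 := EE_exp_markov' L (T := T) hθ0
    (fun (_ : Fin T → α) (_ : Fin n → α) (ξ : Fin n → Bool) =>
      ((∑ l ∈ Finset.Ico 0 (0 + n / 2), bt ξ l : ℕ) : ℝ)) (c := (T : ℝ) + 10) (s := 1)
    zero_le_one
  have h0 : EE L θ T n (fun _ _ ξ => ind ((∑ l ∈ Finset.range (n / 2), bt ξ l) ≤ T + 10)) =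
      EE L θ T n (fun _ _ ξ =>
        ind (((∑ l ∈ Finset.Ico 0 (0 + n / 2), bt ξ l : ℕ) : ℝ) ≤ (T : ℝ) + 10)) := by
    congr 1
    funext x y ξ
    rw [propext (hcast ξ)]
  rw [h0]
  refine h1.trans ?_
  have h2 := EE_window_mgf L (T := T) hθ0 0 (n / 2) (by omega : 0 + n / 2 ≤ n) (-1)
  have h3 : EE L θ T n (fun _ _ ξ =>
      Real.exp (-(1 * ((∑ l ∈ Finset.Ico 0 (0 + n / 2), bt ξ l : ℕ) : ℝ)))) =
      (1 + L.rb θ * (Real.exp (-1) - 1)) ^ (n / 2) := by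
    rw [← h2]
    congr 1
    funext x y ξ
    congr 1
    ring
  rw [h3]
  have hrb : L.sg / 8.01 ≤ L.rb θ := by
    refine le_trans ?_ (le_rb L θ hθ0)
    exact div_le_div_of_nonneg_left hs0.le (by linarith) (by linarith)
  have hrb2 : L.rb θ ≤ 2 * L.sg := by
    refine (rb_le L θ hθ0).trans ?_
    rw [div_le_iff₀ hθ0]
    nlinarith
  have hkp := sg_le_kp L
  have hke := kp_le_et L
  have hinv : Real.exp (-1) ≤ 0.368 := by
    rw [Real.exp_neg]
    have := Real.exp_one_gt_d9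
    rw [inv_le_comm₀ (Real.exp_pos 1) (by norm_num)]
    norm_num at this ⊢
    linarith
  have hinv0 := Real.exp_pos (-1)
  have hn2 : ((n : ℝ) - 1) / 2 ≤ ((n / 2 : ℕ) : ℝ) := by
    have : n ≤ 2 * (n / 2) + 1 := by omega
    have h5 : (n : ℝ) ≤ 2 * ((n / 2 : ℕ) : ℝ) + 1 := by exact_mod_cast this
    linarith
  have h4 : (1 + L.rb θ * (Real.exp (-1) - 1)) ^ (n / 2) ≤
      Real.exp (-(0.0789 * L.sg) * ((n / 2 : ℕ) : ℝ)) := by
    have h5 : 1 + L.rb θ * (Real.exp (-1) - 1) ≤ Real.exp (-(0.0789 * L.sg)) := by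
      have h6 := Real.add_one_le_exp (-(0.0789 * L.sg))
      have h7 : L.rb θ * (Real.exp (-1) - 1) ≤ -(0.0789 * L.sg) := by
        have h8 : 0.0789 * L.sg ≤ L.rb θ * (1 - Real.exp (-1)) := by
          have h9 : L.sg / 8.01 * 0.632 ≤ L.rb θ * (1 - Real.exp (-1)) :=
            mul_le_mul hrb (by linarith) (by norm_num) (le_trans (by positivity) hrb)
          have h10 : 0.0789 * L.sg ≤ L.sg / 8.01 * 0.632 := by
            have : L.sg / 8.01 * 0.632 = (0.632 / 8.01) * L.sg := by ring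
            rw [this]
            exact mul_le_mul_of_nonneg_right (by norm_num) hs0.le
          linarith
        linarith
      linarith
    have h11 : 0 ≤ 1 + L.rb θ * (Real.exp (-1) - 1) := by
      have : L.rb θ * (1 - Real.exp (-1)) ≤ 1 * 1 :=
        mul_le_mul (by linarith) (by linarith) (by linarith) (by norm_num)
      linarith
    calc (1 + L.rb θ * (Real.exp (-1) - 1)) ^ (n / 2)
        ≤ (Real.exp (-(0.0789 * L.sg))) ^ (n / 2) := pow_le_pow_left₀ h11 h5 _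
      _ = Real.exp (((n / 2 : ℕ) : ℝ) * (-(0.0789 * L.sg))) := by rw [← Real.exp_nat_mul]
      _ = _ := by rw [mul_comm]
  refine (mul_le_mul_of_nonneg_left h4 (Real.exp_pos _).le).trans ?_
  rw [← Real.exp_add]
  refine Real.exp_le_exp.2 ?_
  have hT : (0 : ℝ) ≤ T := Nat.cast_nonneg _
  have h12 : 0.0789 * L.sg * (((n : ℝ) - 1) / 2) ≤ 0.0789 * L.sg * ((n / 2 : ℕ) : ℝ) :=
    mul_le_mul_of_nonneg_left hn2 (by positivity)
  nlinarith

end LCSH
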