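import Pool.Agent.Lib.MP_ae6bb1_pr.LpSplit
import Pool.Agent.Lib.MP_ae6bb1_pr.Walk

/-! The maximum after one more row (proof document, section B2). -/

open Finset

namespace LCSH

theorem MT_zero (m : ℕ → ℕ → Prop) (b : ℕ → ℕ) (n : ℕ) : MT m b 0 n = Wt b n 0 := by
  have hp : ∀ c, prof m 0 c = 0 := fun c => Nat.le_zero.1 (lp_le_rows m 0 0 0 c)
  apply le_antisymm
  · refine Mf_le fun c _ => ?_
    unfold Zf
    rw [hp, zero_add]
    exact Wt_anti (Nat.zero_le c)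
  · have h := Zf_le_Mf (A := prof m 0) (b := b) (Nat.zero_le n)
    unfold Zf at h
    rw [hp, zero_add] at h
    exact h

theorem RowStep_site (m : ℕ → ℕ → Prop) (b : ℕ → ℕ) (T n : ℕ) {c : ℕ} (hc : c ≤ n) :
    Zf (prof m (T + 1)) b n c ≤ MT m b T n ∨
      ((∃ j, j < n ∧ InJ m b T n j ∧ m T j) ∧ Zf (prof m (T + 1)) b n c ≤ MT m b T n + 1) := by
  rcases lp_row_cases m (a := 0) (T := T) (d := 0) (c := c) (Nat.zero_le T) with
    h | ⟨j, _, hjc, hm, h⟩
  · left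
    have h1 : lp m 0 T 0 c + Wt b n c ≤ MT m b T n :=
      Zf_le_Mf (A := prof m T) (b := b) hc
    show lp m 0 (T + 1) 0 c + Wt b n c ≤ MT m b T n
    rw [h]
    exact h1
  · have hj : j < n := by omega
    have h1 : VT m b T n j ≤ MT m b T n := Vf_le_Mf (A := prof m T) (b := b) hj
    have h1' : VT m b T n j = lp m 0 T 0 j + Wt b n (j + 1) := rfl
    have h2 : Wt b n c ≤ Wt b n (j + 1) := Wt_anti hjc
    by_cases hJ : InJ m b T n j
    · right
      refine ⟨⟨j, hj, hJ, hm⟩, ?_⟩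
      show lp m 0 (T + 1) 0 c + Wt b n c ≤ MT m b T n + 1
      omega
    · left
      have h3 : VT m b T n j ≠ MT m b T n := hJ
      show lp m 0 (T + 1) 0 c + Wt b n c ≤ MT m b T n
      omega

theorem MT_succ_of (m : ℕ → ℕ → Prop) (b : ℕ → ℕ) (T n : ℕ)
    (h : ∃ j, j < n ∧ InJ m b T n j ∧ m T j) : MT m b (T + 1) n = MT m b T n + 1 := by
  apply le_antisymm
  · refine Mf_le fun c hc => ?_
    rcases RowStep_site m b T n hc with h1 | ⟨_, h1⟩
    · omega
    · exact h1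
  · obtain ⟨j, hj, hJ, hm⟩ := h
    have h1 : lp m 0 (T + 1) 0 (j + 1) + Wt b n (j + 1) ≤ MT m b (T + 1) n :=
      Zf_le_Mf (A := prof m (T + 1)) (b := b) hj
    have h2 := lp_row_cell m (a := 0) (T := T) (d := 0) (j := j) (c := j + 1) (Nat.zero_le T)
      (Nat.zero_le j) (Nat.lt_succ_self j) hm
    have h3 : lp m 0 T 0 j + Wt b n (j + 1) = MT m b T n := hJ
    omega

theorem MT_succ_of_not (m : ℕ → ℕ → Prop) (b : ℕ → ℕ) (T n : ℕ)
    (h : ¬ ∃ j, j < n ∧ InJ m b T n j ∧ m T j) : MT m b (T + 1) n = MT m b T n := by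
  apply le_antisymm
  · refine Mf_le fun c hc => ?_
    rcases RowStep_site m b T n hc with h1 | ⟨h1, _⟩
    · exact h1
    · exact absurd h1 h
  · refine Mf_le fun c hc => ?_
    have h1 : lp m 0 (T + 1) 0 c + Wt b n c ≤ MT m b (T + 1) n :=
      Zf_le_Mf (A := prof m (T + 1)) (b := b) hc
    have h2 : lp m 0 T 0 c ≤ lp m 0 (T + 1) 0 c :=
      lp_mono (le_refl _) (Nat.le_succ T) (le_refl _) (le_refl _) fun _ _ _ _ _ _ hm => hm
    show lp m 0 T 0 c + Wt b n c ≤ MT m b (T + 1) n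
    omega

end LCSH
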