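import Pool.Agent.Lib.MP_ae6bb1_pr.StepId
import Pool.Agent.Lib.MP_ae6bb1_pr.KeyEE
import Pool.Agent.Lib.MP_ae6bb1_pr.PairEst

/-! The step estimate (proof document, section H4). -/

open Finset

namespace LCSH

private theorem Step_err {α : Type} [Fintype α] [DecidableEq α] (L : Law α) {θ : ℝ}
    (hθ' : θ ≤ 8) :
    θ * L.sg * L.sg ^ 50 ≤ 8 * (L.sg * L.kp * Real.sqrt L.et * L.Lam ^ 6) := by
  have s0 : 0 < L.sg := sg_pos L
  have s1 : L.sg ≤ 1 := sg_le_one L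
  have k0 : L.sg ≤ L.kp := sg_le_kp L
  have e0 : L.kp ≤ L.et := kp_le_et L
  have e1 : L.et ≤ 1 := et_le_one L
  have l1 : 1 ≤ L.Lam := one_le_Lam L
  have ep : 0 < L.et := et_pos L
  have hsq : L.sg ≤ Real.sqrt L.et := by
    refine Real.le_sqrt_of_sq_le ?_
    nlinarith
  have hL6 : (1 : ℝ) ≤ L.Lam ^ 6 := one_le_pow₀ l1
  have h50 : L.sg ^ 50 ≤ L.sg ^ 2 := pow_le_pow_of_le_one s0.le s1 (by norm_num)
  have h1 : L.sg ^ 2 ≤ L.kp * Real.sqrt L.et := by
    rw [sq]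
    exact mul_le_mul k0 hsq s0.le (s0.le.trans k0)
  have h2 : L.kp * Real.sqrt L.et ≤ L.kp * Real.sqrt L.et * L.Lam ^ 6 :=
    le_mul_of_one_le_right (mul_nonneg (s0.le.trans k0) (Real.sqrt_nonneg _)) hL6
  have h3 : L.sg ^ 50 ≤ L.kp * Real.sqrt L.et * L.Lam ^ 6 := h50.trans (h1.trans h2)
  calc θ * L.sg * L.sg ^ 50 ≤ 8 * L.sg * L.sg ^ 50 := by
        have : 0 ≤ L.sg ^ 50 := by positivity
        gcongr
    _ ≤ 8 * L.sg * (L.kp * Real.sqrt L.et * L.Lam ^ 6) := by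
        gcongr
    _ = 8 * (L.sg * L.kp * Real.sqrt L.et * L.Lam ^ 6) := by ring

private theorem Step_X_nonneg {α : Type} [Fintype α] [DecidableEq α] (L : Law α) :
    0 ≤ L.sg * L.kp * Real.sqrt L.et * L.Lam ^ 6 := by
  have s0 : 0 < L.sg := sg_pos L
  have k0 : 0 < L.kp := kp_pos L
  have l1 : 1 ≤ L.Lam := one_le_Lam L
  positivity

theorem step_est : ∃ C : ℝ, 1 ≤ C ∧ ∀ (α : Type) [Fintype α] [DecidableEq α] (L : Law α)
    (θ : ℝ) (T n : ℕ), Reg L θ T n →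
    |EM L θ (T + 1) n - EM L θ T n - θ * L.sg / (1 + θ * L.kp)| ≤
      C * (L.sg * L.kp * Real.sqrt L.et * L.Lam ^ 6) := by
  obtain ⟨C2, hC2, h2⟩ := pair_est
  obtain ⟨C3, hC3, h3⟩ := triple_est
  refine ⟨C2 + C3 + 8, by linarith, ?_⟩
  intro α _ _ L θ T n hR
  have hθ : 0 < θ := by linarith [hR.hθ]
  have e2 := h2 α L θ T n hR
  have e3 := h3 α L θ T n hR
  have e4 := key_gain L hR
  have e5 := Step_err L hR.hθ'
  set X := L.sg * L.kp * Real.sqrt L.et * L.Lam ^ 6 with hX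
  rw [EM_succ]
  -- the pointwise comparison
  have e6 : |EE L θ T n (fun x y ξ =>
        mass L.p y (fun j => InJ (rl x y) (bt ξ) T n j) - L.sg / L.kp *
          (1 - ∏ j : Fin n, (1 - L.kp * L.u (y j) * ind (InJ (rl x y) (bt ξ) T n j))) +
        ∑ j : Fin n, ∑ j' : Fin n,
          (if j < j' then ff L (y j) (y j') * ind (PJ x y ξ j j') else 0))| ≤ C3 * X := by
    refine (abs_EE_le L hθ _).trans (le_trans (EE_mono L hθ fun x y ξ => ?_) e3)
    exact mass_prod L y (fun j => InJ (rl x y) (bt ξ) T n j)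
  rw [EE_add L (fun x y ξ => mass L.p y (fun j => InJ (rl x y) (bt ξ) T n j) - L.sg / L.kp *
          (1 - ∏ j : Fin n, (1 - L.kp * L.u (y j) * ind (InJ (rl x y) (bt ξ) T n j))))
        (fun x y ξ => ∑ j : Fin n, ∑ j' : Fin n,
          (if j < j' then ff L (y j) (y j') * ind (PJ x y ξ j j') else 0)),
      EE_sub L (fun x y ξ => mass L.p y (fun j => InJ (rl x y) (bt ξ) T n j))
        (fun x y ξ => L.sg / L.kp *
          (1 - ∏ j : Fin n, (1 - L.kp * L.u (y j) * ind (InJ (rl x y) (bt ξ) T n j))))] at e6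
  rw [abs_le] at e2 e4 e6 ⊢
  constructor <;> nlinarith [e2.1, e2.2, e4.1, e4.2, e6.1, e6.2]

/-- sum over `T` rows -/
theorem telescope : ∃ C : ℝ, 1 ≤ C ∧ ∀ (α : Type) [Fintype α] [DecidableEq α] (L : Law α)
    (θ : ℝ) (T n : ℕ), Reg L θ T n →
    |EM L θ T n - n * L.rb θ - T * (θ * L.sg / (1 + θ * L.kp))| ≤
      C * T * (L.sg * L.kp * Real.sqrt L.et * L.Lam ^ 6) := by
  obtain ⟨C, hC, h⟩ := step_est
  refine ⟨C, hC, ?_⟩
  intro α _ _ L θ T n hR
  induction T with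
  | zero =>
    have hθ : 0 < θ := by linarith [hR.hθ]
    rw [EM_zero L hθ n]
    simp
  | succ T ih =>
    have hR' : Reg L θ T n := by
      refine ⟨hR.het, hR.hθ, hR.hθ', ?_, hR.hn, hR.hn'⟩
      have := hR.hTn
      push_cast at this
      linarith
    have h1 := ih hR'
    have h2 := h α L θ T n hR'
    have hX := Step_X_nonneg L
    set X := L.sg * L.kp * Real.sqrt L.et * L.Lam ^ 6 with hXdef
    set g := θ * L.sg / (1 + θ * L.kp) with hg
    rw [abs_le] at h1 h2 ⊢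
    push_cast
    constructor <;> nlinarith [h1.1, h1.2, h2.1, h2.2]

end LCSH
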