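import Pool.Agent.Lib.MP_ae6bb1_pr.Bonf
import Pool.Agent.Lib.MP_ae6bb1_pr.RowStep
import Pool.Agent.Lib.MP_ae6bb1_pr.Rect

/-! One more row in expectation (proof document, section H2). -/

open Finset

namespace LCSH

variable {α : Type*} [Fintype α] [DecidableEq α] (L : Law α) {θ : ℝ} {T n : ℕ}

theorem EM_zero (hθ : 0 < θ) (n : ℕ) : EM L θ 0 n = n * L.rb θ := by
  rw [← EE_window (T := 0) (n := n) L hθ 0 n (by omega)]
  unfold EM
  congr 1
  funext x y ξ
  rw [MT_zero]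
  simp only [Wt, zero_add]

omit [Fintype α] [DecidableEq α] in
private theorem StepId_rl_lt (x : Fin T → α) (a : α) (y : Fin n → α) (i j : ℕ) (hi : i < T) :
    rl (Fin.snoc (α := fun _ => α) x a : Fin (T + 1) → α) y i j ↔ rl x y i j := by
  unfold rl
  constructor
  · rintro ⟨h1, h2, h3⟩
    refine ⟨hi, h2, ?_⟩
    rw [← h3]
    have : (⟨i, h1⟩ : Fin (T + 1)) = Fin.castSucc ⟨i, hi⟩ := rfl
    rw [this, Fin.snoc_castSucc]
  · rintro ⟨h1, h2, h3⟩
    refine ⟨by omega, h2, ?_⟩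
    rw [← h3]
    have : (⟨i, by omega⟩ : Fin (T + 1)) = Fin.castSucc ⟨i, hi⟩ := rfl
    rw [this, Fin.snoc_castSucc]

omit [Fintype α] [DecidableEq α] in
private theorem StepId_rl_last (x : Fin T → α) (a : α) (y : Fin n → α) (j : ℕ) (hj : j < n) :
    rl (Fin.snoc (α := fun _ => α) x a : Fin (T + 1) → α) y T j ↔ y ⟨j, hj⟩ = a := by
  unfold rl
  have : (⟨T, by omega⟩ : Fin (T + 1)) = Fin.last T := rfl
  constructor
  · rintro ⟨h1, h2, h3⟩
    rw [← h3]
    rw [this, Fin.snoc_last]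
  · intro h
    refine ⟨by omega, hj, ?_⟩
    rw [this, Fin.snoc_last, h]

omit [Fintype α] [DecidableEq α] in
private theorem StepId_prof (x : Fin T → α) (a : α) (y : Fin n → α) :
    prof (rl (Fin.snoc (α := fun _ => α) x a : Fin (T + 1) → α) y) T = prof (rl x y) T := by
  funext c
  unfold prof
  exact lp_congr fun i j _ h2 _ _ => StepId_rl_lt x a y i j h2

omit [Fintype α] [DecidableEq α] in
private theorem StepId_MT (x : Fin T → α) (a : α) (y : Fin n → α) (ξ : Fin n → Bool) :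
    (MT (rl (Fin.snoc (α := fun _ => α) x a : Fin (T + 1) → α) y) (bt ξ) (T + 1) n : ℝ) =
      MT (rl x y) (bt ξ) T n + ind (∃ j : Fin n, InJ (rl x y) (bt ξ) T n j ∧ y j = a) := by
  set m := rl (Fin.snoc (α := fun _ => α) x a : Fin (T + 1) → α) y with hm
  have h0 : MT m (bt ξ) T n = MT (rl x y) (bt ξ) T n := by
    unfold MT
    rw [hm, StepId_prof]
  have h1 : ∀ j, InJ m (bt ξ) T n j ↔ InJ (rl x y) (bt ξ) T n j := by
    intro j
    unfold InJ VT MT
    rw [hm, StepId_prof]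
  by_cases h : ∃ j : Fin n, InJ (rl x y) (bt ξ) T n j ∧ y j = a
  · rw [ind_of h]
    have h2 : ∃ j, j < n ∧ InJ m (bt ξ) T n j ∧ m T j := by
      obtain ⟨j, hj, hy⟩ := h
      exact ⟨j, j.2, (h1 _).2 hj, (StepId_rl_last x a y j j.2).2 hy⟩
    rw [MT_succ_of m (bt ξ) T n h2, h0]
    push_cast
    ring
  · rw [ind_of_not h]
    have h2 : ¬ ∃ j, j < n ∧ InJ m (bt ξ) T n j ∧ m T j := by
      rintro ⟨j, hj, hJ, hy⟩
      exact h ⟨⟨j, hj⟩, (h1 _).1 hJ, (StepId_rl_last x a y j hj).1 hy⟩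
    rw [MT_succ_of_not m (bt ξ) T n h2, h0]
    ring

private theorem StepId_PE_sum {ι β κ : Type*} [Fintype ι] [DecidableEq ι] [Fintype β]
    [Fintype κ] (w : ι → β → ℝ) (c : κ → ℝ) (f : κ → (ι → β) → ℝ) :
    ∑ k, c k * PE w (f k) = PE w (fun ω => ∑ k, c k * f k ω) := by
  rw [PE_sum w Finset.univ (fun k ω => c k * f k ω)]
  refine Finset.sum_congr rfl fun k _ => ?_
  rw [PE_const_mul]

theorem EM_succ (θ : ℝ) (T n : ℕ) :
    EM L θ (T + 1) n = EM L θ T n + EE L θ T n (fun x y ξ =>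
      mass L.p y (fun j => InJ (rl x y) (bt ξ) T n j)) := by
  rw [EM, EM, ← EE_add]
  unfold EE
  rw [PE_snoc]
  congr 1
  funext x
  rw [StepId_PE_sum]
  congr 1
  funext y
  rw [StepId_PE_sum]
  congr 1
  funext ξ
  unfold mass
  have : ∀ a, L.p a * (MT (rl (Fin.snoc (α := fun _ => α) x a : Fin (T + 1) → α) y) (bt ξ)
      (T + 1) n : ℝ) = L.p a * (MT (rl x y) (bt ξ) T n : ℝ) +
        L.p a * ind (∃ j : Fin n, InJ (rl x y) (bt ξ) T n j ∧ y j = a) := by
    intro a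
    rw [StepId_MT]
    ring
  rw [Finset.sum_congr rfl fun a _ => this a, Finset.sum_add_distrib, ← Finset.sum_mul,
    L.sum_one, one_mul]

end LCSH
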