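import Pool.Agent.Lib.MP_ae6bb1_pr.Step
import Pool.Agent.Lib.MP_ae6bb1_pr.Chop
import Pool.Agent.Lib.MP_ae6bb1_pr.Apriori
import Pool.Agent.Lib.MP_ae6bb1_pr.Params

/-! The upper bound (proof document, section J2). -/

open Finset

namespace LCSH

/-- the parameter `q` with `q² = Λ X / T` -/
theorem Upper_q {α : Type*} [Fintype α] (L : Law α) (het : L.et ≤ c0) {T : ℕ}
    (hT : (1 / L.sg) ^ 8 ≤ (T : ℝ)) :
    ∃ q : ℝ, 0 < q ∧ q ^ 2 = L.Lam * (1 / L.sg) / T ∧
      q ≤ L.sg * L.kp * Real.sqrt L.et * L.Lam ^ 6 ∧ (1 / L.sg) ^ 3 ≤ 1 / q := by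
  have hs := sg_pos L
  have hX6 : (10 : ℝ) ^ 6 ≤ 1 / L.sg := Params_X L het
  have hD := Params_D L
  have hDp := Params_D_pos L
  set D : ℝ := L.sg * L.kp * Real.sqrt L.et * L.Lam ^ 6 with hDdef
  have hLX : L.Lam ≤ 1 / L.sg := by
    have : L.Lam = 1 + Real.log (1 / L.sg) := rfl
    rw [this]
    have := Real.log_le_sub_one_of_pos (by positivity : (0 : ℝ) < 1 / L.sg)
    linarith
  set X : ℝ := 1 / L.sg with hX
  have hX1 : 1 ≤ X := by linarith [hX6, (by norm_num : (1 : ℝ) ≤ 10 ^ 6)]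
  have hX0 : 0 < X := by linarith
  have hXs : X * L.sg = 1 := by rw [hX]; field_simp
  have hT0 : 0 < (T : ℝ) := lt_of_lt_of_le (by positivity) hT
  have hLam := one_le_Lam L
  have hLam0 : 0 < L.Lam := by linarith
  have hq2 : Real.sqrt (L.Lam * X / T) ^ 2 = L.Lam * X / T := Real.sq_sqrt (by positivity)
  refine ⟨Real.sqrt (L.Lam * X / T), Real.sqrt_pos.mpr (by positivity), hq2, ?_, ?_⟩
  · rw [Real.sqrt_le_left hDp.le]
    refine le_trans ?_ hD
    rw [div_le_iff₀ hT0]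
    calc L.Lam * X = L.Lam * X * (X * L.sg) ^ 5 := by rw [hXs]; ring
      _ = L.sg ^ 5 * L.Lam * X ^ 6 := by ring
      _ ≤ L.sg ^ 5 * L.Lam ^ 12 * X ^ 8 := by
          have h1 : L.Lam ≤ L.Lam ^ 12 := le_self_pow₀ hLam (by norm_num)
          have h2 := pow_le_pow_right₀ hX1 (by norm_num : 6 ≤ 8)
          gcongr
      _ ≤ L.sg ^ 5 * L.Lam ^ 12 * T := by gcongr
  · rw [le_div_iff₀ (Real.sqrt_pos.mpr (by positivity))]
    have h1 : Real.sqrt (L.Lam * X / T) ≤ 1 / X ^ 3 := by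
      rw [Real.sqrt_le_left (by positivity)]
      rw [div_le_iff₀ hT0]
      calc L.Lam * X ≤ X * X := by gcongr
        _ = (1 / X ^ 3) ^ 2 * X ^ 8 := by field_simp
        _ ≤ (1 / X ^ 3) ^ 2 * T := by gcongr
    calc X ^ 3 * Real.sqrt (L.Lam * X / T) ≤ X ^ 3 * (1 / X ^ 3) := by gcongr
      _ = 1 := by field_simp

theorem gam_upper_est : ∃ C : ℝ, 1 ≤ C ∧ ∀ (α : Type) [Fintype α] [DecidableEq α] (L : Law α),
    L.et ≤ c0 → gam L ≤ 2 * L.sg - 2 * L.sg * L.kp +
      C * (L.sg * L.kp * Real.sqrt L.et * L.Lam ^ 6) := by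
  obtain ⟨C, hC, htel⟩ := telescope
  refine ⟨C + 64, by linarith, ?_⟩
  intro α _ _ L het
  have hs := sg_pos L
  have hk := kp_pos L
  have he := et_pos L
  have he1 : L.et ≤ 1 := et_le_one L
  have hke := kp_le_et L
  have hk1 : L.kp ≤ 1 := hke.trans he1
  obtain ⟨T, n, hR, hT8, hT1, hn1, hns, hn51⟩ := Params_exists L het 1 (by norm_num)
    (by norm_num)
  have htel' := htel α L 1 T n hR
  set D : ℝ := L.sg * L.kp * Real.sqrt L.et * L.Lam ^ 6 with hD
  have hDp : 0 < D := Params_D_pos L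
  have hT0 : (0 : ℝ) < T := by exact_mod_cast hT1
  obtain ⟨q, hq0, hq2, hqD, hqX⟩ := Upper_q L het hT8
  rw [← hD] at hqD
  have hX6 : (10 : ℝ) ^ 6 ≤ 1 / L.sg := Params_X L het
  have hLX : L.Lam ≤ 1 / L.sg := by
    have : L.Lam = 1 + Real.log (1 / L.sg) := rfl
    rw [this]
    have := Real.log_le_sub_one_of_pos (by positivity : (0 : ℝ) < 1 / L.sg)
    linarith
  have hLam := one_le_Lam L
  have hlog := Params_log L het hR.hn'
  set X : ℝ := 1 / L.sg with hX
  have hX1 : 1 ≤ X := by linarith [hX6, (by norm_num : (1 : ℝ) ≤ 10 ^ 6)]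
  have hX0 : 0 < X := by linarith
  have hXs : X * L.sg = 1 := by rw [hX]; field_simp
  have hs1 : L.sg ≤ 1 := sg_le_one L
  -- the parameters
  set s : ℝ := L.sg * q with hsdef
  set R : ℝ := L.rb 1 with hRdef
  set g0 : ℝ := 1 * L.sg / (1 + 1 * L.kp) with hg0
  set g : ℝ := g0 + C * D with hg
  have hg0pos : 0 ≤ g0 := by rw [hg0]; positivity
  have hgpos : 0 ≤ g := by rw [hg]; positivity
  have hs0 : 0 < s := by positivity
  have hq1 : q ≤ 1 := by
    have h1 : 1 ≤ 1 / q := le_trans (one_le_pow₀ hX1) hqX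
    rwa [le_div_iff₀ hq0, one_mul] at h1
  have hsle : s ≤ 1 := by
    rw [hsdef]
    calc L.sg * q ≤ 1 * 1 := by gcongr
      _ = 1 := by norm_num
  have hR0 : 0 < R := rb_pos L 1 (by norm_num)
  have hR1 : R ≤ 1 := (rb_le L 1 (by norm_num)).trans (by simpa using hs1)
  have hRlow : L.sg / 2 ≤ R := by
    refine le_trans ?_ (le_rb L 1 (by norm_num))
    gcongr
    linarith
  have hEL : ∀ c ≤ n, EL L T c ≤ R * c + T * g := by
    intro c hc
    have h1 := le_EM L (θ := 1) (T := T) (n := n) (by norm_num) c hc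
    have h2 := (abs_le.mp htel').2
    have h3 : ((n - c : ℕ) : ℝ) = (n : ℝ) - c := by rw [Nat.cast_sub hc]
    rw [h3] at h1
    rw [hg]
    have h4 : EL L T c ≤ EM L 1 T n - (n - c) * R := by linarith
    nlinarith
  have hqT : q * (q * T) = L.Lam * X := by
    have : q ^ 2 * T = L.Lam * X := by
      rw [hq2]; field_simp
    nlinarith
  have hsT : s * T = L.Lam / q := by
    rw [eq_div_iff hq0.ne']
    calc s * T * q = L.sg * (q * (q * T)) := by rw [hsdef]; ring
      _ = L.sg * (L.Lam * X) := by rw [hqT]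
      _ = L.Lam * (X * L.sg) := by ring
      _ = L.Lam := by rw [hXs, mul_one]
  have hnR : 2 * (T : ℝ) ≤ R * n := by
    have h1 : L.sg / 2 * n ≤ R * n := by gcongr
    nlinarith
  have hexp : 2 / (s * R) ≤ Real.exp (s * T) := by
    rw [hsT]
    have h1 : (1 / q) ^ 3 / 6 ≤ Real.exp (1 / q) := by
      have := Real.pow_div_factorial_le_exp (1 / q) (by positivity) 3
      simpa [Nat.factorial] using this
    have h2 : Real.exp (1 / q) ≤ Real.exp (L.Lam / q) := by
      apply Real.exp_le_exp.mpr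
      gcongr
    have h3 : 2 / (s * R) ≤ 4 * X ^ 2 * (1 / q) := by
      rw [div_le_iff₀ (by positivity)]
      have : 4 * X ^ 2 * (1 / q) * (s * R) = 4 * X * (X * L.sg) * R := by
        rw [hsdef]; field_simp
      rw [this, hXs]
      have h4 : X * (L.sg / 2) ≤ X * R := by gcongr
      nlinarith
    have h5 : 4 * X ^ 2 * (1 / q) ≤ (1 / q) ^ 3 / 6 := by
      have h6 : X ^ 6 ≤ (1 / q) ^ 2 := by
        calc X ^ 6 = (X ^ 3) ^ 2 := by ring
          _ ≤ (1 / q) ^ 2 := by gcongr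
      have h7 : 24 * X ^ 2 ≤ X ^ 6 := by
        have : (24 : ℝ) ≤ X ^ 4 := by
          calc (24 : ℝ) ≤ 10 ^ 6 := by norm_num
            _ ≤ X := hX6
            _ ≤ X ^ 4 := le_self_pow₀ hX1 (by norm_num)
        calc 24 * X ^ 2 ≤ X ^ 4 * X ^ 2 := by gcongr
          _ = X ^ 6 := by ring
      have h8 : 0 < 1 / q := by positivity
      have h9 : 24 * X ^ 2 * (1 / q) ≤ (1 / q) ^ 2 * (1 / q) := by
        gcongr
        exact h7.trans h6
      nlinarith
    linarith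
  have hsum := strip_sum L T n hT1 s R g hs0 hsle hR0 hgpos hR1 hEL hnR hexp
  set S : ℝ := (n + 2) * Real.exp (s * T * g + s ^ 2 * (T + n : ℕ)) with hS
  have hS1 : 1 ≤ S := by
    rw [hS]
    have h1 : (1 : ℝ) ≤ (n : ℝ) + 2 := by
      have : (0 : ℝ) ≤ n := Nat.cast_nonneg n
      linarith
    have h2 : 1 ≤ Real.exp (s * T * g + s ^ 2 * (T + n : ℕ)) := Real.one_le_exp (by positivity)
    nlinarith
  have hgam := gam_le_strips L T hT1 s R S hs0 hR0.le hS1 hsum
  have hlogS : Real.log S = Real.log (n + 2) + (s * T * g + s ^ 2 * (T + n : ℕ)) := by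
    rw [hS, Real.log_mul (by positivity) (Real.exp_pos _).ne', Real.log_exp]
  have hmain : Real.log S / (s * T) ≤ g + 62 * q := by
    rw [div_le_iff₀ (by positivity), hlogS]
    have h1 : s ^ 2 * ((T + n : ℕ) : ℝ) ≤ 52 * q * (s * T) := by
      have e1 : ((T + n : ℕ) : ℝ) ≤ 52 * T * X := by
        push_cast
        nlinarith
      calc s ^ 2 * ((T + n : ℕ) : ℝ) ≤ s ^ 2 * (52 * T * X) := by gcongr
        _ = 52 * (q * (X * L.sg)) * (s * T) := by rw [hsdef]; ring
        _ = 52 * q * (s * T) := by rw [hXs]; ring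
    have h2 : Real.log (n + 2) ≤ 10 * q * (s * T) := by
      rw [hsT]
      have : 10 * q * (L.Lam / q) = 10 * L.Lam := by field_simp
      rw [this]
      exact hlog
    nlinarith
  have h10 : gam L ≤ R + g0 + (C + 62) * D := by
    rw [hg] at hmain
    nlinarith
  have h11 := rb_one_le L
  have h12 : g0 ≤ L.sg * (1 - L.kp + L.et * L.kp) := by
    rw [hg0, one_mul, one_mul, div_le_iff₀ (by linarith)]
    have h13 : L.kp * L.kp ≤ L.et * L.kp := by gcongr
    have h14 : 1 ≤ (1 - L.kp + L.et * L.kp) * (1 + L.kp) := by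
      nlinarith [mul_nonneg he.le (mul_nonneg hk.le hk.le)]
    nlinarith
  have h15 : L.sg * (L.et * L.kp) ≤ D := by
    have h16 : L.et ≤ Real.sqrt L.et := by
      apply Real.le_sqrt_of_sq_le
      nlinarith
    have h17 : (1 : ℝ) ≤ L.Lam ^ 6 := one_le_pow₀ hLam
    calc L.sg * (L.et * L.kp) = L.sg * L.kp * L.et * 1 := by ring
      _ ≤ L.sg * L.kp * Real.sqrt L.et * L.Lam ^ 6 := by gcongr
  nlinarith

end LCSH
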