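import Pool.Agent.Lib.MP_ae6bb1_pr.Lower
import Pool.Agent.Lib.MP_ae6bb1_pr.Upper

/-! The two-sided estimate for all laws (proof document, section J3). -/

open Finset

namespace LCSH

theorem gam_est : ∃ C : ℝ, 1 ≤ C ∧ ∀ (α : Type) [Fintype α] [DecidableEq α] (L : Law α),
    |gam L - (2 * L.sg - 2 * L.sg * L.kp)| ≤
      C * (L.sg * L.kp * Real.sqrt L.et * L.Lam ^ 6) := by
  obtain ⟨C1, hC1, h1⟩ := gam_lower_est
  obtain ⟨C2, hC2, h2⟩ := gam_upper_est
  have hc0 : (0 : ℝ) < c0 := by unfold c0; norm_num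
  have hc4 : (0 : ℝ) < c0 ^ 4 := by positivity
  have hD : (0 : ℝ) ≤ 5 / c0 ^ 4 := by positivity
  refine ⟨C1 + C2 + 5 / c0 ^ 4, by linarith, ?_⟩
  intro α _ _ L
  have hs0 := sg_pos L
  have hk0 := kp_pos L
  have he0 := et_pos L
  have he1 := et_le_one L
  have hke := kp_le_et L
  have hL := one_le_Lam L
  have hsq0 : 0 ≤ Real.sqrt L.et := Real.sqrt_nonneg _
  have hL6 : 1 ≤ L.Lam ^ 6 := one_le_pow₀ hL
  set X := L.sg * L.kp * Real.sqrt L.et * L.Lam ^ 6 with hX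
  have hX0 : 0 ≤ X := by
    have : 0 ≤ L.Lam ^ 6 := by linarith
    positivity
  rcases le_or_gt L.et c0 with hle | hgt
  · have l1 := h1 α L hle
    have l2 := h2 α L hle
    rw [← hX] at l1 l2
    have m1 : C1 * X ≤ (C1 + C2 + 5 / c0 ^ 4) * X :=
      mul_le_mul_of_nonneg_right (by linarith) hX0
    have m2 : C2 * X ≤ (C1 + C2 + 5 / c0 ^ 4) * X :=
      mul_le_mul_of_nonneg_right (by linarith) hX0
    rw [abs_le]
    constructor <;> linarith
  · have g0 := gam_nonneg L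
    have g1 := gam_upper L
    have he := Real.exp_one_lt_d9
    have habs : |gam L - (2 * L.sg - 2 * L.sg * L.kp)| ≤ 5 * L.sg := by
      have a1 : 0 ≤ L.sg * L.kp := by positivity
      have a2 : L.sg * L.kp ≤ L.sg := by nlinarith
      rw [abs_le]
      constructor <;> nlinarith
    have hk3 : c0 ^ 3 ≤ L.kp := by
      refine le_trans ?_ (et_cube_le_kp L)
      exact pow_le_pow_left₀ hc0.le hgt.le 3
    have hsq : c0 ≤ Real.sqrt L.et := by
      refine hgt.le.trans ?_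
      rw [Real.le_sqrt he0.le he0.le]
      nlinarith
    have hXl : L.sg * c0 ^ 4 ≤ X := by
      have e1 : L.sg * c0 ^ 4 = L.sg * c0 ^ 3 * c0 * 1 := by ring
      rw [e1, hX]
      have : 0 ≤ L.Lam ^ 6 := by linarith
      gcongr
    refine habs.trans ?_
    have m3 : 5 / c0 ^ 4 * X ≤ (C1 + C2 + 5 / c0 ^ 4) * X :=
      mul_le_mul_of_nonneg_right (by linarith) hX0
    have m4 : 5 * L.sg = 5 / c0 ^ 4 * (L.sg * c0 ^ 4) := by field_simp
    have m5 : 5 / c0 ^ 4 * (L.sg * c0 ^ 4) ≤ 5 / c0 ^ 4 * X :=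
      mul_le_mul_of_nonneg_left hXl hD
    linarith

end LCSH
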