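import Pool.Agent.Lib.MP_ae6bb1_pr.Decouple
import Pool.Agent.Lib.MP_ae6bb1_pr.Dich
import Pool.Agent.Lib.MP_ae6bb1_pr.NearMom

/-! Triples of columns (proof document, section G5). -/

open Finset

namespace LCSH

variable {α : Type*} [Fintype α] [DecidableEq α] (L : Law α) {θ : ℝ} {T n : ℕ}

/-- three pivotal columns -/
def TJ (x : Fin T → α) (y : Fin n → α) (ξ : Fin n → Bool) (j j' j'' : ℕ) : Prop :=
  InJ (rl x y) (bt ξ) T n j ∧ InJ (rl x y) (bt ξ) T n j' ∧ InJ (rl x y) (bt ξ) T n j''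

/-- the three columns are near in the emptied environment -/
private def Triple_E (K : Finset ℕ) (j j' j'' : ℕ) (x : Fin T → α) (y : Fin n → α)
    (ξ : Fin n → Bool) : Prop :=
  NearC (rmc K (rl x y)) (rmb K (bt ξ)) T n 2 j ∧ NearC (rmc K (rl x y)) (rmb K (bt ξ)) T n 2 j' ∧
    NearC (rmc K (rl x y)) (rmb K (bt ξ)) T n 2 j''

omit [Fintype α] [DecidableEq α] in
private theorem Triple_near (x : Fin T → α) (y : Fin n → α) (ξ : Fin n → Bool) {K : Finset ℕ}
    (hK : K.card ≤ 3) {j : ℕ} (hj : j ∈ K) (h : InJ (rl x y) (bt ξ) T n j) :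
    NearC (rmc K (rl x y)) (rmb K (bt ξ)) T n 2 j := by
  unfold InJ at h
  unfold NearC
  have h1 := MT_rm_le (m := rl x y) (b := bt ξ) (T := T) (n := n) K
  have h2 := VT_le_rm (m := rl x y) (b := bt ξ) (T := T) (n := n) (bt_le_one ξ) K j
  have h3 : (K.erase j).card ≤ 2 := by
    rw [Finset.card_erase_of_mem hj]
    omega
  omega

omit [Fintype α] [DecidableEq α] in
private theorem Triple_near5 (x : Fin T → α) (y : Fin n → α) (ξ : Fin n → Bool) {K : Finset ℕ}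
    (hK : K.card ≤ 3) {j : ℕ} (h : NearC (rmc K (rl x y)) (rmb K (bt ξ)) T n 2 j) :
    NearC (rl x y) (bt ξ) T n 5 j := by
  have h1 : rmr ∅ (rmc K (rl x y)) = rmc K (rl x y) := by
    funext i l
    simp [rmr]
  refine near_transfer (rl x y) (bt ξ) (bt_le_one ξ) T n K ∅ (by simpa using hK) j ?_
  rw [h1]
  exact h

omit [Fintype α] [DecidableEq α] in
private theorem Triple_indC (K : Finset ℕ) (j j' j'' : ℕ) (i : Fin n) (hi : (i : ℕ) ∈ K) :
    IndC (T := T) (fun (x : Fin T → α) y ξ => ind (Triple_E K j j' j'' x y ξ)) i := by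
  intro x y ξ a c
  unfold Triple_E
  simp only [rmc_rl_update K x y i a hi, rmb_bt_update K ξ i c hi]

theorem triple_one (hθ : 0 < θ) (f : α → α → α → ℝ) (hf : ∀ a b c, 0 ≤ f a b c)
    (j j' j'' : Fin n) (hjj : j < j') (hjj' : j' < j'') :
    EE L θ T n (fun x y ξ => f (y j) (y j') (y j'') * ind (TJ x y ξ j j' j'')) ≤
    (∑ a, ∑ b, ∑ c, L.p a * L.p b * L.p c * f a b c) * EE L θ T n (fun x y ξ =>
      ind (NearC (rl x y) (bt ξ) T n 5 j) * ind (NearC (rl x y) (bt ξ) T n 5 j') *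
        ind (NearC (rl x y) (bt ξ) T n 5 j'')) := by
  classical
  set K : Finset ℕ := {(j : ℕ), (j' : ℕ), (j'' : ℕ)} with hKdef
  have hK : K.card ≤ 3 := Finset.card_le_three
  have hj : (j : ℕ) ∈ K := by simp [hKdef]
  have hj' : (j' : ℕ) ∈ K := by simp [hKdef]
  have hj'' : (j'' : ℕ) ∈ K := by simp [hKdef]
  have h1 : EE L θ T n (fun x y ξ => f (y j) (y j') (y j'') * ind (TJ x y ξ j j' j'')) ≤
      EE L θ T n (fun x y ξ => f (y j) (y j') (y j'') * ind (Triple_E K j j' j'' x y ξ)) := by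
    refine EE_mono L hθ fun x y ξ => ?_
    refine mul_le_mul_of_nonneg_left (ind_mono ?_) (hf _ _ _)
    rintro ⟨e1, e2, e3⟩
    exact ⟨Triple_near x y ξ hK hj e1, Triple_near x y ξ hK hj' e2, Triple_near x y ξ hK hj'' e3⟩
  have h2 := EE_dec3 L (T := T) hθ f
    (fun (x : Fin T → α) y ξ => ind (Triple_E K j j' j'' x y ξ)) (ne_of_lt hjj)
    (ne_of_lt (hjj.trans hjj')) (ne_of_lt hjj') (Triple_indC K _ _ _ j hj)
    (Triple_indC K _ _ _ j' hj') (Triple_indC K _ _ _ j'' hj'')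
  have h0 : 0 ≤ ∑ a, ∑ b, ∑ c, L.p a * L.p b * L.p c * f a b c :=
    Finset.sum_nonneg fun a _ => Finset.sum_nonneg fun b _ => Finset.sum_nonneg fun c _ =>
      mul_nonneg (mul_nonneg (mul_nonneg (L.nonneg a) (L.nonneg b)) (L.nonneg c)) (hf a b c)
  refine h1.trans ?_
  rw [h2]
  refine mul_le_mul_of_nonneg_left ?_ h0
  refine EE_mono L hθ fun x y ξ => ?_
  by_cases hE : Triple_E K j j' j'' x y ξ
  · rw [ind_of hE, ind_of (Triple_near5 x y ξ hK hE.1), ind_of (Triple_near5 x y ξ hK hE.2.1),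
      ind_of (Triple_near5 x y ξ hK hE.2.2)]
    norm_num
  · rw [ind_of_not hE]
    exact mul_nonneg (mul_nonneg (ind_nonneg _) (ind_nonneg _)) (ind_nonneg _)

omit [Fintype α] [DecidableEq α] in
private theorem Triple_NN (x : Fin T → α) (y : Fin n → α) (ξ : Fin n → Bool) :
    (NN (prof (rl x y) T) (bt ξ) n 5 : ℝ) = ∑ j : Fin n, ind (NearC (rl x y) (bt ξ) T n 5 j) := by
  classical
  unfold NN
  rw [Finset.card_filter, Nat.cast_sum, Finset.sum_range]
  refine Finset.sum_congr rfl fun j _ => ?_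
  unfold ind
  by_cases h : NearC (rl x y) (bt ξ) T n 5 j
  · rw [if_pos h, if_pos (by exact h)]
    norm_num
  · rw [if_neg h, if_neg (by exact h)]
    norm_num

theorem triple_total (hθ : 0 < θ) (f : α → α → α → ℝ) (hf : ∀ a b c, 0 ≤ f a b c) :
    EE L θ T n (fun x y ξ => ∑ j : Fin n, ∑ j' : Fin n, ∑ j'' : Fin n,
      (if j < j' ∧ j' < j'' then f (y j) (y j') (y j'') * ind (TJ x y ξ j j' j'') else 0)) ≤
    (∑ a, ∑ b, ∑ c, L.p a * L.p b * L.p c * f a b c) *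
      EE L θ T n (fun x y ξ => (NN (prof (rl x y) T) (bt ξ) n 5 : ℝ) ^ 3) := by
  classical
  set C := ∑ a, ∑ b, ∑ c, L.p a * L.p b * L.p c * f a b c with hC
  have h0 : 0 ≤ C :=
    Finset.sum_nonneg fun a _ => Finset.sum_nonneg fun b _ => Finset.sum_nonneg fun c _ =>
      mul_nonneg (mul_nonneg (mul_nonneg (L.nonneg a) (L.nonneg b)) (L.nonneg c)) (hf a b c)
  have hNN : (fun (x : Fin T → α) (y : Fin n → α) (ξ : Fin n → Bool) =>
      (NN (prof (rl x y) T) (bt ξ) n 5 : ℝ) ^ 3) = fun x y ξ =>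
      ∑ j : Fin n, ∑ j' : Fin n, ∑ j'' : Fin n, ind (NearC (rl x y) (bt ξ) T n 5 j) *
        ind (NearC (rl x y) (bt ξ) T n 5 j') * ind (NearC (rl x y) (bt ξ) T n 5 j'') := by
    funext x y ξ
    rw [Triple_NN, pow_succ, sq, Finset.sum_mul_sum, Finset.sum_mul]
    refine Finset.sum_congr rfl fun j _ => ?_
    rw [Finset.sum_mul_sum]
  rw [hNN]
  have e1 : ∀ F : Fin n → Fin n → Fin n → (Fin T → α) → (Fin n → α) → (Fin n → Bool) → ℝ,
      EE L θ T n (fun x y ξ => ∑ j : Fin n, ∑ j' : Fin n, ∑ j'' : Fin n, F j j' j'' x y ξ)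
        = ∑ j : Fin n, ∑ j' : Fin n, ∑ j'' : Fin n, EE L θ T n (F j j' j'') := by
    intro F
    rw [EE_sum L Finset.univ (fun j x y ξ => ∑ j' : Fin n, ∑ j'' : Fin n, F j j' j'' x y ξ)]
    refine Finset.sum_congr rfl fun j _ => ?_
    rw [EE_sum L Finset.univ (fun j' x y ξ => ∑ j'' : Fin n, F j j' j'' x y ξ)]
    refine Finset.sum_congr rfl fun j' _ => ?_
    rw [EE_sum L Finset.univ (fun j'' x y ξ => F j j' j'' x y ξ)]
  rw [e1 (fun j j' j'' x y ξ => if j < j' ∧ j' < j'' then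
      f (y j) (y j') (y j'') * ind (TJ x y ξ j j' j'') else 0),
    e1 (fun j j' j'' x y ξ => ind (NearC (rl x y) (bt ξ) T n 5 j) *
        ind (NearC (rl x y) (bt ξ) T n 5 j') * ind (NearC (rl x y) (bt ξ) T n 5 j'')),
    Finset.mul_sum]
  refine Finset.sum_le_sum fun j _ => ?_
  rw [Finset.mul_sum]
  refine Finset.sum_le_sum fun j' _ => ?_
  rw [Finset.mul_sum]
  refine Finset.sum_le_sum fun j'' _ => ?_
  by_cases h : j < j' ∧ j' < j''
  · simp only [h, and_self, if_true]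
    exact triple_one L hθ f hf j j' j'' h.1 h.2
  · simp only [h, if_false]
    rw [EE_const L hθ 0]
    refine mul_nonneg h0 (EE_nonneg L hθ fun x y ξ => ?_)
    exact mul_nonneg (mul_nonneg (ind_nonneg _) (ind_nonneg _)) (ind_nonneg _)

end LCSH
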