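import Pool.Agent.Lib.MP_ae6bb1_pr.Triple
import Pool.Agent.Lib.MP_ae6bb1_pr.Coef

/-! Final estimate for triples (proof document, section G6). -/

open Finset

namespace LCSH

/-- the kernel bounding all third order terms -/
noncomputable def f3 {α : Type*} [Fintype α] [DecidableEq α] (L : Law α) (a b c : α) : ℝ :=
  (if a = b ∧ a = c then L.p a else 0) + L.sg * L.kp ^ 2 * L.u a * L.u b * L.u c

theorem f3_nonneg {α : Type*} [Fintype α] [DecidableEq α] (L : Law α) (a b c : α) :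
    0 ≤ f3 L a b c := by
  have h1 := L.nonneg a
  have h2 := sg_pos L
  have ha := u_nonneg L a
  have hb := u_nonneg L b
  have hc := u_nonneg L c
  unfold f3
  split_ifs <;> positivity

private theorem TripleEst_sum {α : Type*} [Fintype α] [DecidableEq α] (L : Law α) :
    ∑ a, ∑ b, ∑ c, L.p a * L.p b * L.p c * f3 L a b c =
      ∑ a, L.p a ^ 4 + L.sg * L.kp ^ 2 * (∑ a, L.p a * L.u a) ^ 3 := by
  have h1 : ∀ a b c, L.p a * L.p b * L.p c * f3 L a b c =
      L.p a * L.p b * L.p c * (if a = b ∧ a = c then L.p a else 0) +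
      L.sg * L.kp ^ 2 * ((L.p a * L.u a) * ((L.p b * L.u b) * (L.p c * L.u c))) := by
    intro a b c
    unfold f3
    ring
  simp only [h1, Finset.sum_add_distrib]
  congr 1
  · refine Finset.sum_congr rfl fun a _ => ?_
    rw [Finset.sum_eq_single a, Finset.sum_eq_single a]
    · simp
      ring
    · intro c _ hc
      simp [Ne.symm hc]
    · simp
    · intro b _ hb
      refine Finset.sum_eq_zero fun c _ => ?_
      simp [Ne.symm hb]
    · simp
  · simp only [← Finset.mul_sum]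
    congr 1
    rw [← Finset.sum_mul, ← Finset.sum_mul]
    ring

theorem triple_est : ∃ C : ℝ, 1 ≤ C ∧ ∀ (α : Type) [Fintype α] [DecidableEq α] (L : Law α)
    (θ : ℝ) (T n : ℕ), Reg L θ T n →
    EE L θ T n (fun x y ξ => ∑ j : Fin n, ∑ j' : Fin n, ∑ j'' : Fin n,
      (if j < j' ∧ j' < j'' then f3 L (y j) (y j') (y j'') * ind (TJ x y ξ j j' j'') else 0)) ≤
    C * (L.sg * L.kp * Real.sqrt L.et * L.Lam ^ 6) := by
  obtain ⟨C, hC, h⟩ := near_cube
  refine ⟨2 * C, by linarith, ?_⟩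
  intro α _ _ L θ T n hR
  have hθ : 0 < θ := by linarith [hR.hθ]
  have h1 := triple_total L (θ := θ) (T := T) (n := n) hθ (f3 L) (f3_nonneg L)
  have h2 := h α L θ T n hR
  have hs := sg_pos L
  have hk := kp_pos L
  have he := et_pos L
  have he1 := et_le_one L
  have hL := one_le_Lam L
  have hsum : ∑ a, ∑ b, ∑ c, L.p a * L.p b * L.p c * f3 L a b c ≤
      2 * (L.sg ^ 4 * (L.et * L.kp)) := by
    rw [TripleEst_sum, sum_p_u]
    have h3 := sum_p_four_le L
    have h4 : L.sg * L.kp ^ 2 * L.sg ^ 3 ≤ L.sg ^ 4 * (L.et * L.kp) := by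
      have h5 : L.kp * L.kp ≤ L.et * L.kp := mul_le_mul_of_nonneg_right (kp_le_et L) hk.le
      calc L.sg * L.kp ^ 2 * L.sg ^ 3 = L.sg ^ 4 * (L.kp * L.kp) := by ring
        _ ≤ _ := mul_le_mul_of_nonneg_left h5 (by positivity)
    linarith
  have hcube : 0 ≤ EE L θ T n (fun x y ξ => (NN (prof (rl x y) T) (bt ξ) n 5 : ℝ) ^ 3) :=
    EE_nonneg L hθ fun x y ξ => by positivity
  have hes : L.et ≤ Real.sqrt L.et := by
    apply Real.le_sqrt_of_sq_le
    nlinarith
  calc _ ≤ _ := h1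
    _ ≤ 2 * (L.sg ^ 4 * (L.et * L.kp)) * EE L θ T n
        (fun x y ξ => (NN (prof (rl x y) T) (bt ξ) n 5 : ℝ) ^ 3) :=
      mul_le_mul_of_nonneg_right hsum hcube
    _ ≤ 2 * (L.sg ^ 4 * (L.et * L.kp)) * (C * L.Lam ^ 6 / L.sg ^ 3) :=
      mul_le_mul_of_nonneg_left h2 (by positivity)
    _ = (2 * C * L.sg * L.kp * L.Lam ^ 6) * L.et := by
      field_simp
    _ ≤ (2 * C * L.sg * L.kp * L.Lam ^ 6) * Real.sqrt L.et :=
      mul_le_mul_of_nonneg_left hes (by positivity)
    _ = _ := by ring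

end LCSH
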